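import Pool.Agent.Lib.MP_adc574_ag_OA.N_Defs

/-!
# Hypersurfaces of even dimension: forms on frames of a quadratic space

`ι` is the index set of a basis of the cohomology, `G` the matrix of `Δ ∇` in this basis, `S` a symmetric matrix, proportional to the inverse of the
Gram matrix of the pairing: the isotropy of a frame `U` of functionals (rows) is `U * S * Uᵀ = 0`. `S` depends on the parameter, it is flat up to a factor:
`Δ S' + G S + S Gᵀ = e S`. The elements `S (u wᵀ - w uᵀ)` generate the orthogonal Lie algebra `{Y | Y S + S Yᵀ = 0}`.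
-/

set_option autoImplicit false

namespace MPadcEO

open Polynomial Matrix MPadcGM MPadcOA

/-- The multi-indices of degree `m` in the entries of a frame of `g` vectors in `R ^ ι`. -/
abbrev Kq (g : ℕ) (ι : Type) (m : ℕ) := Fin m → Fin g × ι

/-- The value of the form `φ` at the frame `U`. -/
def evq {R : Type*} [CommRing R] {g : ℕ} {ι : Type} [Fintype ι] {m : ℕ} (U : Matrix (Fin g) ι R) (φ : Kq g ι m → R) : R :=
  ∑ s, φ s * ∏ i, U (s i).1 (s i).2

/-- The matrix of the action of `X` on the forms of degree `m`. -/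
def KSq {R : Type*} [CommRing R] {g : ℕ} {ι : Type} [DecidableEq ι] {m : ℕ} (X : Matrix ι ι R) : Matrix (Kq g ι m) (Kq g ι m) R :=
  fun s s' => ∑ i, if s' = Function.update s i ((s i).1, (s' i).2) then X (s i).2 (s' i).2 else 0

/-- The differential operator on the forms. -/
noncomputable def opq {R : Type*} [CommRing R] {g : ℕ} {ι : Type} [Fintype ι] [DecidableEq ι] {m : ℕ} (Δ : R[X])
    (G : Matrix ι ι R[X]) (φ : Kq g ι m → R[X]) : Kq g ι m → R[X] :=
  fun s => Δ * derivative (φ s) + (KSq G *ᵥ φ) s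

/-- The element `S (u wᵀ - w uᵀ)` of the orthogonal Lie algebra of `S`. -/
def wS {R : Type*} [CommRing R] {ι : Type} [Fintype ι] (S : Matrix ι ι R) (u w : ι → R) : Matrix ι ι R :=
  S * (vecMulVec u w - vecMulVec w u)

/-- Big monodromy: all saturated stable modules of forms on frames are stable under the orthogonal Lie algebra. -/
def BigO {F : Type} [Field F] {ι : Type} [Fintype ι] [DecidableEq ι] (Δ : F[X]) (G S : Matrix ι ι F[X]) : Prop :=
  ∀ (g m : ℕ) (W : Submodule F[X] (Kq g ι m → F[X])), (∀ d : F[X], d ≠ 0 → ∀ x : Kq g ι m → F[X], d • x ∈ W → x ∈ W) →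
    (∀ x ∈ W, opq Δ G x ∈ W) → ∀ (u w : ι → F), ∀ x ∈ W, KSq (wS S (fun l => C (u l)) (fun l => C (w l))) *ᵥ x ∈ W

/-- A matrix of polynomials over the ultraproduct at the place `n`. -/
noncomputable def mq {k : ℕ → Type} [∀ n, Field (k n)] {ι : Type} (G : Matrix ι ι (LL k)[X]) (n : ℕ) : Matrix ι ι (k n)[X] :=
  fun i j => rp (G i j) n

/-- A system in a quadratic space with an isotropic frame which is horizontal up to rows of smaller level. -/
structure FrO (g : ℕ) (ι : Type) (k : Type*) [Field k] where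
  /-- the discriminant -/
  Δ : k[X]
  /-- the matrix of the system -/
  G : Matrix ι ι k[X]
  /-- the quadratic form on the rows -/
  S : Matrix ι ι k[X]
  /-- the factor in the flatness of `S` -/
  e : k[X]
  /-- the frame -/
  U : Matrix (Fin g) ι k[X]
  /-- the derivatives of the rows -/
  nu : Matrix (Fin g) (Fin g) k[X]

/-- The properties of the system. -/
structure FrO.Ok {g : ℕ} {ι : Type} [Fintype ι] [DecidableEq ι] {k : Type*} [Field k] (D : FrO g ι k) (lv : Fin g → ℕ) (c : ℕ) :
    Prop where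
  ne : D.Δ ≠ 0
  degD : D.Δ.natDegree ≤ c
  degG : ∀ i j, (D.G i j).natDegree ≤ c
  degS : ∀ i j, (D.S i j).natDegree ≤ c
  dege : D.e.natDegree ≤ c
  symm : D.Sᵀ = D.S
  flat : D.Δ • D.S.map derivative + D.G * D.S + D.S * D.Gᵀ = D.e • D.S
  detS : ∀ α : k, D.Δ.eval α ≠ 0 → (D.S.map (eval α)).det ≠ 0
  horU : ∀ i l, D.Δ * derivative (D.U i l) = (D.U * D.G) i l + (D.nu * D.U) i l
  nuT : ∀ a b, ¬ lv b < lv a → D.nu a b = 0
  isoU : D.U * D.S * D.Uᵀ = 0
  rkU : ∀ α : k, D.Δ.eval α ≠ 0 → LinearIndependent k fun i l => (D.U i l).eval α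

end MPadcEO
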