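import Pool.Agent.Lib.MP_adc574_ag_BN.Cns

/-!
# E1: a stable subspace is the sum of its parts with exponents `0` and `β` (medium-)

PROOF of `lnE`. For `z : s → L` let `z₀ i = if i ∈ T then 0 else z i`, `z₁ i = if i ∈ T then z i else 0`, `z = z₀ + z₁`. `Z₁ = {z ∈ Z | ∀ i ∉ T, z i = 0}` is stable under `δ` (coordinatewise): for `z ∈ Z₁` the vector `δ z + β z` of `hZ` is in `Z`, subtract `β • z`. `P₀ = Z.map (z ↦ z₀)` is stable under `δ` (the `0`-part of the vector of `hZ` is `δ z₀`; `δ 0 = 0`). Claim: `P₀ ≤ Z`.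
By `con_span` (BN/Cns.lean; arguments `δ hδ P₀`) it is enough that a `v = z₀ ∈ P₀`, `z ∈ Z`, with `δ (v i) = 0` for all `i` is in `Z`; i.e. that `z₁ ∈ Z₁`. By `con_iff` for `Z₁` let `ψ` be constant, `∑ ψ i * x i = 0` for `x ∈ Z₁`. The vector of `hZ` for `z` has `0`-part `δ z₀ = 0`, so it is in `Z₁` and equals `δ z₁ + β z₁`; so with `y = ∑ ψ i * z₁ i` one has `δ y + β y = 0`
(`δ (ψ i * z₁ i) = ψ i * δ (z₁ i)`), so `y = 0` (`hβ`). So for `z ∈ Z`: `z₀ ∈ P₀ ≤ Z`, `z₁ = z - z₀ ∈ Z`.
PROOF of `lnE2`: `Z~ = Z.map (z ↦ (x i * z i)_i)` satisfies the hypothesis of `lnE`: `δ (x z) + [T] β x z = x (δ z + c z)` by `hx` (`δ (x i * z i) = x i * δ (z i) + z i * δ (x i)`). Conclude with `x i ≠ 0` (injectivity of `z ↦ x z`).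
-/

set_option autoImplicit false

namespace MPadcEO

open MPadcBN

private def E1_Z1 {L : Type*} [Field L] {s : Type*} (T : Finset s) (Z : Submodule L (s → L)) :
    Submodule L (s → L) where
  carrier := {z | z ∈ Z ∧ ∀ i, i ∉ T → z i = 0}
  add_mem' := by
    intro a b ha hb
    refine ⟨Z.add_mem ha.1 hb.1, fun i hi => ?_⟩
    rw [Pi.add_apply, ha.2 i hi, hb.2 i hi, add_zero]
  zero_mem' := ⟨Z.zero_mem, fun _ _ => rfl⟩
  smul_mem' := by
    intro c a ha
    refine ⟨Z.smul_mem c ha.1, fun i hi => ?_⟩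
    rw [Pi.smul_apply, ha.2 i hi, smul_zero]

private def E1_pi {L : Type*} [Field L] {s : Type*} [DecidableEq s] (T : Finset s) :
    (s → L) →ₗ[L] (s → L) where
  toFun z i := if i ∈ T then 0 else z i
  map_add' a b := by
    funext i
    show (if i ∈ T then 0 else (a + b) i) = (if i ∈ T then 0 else a i) + if i ∈ T then 0 else b i
    split_ifs
    · rw [add_zero]
    · rfl
  map_smul' c a := by
    funext i
    show (if i ∈ T then 0 else (c • a) i) = c • if i ∈ T then 0 else a i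
    split_ifs
    · rw [smul_zero]
    · rfl

private def E1_mu {L : Type*} [Field L] {s : Type*} (x : s → L) : (s → L) →ₗ[L] (s → L) where
  toFun z i := x i * z i
  map_add' a b := by
    funext i
    show x i * (a + b) i = x i * a i + x i * b i
    rw [Pi.add_apply, mul_add]
  map_smul' c a := by
    funext i
    show x i * (c • a) i = c * (x i * a i)
    rw [Pi.smul_apply, smul_eq_mul]
    ring

theorem lnE {L : Type*} [Field L] (δ : L →+ L) (hδ : ∀ a b, δ (a * b) = a * δ b + b * δ a) {s : Type*} [Fintype s]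
    [DecidableEq s] (β : L) (hβ0 : δ β = 0) (hβ : ∀ y, δ y + β * y = 0 → y = 0) (T : Finset s) (Z : Submodule L (s → L))
    (hZ : ∀ z ∈ Z, (fun i => δ (z i) + if i ∈ T then β * z i else 0) ∈ Z) :
    ∀ z ∈ Z, (fun i => if i ∈ T then z i else 0) ∈ Z := by
  have hδ0 : δ 0 = 0 := map_zero δ
  have hst : ∀ v ∈ Z.map (E1_pi T), (fun i => δ (v i)) ∈ Z.map (E1_pi T) := by
    rintro _ ⟨z, hz, rfl⟩
    refine ⟨_, hZ z hz, ?_⟩
    funext i
    show (if i ∈ T then 0 else δ (z i) + if i ∈ T then β * z i else 0) =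
      δ (if i ∈ T then 0 else z i)
    by_cases hi : i ∈ T
    · rw [if_pos hi, if_pos hi, hδ0]
    · rw [if_neg hi, if_neg hi, if_neg hi, add_zero]
  have hst1 : ∀ v ∈ E1_Z1 T Z, (fun i => δ (v i)) ∈ E1_Z1 T Z := by
    intro v hv
    refine ⟨?_, fun i hi => ?_⟩
    · have h1 := Z.sub_mem (hZ v hv.1) (Z.smul_mem β hv.1)
      have h2 : (fun i => δ (v i)) =
          (fun i => δ (v i) + if i ∈ T then β * v i else 0) - β • v := by
        funext i
        show δ (v i) = (δ (v i) + if i ∈ T then β * v i else 0) - β * v i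
        by_cases hi : i ∈ T
        · rw [if_pos hi, add_sub_cancel_right]
        · rw [if_neg hi, hv.2 i hi, mul_zero, add_zero, sub_zero]
      rw [h2]
      exact h1
    · show δ (v i) = 0
      rw [hv.2 i hi, hδ0]
  have hle : Z.map (E1_pi T) ≤ Z := by
    rw [con_span δ hδ _ hst, Submodule.span_le]
    rintro v ⟨⟨z, hz, hzv⟩, hv⟩
    have hv1 : ∀ i, i ∈ T → v i = 0 := fun i hi => by
      rw [← hzv]
      exact if_pos hi
    have hv2 : ∀ i, i ∉ T → v i = z i := fun i hi => by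
      rw [← hzv]
      exact if_neg hi
    have h1 : (fun i => δ (z i) + if i ∈ T then β * z i else 0) ∈ E1_Z1 T Z := by
      refine ⟨hZ z hz, fun i hi => ?_⟩
      show δ (z i) + (if i ∈ T then β * z i else 0) = 0
      rw [if_neg hi, add_zero, ← hv2 i hi]
      exact hv i
    have h2 : z - v ∈ E1_Z1 T Z := by
      rw [con_iff δ hδ _ hst1]
      intro ψ hψ hk
      have h3 := hk _ h1
      apply hβ
      rw [map_sum, Finset.mul_sum, ← Finset.sum_add_distrib, ← h3]
      refine Finset.sum_congr rfl fun i _ => ?_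
      rw [hδ, hψ i, mul_zero, add_zero]
      show ψ i * δ (z i - v i) + β * (ψ i * (z i - v i)) =
        ψ i * (δ (z i) + if i ∈ T then β * z i else 0)
      rw [map_sub, hv i, sub_zero]
      by_cases hi : i ∈ T
      · rw [if_pos hi, hv1 i hi]
        ring
      · rw [if_neg hi, hv2 i hi]
        ring
    have h4 := Z.sub_mem hz h2.1
    rw [sub_sub_cancel] at h4
    exact h4
  intro z hz
  have h5 := Z.sub_mem hz (hle ⟨z, hz, rfl⟩)
  have h6 : (fun i => if i ∈ T then z i else 0) = z - E1_pi T z := by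
    funext i
    show (if i ∈ T then z i else 0) = z i - if i ∈ T then 0 else z i
    by_cases hi : i ∈ T
    · rw [if_pos hi, if_pos hi, sub_zero]
    · rw [if_neg hi, if_neg hi, sub_self]
  rw [h6]
  exact h5

theorem lnE2 {L : Type*} [Field L] (δ : L →+ L) (hδ : ∀ a b, δ (a * b) = a * δ b + b * δ a) {s : Type*} [Fintype s]
    [DecidableEq s] (β : L) (hβ0 : δ β = 0) (hβ : ∀ y, δ y + β * y = 0 → y = 0) (T : Finset s) (c x : s → L)
    (hx0 : ∀ i, x i ≠ 0) (hx : ∀ i, c i * x i - δ (x i) = if i ∈ T then β * x i else 0) (Z : Submodule L (s → L))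
    (hZ : ∀ z ∈ Z, (fun i => δ (z i) + c i * z i) ∈ Z) : ∀ z ∈ Z, (fun i => if i ∈ T then z i else 0) ∈ Z := by
  intro z hz
  have h1 := lnE δ hδ β hβ0 hβ T (Z.map (E1_mu x)) (by
    rintro _ ⟨w, hw, rfl⟩
    refine ⟨_, hZ w hw, ?_⟩
    funext i
    show x i * (δ (w i) + c i * w i) = δ (x i * w i) + if i ∈ T then β * (x i * w i) else 0
    have h2 : (if i ∈ T then β * (x i * w i) else 0) = (c i * x i - δ (x i)) * w i := by
      rw [hx i]
      split_ifs
      · ring
      · ring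
    rw [h2, hδ]
    ring) (E1_mu x z) ⟨z, hz, rfl⟩
  obtain ⟨w, hw, hwz⟩ := h1
  have h2 : w = fun i => if i ∈ T then z i else 0 := by
    funext i
    have h3 : x i * w i = if i ∈ T then x i * z i else 0 := congrFun hwz i
    apply mul_left_cancel₀ (hx0 i)
    rw [h3]
    split_ifs
    · rfl
    · rw [mul_zero]
  rw [← h2]
  exact hw

end MPadcEO
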