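import Pool.Agent.Lib.MP_adc574_ag_BN.Flt
import Pool.Agent.Lib.MP_adc574_ag_LZ.LoB

/-!
# E2: the normal form of the connection at a node with exponent `α ≠ 0` (medium+)

`S : Lc (Fin n) κ` (LZ/LoB.lean), `S.Ok`: the connection `X d/dX + Γ`, `Γ(0) = a0 l0ᵀ`, the horizontal series `a` (`X a' = - Γ a + α a`) and `l` (`X l' = Γᵀ l - α l`), `l . a = α`.
PROOF. Choose `i₀` with `l0 i₀ ≠ 0`; `l i₀` is a unit of `κ⟦X⟧`, let `m` be its inverse. Let `Fm` be the matrix with the columns `f k = e_k - (l k * m) e_(i₀)` for `k ≠ i₀`, and `f i₀ = a`. `l . f k = 0` for `k ≠ i₀`, `l . f i₀ = C α`. `Fm` is invertible over `κ⟦X⟧`: explicit inverse: row `i₀` is `α⁻¹ lᵀ`, row `k ≠ i₀` is `e_kᵀ - α⁻¹ a k lᵀ` (check `Fm' * Fm = 1`: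
row `i₀` times `f k`; row `k` times `f k'` is `δ - (l k' m) [k = i₀] - 0 = δ`, row `k` times `a` is `a k - α⁻¹ a k α = 0`). `kerl` (LoB) for the columns `f k`, `k ≠ i₀`: `X z' k = X (f k)' + Γ f k`, `l . z' k = 0`; let `C' = Fm' * (z')` with the column `i₀` replaced by 0: `C'` has row `i₀` zero (`α⁻¹ l . z' = 0`) and column `i₀` zero, and
`X Fm' + Γ Fm = Fm * (X • C' + α E)`, `E` = the matrix with the only entry `1` at `(i₀, i₀)` (derivative of `Fm` on the left). `exists_flat C'` (BN/Flt) gives `W`, `W'` with `W W' = W' W = 1`, `derivative W = - C' W`, `W(0) = 1`. Row `i₀` of `W` is constant, so `e_(i₀)ᵀ`; the column `w` = column `i₀` of `W` satisfies `w' = - C' w`, `w(0) = e_(i₀)`, and so does `e_(i₀)`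
(column `i₀` of `C'` is 0), so they are equal: the difference `u` satisfies `u' = - C' u`, `u(0) = 0`, so `u = 0` (`derivative (W' u) = 0`; or by coefficients). Put `Y = Fm * W`, `Y' = W' * Fm'`. Then `X Y' + Γ Y = (X Fm' + Γ Fm) W - X Fm C' W = α Fm E W = α Fm E = α Y E`. Column `i₀` of `Y`: `Fm e_(i₀) = a`. `l Y = (l Fm) W = α e_(i₀)ᵀ W = α e_(i₀)ᵀ`.
-/

set_option autoImplicit false

namespace MPadcEO

open PowerSeries MPadcLZ MPadcBN

/-- a flat basis with the value `1` at `0` -/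
private theorem E2_flat {κ : Type*} [Field κ] [CharZero κ] {n : ℕ} (Γ : Matrix (Fin n) (Fin n) κ⟦X⟧) :
    ∃ W W' : Matrix (Fin n) (Fin n) κ⟦X⟧, W * W' = 1 ∧ W' * W = 1 ∧
      (∀ i k, derivative κ (W i k) = -∑ m, Γ i m * W m k) ∧
      ∀ i k, constantCoeff (W i k) = if i = k then 1 else 0 := by
  obtain ⟨Y, Y', h1, h2, h3⟩ := exists_flat Γ
  obtain ⟨A, hA⟩ : ∃ A : Matrix (Fin n) (Fin n) κ, A = Y.map (constantCoeff : κ⟦X⟧ →+* κ) := ⟨_, rfl⟩
  obtain ⟨A', hA'⟩ : ∃ A' : Matrix (Fin n) (Fin n) κ, A' = Y'.map (constantCoeff : κ⟦X⟧ →+* κ) := ⟨_, rfl⟩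
  have hAA : A * A' = 1 := by
    rw [hA, hA', ← Matrix.map_mul, h1, Matrix.map_one _ (map_zero _) (map_one _)]
  have hAA' : A' * A = 1 := mul_eq_one_comm.1 hAA
  have hC : (A.map (C : κ →+* κ⟦X⟧)) * (A'.map (C : κ →+* κ⟦X⟧)) = 1 := by
    rw [← Matrix.map_mul, hAA, Matrix.map_one _ (map_zero _) (map_one _)]
  have hC' : (A'.map (C : κ →+* κ⟦X⟧)) * (A.map (C : κ →+* κ⟦X⟧)) = 1 := mul_eq_one_comm.1 hC
  refine ⟨Y * A'.map (C : κ →+* κ⟦X⟧), A.map (C : κ →+* κ⟦X⟧) * Y', ?_, ?_, fun i k => ?_, fun i k => ?_⟩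
  · rw [Matrix.mul_assoc, ← Matrix.mul_assoc (A'.map _), hC', Matrix.one_mul, h1]
  · rw [Matrix.mul_assoc, ← Matrix.mul_assoc Y', h2, Matrix.one_mul, hC]
  · have e1 : ∀ j, derivative κ (Y i j * A'.map (C : κ →+* κ⟦X⟧) j k) =
        -∑ m, Γ i m * (Y m j * A'.map (C : κ →+* κ⟦X⟧) j k) := by
      intro j
      rw [Matrix.map_apply, mul_comm (Y i j), ← smul_eq_C_mul, Derivation.map_smul, h3 i j, smul_neg, Finset.smul_sum]
      congr 1
      refine Finset.sum_congr rfl fun m _ => ?_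
      rw [smul_eq_C_mul]
      ring
    rw [Matrix.mul_apply, map_sum, Finset.sum_congr rfl fun j _ => e1 j, Finset.sum_neg_distrib, Finset.sum_comm]
    congr 1
    refine Finset.sum_congr rfl fun m _ => ?_
    rw [Matrix.mul_apply, Finset.mul_sum]
  · rw [Matrix.mul_apply, map_sum]
    have e1 : ∀ j, constantCoeff (Y i j * A'.map (C : κ →+* κ⟦X⟧) j k) = A i j * A' j k := by
      intro j
      rw [map_mul, Matrix.map_apply, constantCoeff_C, hA, Matrix.map_apply]
    rw [Finset.sum_congr rfl fun j _ => e1 j, ← Matrix.mul_apply, hAA, Matrix.one_apply]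

/-- the sum over a Kronecker symbol -/
private theorem E2_sum {R : Type*} [CommRing R] {n : ℕ} (i₀ : Fin n) (c : R) (f : Fin n → R) :
    ∑ j, (if j = i₀ then c else 0) * f j = c * f i₀ := by
  rw [Finset.sum_eq_single i₀]
  · rw [if_pos rfl]
  · intro j _ hj
    rw [if_neg hj, zero_mul]
  · intro h
    exact absurd (Finset.mem_univ _) h

theorem exists_Y {κ : Type*} [Field κ] [CharZero κ] {n : ℕ} {S : Lc (Fin n) κ} (hS : S.Ok) (hα : S.α ≠ 0) :
    ∃ (i₀ : Fin n) (Y Y' : Matrix (Fin n) (Fin n) κ⟦X⟧), Y * Y' = 1 ∧ Y' * Y = 1 ∧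
      (∀ i k, X * derivative κ (Y i k) = -(∑ m, S.Γ i m * Y m k) + if k = i₀ then C S.α * Y i k else 0) ∧
      (∀ i, Y i i₀ = S.a i) ∧ ∀ k, ∑ i, S.l i * Y i k = if k = i₀ then C S.α else 0 := by
  classical
  obtain ⟨i₀, hi₀⟩ := hS.l0_ne
  obtain ⟨m, hm⟩ : ∃ m : κ⟦X⟧, S.l i₀ * m = 1 := by
    have h1 : IsUnit (S.l i₀) := by
      rw [isUnit_iff_constantCoeff, hS.hl0]
      exact isUnit_iff_ne_zero.2 hi₀
    exact h1.exists_right_inv
  have hCα : C S.α⁻¹ * C S.α = (1 : κ⟦X⟧) := by rw [← map_mul, inv_mul_cancel₀ hα, map_one]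
  -- the change of basis
  obtain ⟨Fm, hFm⟩ : ∃ Fm : Matrix (Fin n) (Fin n) κ⟦X⟧, ∀ i k, Fm i k =
      if k = i₀ then S.a i else (if i = k then 1 else 0) - if i = i₀ then S.l k * m else 0 := ⟨fun i k => _, fun i k => rfl⟩
  obtain ⟨Fp, hFp⟩ : ∃ Fp : Matrix (Fin n) (Fin n) κ⟦X⟧, ∀ k i, Fp k i =
      if k = i₀ then C S.α⁻¹ * S.l i else (if i = k then 1 else 0) - C S.α⁻¹ * S.a k * S.l i := ⟨fun i k => _, fun i k => rfl⟩
  have hF1 : ∀ k, ∑ i, S.l i * Fm i k = if k = i₀ then C S.α else 0 := by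
    intro k
    by_cases hk : k = i₀
    · rw [if_pos hk, ← hS.hla]
      refine Finset.sum_congr rfl fun i _ => ?_
      rw [hFm, if_pos hk]
    · rw [if_neg hk]
      have e1 : ∀ i, S.l i * Fm i k = (if i = k then (1 : κ⟦X⟧) else 0) * S.l i - (if i = i₀ then S.l k * m else 0) * S.l i := by
        intro i
        rw [hFm, if_neg hk]
        ring
      rw [Finset.sum_congr rfl fun i _ => e1 i, Finset.sum_sub_distrib, E2_sum, E2_sum, one_mul]
      linear_combination -S.l k * hm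
  have hFF : Fp * Fm = 1 := by
    ext1 k k'
    rw [Matrix.mul_apply, Matrix.one_apply]
    by_cases hk : k = i₀
    · have e1 : ∀ i, Fp k i * Fm i k' = C S.α⁻¹ * (S.l i * Fm i k') := by
        intro i
        rw [hFp, if_pos hk]
        ring
      rw [Finset.sum_congr rfl fun i _ => e1 i, ← Finset.mul_sum, hF1]
      by_cases hk' : k' = i₀
      · rw [if_pos hk', if_pos (hk.trans hk'.symm), hCα]
      · rw [if_neg hk', if_neg (fun h => hk' (h.symm.trans hk)), mul_zero]
    · have e1 : ∀ i, Fp k i * Fm i k' = (if i = k then (1 : κ⟦X⟧) else 0) * Fm i k' - C S.α⁻¹ * S.a k * (S.l i * Fm i k') := by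
        intro i
        rw [hFp, if_neg hk]
        ring
      rw [Finset.sum_congr rfl fun i _ => e1 i, Finset.sum_sub_distrib, E2_sum, one_mul, ← Finset.mul_sum, hF1, hFm]
      by_cases hk' : k' = i₀
      · rw [if_pos hk', if_pos hk', if_neg (fun h => hk (h.trans hk'))]
        linear_combination -S.a k * hCα
      · rw [if_neg hk', if_neg hk', if_neg hk, mul_zero, sub_zero, sub_zero]
  have hFF' : Fm * Fp = 1 := mul_eq_one_comm.1 hFF
  -- the connection matrix on the kernel of `l`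
  have hz : ∀ k, ∃ z : Fin n → κ⟦X⟧, (k = i₀ → ∀ i, z i = 0) ∧
      (k ≠ i₀ → ∀ i, X * z i = X * derivative κ (Fm i k) + ∑ m, S.Γ i m * Fm m k) ∧ ∑ i, S.l i * z i = 0 := by
    intro k
    by_cases hk : k = i₀
    · refine ⟨0, fun _ i => rfl, fun h => absurd hk h, Finset.sum_eq_zero fun i _ => mul_zero _⟩
    · obtain ⟨z, h1, h2⟩ := Lc.kerl hS (fun i => Fm i k) (by rw [hF1, if_neg hk])
      exact ⟨z, fun h => absurd h hk, fun _ => h1, h2⟩
  choose z hz1 hz2 hz3 using hz
  obtain ⟨Z, hZ⟩ : ∃ Z : Matrix (Fin n) (Fin n) κ⟦X⟧, ∀ i k, Z i k = z k i := ⟨fun i k => z k i, fun i k => rfl⟩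
  obtain ⟨G, hG⟩ : ∃ G : Matrix (Fin n) (Fin n) κ⟦X⟧, G = Fp * Z := ⟨_, rfl⟩
  have hG1 : ∀ k, G i₀ k = 0 := by
    intro k
    rw [hG, Matrix.mul_apply]
    have e1 : ∀ i, Fp i₀ i * Z i k = C S.α⁻¹ * (S.l i * z k i) := by
      intro i
      rw [hFp, if_pos rfl, hZ]
      ring
    rw [Finset.sum_congr rfl fun i _ => e1 i, ← Finset.mul_sum, hz3, mul_zero]
  have hG2 : ∀ i, G i i₀ = 0 := by
    intro i
    rw [hG, Matrix.mul_apply]
    refine Finset.sum_eq_zero fun j _ => ?_
    rw [hZ, hz1 i₀ rfl, mul_zero]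
  have hG3 : Fm * G = Z := by rw [hG, ← Matrix.mul_assoc, hFF', Matrix.one_mul]
  have hmain : ∀ i k, X * derivative κ (Fm i k) =
      X * (Fm * G) i k + (if k = i₀ then C S.α * Fm i k else 0) - ∑ m, S.Γ i m * Fm m k := by
    intro i k
    rw [hG3, hZ]
    by_cases hk : k = i₀
    · rw [if_pos hk, hz1 k hk, mul_zero, zero_add]
      have e1 : ∀ j, Fm j k = S.a j := fun j => by rw [hFm, if_pos hk]
      rw [e1, hS.ha i]
      simp only [e1]
      ring
    · rw [if_neg hk, hz2 k hk]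
      ring
  -- the flat basis
  obtain ⟨W, W', hW1, hW2, hW3, hW0⟩ := E2_flat G
  have hWr : ∀ k, W i₀ k = if k = i₀ then 1 else 0 := by
    intro k
    apply derivative.ext
    · rw [hW3, Finset.sum_eq_zero fun j _ => by rw [hG1, zero_mul], neg_zero]
      split_ifs
      · rw [derivative_one]
      · rw [map_zero]
    · rw [hW0]
      by_cases hk : k = i₀
      · rw [if_pos hk.symm, if_pos hk, map_one]
      · rw [if_neg (Ne.symm hk), if_neg hk, map_zero]
  have hWc : ∀ i, W i i₀ = if i = i₀ then 1 else 0 := by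
    have h1 : ∀ i, W i i₀ - (if i = i₀ then 1 else 0) = 0 := by
      refine uniq_vec (Matrix.of fun i j => -(X * G i j)) ?_ (fun i => W i i₀ - (if i = i₀ then 1 else 0)) ?_ ?_
      · intro r hr y hy i
        have h2 := hy i
        rw [Finset.sum_eq_zero] at h2
        · rcases mul_eq_zero.1 h2.symm with h3 | h3
          · exact absurd h3 (Nat.cast_ne_zero.2 (by omega))
          · exact h3
        · intro j _
          rw [Matrix.of_apply, map_neg, map_mul, constantCoeff_X, zero_mul, neg_zero, zero_mul]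
      · intro i
        have h2 : derivative κ (W i i₀ - if i = i₀ then 1 else 0) = derivative κ (W i i₀) := by
          rw [map_sub]
          by_cases hi : i = i₀
          · rw [if_pos hi, derivative_one, sub_zero]
          · rw [if_neg hi, map_zero, sub_zero]
        rw [h2, hW3, mul_neg, Finset.mul_sum, ← Finset.sum_neg_distrib]
        refine Finset.sum_congr rfl fun j _ => ?_
        rw [Matrix.of_apply]
        by_cases hj : j = i₀
        · rw [hj, hG2]
          ring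
        · rw [if_neg hj]
          ring
      · intro i
        rw [map_sub, hW0]
        split_ifs
        · rw [map_one, sub_self]
        · rw [map_zero, sub_self]
    intro i
    exact sub_eq_zero.1 (h1 i)
  refine ⟨i₀, Fm * W, W' * Fp, ?_, ?_, ?_, ?_, ?_⟩
  · rw [Matrix.mul_assoc, ← Matrix.mul_assoc W, hW1, Matrix.one_mul, hFF']
  · rw [Matrix.mul_assoc, ← Matrix.mul_assoc Fp, hFF, Matrix.one_mul, hW2]
  · intro i k
    have hYi : ∀ i, (Fm * W) i k = ∑ j, Fm i j * W j k := fun i => Matrix.mul_apply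
    have e1 : ∀ j, X * derivative κ (Fm i j * W j k) =
        (if j = i₀ then C S.α else 0) * (Fm i j * W j k) +
          (X * ((Fm * G) i j * W j k) - X * (Fm i j * ∑ r, G j r * W r k)) - ∑ r, S.Γ i r * (Fm r j * W j k) := by
      intro j
      rw [Derivation.leibniz, smul_eq_mul, smul_eq_mul, hW3]
      have e2 : X * (Fm i j * -∑ r, G j r * W r k + W j k * derivative κ (Fm i j)) =
          W j k * (X * derivative κ (Fm i j)) - X * (Fm i j * ∑ r, G j r * W r k) := by ring
      rw [e2, hmain i j]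
      have e3 : ∑ r, S.Γ i r * (Fm r j * W j k) = (∑ r, S.Γ i r * Fm r j) * W j k := by
        rw [Finset.sum_mul]
        exact Finset.sum_congr rfl fun r _ => by ring
      rw [e3]
      by_cases hj : j = i₀
      · rw [if_pos hj, if_pos hj]
        ring
      · rw [if_neg hj, if_neg hj]
        ring
    have e4 : ∑ j, (X * ((Fm * G) i j * W j k) - X * (Fm i j * ∑ r, G j r * W r k)) = 0 := by
      rw [Finset.sum_sub_distrib, ← Finset.mul_sum, ← Finset.mul_sum, ← mul_sub]
      have e5 : ∑ j, (Fm * G) i j * W j k = ∑ j, Fm i j * ∑ r, G j r * W r k := by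
        have e6 := congrFun (congrFun (Matrix.mul_assoc Fm G W) i) k
        rw [Matrix.mul_apply, Matrix.mul_apply] at e6
        rw [e6]
        refine Finset.sum_congr rfl fun j _ => ?_
        rw [Matrix.mul_apply]
      rw [e5, sub_self, mul_zero]
    rw [hYi i, map_sum, Finset.mul_sum, Finset.sum_congr rfl fun j _ => e1 j, Finset.sum_sub_distrib,
      Finset.sum_add_distrib, e4, add_zero, E2_sum, Finset.sum_comm, hWr]
    have e7 : ∀ r, ∑ j, S.Γ i r * (Fm r j * W j k) = S.Γ i r * (Fm * W) r k := by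
      intro r
      rw [hYi, Finset.mul_sum]
    rw [Finset.sum_congr rfl fun r _ => e7 r]
    by_cases hk : k = i₀
    · rw [if_pos hk, if_pos hk]
      have e8 : ∑ j, Fm i j * W j k = Fm i i₀ := by
        rw [hk]
        simp only [hWc]
        rw [Finset.sum_eq_single i₀]
        · rw [if_pos rfl, mul_one]
        · intro j _ hj
          rw [if_neg hj, mul_zero]
        · intro h
          exact absurd (Finset.mem_univ _) h
      rw [e8]
      ring
    · rw [if_neg hk, if_neg hk]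
      ring
  · intro i
    rw [Matrix.mul_apply]
    simp only [hWc]
    rw [Finset.sum_eq_single i₀]
    · rw [if_pos rfl, mul_one, hFm, if_pos rfl]
    · intro j _ hj
      rw [if_neg hj, mul_zero]
    · intro h
      exact absurd (Finset.mem_univ _) h
  · intro k
    have e1 : ∑ i, S.l i * (Fm * W) i k = ∑ j, (if j = i₀ then C S.α else 0) * W j k := by
      have e2 : ∀ i, S.l i * (Fm * W) i k = ∑ j, (S.l i * Fm i j) * W j k := by
        intro i
        rw [Matrix.mul_apply, Finset.mul_sum]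
        exact Finset.sum_congr rfl fun j _ => by ring
      rw [Finset.sum_congr rfl fun i _ => e2 i, Finset.sum_comm]
      refine Finset.sum_congr rfl fun j _ => ?_
      rw [← Finset.sum_mul, hF1]
    rw [e1, E2_sum, hWr]
    by_cases hk : k = i₀
    · rw [if_pos hk, if_pos hk, mul_one]
    · rw [if_neg hk, if_neg hk, mul_zero]

end MPadcEO
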