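import Pool.Agent.Lib.MP_adc574_ag_EO.E1
import Pool.Agent.Lib.MP_adc574_ag_EO.E2
import Pool.Agent.Lib.MP_adc574_ag_BN.SpM

/-!
# E3: horizontal spaces of matrices are stable under the reflection at a node (medium+)

`L = FractionRing κ⟦X⟧`, `j = algebraMap κ⟦X⟧ L`, `θ = j X * DX`. `R = 1 - (2 / α) a lᵀ`.
PROOF of `conj_stab`. `exists_Y` (E2): `Y`, `Y'`, `i₀` (over `κ⟦X⟧`, mapped to `L`). Put `Zc = {z | Y z Y' ∈ Z}` (`Submodule.comap` of the linear map `z ↦ Y z Y'` on `Fin n × Fin n → L`, matrices as functions of pairs). For `z ∈ Zc`: `θ Y = - Γ Y + α Y E` (`E` the matrix unit at `(i₀, i₀)`), `θ Y' = Y' Γ - α E Y'` (from `Y Y' = 1`), so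
`θ (Y z Y') + Γ (Y z Y') - (Y z Y') Γ = Y (θ z + α (E z - z E)) Y'`: so `Zc` is stable under `z (i, k) ↦ θ (z (i, k)) + c (i, k) * z (i, k)` with `c (i, k) = α ([i = i₀] - [k = i₀])`. `lnE2` (E1) with `T = {(i, k) | exactly one of i, k is i₀}`, `β = j (C α)`, `x (i, k) = 1` except `x (i, i₀) = (j X) ^ (2 w + 1)` for `i ≠ i₀`:
`c x - θ x = - α x - (2 w + 1) x = α x` as `2 α = - (2 w + 1)` (`θ ((j X) ^ N) = N (j X) ^ N`). `hβ`: `θ y + α y = 0` implies `y = 0`: if not, `pole` (LZ/LoA) for `σ = Unit`: either `y = j z` and `X z' = - α z`, coefficients: `(m + α) z_m = 0`, `m + α ≠ 0` (`2 (m + α) = 2 m - 2 w - 1` is odd); or `y = X ^ (- m) z`, `z(0) ≠ 0`, `pole_theta`: `X z' = m z - α z`, constant coefficient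
`(m - α) z(0) = 0`, `m - α ≠ 0`. So `z ∈ Zc` implies that `z_T` (the part with indices in `T`) is in `Zc`, and `z - 2 z_T = R₀ z R₀` with `R₀ = 1 - 2 E`. And `Y R₀ Y' = 1 - 2 Y E Y' = 1 - (2 / α) a lᵀ = R` (column `i₀` of `Y` is `a`; row `i₀` of `Y'` is `α⁻¹ l`: `l = l Y Y' = α (row i₀ of Y')`). So for `z ∈ Z`: `Y' z Y ∈ Zc`, `R z R = Y R₀ (Y' z Y) R₀ Y' ∈ Z`.
PROOF of `span_conn`: `Submodule.span_induction` on `spanL`: for `z = jt τ ∘ mt b X`, `X ∈ G`: `θ z + Γ z - z Γ = j X • (jt τ ∘ mt b X')` (`X' x = nab (X x) - X (nab x)`; `b.repr (X' (b k)) i = DK κ (b.repr (X (b k)) i) + ∑ m, b.repr (nab (b m)) i * b.repr (X (b k)) m - ∑ m, b.repr (X (b m)) i * b.repr (nab (b k)) m` by `repr_nab`, `repr_e` (LZ/LoE); `jt_DK`, `hΓ`); sums; multiples `c • z`: `θ (c z) = (θ c) z + c θ z`.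
-/

set_option autoImplicit false

namespace MPadcEO

open PowerSeries MPadcLZ MPadcBN MPadcHM

universe u

/-- A function on pairs as a matrix. -/
private def E3_mat {L : Type*} {n : ℕ} (z : Fin n × Fin n → L) : Matrix (Fin n) (Fin n) L :=
  Matrix.of fun i k => z (i, k)

private theorem E3_der {L : Type*} [Field L] (δ : L →+ L) (hδ : ∀ a b, δ (a * b) = a * δ b + b * δ a)
    {n : ℕ} (A B : Matrix (Fin n) (Fin n) L) :
    (A * B).map δ = A.map δ * B + A * B.map δ := by
  ext i k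
  rw [Matrix.map_apply, Matrix.mul_apply, map_sum, Matrix.add_apply, Matrix.mul_apply, Matrix.mul_apply,
    ← Finset.sum_add_distrib]
  refine Finset.sum_congr rfl fun m _ => ?_
  rw [hδ, Matrix.map_apply, Matrix.map_apply]
  ring

private theorem E3_core {L : Type*} [Field L] (δ : L →+ L) (hδ : ∀ a b, δ (a * b) = a * δ b + b * δ a)
    {n : ℕ} (i₀ : Fin n) (V V' Γ : Matrix (Fin n) (Fin n) L) (h1 : V * V' = 1) (h2 : V' * V = 1)
    (β : L) (hβ0 : δ β = 0) (hβ : ∀ y, δ y + β * y = 0 → y = 0)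
    (hdV : ∀ i k, δ (V i k) = -(∑ m, Γ i m * V m k) + if k = i₀ then β * V i k else 0)
    (u : L) (hu0 : u ≠ 0) (hu : -β * u - δ u = β * u) (Z : Submodule L (Fin n × Fin n → L))
    (hZ : ∀ z ∈ Z, (fun p : Fin n × Fin n => δ (z p) + ∑ m, Γ p.1 m * z (m, p.2) -
      ∑ m, z (p.1, m) * Γ m p.2) ∈ Z) :
    ∀ z ∈ Z, (fun p : Fin n × Fin n =>
      (V * Matrix.diagonal (fun i => if i = i₀ then (-1 : L) else 1) * V' * E3_mat z *
        (V * Matrix.diagonal (fun i => if i = i₀ then (-1 : L) else 1) * V')) p.1 p.2) ∈ Z := by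
  classical
  have hd1 : δ 1 = 0 := by
    have h3 := hδ 1 1
    rw [mul_one, one_mul] at h3
    linear_combination -h3
  obtain ⟨P, hP⟩ : ∃ P : Matrix (Fin n) (Fin n) L,
    P = Matrix.diagonal (fun k => if k = i₀ then β else 0) := ⟨_, rfl⟩
  obtain ⟨R₀, hR₀⟩ : ∃ R₀ : Matrix (Fin n) (Fin n) L,
    R₀ = Matrix.diagonal (fun i => if i = i₀ then (-1 : L) else 1) := ⟨_, rfl⟩
  rw [← hR₀]
  have hDV : V.map δ = -(Γ * V) + V * P := by
    ext i k
    rw [Matrix.map_apply, hdV, Matrix.add_apply, Matrix.neg_apply, Matrix.mul_apply, hP,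
      Matrix.mul_diagonal]
    split_ifs
    · ring
    · ring
  have hDV' : V'.map δ = V' * Γ - P * V' := by
    have h3 := E3_der δ hδ V V'
    rw [h1] at h3
    have h4 : (1 : Matrix (Fin n) (Fin n) L).map δ = 0 := by
      ext i k
      rw [Matrix.map_apply, Matrix.one_apply, Matrix.zero_apply]
      split_ifs
      · exact hd1
      · exact map_zero δ
    rw [h4, hDV] at h3
    have h5 : V * V'.map δ = Γ - V * P * V' := by
      have h6 : V * V'.map δ = -((-(Γ * V) + V * P) * V') := by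
        rw [eq_neg_iff_add_eq_zero, add_comm]
        exact h3.symm
      rw [h6, add_mul, neg_mul, Matrix.mul_assoc Γ, h1, Matrix.mul_one]
      abel
    calc V'.map δ = (V' * V) * V'.map δ := by rw [h2, Matrix.one_mul]
      _ = V' * (V * V'.map δ) := Matrix.mul_assoc _ _ _
      _ = V' * (Γ - V * P * V') := by rw [h5]
      _ = V' * Γ - (V' * V) * P * V' := by noncomm_ring
      _ = V' * Γ - P * V' := by rw [h2, Matrix.one_mul]
  obtain ⟨Φ, hΦ⟩ : ∃ Φ : (Fin n × Fin n → L) →ₗ[L] (Fin n × Fin n → L),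
      ∀ z, Φ z = fun p : Fin n × Fin n => (V * E3_mat z * V') p.1 p.2 := by
    refine ⟨{ toFun := fun z => fun p : Fin n × Fin n => (V * E3_mat z * V') p.1 p.2
              map_add' := fun z w => ?_
              map_smul' := fun c z => ?_ }, fun z => rfl⟩
    · have h3 : E3_mat (z + w) = E3_mat z + E3_mat w := rfl
      funext p
      rw [h3, Matrix.mul_add, Matrix.add_mul]
      rfl
    · have h3 : E3_mat (c • z) = c • E3_mat z := rfl
      funext p
      rw [h3, Matrix.mul_smul, Matrix.smul_mul]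
      rfl
  obtain ⟨c, hc⟩ : ∃ c : Fin n × Fin n → L, ∀ p, c p = (if p.1 = i₀ then β else 0) -
    (if p.2 = i₀ then β else 0) := ⟨_, fun _ => rfl⟩
  have hZc : ∀ z ∈ Z.comap Φ, (fun p => δ (z p) + c p * z p) ∈ Z.comap Φ := by
    intro z hz
    rw [Submodule.mem_comap, hΦ] at hz ⊢
    have h3 := hZ _ hz
    have h4 : E3_mat (fun p => δ (z p) + c p * z p) = (E3_mat z).map δ + P * E3_mat z - E3_mat z * P := by
      ext i k
      rw [Matrix.sub_apply, Matrix.add_apply, hP, Matrix.mul_diagonal, Matrix.diagonal_mul]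
      show δ (z (i, k)) + c (i, k) * z (i, k) = δ (z (i, k)) + _ * z (i, k) - z (i, k) * _
      rw [hc]
      ring
    have h5 : (V * E3_mat z * V').map δ + Γ * (V * E3_mat z * V') - V * E3_mat z * V' * Γ =
        V * ((E3_mat z).map δ + P * E3_mat z - E3_mat z * P) * V' := by
      rw [E3_der δ hδ, E3_der δ hδ, hDV, hDV']
      noncomm_ring
    rw [h4, ← h5]
    exact h3
  have hln := lnE2 δ hδ β hβ0 hβ
    (Finset.univ.filter fun p : Fin n × Fin n => ¬ ((p.1 = i₀) ↔ (p.2 = i₀))) c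
    (fun p => if p.2 = i₀ ∧ p.1 ≠ i₀ then u else 1)
    (fun p => by
      show (if p.2 = i₀ ∧ p.1 ≠ i₀ then u else 1) ≠ 0
      split_ifs
      · exact hu0
      · exact one_ne_zero)
    (fun p => by
      show c p * (if p.2 = i₀ ∧ p.1 ≠ i₀ then u else 1) - δ (if p.2 = i₀ ∧ p.1 ≠ i₀ then u else 1) =
        if p ∈ _ then β * (if p.2 = i₀ ∧ p.1 ≠ i₀ then u else 1) else 0
      rw [hc]
      simp only [Finset.mem_filter, Finset.mem_univ, true_and]
      by_cases e1 : p.1 = i₀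
      · by_cases e2 : p.2 = i₀
        · simp [e1, e2, hd1]
        · simp [e1, e2, hd1]
      · by_cases e2 : p.2 = i₀
        · simpa [e1, e2] using hu
        · simp [e1, e2, hd1]) (Z.comap Φ) hZc
  intro z hz
  obtain ⟨z1, hz1⟩ : ∃ z1 : Fin n × Fin n → L, z1 = fun p => (V' * E3_mat z * V) p.1 p.2 := ⟨_, rfl⟩
  have hm1 : E3_mat z1 = V' * E3_mat z * V := by
    rw [hz1]
    rfl
  have hz1m : z1 ∈ Z.comap Φ := by
    rw [Submodule.mem_comap, hΦ, hm1]
    have h3 : V * (V' * E3_mat z * V) * V' = E3_mat z := by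
      calc V * (V' * E3_mat z * V) * V' = (V * V') * E3_mat z * (V * V') := by noncomm_ring
        _ = E3_mat z := by rw [h1, Matrix.one_mul, Matrix.mul_one]
    rw [h3]
    exact hz
  have hz2 := hln z1 hz1m
  have hz3 := (Z.comap Φ).sub_mem hz1m ((Z.comap Φ).smul_mem (2 : L) hz2)
  rw [Submodule.mem_comap, hΦ] at hz3
  have h6 : E3_mat (z1 - (2 : L) • fun p => if p ∈ Finset.univ.filter (fun p : Fin n × Fin n =>
      ¬ ((p.1 = i₀) ↔ (p.2 = i₀))) then z1 p else 0) = R₀ * (V' * E3_mat z * V) * R₀ := by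
    rw [← hm1]
    ext i k
    rw [hR₀, Matrix.mul_diagonal, Matrix.diagonal_mul]
    show z1 (i, k) - 2 * (if (i, k) ∈ _ then z1 (i, k) else 0) = _ * z1 (i, k) * _
    simp only [Finset.mem_filter, Finset.mem_univ, true_and]
    by_cases e1 : i = i₀
    · by_cases e2 : k = i₀
      · simp [e1, e2]
      · simp [e1, e2]
        ring
    · by_cases e2 : k = i₀
      · simp [e1, e2]
        ring
      · simp [e1, e2]
  rw [h6] at hz3
  have h7 : V * (R₀ * (V' * E3_mat z * V) * R₀) * V' = V * R₀ * V' * E3_mat z * (V * R₀ * V') := by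
    noncomm_ring
  rw [h7] at hz3
  exact hz3

private theorem E3_repr_nab {κ : Type u} [Field κ] {Mo : Type u} [AddCommGroup Mo]
    [Module (RatFunc κ) Mo] {nab : Mo →+ Mo} {r : ℕ}
    (leib : ∀ (c : RatFunc κ) (x : Mo), nab (c • x) = DK κ c • x + c • nab x)
    (b : Module.Basis (Fin r) (RatFunc κ) Mo) (x : Mo) (i : Fin r) :
    b.repr (nab x) i = DK κ (b.repr x i) + ∑ k, b.repr (nab (b k)) i * b.repr x k := by
  have h1 : nab x = ∑ k, (DK κ (b.repr x k) • b k + b.repr x k • nab (b k)) := by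
    have h2 : nab x = nab (∑ k, b.repr x k • b k) := by rw [b.sum_repr]
    rw [h2, map_sum]
    exact Finset.sum_congr rfl fun k _ => leib _ _
  rw [h1, Finset.sum_add_distrib, map_add, Finsupp.add_apply, b.repr_sum_self]
  congr 1
  rw [map_sum, Finset.sum_apply']
  refine Finset.sum_congr rfl fun k _ => ?_
  rw [map_smul, Finsupp.smul_apply, smul_eq_mul, mul_comm]

private theorem E3_repr_e {κ : Type u} [Field κ] {Mo : Type u} [AddCommGroup Mo]
    [Module (RatFunc κ) Mo] {r : ℕ} (b : Module.Basis (Fin r) (RatFunc κ) Mo)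
    (e : Mo →ₗ[RatFunc κ] Mo) (x : Mo)
    (i : Fin r) : b.repr (e x) i = ∑ k, b.repr (e (b k)) i * b.repr x k := by
  have h1 : e x = ∑ k, b.repr x k • e (b k) := by
    have h2 : e x = e (∑ k, b.repr x k • b k) := by rw [b.sum_repr]
    rw [h2, map_sum]
    exact Finset.sum_congr rfl fun k _ => map_smul _ _ _
  rw [h1, map_sum, Finset.sum_apply']
  refine Finset.sum_congr rfl fun k _ => ?_
  rw [map_smul, Finsupp.smul_apply, smul_eq_mul, mul_comm]

private theorem E3_beta {κ : Type*} [Field κ] [CharZero κ] {L : Type*} [Field L] [Algebra κ⟦X⟧ L]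
    [IsFractionRing κ⟦X⟧ L] {DX : L →+ L} (hDX : IsDL κ DX) {α : κ} (hal : AlOk α) (hα : α ≠ 0) (y : L)
    (hy : algebraMap κ⟦X⟧ L X * DX y + algebraMap κ⟦X⟧ L (C α) * y = 0) : y = 0 := by
  have hinj : Function.Injective (algebraMap κ⟦X⟧ L) := IsFractionRing.injective κ⟦X⟧ L
  rcases pole (F := κ) (fun _ : Unit => y) with ⟨z, hz⟩ | ⟨m, z, hm, hz, i, hi⟩
  · have hz0 : y = algebraMap κ⟦X⟧ L (z ()) := hz ()
    rw [hz0, hDX.alg, ← map_mul, ← map_mul, ← map_add] at hy
    have h1 : X * derivative κ (z ()) + C α * z () = 0 := hinj (hy.trans (map_zero _).symm)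
    have h2 : z () = 0 := by
      ext m
      rw [map_zero]
      have h3 := congrArg (coeff m) h1
      rw [map_add, coeff_C_mul, map_zero] at h3
      rcases m with _ | m
      · rw [coeff_zero_X_mul, zero_add] at h3
        exact (mul_eq_zero.1 h3).resolve_left hα
      · rw [coeff_succ_X_mul, coeff_derivative] at h3
        have h4 : (((m + 1 : ℕ) : κ) + α) * coeff (m + 1) (z ()) = 0 := by
          push_cast
          linear_combination h3
        exact (mul_eq_zero.1 h4).resolve_left (hal.add_ne (by omega))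
    rw [hz0, h2, map_zero]
  · exfalso
    have h1 := pole_theta hDX m y (z ()) (hz ())
    have h2 : algebraMap κ⟦X⟧ L X * DX y = -(algebraMap κ⟦X⟧ L (C α) * y) := by
      linear_combination hy
    rw [h2] at h1
    have h3 : algebraMap κ⟦X⟧ L (X * derivative κ (z ())) =
        algebraMap κ⟦X⟧ L ((m : κ⟦X⟧) * z () - C α * z ()) := by
      rw [h1, map_sub, map_mul, map_mul, map_natCast, ← hz ()]
      ring
    have h4 := congrArg constantCoeff (hinj h3)
    rw [map_mul, constantCoeff_X, zero_mul, map_sub, map_mul, map_mul, map_natCast, constantCoeff_C] at h4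
    have h5 : ((m : κ) - α) * constantCoeff (z ()) = 0 := by linear_combination -h4
    exact hi ((mul_eq_zero.1 h5).resolve_left (hal.sub_ne hm))

theorem conj_stab {κ : Type u} [Field κ] [CharZero κ] {n : ℕ} {S : Lc (Fin n) κ} (hS : S.Ok) (w : ℕ)
    (hw : 2 * S.α = -(2 * (w : κ) + 1)) {DX : FractionRing κ⟦X⟧ →+ FractionRing κ⟦X⟧} (hDX : IsDL κ DX)
    (Z : Submodule (FractionRing κ⟦X⟧) (Fin n × Fin n → FractionRing κ⟦X⟧))
    (hZ : ∀ z ∈ Z, (fun p : Fin n × Fin n => algebraMap κ⟦X⟧ (FractionRing κ⟦X⟧) X * DX (z p) +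
      ∑ m, algebraMap κ⟦X⟧ (FractionRing κ⟦X⟧) (S.Γ p.1 m) * z (m, p.2) -
        ∑ m, z (p.1, m) * algebraMap κ⟦X⟧ (FractionRing κ⟦X⟧) (S.Γ m p.2)) ∈ Z)
    (R : Fin n → Fin n → FractionRing κ⟦X⟧)
    (hR : ∀ i k, R i k = (if i = k then 1 else 0) -
      algebraMap κ⟦X⟧ (FractionRing κ⟦X⟧) (C (2 / S.α) * (S.a i * S.l k))) :
    ∀ z ∈ Z, (fun p : Fin n × Fin n => ∑ i, ∑ k, R p.1 i * z (i, k) * R k p.2) ∈ Z := by
  classical
  have hα : S.α ≠ 0 := by
    intro h0
    rw [h0, mul_zero] at hw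
    have h2 : ((2 * w + 1 : ℕ) : κ) = 0 := by
      push_cast
      linear_combination hw
    rw [Nat.cast_eq_zero] at h2
    omega
  obtain ⟨i₀, Y, Y', hY1, hY2, hdY, hYa, hlY⟩ := exists_Y hS hα
  obtain ⟨j, hj⟩ : ∃ j : κ⟦X⟧ →+* FractionRing κ⟦X⟧, j = algebraMap κ⟦X⟧ (FractionRing κ⟦X⟧) := ⟨_, rfl⟩
  have hinj : Function.Injective j := by
    rw [hj]
    exact IsFractionRing.injective κ⟦X⟧ (FractionRing κ⟦X⟧)
  have halg : ∀ s : κ⟦X⟧, DX (j s) = j (derivative κ s) := by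
    intro s
    rw [hj]
    exact hDX.alg s
  obtain ⟨δ, hδe⟩ : ∃ δ : FractionRing κ⟦X⟧ →+ FractionRing κ⟦X⟧, ∀ a, δ a = j X * DX a :=
    ⟨(AddMonoidHom.mulLeft (j X)).comp DX, fun a => rfl⟩
  have hδ : ∀ a b, δ (a * b) = a * δ b + b * δ a := by
    intro a b
    rw [hδe, hδe, hδe, hDX.leib]
    ring
  have hβ0 : δ (j (C S.α)) = 0 := by
    rw [hδe, halg, derivative_C, map_zero, mul_zero]
  have hβ : ∀ y, δ y + j (C S.α) * y = 0 → y = 0 := by
    intro y hy
    rw [hδe, hj] at hy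
    exact E3_beta hDX hS.al hα y hy
  have hX0 : j X ≠ 0 := by
    intro h0
    exact X_ne_zero (hinj (h0.trans (map_zero _).symm))
  have hpow : ∀ N : ℕ, δ (j X ^ N) = (N : FractionRing κ⟦X⟧) * j X ^ N := by
    intro N
    induction N with
    | zero =>
      rw [pow_zero, Nat.cast_zero, zero_mul]
      have h3 := hδ 1 1
      rw [mul_one, one_mul] at h3
      linear_combination -h3
    | succ N ih =>
      rw [pow_succ, hδ, ih, hδe, halg, derivative_X, map_one]
      push_cast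
      ring
  have h2a : 2 * j (C S.α) = -(2 * (w : FractionRing κ⟦X⟧) + 1) := by
    have h3 : (2 : κ⟦X⟧) * C S.α = -(2 * (w : κ⟦X⟧) + 1) := by
      have h4 := congrArg (C : κ → κ⟦X⟧) hw
      rw [map_mul, map_neg, map_add, map_mul, map_one, map_ofNat, map_natCast] at h4
      exact h4
    have h5 := congrArg j h3
    rw [map_mul, map_neg, map_add, map_mul, map_one, map_ofNat, map_natCast] at h5
    exact h5
  have hV1 : Y.map j * Y'.map j = 1 := by
    rw [← Matrix.map_mul, hY1, Matrix.map_one j (map_zero j) (map_one j)]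
  have hV2 : Y'.map j * Y.map j = 1 := by
    rw [← Matrix.map_mul, hY2, Matrix.map_one j (map_zero j) (map_one j)]
  have hdV : ∀ i k, δ ((Y.map j) i k) = -(∑ m, (S.Γ.map j) i m * (Y.map j) m k) +
      if k = i₀ then j (C S.α) * (Y.map j) i k else 0 := by
    intro i k
    have h3 := congrArg j (hdY i k)
    rw [map_mul, map_add, map_neg, map_sum] at h3
    rw [Matrix.map_apply, hδe, halg, h3]
    congr 1
    · exact congrArg _ (Finset.sum_congr rfl fun m _ => map_mul j _ _)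
    · split_ifs
      · exact map_mul j _ _
      · exact map_zero j
  have hcore := E3_core δ hδ i₀ (Y.map j) (Y'.map j) (S.Γ.map j) hV1 hV2 (j (C S.α)) hβ0 hβ hdV
    (j X ^ (2 * w + 1)) (pow_ne_zero _ hX0) (by
      rw [hpow]
      push_cast
      linear_combination -(j X ^ (2 * w + 1)) * h2a) Z (by
      intro z hz
      have h3 := hZ z hz
      rw [← hj] at h3
      have h4 : (fun p : Fin n × Fin n => δ (z p) + ∑ m, (S.Γ.map j) p.1 m * z (m, p.2) -
          ∑ m, z (p.1, m) * (S.Γ.map j) m p.2) =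
          fun p : Fin n × Fin n => j X * DX (z p) + ∑ m, j (S.Γ p.1 m) * z (m, p.2) -
            ∑ m, z (p.1, m) * j (S.Γ m p.2) := by
        funext p
        rw [hδe]
        rfl
      rw [h4]
      exact h3)
  have hjα : j (C S.α) ≠ 0 := by
    intro h0
    have h3 : C S.α = 0 := hinj (h0.trans (map_zero _).symm)
    exact hα (by
      have h4 := congrArg constantCoeff h3
      rwa [constantCoeff_C, map_zero] at h4)
  have hV'l : ∀ k, j (C S.α) * (Y'.map j) i₀ k = j (S.l k) := by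
    intro k
    have h3 : S.l k = ∑ m, S.l m * (Y * Y') m k := by
      rw [hY1, Finset.sum_eq_single k]
      · rw [Matrix.one_apply_eq, mul_one]
      · intro m _ hm
        rw [Matrix.one_apply_ne hm, mul_zero]
      · intro h
        exact absurd (Finset.mem_univ k) h
    have h4 : ∑ m, S.l m * (Y * Y') m k = ∑ q, (∑ m, S.l m * Y m q) * Y' q k := by
      simp only [Matrix.mul_apply, Finset.mul_sum, Finset.sum_mul]
      rw [Finset.sum_comm]
      refine Finset.sum_congr rfl fun q _ => Finset.sum_congr rfl fun m _ => ?_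
      ring
    have h5 : ∑ q, (∑ m, S.l m * Y m q) * Y' q k = C S.α * Y' i₀ k := by
      rw [Finset.sum_eq_single i₀]
      · rw [hlY, if_pos rfl]
      · intro q _ hq
        rw [hlY, if_neg hq, zero_mul]
      · intro h
        exact absurd (Finset.mem_univ i₀) h
    rw [Matrix.map_apply, ← map_mul, ← h5, ← h4, ← h3]
  have hRm : Matrix.of R = Y.map j * Matrix.diagonal (fun i => if i = i₀ then (-1 : FractionRing κ⟦X⟧) else 1) *
      Y'.map j := by
    have h3 : Matrix.diagonal (fun i => if i = i₀ then (-1 : FractionRing κ⟦X⟧) else 1) =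
        1 - (2 : FractionRing κ⟦X⟧) • Matrix.diagonal (fun i => if i = i₀ then (1 : FractionRing κ⟦X⟧) else 0) := by
      ext i k
      rw [Matrix.sub_apply, Matrix.smul_apply, Matrix.diagonal_apply, Matrix.diagonal_apply, Matrix.one_apply]
      by_cases e1 : i = k
      · rw [if_pos e1, if_pos e1, if_pos e1]
        by_cases e2 : i = i₀
        · rw [if_pos e2, if_pos e2, smul_eq_mul]
          ring
        · rw [if_neg e2, if_neg e2, smul_zero, sub_zero]
      · rw [if_neg e1, if_neg e1, if_neg e1, smul_zero, sub_zero]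
    rw [h3, Matrix.mul_sub, Matrix.mul_one, Matrix.sub_mul, hV1, Matrix.mul_smul, Matrix.smul_mul]
    ext i k
    rw [Matrix.of_apply, hR, Matrix.sub_apply, Matrix.one_apply, Matrix.smul_apply, Matrix.mul_apply,
      Finset.sum_eq_single i₀]
    · rw [Matrix.mul_diagonal, if_pos rfl, mul_one, Matrix.map_apply, hYa, smul_eq_mul]
      congr 1
      have h4 : j (C (2 / S.α)) * j (C S.α) = 2 := by
        rw [← map_mul, ← map_mul, div_mul_cancel₀ _ hα, map_ofNat, map_ofNat]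
      rw [← hj, map_mul, map_mul, ← hV'l k]
      linear_combination (j (S.a i) * (Y'.map j) i₀ k) * h4
    · intro m _ hm
      rw [Matrix.mul_diagonal, if_neg hm, mul_zero, zero_mul]
    · intro h
      exact absurd (Finset.mem_univ i₀) h
  intro z hz
  have h3 := hcore z hz
  rw [← hRm] at h3
  have h4 : (fun p : Fin n × Fin n => ∑ i, ∑ k, R p.1 i * z (i, k) * R k p.2) =
      fun p : Fin n × Fin n => (Matrix.of R * E3_mat z * Matrix.of R) p.1 p.2 := by
    funext p
    rw [Matrix.mul_apply]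
    simp only [Matrix.mul_apply, Finset.sum_mul]
    rw [Finset.sum_comm]
    rfl
  rw [h4]
  exact h3

variable {κ : Type u} [Field κ] [CharZero κ] {Mo : Type u} [AddCommGroup Mo]
  [Module (RatFunc κ) Mo] {nab : Mo →+ Mo} {n : ℕ}

theorem span_conn (leib : ∀ (c : RatFunc κ) (x : Mo), nab (c • x) = DK κ c • x + c • nab x)
    (b : Module.Basis (Fin n) (RatFunc κ) Mo) (τ : κ) (Γ : Matrix (Fin n) (Fin n) κ⟦X⟧)
    (hΓ : ∀ i k, algebraMap κ⟦X⟧ (FractionRing κ⟦X⟧) X * jt τ (b.repr (nab (b k)) i) =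
      algebraMap κ⟦X⟧ (FractionRing κ⟦X⟧) (Γ i k))
    {DX : FractionRing κ⟦X⟧ →+ FractionRing κ⟦X⟧} (hDX : IsDL κ DX)
    (G : Submodule (RatFunc κ) (Module.End (RatFunc κ) Mo))
    (hG : ∀ X ∈ G, ∃ X' ∈ G, ∀ x, X' x = nab (X x) - X (nab x)) :
    ∀ z ∈ spanL (jt τ) (G.map (mt b)),
      (fun p : Fin n × Fin n => algebraMap κ⟦X⟧ (FractionRing κ⟦X⟧) X * DX (z p) +
        ∑ m, algebraMap κ⟦X⟧ (FractionRing κ⟦X⟧) (Γ p.1 m) * z (m, p.2) -
          ∑ m, z (p.1, m) * algebraMap κ⟦X⟧ (FractionRing κ⟦X⟧) (Γ m p.2)) ∈ spanL (jt τ) (G.map (mt b)) := by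
  classical
  intro z hz
  unfold spanL at hz
  induction hz using Submodule.span_induction with
  | mem v hv =>
    obtain ⟨x, ⟨T, hT, rfl⟩, rfl⟩ := hv
    obtain ⟨T', hT', hT2⟩ := hG T hT
    have h1 : (fun p : Fin n × Fin n => algebraMap κ⟦X⟧ (FractionRing κ⟦X⟧) X * DX (jt τ (mt b T p)) +
        ∑ m, algebraMap κ⟦X⟧ (FractionRing κ⟦X⟧) (Γ p.1 m) * jt τ (mt b T (m, p.2)) -
          ∑ m, jt τ (mt b T (p.1, m)) * algebraMap κ⟦X⟧ (FractionRing κ⟦X⟧) (Γ m p.2)) =
        algebraMap κ⟦X⟧ (FractionRing κ⟦X⟧) X • fun p => jt τ (mt b T' p) := by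
      funext p
      obtain ⟨i, k⟩ := p
      have e1 : mt b T' (i, k) = DK κ (mt b T (i, k)) + ∑ m, b.repr (nab (b m)) i * mt b T (m, k) -
          ∑ m, mt b T (i, m) * b.repr (nab (b k)) m := by
        show b.repr (T' (b k)) i = _
        rw [hT2, map_sub, Finsupp.sub_apply, E3_repr_nab leib, E3_repr_e b T (nab (b k))]
        rfl
      show _ = algebraMap κ⟦X⟧ (FractionRing κ⟦X⟧) X * jt τ (mt b T' (i, k))
      rw [e1, map_sub, map_add, map_sum, map_sum, jt_DK hDX, mul_sub, mul_add, Finset.mul_sum,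
        Finset.mul_sum]
      congr 1
      · congr 1
        refine Finset.sum_congr rfl fun m _ => ?_
        rw [map_mul, ← mul_assoc, hΓ]
      · refine Finset.sum_congr rfl fun m _ => ?_
        rw [map_mul, ← hΓ]
        ring
    show (fun p : Fin n × Fin n => algebraMap κ⟦X⟧ (FractionRing κ⟦X⟧) X * DX (jt τ (mt b T p)) +
        ∑ m, algebraMap κ⟦X⟧ (FractionRing κ⟦X⟧) (Γ p.1 m) * jt τ (mt b T (m, p.2)) -
          ∑ m, jt τ (mt b T (p.1, m)) * algebraMap κ⟦X⟧ (FractionRing κ⟦X⟧) (Γ m p.2)) ∈ _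
    rw [h1]
    exact Submodule.smul_mem _ _ (Submodule.subset_span ⟨_, ⟨T', hT', rfl⟩, rfl⟩)
  | zero =>
    have h1 : (fun p : Fin n × Fin n => algebraMap κ⟦X⟧ (FractionRing κ⟦X⟧) X *
        DX ((0 : Fin n × Fin n → FractionRing κ⟦X⟧) p) +
        ∑ m, algebraMap κ⟦X⟧ (FractionRing κ⟦X⟧) (Γ p.1 m) * (0 : Fin n × Fin n → FractionRing κ⟦X⟧) (m, p.2) -
          ∑ m, (0 : Fin n × Fin n → FractionRing κ⟦X⟧) (p.1, m) *
            algebraMap κ⟦X⟧ (FractionRing κ⟦X⟧) (Γ m p.2)) = 0 := by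
      funext p
      simp
    rw [h1]
    exact Submodule.zero_mem _
  | add v w _ _ hv hw =>
    have h2 := Submodule.add_mem _ hv hw
    refine (congrArg (fun x => x ∈ spanL (jt τ) (G.map (mt b))) ?_).mp h2
    funext p
    simp only [Pi.add_apply, map_add, mul_add, add_mul, Finset.sum_add_distrib]
    ring
  | smul c v hv' hv =>
    have h2 := Submodule.add_mem _ (Submodule.smul_mem _ c hv)
      (Submodule.smul_mem _ (algebraMap κ⟦X⟧ (FractionRing κ⟦X⟧) X * DX c) hv')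
    refine (congrArg (fun x => x ∈ spanL (jt τ) (G.map (mt b))) ?_).mp h2
    funext p
    simp only [Pi.add_apply, Pi.smul_apply, smul_eq_mul, hDX.leib, mul_sub, mul_add, Finset.mul_sum]
    have e1 : ∀ m, c * (algebraMap κ⟦X⟧ (FractionRing κ⟦X⟧) (Γ p.1 m) * v (m, p.2)) =
        algebraMap κ⟦X⟧ (FractionRing κ⟦X⟧) (Γ p.1 m) * (c * v (m, p.2)) := fun m => by ring
    have e2 : ∀ m, c * (v (p.1, m) * algebraMap κ⟦X⟧ (FractionRing κ⟦X⟧) (Γ m p.2)) =
        c * v (p.1, m) * algebraMap κ⟦X⟧ (FractionRing κ⟦X⟧) (Γ m p.2) := fun m => by ring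
    simp only [e1, e2]
    ring

end MPadcEO
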