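import Pool.Agent.Lib.MP_adc574_ag_LZ.LoC
import Pool.Agent.Lib.MP_adc574_ag_LZ.LoC2

/-!
# E4: the form at a node (medium-)

PROOF of `Ba_l`. `L = FractionRing`, `j = algebraMap`. Let `y i = ∑ k, B i k * j (a k)`. From `hB` and `hS.ha` (`X a' = - Γ a + α a`): `j X * DL (y i) = ∑ m, j (Γ m i) * y m + j (C α) * y i`. Put `z i = (j X) ^ (2 w + 1) * y i`: `j X * DL (z i) = (2 w + 1) z i + ∑ m, j (Γ m i) z m + α z i = ∑ m, j (Γ m i) * z m - α z i` (`2 α = - (2 w + 1)`): the equation of `l`.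
`z` is integral: otherwise (`pole` for `σ = Fin n` and `pole_theta`, LZ/LoA; model `flat_h` in LoB) `z = X ^ (- m) Z`, `m ≥ 1`, `Z(0) ≠ 0`, `X Z' = m Z + Γᵀ Z - α Z`; constant coefficients: `0 = (m - α) Z(0) + (a0 . Z(0)) l0`, so `Z(0) = t l0` (`m ≠ α` as `2 α` is an odd integer), and `(m - α) t + t α = m t = 0` (`a0 . l0 = α`), so `t = 0`: contradiction. So `z = j Z`, and its
constant coefficients satisfy `α Z(0) = (a0 . Z(0)) l0`, so `Z(0) = c l0` (`α ≠ 0`); by `uniq_l` (LoB) `Z = C c * l`. So `y i = ρ * j (l i)` with `ρ = j (C c) / (j X) ^ (2 w + 1)`. `ρ ≠ 0`: otherwise `B.mulVec (j a) = 0` with `a ≠ 0`, but `B.det ≠ 0`.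
(Or use `flat_Bw` (LoC2): `X ^ (2 w + 1) B = X ^ (2 w + 1) B1 + c l lᵀ`, and show `B1 a = 0` in the same way.)
PROOF of `al_ne`: if `α = 0`, `flat_B0` (LoC) gives `B = j B1`, `∑ k, B1 i k * a k = C c * l i`, `c ≠ 0`. Constant coefficients of `hB` (as in the proof of `flat_B0`: `l0 i * (∑ j, a0 j * B1(0) j k) + (∑ j, B1(0) i j * a0 j) * l0 k = 0`), symmetric: `∑ j, a0 j * B1(0) j k = ∑ j, B1(0) k j * a0 j = c l0 k`: `2 c l0 i l0 k = 0` for all `i k`; contradiction.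
-/

set_option autoImplicit false

namespace MPadcEO

open PowerSeries MPadcLZ

variable {ι : Type} [Fintype ι] [DecidableEq ι] {F : Type*} [Field F] [CharZero F]
  {L : Type*} [Field L] [Algebra F⟦X⟧ L] [IsFractionRing F⟦X⟧ L]

omit [DecidableEq ι] [CharZero F] [IsFractionRing F⟦X⟧ L] [Fintype ι] in
private theorem E4_pow {DL : L →+ L} (hDL : IsDL F DL) (n : ℕ) :
    algebraMap F⟦X⟧ L X * DL (algebraMap F⟦X⟧ L X ^ n) = (n : L) * algebraMap F⟦X⟧ L X ^ n := by
  have h1 : DL (algebraMap F⟦X⟧ L X) = 1 := by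
    rw [hDL.alg, derivative_X, map_one]
  induction n with
  | zero =>
    have h2 : DL (1 : L) = 0 := by
      have h3 := hDL.alg (1 : F⟦X⟧)
      rw [map_one, Derivation.map_one_eq_zero, map_zero] at h3
      exact h3
    rw [pow_zero, h2, Nat.cast_zero]
    ring
  | succ n ih =>
    rw [pow_succ, hDL.leib, h1, Nat.cast_succ]
    linear_combination algebraMap F⟦X⟧ L X * ih

private theorem E4_lsol {S : Lc ι F} (hS : S.Ok) (hα : S.α ≠ 0) {DL : L →+ L}
    (hDL : IsDL F DL) (z : ι → L) (hz : ∀ i, algebraMap F⟦X⟧ L X * DL (z i) =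
      (∑ m, algebraMap F⟦X⟧ L (S.Γ m i) * z m) - algebraMap F⟦X⟧ L (C S.α) * z i) :
    ∃ c : F, ∀ i, z i = algebraMap F⟦X⟧ L (C c * S.l i) := by
  have hinj := IsFractionRing.injective F⟦X⟧ L
  rcases pole (F := F) z with ⟨Z, hZ⟩ | ⟨m, Z, hm, hZ, i0, hi0⟩
  · have h1 : ∀ i, X * derivative F (Z i) = (∑ m, S.Γ m i * Z m) - C S.α * Z i := by
      intro i
      apply hinj
      have e := hz i
      rw [hZ i, hDL.alg] at e
      rw [map_mul, e, map_sub, map_sum, map_mul]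
      congr 1
      refine Finset.sum_congr rfl fun m _ => ?_
      rw [map_mul, hZ m]
    have h2 : ∀ i, S.α * constantCoeff (Z i) =
        (∑ m, S.a0 m * constantCoeff (Z m)) * S.l0 i := by
      intro i
      have e := congrArg (constantCoeff (R := F)) (h1 i)
      rw [map_mul, constantCoeff_X, zero_mul, map_sub, map_sum, map_mul, constantCoeff_C] at e
      have e2 : ∀ m, constantCoeff (S.Γ m i * Z m) =
          S.a0 m * constantCoeff (Z m) * S.l0 i := by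
        intro m
        rw [map_mul, hS.res]
        ring
      rw [Finset.sum_congr rfl fun m _ => e2 m, ← Finset.sum_mul] at e
      linear_combination e
    refine ⟨(∑ m, S.a0 m * constantCoeff (Z m)) / S.α, fun i => ?_⟩
    rw [hZ i]
    congr 1
    refine Lc.uniq_l hS Z h1 _ (fun k => ?_) i
    rw [div_mul_eq_mul_div, eq_div_iff hα, mul_comm, h2 k]
  · exfalso
    apply hi0
    refine la_l' hS.al S.a0 S.l0 hS.tr hm (fun i => constantCoeff (Z i)) (fun i => ?_) i0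
    have e := pole_theta hDL m (z i) (Z i) (hZ i)
    have e1 : X * derivative F (Z i) =
        C (m : F) * Z i + ((∑ k, S.Γ k i * Z k) - C S.α * Z i) := by
      apply hinj
      rw [e, hz i, map_add, map_mul, map_natCast, map_natCast, mul_sub, Finset.mul_sum, map_sub,
        map_sum, map_mul]
      congr 2
      · refine Finset.sum_congr rfl fun k _ => ?_
        rw [map_mul, ← hZ k]
        ring
      · rw [← hZ i]
        ring
    have e2 := congrArg (constantCoeff (R := F)) e1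
    rw [map_mul, constantCoeff_X, zero_mul, map_add, map_mul, map_sub, map_sum, map_mul,
      constantCoeff_C, constantCoeff_C] at e2
    have e3 : ∀ k, constantCoeff (S.Γ k i * Z k) =
        S.l0 i * (S.a0 k * constantCoeff (Z k)) := by
      intro k
      rw [map_mul, hS.res]
      ring
    rw [Finset.sum_congr rfl fun k _ => e3 k, ← Finset.mul_sum] at e2
    exact e2.symm

private theorem E4_Ba {S : Lc ι F} (hS : S.Ok) {DL : L →+ L} (hDL : IsDL F DL) (w : ℕ)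
    (hα : 2 * S.α = -(2 * (w : F) + 1)) (hα0 : S.α ≠ 0) (B : Matrix ι ι L)
    (hB : ∀ i k, algebraMap F⟦X⟧ L X * DL (B i k) =
      (∑ m, algebraMap _ L (S.Γ m i) * B m k) + ∑ m, B i m * algebraMap _ L (S.Γ m k)) :
    ∃ c : F, ∀ i, algebraMap F⟦X⟧ L X ^ (2 * w + 1) * ∑ k, B i k * algebraMap F⟦X⟧ L (S.a k) =
      algebraMap F⟦X⟧ L (C c * S.l i) := by
  refine E4_lsol hS hα0 hDL (fun i => algebraMap F⟦X⟧ L X ^ (2 * w + 1) *
    ∑ k, B i k * algebraMap F⟦X⟧ L (S.a k)) (fun i => ?_)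
  have hαL : (2 * (w : L) + 1) = -(2 * algebraMap F⟦X⟧ L (C S.α)) := by
    have e : (2 * (w : F⟦X⟧) + 1) = -(2 * C S.α) := by
      have e1 := congrArg (C (R := F)) hα
      simp only [map_mul, map_neg, map_add, map_one, map_natCast, map_ofNat] at e1
      linear_combination e1
    have e2 := congrArg (algebraMap F⟦X⟧ L) e
    simp only [map_mul, map_neg, map_add, map_one, map_natCast, map_ofNat] at e2
    exact e2
  have hθa : ∀ k, algebraMap F⟦X⟧ L X * DL (algebraMap F⟦X⟧ L (S.a k)) =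
      -(∑ m, algebraMap F⟦X⟧ L (S.Γ k m) * algebraMap F⟦X⟧ L (S.a m)) +
        algebraMap F⟦X⟧ L (C S.α) * algebraMap F⟦X⟧ L (S.a k) := by
    intro k
    rw [hDL.alg, ← map_mul, hS.ha k]
    simp only [map_add, map_neg, map_sum, map_mul]
  have hθs : algebraMap F⟦X⟧ L X * DL (∑ k, B i k * algebraMap F⟦X⟧ L (S.a k)) =
      (∑ m, algebraMap F⟦X⟧ L (S.Γ m i) * ∑ k, B m k * algebraMap F⟦X⟧ L (S.a k)) +
        algebraMap F⟦X⟧ L (C S.α) * ∑ k, B i k * algebraMap F⟦X⟧ L (S.a k) := by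
    rw [map_sum, Finset.mul_sum]
    have e1 : ∀ k, algebraMap F⟦X⟧ L X * DL (B i k * algebraMap F⟦X⟧ L (S.a k)) =
        ((∑ m, algebraMap F⟦X⟧ L (S.Γ m i) * (B m k * algebraMap F⟦X⟧ L (S.a k))) +
          algebraMap F⟦X⟧ L (C S.α) * (B i k * algebraMap F⟦X⟧ L (S.a k))) +
        ((∑ m, B i m * algebraMap F⟦X⟧ L (S.Γ m k) * algebraMap F⟦X⟧ L (S.a k)) -
          ∑ m, B i k * algebraMap F⟦X⟧ L (S.Γ k m) * algebraMap F⟦X⟧ L (S.a m)) := by
      intro k
      have e2 : (∑ m, algebraMap F⟦X⟧ L (S.Γ m i) * (B m k * algebraMap F⟦X⟧ L (S.a k))) =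
          (∑ m, algebraMap F⟦X⟧ L (S.Γ m i) * B m k) * algebraMap F⟦X⟧ L (S.a k) := by
        rw [Finset.sum_mul]
        refine Finset.sum_congr rfl fun m _ => ?_
        ring
      have e3 : (∑ m, B i m * algebraMap F⟦X⟧ L (S.Γ m k) * algebraMap F⟦X⟧ L (S.a k)) =
          (∑ m, B i m * algebraMap F⟦X⟧ L (S.Γ m k)) * algebraMap F⟦X⟧ L (S.a k) := by
        rw [Finset.sum_mul]
      have e4 : (∑ m, B i k * algebraMap F⟦X⟧ L (S.Γ k m) * algebraMap F⟦X⟧ L (S.a m)) =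
          B i k * ∑ m, algebraMap F⟦X⟧ L (S.Γ k m) * algebraMap F⟦X⟧ L (S.a m) := by
        rw [Finset.mul_sum]
        refine Finset.sum_congr rfl fun m _ => ?_
        ring
      rw [hDL.leib, e2, e3, e4]
      linear_combination B i k * hθa k + algebraMap F⟦X⟧ L (S.a k) * hB i k
    rw [Finset.sum_congr rfl fun k _ => e1 k, Finset.sum_add_distrib, Finset.sum_add_distrib,
      Finset.sum_sub_distrib]
    have e5 : ∑ k, ∑ m, B i m * algebraMap F⟦X⟧ L (S.Γ m k) * algebraMap F⟦X⟧ L (S.a k) =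
        ∑ k, ∑ m, B i k * algebraMap F⟦X⟧ L (S.Γ k m) * algebraMap F⟦X⟧ L (S.a m) :=
      Finset.sum_comm
    rw [e5, sub_self, add_zero, Finset.sum_comm, ← Finset.mul_sum]
    congr 1
    refine Finset.sum_congr rfl fun m _ => ?_
    rw [Finset.mul_sum]
  have hp := E4_pow hDL (2 * w + 1)
  have e6 : (∑ m, algebraMap F⟦X⟧ L (S.Γ m i) * (algebraMap F⟦X⟧ L X ^ (2 * w + 1) *
      ∑ k, B m k * algebraMap F⟦X⟧ L (S.a k))) = algebraMap F⟦X⟧ L X ^ (2 * w + 1) *
        ∑ m, algebraMap F⟦X⟧ L (S.Γ m i) * ∑ k, B m k * algebraMap F⟦X⟧ L (S.a k) := by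
    rw [Finset.mul_sum]
    refine Finset.sum_congr rfl fun m _ => ?_
    ring
  rw [e6, hDL.leib]
  push_cast at hp
  linear_combination algebraMap F⟦X⟧ L X ^ (2 * w + 1) * hθs +
    (∑ k, B i k * algebraMap F⟦X⟧ L (S.a k)) * hp +
    (algebraMap F⟦X⟧ L X ^ (2 * w + 1) * ∑ k, B i k * algebraMap F⟦X⟧ L (S.a k)) * hαL

theorem Ba_l {S : Lc ι F} (hS : S.Ok) {DL : L →+ L} (hDL : IsDL F DL) (w : ℕ)
    (hw : 2 * S.α = -(2 * (w : F) + 1)) (B : Matrix ι ι L)
    (hB : ∀ i k, algebraMap F⟦X⟧ L X * DL (B i k) =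
      (∑ m, algebraMap _ L (S.Γ m i) * B m k) + ∑ m, B i m * algebraMap _ L (S.Γ m k))
    (hdet : B.det ≠ 0) :
    ∃ ρ : L, ρ ≠ 0 ∧ ∀ i, ∑ k, B i k * algebraMap F⟦X⟧ L (S.a k) = ρ * algebraMap F⟦X⟧ L (S.l i) := by
  have hinj := IsFractionRing.injective F⟦X⟧ L
  have hα0 : S.α ≠ 0 := by
    intro h
    rw [h, mul_zero] at hw
    have h1 : ((2 * w + 1 : ℕ) : F) = 0 := by
      push_cast
      linear_combination hw
    exact absurd (Nat.cast_eq_zero.1 h1) (by omega)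
  have hjX : algebraMap F⟦X⟧ L X ≠ 0 := by
    intro h
    exact X_ne_zero ((map_eq_zero_iff _ hinj).1 h)
  have hjXp : algebraMap F⟦X⟧ L X ^ (2 * w + 1) ≠ 0 := pow_ne_zero _ hjX
  obtain ⟨c, hc⟩ := E4_Ba hS hDL w hw hα0 B hB
  have hfin : ∀ i, ∑ k, B i k * algebraMap F⟦X⟧ L (S.a k) =
      algebraMap F⟦X⟧ L (C c) / algebraMap F⟦X⟧ L X ^ (2 * w + 1) * algebraMap F⟦X⟧ L (S.l i) := by
    intro i
    rw [div_mul_eq_mul_div, eq_div_iff hjXp, ← map_mul, ← hc i, mul_comm]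
  refine ⟨algebraMap F⟦X⟧ L (C c) / algebraMap F⟦X⟧ L X ^ (2 * w + 1), ?_, hfin⟩
  intro h0
  apply hdet
  rw [← Matrix.exists_mulVec_eq_zero_iff]
  refine ⟨fun k => algebraMap F⟦X⟧ L (S.a k), ?_, ?_⟩
  · intro h
    obtain ⟨i₀, hi₀⟩ := hS.a0_ne
    apply hi₀
    have h1 := congrFun h i₀
    have h2 : S.a i₀ = 0 := hinj (by rw [map_zero]; exact h1)
    rw [← hS.ha0, h2, map_zero]
  · funext i
    show ∑ k, B i k * algebraMap F⟦X⟧ L (S.a k) = 0
    rw [hfin i, h0, zero_mul]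

theorem al_ne {S : Lc ι F} (hS : S.Ok) {DL : L →+ L} (hDL : IsDL F DL) (B : Matrix ι ι L)
    (hB : ∀ i k, algebraMap F⟦X⟧ L X * DL (B i k) =
      (∑ m, algebraMap _ L (S.Γ m i) * B m k) + ∑ m, B i m * algebraMap _ L (S.Γ m k))
    (hsym : ∀ i k, B i k = B k i) (hdet : B.det ≠ 0) : S.α ≠ 0 := by
  intro hα
  have hinj : Function.Injective (algebraMap F⟦X⟧ L) := IsFractionRing.injective F⟦X⟧ L
  obtain ⟨B1, c, hc, hB1, hl⟩ := Lc.flat_B0 hS hDL hα B hB hdet
  have heq : ∀ i k, X * derivative F (B1 i k) =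
      (∑ m, S.Γ m i * B1 m k) + ∑ m, B1 i m * S.Γ m k := by
    intro i k
    apply hinj
    have h1 := hB i k
    rw [hB1 i k, hDL.alg, ← map_mul] at h1
    rw [h1, map_add, map_sum, map_sum]
    congr 1
    · exact Finset.sum_congr rfl fun m _ => by rw [map_mul, hB1 m k]
    · exact Finset.sum_congr rfl fun m _ => by rw [map_mul, hB1 i m]
  have hc0 : ∀ i k, S.l0 i * (∑ j, S.a0 j * constantCoeff (B1 j k)) +
      (∑ j, constantCoeff (B1 i j) * S.a0 j) * S.l0 k = 0 := by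
    intro i k
    have h1 := congrArg constantCoeff (heq i k)
    rw [map_mul, constantCoeff_X, zero_mul, map_add, map_sum, map_sum] at h1
    have h2 : ∀ m, constantCoeff (B1 i m * S.Γ m k) =
        (constantCoeff (B1 i m) * S.a0 m) * S.l0 k := by
      intro m
      rw [map_mul, hS.res]
      ring
    have h3 : ∀ m, constantCoeff (S.Γ m i * B1 m k) =
        S.l0 i * (S.a0 m * constantCoeff (B1 m k)) := by
      intro m
      rw [map_mul, hS.res]
      ring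
    rw [Finset.sum_congr rfl fun m _ => h2 m, Finset.sum_congr rfl fun m _ => h3 m,
      ← Finset.sum_mul, ← Finset.mul_sum] at h1
    exact h1.symm
  have hl0 : ∀ i, ∑ j, constantCoeff (B1 i j) * S.a0 j = c * S.l0 i := by
    intro i
    have h1 := congrArg constantCoeff (hl i)
    rw [map_sum, map_mul, constantCoeff_C, hS.hl0] at h1
    rw [← h1]
    exact Finset.sum_congr rfl fun k _ => by rw [map_mul, hS.ha0]
  have hs1 : ∀ i k, B1 i k = B1 k i := by
    intro i k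
    apply hinj
    rw [← hB1, ← hB1, hsym]
  have hl0' : ∀ k, ∑ j, S.a0 j * constantCoeff (B1 j k) = c * S.l0 k := by
    intro k
    rw [← hl0 k]
    exact Finset.sum_congr rfl fun j _ => by rw [hs1 j k, mul_comm]
  obtain ⟨i₀, hi₀⟩ := hS.l0_ne
  have h1 := hc0 i₀ i₀
  rw [hl0', hl0] at h1
  have h2 : (2 : F) * (c * (S.l0 i₀ * S.l0 i₀)) = 0 := by linear_combination h1
  exact mul_ne_zero two_ne_zero (mul_ne_zero hc (mul_ne_zero hi₀ hi₀)) h2

end MPadcEO
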