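import Pool.Agent.Lib.MP_adc574_ag_EO.E4
import Pool.Agent.Lib.MP_adc574_ag_BN.BigL

/-!
# E5: the local data of the lattice for a symmetric form (medium-, copy of `MPadcBN.bl_loc`, BN/BigL.lean)

The proof of `bl_loc` until `rcases hL.al`; here the case `α = 0` is excluded by `al_ne` (E4) (the matrix `jt τ (B (b i) (b k))`, `hBD` and `hdet` as in `bl_loc`).
-/

set_option autoImplicit false

namespace MPadcEO

open MvPolynomial MPadcLZ MPadcHM MPadcBM MPadcBN

universe u

/-- The local condition at a node for a symmetric form. -/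
def LocE {κ : Type u} [Field κ] {Mo : Type u} [AddCommGroup Mo] [Module (RatFunc κ) Mo] {n : ℕ}
    (b : Module.Basis (Fin n) (RatFunc κ) Mo) (nab : Mo →+ Mo) (τ : κ) (S : Lc (Fin n) κ) : Prop :=
  S.Ok ∧ (∃ w : ℕ, 2 * S.α = -(2 * (w : κ) + 1)) ∧
    ∀ i k, algebraMap (PowerSeries κ) (FractionRing (PowerSeries κ)) PowerSeries.X *
      jt τ (b.repr (nab (b k)) i) =
        algebraMap (PowerSeries κ) (FractionRing (PowerSeries κ)) (S.Γ i k)

variable {κ : Type u} [Field κ] [CharZero κ] {N : ℕ} (S : PDat κ N) {Mo : Type u}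
  [AddCommGroup Mo] [Module (RatFunc κ) Mo] [Module (Polynomial κ) Mo]
  [IsScalarTower (Polynomial κ) (RatFunc κ) Mo] {nab : Mo →+ Mo}
  {br : MvPolynomial (Fin N) (RatFunc κ) →ₗ[RatFunc κ] Mo}
  {B : Mo →ₗ[RatFunc κ] Mo →ₗ[RatFunc κ] RatFunc κ}
  {rho : MvPolynomial (Fin N) (RatFunc κ) →ₗ[RatFunc κ] RatFunc κ}

theorem bl_locE (hS : S.Ok) (hG : IsHG S nab br) {k : ℕ} {E : Submodule (Polynomial κ) Mo} {u : Mo}
    {al : κ} (hK : Pk S nab br k E u al) (hP : IsPP S nab br B rho)
    (hsym : ∀ x y, B y x = B x y) {n : ℕ} (b : Module.Basis (Fin n) (RatFunc κ) Mo)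
    (hb : LB E b) (τ : κ) :
    StabAt nab E τ ∨ ∃ L : Lc (Fin n) κ, LocE b nab τ L := by
  classical
  rcases pk_tau S hS hK τ with h | ⟨h0, h1, hu, hst⟩
  · exact Or.inl h
  · right
    obtain ⟨Γ, a0, l0, hΓ, hres, ha0, hl0, htr⟩ := node_data hG.leib hb hK.ld h0 h1 hu hst
    obtain ⟨L, hL, hLΓ, -, hLl, hLα⟩ := exists_Lc Γ a0 l0 al (alOk_of hK.al1 hK.al2) htr ha0 hl0 hres
    have hΓL : ∀ i k, algebraMap (PowerSeries κ) (FractionRing (PowerSeries κ)) PowerSeries.X *
        jt τ (b.repr (nab (b k)) i) =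
          algebraMap (PowerSeries κ) (FractionRing (PowerSeries κ)) (L.Γ i k) := by
      rw [hLΓ]
      exact hΓ
    refine ⟨L, hL, ?_, hΓL⟩
    rcases hL.al with h | h
    swap
    · exact h
    exfalso
    obtain ⟨DX, hDX⟩ := exists_DX κ
    have hdet : (Matrix.of fun i k => jt τ (B (b i) (b k))).det ≠ 0 := by
      have h1 : (Matrix.of fun i k => jt τ (B (b i) (b k))) =
          (jt τ).mapMatrix (Matrix.of fun i k => B (b i) (b k)) := by
        ext i k
        rfl
      rw [h1, ← RingHom.map_det, Ne, map_eq_zero_iff _ (jt τ).injective]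
      exact gram_det b B fun x hx => nd_left S hS hG hP x hx
    have hBD : ∀ i k, algebraMap (PowerSeries κ) (FractionRing (PowerSeries κ)) PowerSeries.X *
        DX ((Matrix.of fun i k => jt τ (B (b i) (b k))) i k) =
        (∑ m, algebraMap _ _ (L.Γ m i) * (Matrix.of fun i k => jt τ (B (b i) (b k))) m k) +
          ∑ m, (Matrix.of fun i k => jt τ (B (b i) (b k))) i m * algebraMap _ _ (L.Γ m k) := by
      intro i k
      have h1 : DX ((Matrix.of fun i k => jt τ (B (b i) (b k))) i k) =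
          jt τ (DK κ (B (b i) (b k))) := jt_DK hDX τ _
      rw [h1, coord_B b B hP.flat, map_add, map_sum, map_sum, mul_add, Finset.mul_sum,
        Finset.mul_sum]
      congr 1
      · refine Finset.sum_congr rfl fun m _ => ?_
        rw [map_mul, ← mul_assoc, hΓL]
        rfl
      · refine Finset.sum_congr rfl fun m _ => ?_
        rw [map_mul, mul_left_comm, hΓL]
        rfl
    refine al_ne hL hDX _ hBD (fun i k => ?_) hdet h
    show jt τ (B (b i) (b k)) = jt τ (B (b k) (b i))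
    rw [hsym]

end MPadcEO
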