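import Mathlib

/-!
# O1: the elements `x ∧ y` of the orthogonal Lie algebra; the reflection (easy)

`wd B x y z = B z y • x - B z x • y`. All statements are computations (`ext z`, `simp [wd_apply]`, `module` / `abel` / `linear_combination (exp := 1)`), see the model `sq`, `br_sq` in MP_adc574_ag_BN/Lie.lean.
* `br_wd`: `B (X z) y = - B z (X y)`.
* `refl_wd`: `c = 2 / B v v`. `R z = z - (c * B z v) • v`. `B (X v) v = 0` (`hX v v` and symmetry give `2 * B (X v) v = 0`), `B (X z) v = - B z (X v)`. `R (X (R z)) = X z - c B z v • X v - c B (X z) v • v + c^2 B z v B (X v) v • v`, so `X z - R (X (R z)) = c (B z v • X v - B z (X v) • v)`.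
* `wd_conj`: from `refl_wd` (`c ≠ 0`): `wd B (X v) v = c⁻¹ • (X - R * X * R) ∈ g`.
-/

set_option autoImplicit false

namespace MPadcEO

variable {L : Type*} [Field L] {V : Type*} [AddCommGroup V] [Module L V]

/-- The element `z ↦ B z y • x - B z x • y` of the orthogonal Lie algebra. -/
def wd (B : V →ₗ[L] V →ₗ[L] L) (x y : V) : Module.End L V :=
  (B.flip y).smulRight x - (B.flip x).smulRight y

theorem wd_apply (B : V →ₗ[L] V →ₗ[L] L) (x y z : V) : wd B x y z = B z y • x - B z x • y := by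
  rfl

theorem wd_anti (B : V →ₗ[L] V →ₗ[L] L) (x y : V) : wd B x y = - wd B y x := by
  refine LinearMap.ext fun z => ?_
  rw [LinearMap.neg_apply, wd_apply, wd_apply, neg_sub]

theorem wd_self (B : V →ₗ[L] V →ₗ[L] L) (x : V) : wd B x x = 0 := by
  refine LinearMap.ext fun z => ?_
  rw [wd_apply, sub_self, LinearMap.zero_apply]

theorem wd_add_left (B : V →ₗ[L] V →ₗ[L] L) (x x' y : V) : wd B (x + x') y = wd B x y + wd B x' y := by
  refine LinearMap.ext fun z => ?_
  rw [LinearMap.add_apply, wd_apply, wd_apply, wd_apply, map_add, smul_add, add_smul]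
  abel

theorem wd_smul_left (B : V →ₗ[L] V →ₗ[L] L) (c : L) (x y : V) : wd B (c • x) y = c • wd B x y := by
  refine LinearMap.ext fun z => ?_
  rw [LinearMap.smul_apply, wd_apply, wd_apply, map_smul, smul_eq_mul]
  module

theorem wd_add_right (B : V →ₗ[L] V →ₗ[L] L) (x y y' : V) : wd B x (y + y') = wd B x y + wd B x y' := by
  rw [wd_anti, wd_add_left, wd_anti B y x, wd_anti B y' x, neg_add, neg_neg, neg_neg]

theorem wd_smul_right (B : V →ₗ[L] V →ₗ[L] L) (c : L) (x y : V) : wd B x (c • y) = c • wd B x y := by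
  rw [wd_anti, wd_smul_left, wd_anti B y x, smul_neg, neg_neg]

theorem wd_skew (B : V →ₗ[L] V →ₗ[L] L) (hs : ∀ x y, B x y = B y x) (x y a b : V) :
    B (wd B x y a) b + B a (wd B x y b) = 0 := by
  rw [wd_apply, wd_apply, map_sub, map_smul, map_smul, map_sub, map_smul, map_smul, LinearMap.sub_apply,
    LinearMap.smul_apply, LinearMap.smul_apply, smul_eq_mul, smul_eq_mul, smul_eq_mul, smul_eq_mul,
    hs x b, hs y b]
  ring

theorem br_wd (B : V →ₗ[L] V →ₗ[L] L) (X : Module.End L V) (hX : ∀ x y, B (X x) y + B x (X y) = 0) (x y : V) :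
    X * wd B x y - wd B x y * X = wd B (X x) y + wd B x (X y) := by
  have h1 : ∀ z t, B (X z) t = - B z (X t) := fun z t => eq_neg_of_add_eq_zero_left (hX z t)
  refine LinearMap.ext fun z => ?_
  rw [LinearMap.sub_apply, Module.End.mul_apply, Module.End.mul_apply, LinearMap.add_apply, wd_apply, wd_apply,
    wd_apply, wd_apply, map_sub, map_smul, map_smul, h1 z y, h1 z x]
  module

theorem refl_wd (h2 : (2 : L) ≠ 0) (B : V →ₗ[L] V →ₗ[L] L) (hs : ∀ x y, B x y = B y x) (v : V) (hv : B v v ≠ 0)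
    (R : Module.End L V) (hR : ∀ z, R z = z - (2 / B v v * B z v) • v) (X : Module.End L V)
    (hX : ∀ x y, B (X x) y + B x (X y) = 0) : X - R * X * R = (2 / B v v) • wd B (X v) v := by
  have h1 : ∀ z t, B (X z) t = - B z (X t) := fun z t => eq_neg_of_add_eq_zero_left (hX z t)
  have h0 : B (X v) v = 0 := by
    have h3 := hX v v
    rw [hs v (X v), ← two_mul] at h3
    exact (mul_eq_zero.1 h3).resolve_left h2
  refine LinearMap.ext fun z => ?_
  rw [LinearMap.sub_apply, Module.End.mul_apply, Module.End.mul_apply, LinearMap.smul_apply, wd_apply, hR z,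
    map_sub, map_smul, hR (X z - (2 / B v v * B z v) • X v), map_sub, map_smul, LinearMap.sub_apply,
    LinearMap.smul_apply, h0, h1 z v, smul_zero, sub_zero]
  module

theorem wd_conj (h2 : (2 : L) ≠ 0) (B : V →ₗ[L] V →ₗ[L] L) (hs : ∀ x y, B x y = B y x) (v : V) (hv : B v v ≠ 0)
    (R : Module.End L V) (hR : ∀ z, R z = z - (2 / B v v * B z v) • v) (g : Submodule L (Module.End L V))
    (hsk : ∀ X ∈ g, ∀ x y, B (X x) y + B x (X y) = 0) (hRg : ∀ X ∈ g, R * X * R ∈ g) :
    ∀ X ∈ g, wd B (X v) v ∈ g := by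
  intro X hX
  have h1 := refl_wd h2 B hs v hv R hR X (hsk X hX)
  have hc : (2 : L) / B v v ≠ 0 := div_ne_zero h2 hv
  have h3 : wd B (X v) v = (2 / B v v)⁻¹ • (X - R * X * R) := by
    rw [h1, smul_smul, inv_mul_cancel₀ hc, one_smul]
  rw [h3]
  exact g.smul_mem _ (g.sub_mem hX (hRg X hX))

end MPadcEO
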