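import Pool.Agent.Lib.MP_adc574_ag_EO.O1

/-!
# O3: a self-adjoint element of the commutant has the eigenvector `v` (easy)

PROOF. `n = wd B x v`. `y (n z) = n (y z)` for all `z`: `B z v • y x - B z x • y v = B (y z) v • x - B (y z) x • v`. (1) `z = v` (`B v x = 0`): `B v v • y x = B (y v) v • x - B (y v) x • v`. Apply `B · v`: `B v v * B (y x) v = - B (y v) x * B v v`, so `B (y x) v = - B (y v) x`; self-adjointness and symmetry: `B (y x) v = B x (y v) = B (y v) x`; so
`2 * B (y v) x = 0`, `B (y v) x = 0`, `B (y x) v = 0`. (2) `z = x`: `B x v = 0`: `- B x x • y v = B (y x) v • x - B (y x) x • v = - B (y x) x • v`, so `y v = (B (y x) x / B x x) • v`.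
-/

set_option autoImplicit false

namespace MPadcEO

theorem fix_v {L : Type*} [Field L] (h2 : (2 : L) ≠ 0) {V : Type*} [AddCommGroup V] [Module L V]
    (B : V →ₗ[L] V →ₗ[L] L) (hs : ∀ x y, B x y = B y x) (x v : V) (hxv : B x v = 0) (hx : B x x ≠ 0) (hv : B v v ≠ 0)
    (y : Module.End L V) (hc : y * wd B x v = wd B x v * y) (ha : ∀ a b, B (y a) b = B a (y b)) :
    ∃ c : L, y v = c • v := by
  have h1 : ∀ z, B z v • y x - B z x • y v = B (y z) v • x - B (y z) x • v := by
    intro z
    have h := DFunLike.congr_fun hc z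
    rw [Module.End.mul_apply, Module.End.mul_apply, wd_apply, wd_apply, map_sub, map_smul,
      map_smul] at h
    exact h
  have hvx : B v x = 0 := by rw [hs v x, hxv]
  have h3 := h1 v
  rw [hvx, zero_smul, sub_zero] at h3
  have h4 : B v v * B (y x) v = - (B (y v) x * B v v) := by
    have h := congrArg (fun u => B u v) h3
    simp only [map_smul, map_sub, LinearMap.smul_apply, LinearMap.sub_apply, smul_eq_mul, hxv,
      mul_zero, zero_sub] at h
    exact h
  have h5 : B (y x) v = B (y v) x := by rw [ha x v, hs x (y v)]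
  have h6 : B (y v) x = 0 := by
    rw [h5] at h4
    have h7 : (2 * B v v) * B (y v) x = 0 := by linear_combination h4
    rcases mul_eq_zero.mp h7 with h8 | h8
    · exact absurd h8 (mul_ne_zero h2 hv)
    · exact h8
  have h9 := h1 x
  rw [hxv, zero_smul, zero_sub, h5, h6, zero_smul, zero_sub] at h9
  refine ⟨B (y x) x / B x x, ?_⟩
  have h10 : B x x • y v = B (y x) x • v := neg_injective h9
  rw [div_eq_inv_mul, mul_smul, ← h10, smul_smul, inv_mul_cancel₀ hx, one_smul]

end MPadcEO
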