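import Pool.Agent.Lib.MP_adc574_ag_EO.O1

/-!
# O4: the subspace `P` is nondegenerate (medium-)

PROOF. Let `x ∈ P`, `B x z = 0` for all `z ∈ P`. `n = wd B x v ∈ g`. For `y ∈ Algebra.adjoin L g`: (a) `y z ∈ P` for `z ∈ P`; (b) if `z ∈ P` and `B z z' = 0` for all `z' ∈ P` then `y z` has the same two properties (`Algebra.adjoin_induction`: for `X ∈ g`: `B (X z) z' = - B z (X z') = 0`; scalars, sums, products).
`n * y` is `z ↦ B (y z) v • x - B (y z) x • v`, a sum of two `LinearMap.smulRight`, so its trace is `B (y x) v - B (y v) x` (`LinearMap.trace_smulRight` or the trace of a rank one map `φ.smulRight x` is `φ x`; `FiniteDimensional`), both terms are 0 by (a), (b) (`hs`). So `n = 0` (`hT`), `0 = n v = B v v • x - B v x • v = B v v • x`, so `x = 0`.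
-/

set_option autoImplicit false

namespace MPadcEO

theorem nondeg_P {L : Type*} [Field L] {V : Type*} [AddCommGroup V] [Module L V] [FiniteDimensional L V]
    (B : V →ₗ[L] V →ₗ[L] L) (hs : ∀ x y, B x y = B y x) (g : Submodule L (Module.End L V))
    (hsk : ∀ X ∈ g, ∀ x y, B (X x) y + B x (X y) = 0) (v : V) (hv : B v v ≠ 0)
    (hT : ∀ n ∈ g, (∀ y ∈ Algebra.adjoin L (g : Set (Module.End L V)), LinearMap.trace L V (n * y) = 0) → n = 0)
    (P : Submodule L V) (hvP : v ∈ P) (hP : ∀ X ∈ g, ∀ x ∈ P, X x ∈ P) (hw : ∀ x ∈ P, wd B x v ∈ g) :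
    ∀ x ∈ P, (∀ z ∈ P, B x z = 0) → x = 0 := by
  intro x hx hxP
  have hy : ∀ y ∈ Algebra.adjoin L (g : Set (Module.End L V)), (∀ z ∈ P, y z ∈ P) ∧
      ∀ z ∈ P, (∀ z' ∈ P, B z z' = 0) → ∀ z' ∈ P, B (y z) z' = 0 := by
    intro y hy
    induction hy using Algebra.adjoin_induction with
    | mem X hX =>
      refine ⟨hP X hX, fun z _ hz' z' hz'' => ?_⟩
      have h1 := hsk X hX z z'
      rw [hz' _ (hP X hX z' hz''), add_zero] at h1
      exact h1
    | algebraMap r =>
      refine ⟨fun z hz => ?_, fun z _ hz' z' hz'' => ?_⟩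
      · rw [Module.algebraMap_end_apply]
        exact P.smul_mem r hz
      · rw [Module.algebraMap_end_apply, map_smul, LinearMap.smul_apply, hz' z' hz'', smul_zero]
    | add y y' _ _ h1 h2 =>
      refine ⟨fun z hz => P.add_mem (h1.1 z hz) (h2.1 z hz), fun z hz hz' z' hz'' => ?_⟩
      rw [LinearMap.add_apply, map_add, LinearMap.add_apply, h1.2 z hz hz' z' hz'', h2.2 z hz hz' z' hz'', add_zero]
    | mul y y' _ _ h1 h2 =>
      exact ⟨fun z hz => h1.1 _ (h2.1 z hz), fun z hz hz' z' hz'' => h1.2 _ (h2.1 z hz) (h2.2 z hz hz') z' hz''⟩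
  have hn : wd B x v = 0 := by
    refine hT _ (hw x hx) fun y hy' => ?_
    have h1 : wd B x v * y = ((B.flip v).comp y).smulRight x - ((B.flip x).comp y).smulRight v := by
      ext z
      rfl
    rw [h1, map_sub, LinearMap.trace_smulRight, LinearMap.trace_smulRight]
    show B (y x) v - B (y v) x = 0
    obtain ⟨h2, h3⟩ := hy y hy'
    rw [h3 x hx hxP v hvP, hs (y v) x, hxP _ (h2 v hvP), sub_zero]
  have h4 := wd_apply B x v v
  rw [hn, LinearMap.zero_apply, hs v x, hxP v hvP, zero_smul, sub_zero] at h4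
  exact (smul_eq_zero.1 h4.symm).resolve_left hv

/-- A nonzero vector orthogonal to `v` in `P` gives an anisotropic one. -/
theorem exists_aniso {L : Type*} [Field L] (h2 : (2 : L) ≠ 0) {V : Type*} [AddCommGroup V] [Module L V]
    (B : V →ₗ[L] V →ₗ[L] L) (hs : ∀ x y, B x y = B y x) (v : V) (hv : B v v ≠ 0) (P : Submodule L V) (hvP : v ∈ P)
    (hnd : ∀ x ∈ P, (∀ z ∈ P, B x z = 0) → x = 0) (x₀ : V) (hx₀ : x₀ ∈ P) (hx0 : B x₀ v = 0) (hne : x₀ ≠ 0) :
    ∃ x ∈ P, B x v = 0 ∧ B x x ≠ 0 := by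
  /- Otherwise `B x x = 0` for all `x ∈ P` with `B x v = 0`; polarisation: `B x y = 0` for all such `x`, `y`. For `z ∈ P` put `z' = z - (B z v / B v v) • v`, `B z' v = 0`, so `B x₀ z = B x₀ z' + (..) * B x₀ v = 0`. So `x₀ = 0`. -/
  by_contra hcon
  push Not at hcon
  have hpol : ∀ x ∈ P, B x v = 0 → ∀ y ∈ P, B y v = 0 → B x y = 0 := by
    intro x hx hxv y hy hyv
    have h1 := hcon (x + y) (P.add_mem hx hy) (by rw [map_add, LinearMap.add_apply, hxv, hyv, add_zero])
    simp only [map_add, LinearMap.add_apply] at h1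
    rw [hcon x hx hxv, hcon y hy hyv, hs y x] at h1
    have h3 : (2 : L) * B x y = 0 := by linear_combination h1
    exact (mul_eq_zero.1 h3).resolve_left h2
  apply hne
  refine hnd x₀ hx₀ fun z hz => ?_
  have h4 : B (z - (B z v / B v v) • v) v = 0 := by
    rw [map_sub, map_smul, LinearMap.sub_apply, LinearMap.smul_apply, smul_eq_mul, div_mul_cancel₀ _ hv, sub_self]
  have h5 := hpol x₀ hx₀ hx0 (z - (B z v / B v v) • v) (P.sub_mem hz (P.smul_mem _ hvP)) h4
  rw [map_sub, map_smul, hx0, smul_zero, sub_zero] at h5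
  exact h5

end MPadcEO
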