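import Pool.Agent.Lib.MP_adc574_ag_EO.O1

/-!
# O5: if all self-adjoint elements of the commutant are scalars, then `P` is everything (medium-)

PROOF. `P^⊥ = {z | ∀ x ∈ P, B x z = 0}` is a complement of `P`: `P ⊓ P^⊥ = ⊥` (`hPnd`), and `P ⊔ P^⊥ = ⊤`: the map `P → Dual P`, `x ↦ (z ↦ B x z)` is injective, so surjective (`LinearMap.injective_iff_surjective_of_finrank_eq_finrank`, `Subspace.dual_finrank_eq`); for `z : V` choose `x ∈ P` with `B x z' = B z z'` for all `z' ∈ P`, then `z - x ∈ P^⊥`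
(or Mathlib's `LinearMap.BilinForm.isCompl_orthogonal..`). Let `y` be the projection to `P` along `P^⊥` (`Submodule.linearProjOfIsCompl` composed with `P.subtype`): `y x = x` for `x ∈ P`, `y z = 0` for `z ∈ P^⊥`, `y z ∈ P`, `z - y z ∈ P^⊥`. `B (y a) b = B (y a) (y b) = B a (y b)`. `P^⊥` is stable under `g` (`B x (X z) = - B (X x) z = 0`),
so `y * X = X * y` for `X ∈ g`. By `hc` `y = c • 1`; `y v = v`, `v ≠ 0`: `c = 1`. So `y = 1`, and every `z = y z ∈ P`.
-/

set_option autoImplicit false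

namespace MPadcEO

theorem P_top {L : Type*} [Field L] {V : Type*} [AddCommGroup V] [Module L V] [FiniteDimensional L V]
    (B : V →ₗ[L] V →ₗ[L] L) (hs : ∀ x y, B x y = B y x) (g : Submodule L (Module.End L V))
    (hsk : ∀ X ∈ g, ∀ x y, B (X x) y + B x (X y) = 0)
    (hc : ∀ y : Module.End L V, (∀ X ∈ g, y * X = X * y) → (∀ a b, B (y a) b = B a (y b)) → ∃ c : L, y = c • 1)
    (P : Submodule L V) (v : V) (hvP : v ∈ P) (hv : v ≠ 0) (hP : ∀ X ∈ g, ∀ x ∈ P, X x ∈ P)
    (hPnd : ∀ x ∈ P, (∀ z ∈ P, B x z = 0) → x = 0) : P = ⊤ := by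
  have hmem : ∀ z, z ∈ LinearMap.BilinForm.orthogonal B P ↔ ∀ x ∈ P, B x z = 0 := fun z => Iff.rfl
  obtain ⟨Q, hQ⟩ : ∃ Q : Submodule L V, Q = LinearMap.BilinForm.orthogonal B P := ⟨_, rfl⟩
  have hmem' : ∀ z, z ∈ Q ↔ ∀ x ∈ P, B x z = 0 := fun z => by
    rw [hQ]
    exact hmem z
  have hdis : Disjoint P Q := by
    rw [Submodule.disjoint_def]
    intro x hx hx'
    exact hPnd x hx fun z hz => by
      rw [hs]
      exact (hmem' x).1 hx' z hz
  have hrefl : LinearMap.BilinForm.IsRefl B := fun x y h => by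
    rw [hs]
    exact h
  have hC : IsCompl P Q := by
    rw [hQ]
    exact (LinearMap.BilinForm.isCompl_orthogonal_iff_disjoint hrefl).2 (hQ ▸ hdis)
  obtain ⟨y, hy⟩ : ∃ y : Module.End L V, y = P.projection Q hC := ⟨_, rfl⟩
  have hyP : ∀ z, y z ∈ P := fun z => by
    rw [hy]
    exact Submodule.projection_apply_mem hC z
  have hyx : ∀ x ∈ P, y x = x := fun x hx => by
    rw [hy]
    exact Submodule.projection_apply_of_mem_left hC hx
  have hy0 : ∀ z, y z = 0 ↔ z ∈ Q := fun z => by
    rw [hy]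
    exact Submodule.projection_apply_eq_zero_iff hC
  have hsub : ∀ z, z - y z ∈ Q := fun z => by
    rw [← hy0, map_sub, hyx _ (hyP z), sub_self]
  obtain ⟨c, hcy⟩ := hc y
    (by
      intro X hX
      refine LinearMap.ext fun z => ?_
      show y (X z) = X (y z)
      have h1 : X z = X (y z) + X (z - y z) := by
        rw [← map_add, add_sub_cancel]
      have h2 : X (z - y z) ∈ Q := by
        rw [hmem']
        intro x hx
        have h3 := hsk X hX x (z - y z)
        rw [(hmem' _).1 (hsub z) (X x) (hP X hX x hx), zero_add] at h3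
        exact h3
      rw [h1, map_add, hyx _ (hP X hX _ (hyP z)), (hy0 _).2 h2, add_zero])
    (by
      intro a b
      have h1 : B (y a) b = B (y a) (y b) := by
        have h2 := (hmem' _).1 (hsub b) (y a) (hyP a)
        rw [map_sub, sub_eq_zero] at h2
        exact h2
      have h3 : B a (y b) = B (y a) (y b) := by
        have h2 := (hmem' _).1 (hsub a) (y b) (hyP b)
        rw [map_sub, sub_eq_zero, hs, hs (y b)] at h2
        exact h2
      rw [h1, h3])
  have hyv : y v = c • v := by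
    rw [hcy]
    rfl
  rw [hyx v hvP] at hyv
  have hc1 : c = 1 := by
    have h1 : (1 - c) • v = 0 := by
      rw [sub_smul, one_smul, ← hyv, sub_self]
    rcases smul_eq_zero.1 h1 with h2 | h2
    · exact (sub_eq_zero.1 h2).symm
    · exact absurd h2 hv
  rw [eq_top_iff]
  intro z _
  have h1 := hyP z
  rw [hcy, hc1, one_smul] at h1
  exact h1

end MPadcEO
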