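import Pool.Agent.Lib.MP_adc574_ag_BN.Dens
import Pool.Agent.Lib.MP_adc574_ag_BN.StbA

/-!
# O6: the trace form of the associative algebra of a horizontal space is nondegenerate (medium+)

PROOF. `A = Algebra.adjoin K g`. (1) For `X : Module.End K Mo` let `X'` be the endomorphism with `X' x = nab (X x) - X (nab x)` (`MPadcBN.exists_com leib`). If `X ∈ A` then `X' ∈ A`: `Algebra.adjoin_induction`: for `X ∈ g` it is `hg` (uniqueness: `X'` is determined by the equation); `algebraMap a`: `X' = D a • 1` (`leib`); sums; `(X Y)' = X' Y + X Y'`.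
(2) `J = {n ∈ A | ∀ y ∈ A, trace (n * y) = 0}`. For `n ∈ J`, `z ∈ A`: `z * n`, `n * z ∈ J` (`LinearMap.trace_mul_comm`). If `n ∈ J` then `n' ∈ J`: `trace (n' y) = trace ((n y)') - trace (n y') = D (trace (n y)) - 0 = D 0 = 0` (`MPadcBN.tr_nab`; `D 0 = 0`). (3) The common kernel `H' = {x | ∀ n ∈ J, n x = 0}` is a subspace, stable under `nab`: `n (nab x) = nab (n x) - n' x = 0`. So `H' = ⊥` or `⊤`.
If `H' = ⊤` all `n ∈ J` are 0: done. (4) `H' ≠ ⊥`: let `U ≠ ⊥` be a subspace stable under `A`, of minimal dimension (`Mo` is such a subspace if it is nontrivial; well-founded minimum of `finrank`, or `IsArtinian`/`exists_minimal`; if `Mo` is trivial everything is 0). `J U` (the span of all `n u`) is stable under `A` and contained in `U`. If `J U = 0`, `U ≤ H'`, so `H' ≠ ⊥`. Otherwise `J U = U`. Choose `u ∈ U`,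
`u ≠ 0`. `{n u | n ∈ J}` is a subspace stable under `A`, contained in `U`; it is `0` or `U` by minimality. If it is `U` then `u = n u` for some `n ∈ J`: `MPadcBN.no_fix` (with `X = n`, `s = u`, `trace (aeval n p * n) = trace (n * aeval n p) = 0` as `aeval n p ∈ A`) gives a contradiction. So `n u = 0` for all `n ∈ J`, `u ∈ U`: `J U = 0`.
-/

set_option autoImplicit false

namespace MPadcEO

open MPadcBN

universe u

theorem tr_form {K : Type u} [Field K] [CharZero K] {Mo : Type u} [AddCommGroup Mo] [Module K Mo]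
    [Module.Finite K Mo] (D : K → K) (hDa : ∀ a b, D (a + b) = D a + D b) (nab : Mo →+ Mo)
    (leib : ∀ (c : K) (x : Mo), nab (c • x) = D c • x + c • nab x)
    (irr : ∀ H' : Submodule K Mo, (∀ x ∈ H', nab x ∈ H') → H' = ⊥ ∨ H' = ⊤)
    (g : Submodule K (Module.End K Mo))
    (hg : ∀ X ∈ g, ∃ X' ∈ g, ∀ x, X' x = nab (X x) - X (nab x)) :
    ∀ n ∈ Algebra.adjoin K (g : Set (Module.End K Mo)),
      (∀ y ∈ Algebra.adjoin K (g : Set (Module.End K Mo)), LinearMap.trace K Mo (n * y) = 0) → n = 0 := by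
  rcases subsingleton_or_nontrivial Mo with hsub | hnt
  · intro n _ _
    ext z
    exact Subsingleton.elim _ _
  have hadd : ∀ a b, D (a + b) = D a + D b := hDa
  have hD0 : D 0 = 0 := by
    have := hadd 0 0
    rw [add_zero] at this
    exact left_eq_add.1 this
  set A := Algebra.adjoin K (g : Set (Module.End K Mo)) with hAdef
  have hA : ∀ X ∈ A, ∃ X' ∈ A, ∀ x, X' x = nab (X x) - X (nab x) := by
    intro X hX
    induction hX using Algebra.adjoin_induction with
    | mem X hX =>
      obtain ⟨X', h1, h2⟩ := hg X hX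
      exact ⟨X', Algebra.subset_adjoin h1, h2⟩
    | algebraMap r =>
      refine ⟨algebraMap K _ (D r), Subalgebra.algebraMap_mem _ _, ?_⟩
      intro x
      simp only [Module.algebraMap_end_apply, leib]
      abel
    | add X Y _ _ ihX ihY =>
      obtain ⟨X', h1, h2⟩ := ihX
      obtain ⟨Y', h3, h4⟩ := ihY
      refine ⟨X' + Y', add_mem h1 h3, ?_⟩
      intro x
      simp only [LinearMap.add_apply, h2, h4, map_add]
      abel
    | mul X Y hX hY ihX ihY =>
      obtain ⟨X', h1, h2⟩ := ihX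
      obtain ⟨Y', h3, h4⟩ := ihY
      refine ⟨X' * Y + X * Y', add_mem (mul_mem h1 hY) (mul_mem hX h3), ?_⟩
      intro x
      simp only [LinearMap.add_apply, Module.End.mul_apply, h2, h4, map_sub]
      abel
  let R : Submodule K (Module.End K Mo) :=
    { carrier := {X | X ∈ A ∧ ∀ Y ∈ A, LinearMap.trace K Mo (X * Y) = 0}
      add_mem' := by
        rintro a b ⟨ha, ha'⟩ ⟨hb, hb'⟩
        refine ⟨add_mem ha hb, fun Y hY => ?_⟩
        rw [add_mul, map_add, ha' Y hY, hb' Y hY, add_zero]
      zero_mem' := ⟨zero_mem _, fun Y _ => by rw [zero_mul, map_zero]⟩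
      smul_mem' := by
        rintro c a ⟨ha, ha'⟩
        refine ⟨Subalgebra.smul_mem _ ha c, fun Y hY => ?_⟩
        rw [smul_mul_assoc, map_smul, ha' Y hY, smul_zero] }
  have hR' : ∀ X ∈ R, ∃ X' ∈ R, ∀ x, X' x = nab (X x) - X (nab x) := by
    rintro X ⟨hXA, hXt⟩
    obtain ⟨X', h1, h2⟩ := hA X hXA
    refine ⟨X', ⟨h1, ?_⟩, h2⟩
    intro Y hY
    obtain ⟨Y', h3, h4⟩ := hA Y hY
    have h5 := tr_nab D hadd nab leib (X * Y) (X' * Y + X * Y') (by
      intro x
      simp only [LinearMap.add_apply, Module.End.mul_apply, h2, h4, map_sub]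
      abel)
    rw [map_add, hXt Y' h3, add_zero, hXt Y hY, hD0] at h5
    exact h5
  have hRl : ∀ Y ∈ A, ∀ X ∈ R, Y * X ∈ R := by
    rintro Y hY X ⟨hXA, hXt⟩
    refine ⟨mul_mem hY hXA, fun Z hZ => ?_⟩
    rw [mul_assoc, LinearMap.trace_mul_comm, mul_assoc]
    exact hXt _ (mul_mem hZ hY)
  have hRp : ∀ X ∈ R, ∀ p : Polynomial K,
      LinearMap.trace K Mo (Polynomial.aeval X p * X) = 0 := by
    rintro X ⟨hXA, hXt⟩ p
    rw [LinearMap.trace_mul_comm]
    apply hXt
    have : Algebra.adjoin K {X} ≤ A := by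
      apply Algebra.adjoin_le
      simpa using hXA
    exact this (Polynomial.aeval_mem_adjoin_singleton K X)
  -- a minimal nonzero stable subspace
  obtain ⟨S, ⟨hS0, hSA⟩, hmin⟩ := WellFounded.has_min
    (wellFounded_lt : WellFounded ((· < ·) : Submodule K Mo → Submodule K Mo → Prop))
    {S : Submodule K Mo | S ≠ ⊥ ∧ ∀ X ∈ A, ∀ x ∈ S, X x ∈ S}
    ⟨⊤, ⟨top_ne_bot, fun X _ x _ => trivial⟩⟩
  have hRS : ∀ X ∈ R, ∀ x ∈ S, X x = 0 := by
    intro X hX x hx
    by_contra hne
    let S' : Submodule K Mo := Submodule.map (LinearMap.applyₗ x) R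
    have hS' : ∀ y, y ∈ S' ↔ ∃ Y ∈ R, Y x = y := by
      intro y
      simp only [S', Submodule.mem_map, LinearMap.applyₗ_apply_apply]
    have hle : S' ≤ S := by
      intro y hy
      obtain ⟨Y, hY, rfl⟩ := (hS' y).1 hy
      exact hSA Y hY.1 x hx
    have hst : S' ≠ ⊥ ∧ ∀ X ∈ A, ∀ x ∈ S', X x ∈ S' := by
      constructor
      · intro hbot
        apply hne
        have : X x ∈ S' := (hS' _).2 ⟨X, hX, rfl⟩
        rw [hbot] at this
        simpa using this
      · intro Z hZ y hy
        obtain ⟨Y, hY, rfl⟩ := (hS' y).1 hy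
        exact (hS' _).2 ⟨Z * Y, hRl Z hZ Y hY, rfl⟩
    have heq : S' = S := by
      rcases hle.lt_or_eq with h | h
      · exact absurd h (hmin S' hst)
      · exact h
    have hx' : x ∈ S' := by rw [heq]; exact hx
    obtain ⟨Y, hY, hYx⟩ := (hS' x).1 hx'
    have hx0 : x ≠ 0 := by
      intro h
      apply hne
      rw [h, map_zero]
    exact no_fix Y x hx0 hYx (hRp Y hY)
  let N : Submodule K Mo :=
    { carrier := {x | ∀ X ∈ R, X x = 0}
      add_mem' := by
        intro a b ha hb X hX
        rw [map_add, ha X hX, hb X hX, add_zero]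
      zero_mem' := by intro X _; rw [map_zero]
      smul_mem' := by
        intro c a ha X hX
        rw [map_smul, ha X hX, smul_zero] }
  have hN : N = ⊤ := by
    rcases irr N (by
      intro x hx X hX
      obtain ⟨X', h1, h2⟩ := hR' X hX
      have h3 := h2 x
      rw [hx X' h1, hx X hX, map_zero, zero_sub] at h3
      exact neg_eq_zero.1 h3.symm) with h | h
    · exfalso
      apply hS0
      rw [eq_bot_iff]
      intro x hx
      have : x ∈ N := fun X hX => hRS X hX x hx
      rw [h] at this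
      exact this
    · exact h
  have hR0 : ∀ X ∈ R, X = 0 := by
    intro X hX
    ext x
    have : x ∈ N := by rw [hN]; trivial
    exact this X hX
  intro n hn ht
  exact hR0 n ⟨hn, ht⟩

end MPadcEO
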