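import Pool.Agent.Lib.MP_adc574_ag_BN.SpM

/-!
# O7: extension of scalars of the trace form (medium)

`jt τ : RatFunc κ →+* L`, `L = FractionRing (PowerSeries κ)`; `mt b X` the matrix of `X`, `gL b τ G` the endomorphisms of `L ^ n` with matrix in `spanL (jt τ) (G.map (mt b))`, `ofv v` the endomorphism with matrix `v` (all in BN/SpM.lean, BN/Rat.lean).
* `form_ext`: for `i : s` the functional `x ↦ x i` on `g` is `x ↦ ∑ a, ∑ c, x a * T a c * y c` for some `y ∈ g` (the map `g → Dual g` given by `T` is injective by `hT` applied to the transposed form; `g` is finite dimensional, so it is bijective: `LinearMap.injective_iff_surjective_of_finrank_eq_finrank`, `Subspace.dual_finrank_eq`; here the form may be assumed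
symmetric: `hTs`). So `ψ = e_i - T y` kills `g`; by `mem_spanL_iff` `v i = ∑ a, v a * j (∑ c, T a c * y c) = ∑ a, ∑ c, v a * j (T a c) * j (y c) = 0`.
* `tr_formL`: `g' = (Subalgebra.toSubmodule (Algebra.adjoin K G)).map (mt b)`, `T (i, k) (i', k') = if k = i' ∧ i = k' then 1 else 0` (`trace (X * Y) = ∑ i, ∑ k, X i k * Y k i`; `LinearMap.trace_eq_matrix_trace K b`, `mt_mul`). `n ∈ gL b τ G` has its matrix in `spanL (jt τ) (G.map (mt b)) ≤ spanL (jt τ) g'`. For `Y ∈ Algebra.adjoin K G` the endomorphism `ofv (jt τ ∘ mt b Y)` is in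
`Algebra.adjoin L (gL b τ G)` (`Algebra.adjoin_induction`, `ofv_mt`; `algebraMap a` maps to `jt τ a • 1`: see the proof of `hgen` in `sp_stab`, BN/SpN.lean), and `trace (n * ofv w) = ∑ i, ∑ k, n i k * w (k, i)` (`LinearMap.trace_eq_matrix_trace` with `Pi.basisFun`, `ofv_mul`). So `form_ext` gives that the matrix of `n` is 0, so `n = 0` (`ofv_eq`).
-/

set_option autoImplicit false

namespace MPadcEO

open MPadcBN MPadcLZ MPadcHM

universe u

theorem form_ext {K L : Type*} [Field K] [Field L] (j : K →+* L) {s : Type*} [Fintype s] (g : Submodule K (s → K))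
    (T : s → s → K) (hTs : ∀ a c, T a c = T c a) (hT : ∀ x ∈ g, (∀ y ∈ g, ∑ a, ∑ c, x a * T a c * y c = 0) → x = 0)
    (v : s → L) (hv : v ∈ spanL j g) (h0 : ∀ y ∈ g, ∑ a, ∑ c, v a * j (T a c) * j (y c) = 0) : v = 0 := by
  classical
  let B : (s → K) →ₗ[K] (s → K) →ₗ[K] K := Matrix.toLinearMap₂' K (Matrix.of T)
  have hB : ∀ x y, B x y = ∑ a, ∑ c, x a * T a c * y c := by
    intro x y
    show Matrix.toLinearMap₂' K (Matrix.of T) x y = _
    rw [Matrix.toLinearMap₂'_apply]
    refine Finset.sum_congr rfl fun a _ => Finset.sum_congr rfl fun c _ => ?_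
    simp only [smul_eq_mul, Matrix.of_apply]
    ring
  let Φ : g →ₗ[K] Module.Dual K g := B.domRestrict₁₂ g g
  have hΦ : ∀ x y : g, Φ x y = B x.1 y.1 := fun x y => rfl
  have hinj : Function.Injective Φ := by
    rw [injective_iff_map_eq_zero]
    intro x hx
    apply Subtype.ext
    refine hT x.1 x.2 fun y hy => ?_
    rw [← hB, ← hΦ x ⟨y, hy⟩, hx]
    rfl
  have hsurj : Function.Surjective Φ :=
    (LinearMap.injective_iff_surjective_of_finrank_eq_finrank (Subspace.dual_finrank_eq).symm).1 hinj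
  funext i
  obtain ⟨y, hy⟩ := hsurj ((LinearMap.proj i : (s → K) →ₗ[K] K).domRestrict g)
  have h1 : ∀ x ∈ g, B y.1 x = x i := by
    intro x hx
    rw [← hΦ y ⟨x, hx⟩, hy]
    rfl
  have h2 := (mem_spanL_iff j g v).1 hv (fun c => (Pi.single i (1 : K) : s → K) c - ∑ a, y.1 a * T a c) (by
    intro x hx
    have h3 : ∑ c, ((Pi.single i (1 : K) : s → K) c - ∑ a, y.1 a * T a c) * x c = x i - B y.1 x := by
      rw [hB, Finset.sum_comm]
      have h4 : ∑ c, (Pi.single i (1 : K) : s → K) c * x c = x i := by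
        rw [Finset.sum_eq_single i]
        · rw [Pi.single_eq_same, one_mul]
        · intro c _ hc
          rw [Pi.single_eq_of_ne hc, zero_mul]
        · intro h
          exact absurd (Finset.mem_univ i) h
      rw [← h4, ← Finset.sum_sub_distrib]
      refine Finset.sum_congr rfl fun c _ => ?_
      rw [sub_mul, Finset.sum_mul]
    rw [h3, h1 x hx, sub_self])
  have h5 : ∑ c, j ((Pi.single i (1 : K) : s → K) c - ∑ a, y.1 a * T a c) * v c =
      v i - ∑ c, ∑ a, v c * j (T c a) * j (y.1 a) := by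
    have h4 : ∑ c, j ((Pi.single i (1 : K) : s → K) c) * v c = v i := by
      rw [Finset.sum_eq_single i]
      · rw [Pi.single_eq_same, map_one, one_mul]
      · intro c _ hc
        rw [Pi.single_eq_of_ne hc, map_zero, zero_mul]
      · intro h
        exact absurd (Finset.mem_univ i) h
    rw [← h4, ← Finset.sum_sub_distrib]
    refine Finset.sum_congr rfl fun c _ => ?_
    rw [map_sub, sub_mul, map_sum, Finset.sum_mul]
    congr 1
    refine Finset.sum_congr rfl fun a _ => ?_
    rw [map_mul, hTs a c]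
    ring
  rw [h5, h0 y.1 y.2, sub_zero] at h2
  exact h2

variable {κ : Type u} [Field κ] [CharZero κ] {Mo : Type u} [AddCommGroup Mo]
  [Module (RatFunc κ) Mo] {n : ℕ}

private theorem O7_sum {R : Type*} [CommRing R] (x y : Fin n × Fin n → R) :
    ∑ p : Fin n × Fin n, ∑ q : Fin n × Fin n, x p * (if p.2 = q.1 ∧ p.1 = q.2 then (1 : R) else 0) * y q =
      ∑ i, ∑ m, x (i, m) * y (m, i) := by
  rw [Fintype.sum_prod_type]
  refine Finset.sum_congr rfl fun i _ => Finset.sum_congr rfl fun m _ => ?_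
  rw [Finset.sum_eq_single (m, i)]
  · rw [if_pos ⟨rfl, rfl⟩, mul_one]
  · rintro ⟨a, c⟩ _ hq
    rw [if_neg, mul_zero, zero_mul]
    rintro ⟨h1, h2⟩
    apply hq
    have h1' : m = a := h1
    have h2' : i = c := h2
    rw [h1', h2']
  · intro h
    exact absurd (Finset.mem_univ _) h

private theorem O7_tr {L : Type*} [Field L] (v w : Fin n × Fin n → L) :
    LinearMap.trace L (Fin n → L) (ofv v * ofv w) = ∑ i, ∑ m, v (i, m) * w (m, i) := by
  rw [ofv_mul, LinearMap.trace_eq_matrix_trace L (Pi.basisFun L (Fin n))]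
  refine Finset.sum_congr rfl fun i _ => ?_
  rw [Matrix.diag_apply, LinearMap.toMatrix_apply, Pi.basisFun_apply, Pi.basisFun_repr]
  exact congrFun (ofv_single (fun p : Fin n × Fin n => ∑ m, v (p.1, m) * w (m, p.2))) (i, i)

private theorem O7_mm (b : Module.Basis (Fin n) (RatFunc κ) Mo) (X Y : Module.End (RatFunc κ) Mo) (i k : Fin n) :
    mt b (X * Y) (i, k) = ∑ m, mt b X (i, m) * mt b Y (m, k) := by
  let _ : Module (Polynomial κ) Mo := Module.compHom Mo (algebraMap (Polynomial κ) (RatFunc κ))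
  have : IsScalarTower (Polynomial κ) (RatFunc κ) Mo := ⟨fun a c v => by
    rw [Algebra.smul_def, mul_smul]
    rfl⟩
  exact mt_mul b X Y i k

private theorem O7_ofv (b : Module.Basis (Fin n) (RatFunc κ) Mo) (τ : κ) (X Y : Module.End (RatFunc κ) Mo) :
    ofv (fun p => jt τ (mt b X p)) * ofv (fun p => jt τ (mt b Y p)) = ofv (fun p => jt τ (mt b (X * Y) p)) := by
  let _ : Module (Polynomial κ) Mo := Module.compHom Mo (algebraMap (Polynomial κ) (RatFunc κ))
  have : IsScalarTower (Polynomial κ) (RatFunc κ) Mo := ⟨fun a c v => by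
    rw [Algebra.smul_def, mul_smul]
    rfl⟩
  exact ofv_mt b τ X Y

omit [CharZero κ] in
private theorem O7_mem {b : Module.Basis (Fin n) (RatFunc κ) Mo} {τ : κ}
    {G : Submodule (RatFunc κ) (Module.End (RatFunc κ) Mo)} {v : Fin n × Fin n → FractionRing (PowerSeries κ)}
    (hv : v ∈ spanL (jt τ) (G.map (mt b))) : ofv v ∈ gL b τ G := by
  change (fun p : Fin n × Fin n => ofv v (Pi.single p.2 1) p.1) ∈ spanL (jt τ) (G.map (mt b))
  rw [ofv_single]
  exact hv

private theorem O7_trK (b : Module.Basis (Fin n) (RatFunc κ) Mo) (X Y : Module.End (RatFunc κ) Mo) :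
    LinearMap.trace (RatFunc κ) Mo (X * Y) = ∑ i, ∑ m, mt b X (i, m) * mt b Y (m, i) := by
  rw [LinearMap.trace_eq_matrix_trace (RatFunc κ) b]
  refine Finset.sum_congr rfl fun i _ => ?_
  rw [Matrix.diag_apply, LinearMap.toMatrix_apply, ← O7_mm b X Y i i]
  rfl

private theorem O7_adj (b : Module.Basis (Fin n) (RatFunc κ) Mo) (τ : κ) (G : Submodule (RatFunc κ) (Module.End (RatFunc κ) Mo))
    (X : Module.End (RatFunc κ) Mo) (hX : X ∈ Algebra.adjoin (RatFunc κ) (G : Set (Module.End (RatFunc κ) Mo))) :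
    ofv (fun p => jt τ (mt b X p)) ∈ Algebra.adjoin (FractionRing (PowerSeries κ))
      (gL b τ G : Set (Module.End (FractionRing (PowerSeries κ)) (Fin n → FractionRing (PowerSeries κ)))) := by
  induction hX using Algebra.adjoin_induction with
  | mem X hX => exact Algebra.subset_adjoin (O7_mem (Submodule.subset_span ⟨_, ⟨X, hX, rfl⟩, rfl⟩))
  | algebraMap a =>
    have h1 : ofv (fun p => jt τ (mt b (algebraMap (RatFunc κ) (Module.End (RatFunc κ) Mo) a) p)) =
        algebraMap (FractionRing (PowerSeries κ)) (Module.End (FractionRing (PowerSeries κ)) (Fin n → FractionRing (PowerSeries κ)))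
          (jt τ a) := by
      refine LinearMap.ext fun x => funext fun i => ?_
      rw [ofv_apply, Module.algebraMap_end_apply, Pi.smul_apply, smul_eq_mul, Finset.sum_eq_single i]
      · change jt τ (b.repr (a • b i) i) * x i = _
        rw [map_smul, b.repr_self, Finsupp.smul_apply, Finsupp.single_eq_same, smul_eq_mul,
          mul_one]
      · intro k _ hk
        change jt τ (b.repr (a • b k) i) * x k = 0
        rw [map_smul, b.repr_self, Finsupp.smul_apply, Finsupp.single_eq_of_ne (Ne.symm hk),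
          smul_zero, map_zero, zero_mul]
      · intro h
        exact absurd (Finset.mem_univ _) h
    rw [h1]
    exact Subalgebra.algebraMap_mem _ _
  | add X Y _ _ hX hY =>
    have h1 : ofv (fun p => jt τ (mt b (X + Y) p)) =
        ofv (fun p => jt τ (mt b X p)) + ofv (fun p => jt τ (mt b Y p)) := by
      refine LinearMap.ext fun x => funext fun i => ?_
      rw [LinearMap.add_apply, Pi.add_apply, ofv_apply, ofv_apply, ofv_apply, ← Finset.sum_add_distrib]
      refine Finset.sum_congr rfl fun k _ => ?_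
      rw [map_add (mt b), Pi.add_apply, map_add, add_mul]
    rw [h1]
    exact Subalgebra.add_mem _ hX hY
  | mul X Y _ _ hX hY =>
    rw [← O7_ofv]
    exact Subalgebra.mul_mem _ hX hY

theorem tr_formL (b : Module.Basis (Fin n) (RatFunc κ) Mo) (τ : κ) (G : Submodule (RatFunc κ) (Module.End (RatFunc κ) Mo))
    (hT : ∀ X ∈ Algebra.adjoin (RatFunc κ) (G : Set (Module.End (RatFunc κ) Mo)),
      (∀ y ∈ Algebra.adjoin (RatFunc κ) (G : Set (Module.End (RatFunc κ) Mo)), LinearMap.trace (RatFunc κ) Mo (X * y) = 0) → X = 0) :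
    ∀ X ∈ gL b τ G, (∀ y ∈ Algebra.adjoin (FractionRing (PowerSeries κ)) (gL b τ G : Set _),
      LinearMap.trace (FractionRing (PowerSeries κ)) (Fin n → FractionRing (PowerSeries κ)) (X * y) = 0) → X = 0 := by
  classical
  intro X hX hXy
  let g' : Submodule (RatFunc κ) (Fin n × Fin n → RatFunc κ) :=
    (Subalgebra.toSubmodule (Algebra.adjoin (RatFunc κ) (G : Set (Module.End (RatFunc κ) Mo)))).map (mt b)
  have hle : spanL (jt τ) (G.map (mt b)) ≤ spanL (jt τ) g' := by
    refine Submodule.span_mono ?_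
    rintro v ⟨x, ⟨Y, hY, rfl⟩, rfl⟩
    exact ⟨_, ⟨Y, Algebra.subset_adjoin hY, rfl⟩, rfl⟩
  have hv : (fun p : Fin n × Fin n => X (Pi.single p.2 1) p.1) ∈ spanL (jt τ) g' := hle hX
  have h1 := form_ext (jt τ) g' (fun p q => if p.2 = q.1 ∧ p.1 = q.2 then (1 : RatFunc κ) else 0) (fun p q => by
      by_cases h : p.2 = q.1 ∧ p.1 = q.2
      · rw [if_pos h, if_pos ⟨h.2.symm, h.1.symm⟩]
      · rw [if_neg h, if_neg fun h' => h ⟨h'.2.symm, h'.1.symm⟩]) (by
      rintro x ⟨Y, hY, rfl⟩ hx
      have h2 : Y = 0 := hT Y hY fun Z hZ => by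
        have h3 := hx (mt b Z) ⟨Z, hZ, rfl⟩
        rw [O7_sum] at h3
        rw [O7_trK b, h3]
      rw [h2, map_zero]) _ hv (by
      rintro y ⟨Y, hY, rfl⟩
      have h2 := hXy _ (O7_adj b τ G Y hY)
      have h3 : ∑ p : Fin n × Fin n, ∑ q : Fin n × Fin n, X (Pi.single p.2 1) p.1 *
          (if p.2 = q.1 ∧ p.1 = q.2 then (1 : FractionRing (PowerSeries κ)) else 0) * jt τ (mt b Y q) = 0 := by
        have h4 := O7_tr (fun p : Fin n × Fin n => X (Pi.single p.2 1) p.1) (fun q => jt τ (mt b Y q))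
        rw [ofv_eq, h2] at h4
        exact (O7_sum (fun p : Fin n × Fin n => X (Pi.single p.2 1) p.1) (fun q => jt τ (mt b Y q))).trans h4.symm
      rw [← h3]
      refine Finset.sum_congr rfl fun p _ => Finset.sum_congr rfl fun q _ => ?_
      congr 2
      split_ifs
      · exact map_one _
      · exact map_zero _)
  rw [← ofv_eq X, h1]
  refine LinearMap.ext fun x => funext fun i => ?_
  rw [ofv_apply]
  simp

end MPadcEO
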