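import Pool.Agent.Lib.MP_adc574_ag_BN.SpM

/-!
# O8: extension of scalars of the kernel and of the commutant (medium)

* `ker_L`: `H' = {x : Mo | ∀ X ∈ G, X x = 0}` is stable under `nab` (`X (nab x) = nab (X x) - X' x`), so `⊥` or `⊤`; `⊤` would give `G = ⊥`. So `H' = ⊥`. By `mem_spanL_of_ker` (BN/Rat.lean) with `g = ⊥`, `P` = the functionals `φ k = mt b X (i, k)` (`X ∈ G`, `i : Fin n`) on `Fin n → K`: an `x : Fin n → K` killed by all of them gives `∑ k, x k • b k ∈ H'`, so `x = 0`; the vector `x` of `L ^ n`
is killed by `jt τ ∘ φ` (`ofv_apply`), so `x ∈ spanL (jt τ) ⊥`, so `x = 0` (the span of the image of `{0}`).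
* `comm_L`: the matrix `w` of `y` (`w p = y (Pi.single p.2 1) p.1`, `y = ofv w` by `ofv_eq`) satisfies the linear equations with coefficients in `K`: for `X ∈ G`, `i`, `k`: `∑ m, w (i, m) * jt (mt b X (m, k)) - ∑ m, jt (mt b X (i, m)) * w (m, k) = 0` (`hc`, `ofv_mul`), and self-adjointness on the basis: `∑ m, w (m, i) * jt (B (b m) (b k)) - ∑ m, jt (B (b i) (b m)) * w (m, k) = 0`
(`ha` for `Pi.single i 1`, `Pi.single k 1`, `bilL_apply`). Let `P` be the set of these functionals over `K` (on `Fin n × Fin n → K`), `g` = the line spanned by the identity matrix `fun p => if p.1 = p.2 then 1 else 0`. A solution over `K` is the matrix of an endomorphism of `Mo` which commutes with `G` and is self-adjoint, so a multiple of the identity (`hK`): `hg` of `mem_spanL_of_ker`.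
So `w ∈ spanL (jt τ) g`, hence `w = c • (identity matrix)` and `y = c • 1`.
-/

set_option autoImplicit false

namespace MPadcEO

open MPadcBN MPadcLZ MPadcHM

universe u

variable {κ : Type u} [Field κ] [CharZero κ] {Mo : Type u} [AddCommGroup Mo]
  [Module (RatFunc κ) Mo] {n : ℕ}

private theorem O8_comm {F : Type*} [Field F] {n : ℕ} (A v : Fin n × Fin n → F) (i k : Fin n) :
    ∑ p : Fin n × Fin n, ((if p.1 = i then A (p.2, k) else 0) - (if p.2 = k then A (i, p.1) else 0)) * v p =
      ∑ m, v (i, m) * A (m, k) - ∑ m, A (i, m) * v (m, k) := by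
  rw [Fintype.sum_prod_type]
  have h1 : ∀ x : Fin n, ∑ y : Fin n, ((if x = i then A (y, k) else 0) - (if y = k then A (i, x) else 0)) * v (x, y) =
      (if x = i then ∑ y, v (x, y) * A (y, k) else 0) - A (i, x) * v (x, k) := by
    intro x
    have h2 : ∑ y : Fin n, (if y = k then A (i, x) else 0) * v (x, y) = A (i, x) * v (x, k) := by
      rw [Finset.sum_eq_single k]
      · rw [if_pos rfl]
      · intro y _ hy
        rw [if_neg hy, zero_mul]
      · intro h
        exact absurd (Finset.mem_univ _) h
    rw [← h2]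
    by_cases hx : x = i
    · simp only [if_pos hx, sub_mul, Finset.sum_sub_distrib]
      congr 1
      exact Finset.sum_congr rfl fun y _ => mul_comm _ _
    · simp only [if_neg hx, sub_mul, Finset.sum_sub_distrib, zero_mul, Finset.sum_const_zero]
  rw [Finset.sum_congr rfl fun x _ => h1 x, Finset.sum_sub_distrib]
  congr 1
  rw [Finset.sum_eq_single i]
  · rw [if_pos rfl]
  · intro x _ hx
    rw [if_neg hx]
  · intro h
    exact absurd (Finset.mem_univ _) h

private theorem O8_adj {F : Type*} [Field F] {n : ℕ} (g : Fin n → Fin n → F) (v : Fin n × Fin n → F) (i k : Fin n) :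
    ∑ p : Fin n × Fin n, ((if p.2 = i then g p.1 k else 0) - (if p.2 = k then g i p.1 else 0)) * v p =
      ∑ m, v (m, i) * g m k - ∑ m, g i m * v (m, k) := by
  rw [Fintype.sum_prod_type, ← Finset.sum_sub_distrib]
  refine Finset.sum_congr rfl fun x _ => ?_
  have h1 : ∑ y : Fin n, (if y = i then g x k else 0) * v (x, y) = v (x, i) * g x k := by
    rw [Finset.sum_eq_single i]
    · rw [if_pos rfl, mul_comm]
    · intro y _ hy
      rw [if_neg hy, zero_mul]
    · intro h
      exact absurd (Finset.mem_univ _) h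
  have h2 : ∑ y : Fin n, (if y = k then g i x else 0) * v (x, y) = g i x * v (x, k) := by
    rw [Finset.sum_eq_single k]
    · rw [if_pos rfl]
    · intro y _ hy
      rw [if_neg hy, zero_mul]
    · intro h
      exact absurd (Finset.mem_univ _) h
  rw [← h1, ← h2, ← Finset.sum_sub_distrib]
  exact Finset.sum_congr rfl fun y _ => sub_mul _ _ _

private theorem O8_mem (b : Module.Basis (Fin n) (RatFunc κ) Mo) (τ : κ)
    (G : Submodule (RatFunc κ) (Module.End (RatFunc κ) Mo)) {X : Module.End (RatFunc κ) Mo} (hX : X ∈ G) :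
    ofv (fun p => jt τ (mt b X p)) ∈ gL b τ G := by
  change (fun p : Fin n × Fin n => ofv (fun p => jt τ (mt b X p)) (Pi.single p.2 1) p.1) ∈ spanL (jt τ) (G.map (mt b))
  rw [ofv_single]
  exact Submodule.subset_span ⟨_, ⟨X, hX, rfl⟩, rfl⟩

private theorem O8_mt_mul (b : Module.Basis (Fin n) (RatFunc κ) Mo) (X Y : Module.End (RatFunc κ) Mo) (i k : Fin n) :
    mt b (X * Y) (i, k) = ∑ m, mt b X (i, m) * mt b Y (m, k) := by
  change b.repr (X (Y (b k))) i = ∑ m, b.repr (X (b m)) i * b.repr (Y (b k)) m
  conv_lhs => rw [← b.sum_repr (Y (b k))]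
  rw [map_sum, map_sum, Finsupp.finsetSum_apply]
  refine Finset.sum_congr rfl fun m _ => ?_
  rw [map_smul, map_smul, Finsupp.smul_apply, smul_eq_mul, mul_comm]

theorem ker_L {nab : Mo →+ Mo} (irr : ∀ H' : Submodule (RatFunc κ) Mo, (∀ x ∈ H', nab x ∈ H') → H' = ⊥ ∨ H' = ⊤)
    (b : Module.Basis (Fin n) (RatFunc κ) Mo) (τ : κ) (G : Submodule (RatFunc κ) (Module.End (RatFunc κ) Mo)) (hG0 : G ≠ ⊥)
    (hG : ∀ X ∈ G, ∃ X' ∈ G, ∀ x, X' x = nab (X x) - X (nab x)) (x : Fin n → FractionRing (PowerSeries κ))
    (hx : ∀ X ∈ gL b τ G, X x = 0) : x = 0 := by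
  have hker : ∀ z : Mo, (∀ X ∈ G, X z = 0) → z = 0 := by
    let H' : Submodule (RatFunc κ) Mo :=
      { carrier := {z | ∀ X ∈ G, X z = 0}
        zero_mem' := fun X _ => map_zero X
        add_mem' := fun {a c} ha hc X hX => by rw [map_add, ha X hX, hc X hX, add_zero]
        smul_mem' := fun t a ha X hX => by rw [map_smul, ha X hX, smul_zero] }
    have hst : ∀ z ∈ H', nab z ∈ H' := by
      intro z hz X hX
      obtain ⟨X', hX', h⟩ := hG X hX
      have h1 := h z
      rw [hz X hX, hz X' hX', map_zero, zero_sub] at h1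
      exact neg_eq_zero.1 h1.symm
    rcases irr H' hst with h | h
    · intro z hz
      have h1 : z ∈ H' := hz
      rw [h] at h1
      exact (Submodule.mem_bot _).1 h1
    · exfalso
      apply hG0
      rw [Submodule.eq_bot_iff]
      intro X hX
      refine LinearMap.ext fun z => ?_
      have h1 : z ∈ H' := by rw [h]; exact Submodule.mem_top
      exact h1 X hX
  have h1 : x ∈ spanL (jt τ) (⊥ : Submodule (RatFunc κ) (Fin n → RatFunc κ)) := by
    refine mem_spanL_of_ker (jt τ)
      {φ : Fin n → RatFunc κ | ∃ X ∈ G, ∃ i : Fin n, φ = fun k => mt b X (i, k)} ⊥ ?_ x ?_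
    · intro v hv
      rw [Submodule.mem_bot]
      have h2 : b.equivFun.symm v = 0 := by
        refine hker _ fun X hX => ?_
        refine b.repr.injective (Finsupp.ext fun i => ?_)
        have h3 := hv _ ⟨X, hX, i, rfl⟩
        rw [Module.Basis.equivFun_symm_apply, map_sum, map_sum, Finsupp.finsetSum_apply, map_zero, Finsupp.zero_apply, ← h3]
        refine Finset.sum_congr rfl fun k _ => ?_
        rw [map_smul, map_smul, Finsupp.smul_apply, smul_eq_mul, mul_comm]
        rfl
      exact (LinearEquiv.map_eq_zero_iff b.equivFun.symm).1 h2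
    · rintro φ ⟨X, hX, i, rfl⟩
      have h2 := congrFun (hx _ (O8_mem b τ G hX)) i
      rw [ofv_apply] at h2
      exact h2
  have h2 : spanL (jt τ) (⊥ : Submodule (RatFunc κ) (Fin n → RatFunc κ)) ≤ ⊥ := by
    refine Submodule.span_le.2 ?_
    rintro v ⟨z, hz, rfl⟩
    rw [Submodule.mem_bot] at hz
    subst hz
    refine (Submodule.mem_bot _).2 (funext fun i => ?_)
    exact map_zero (jt τ)
  exact (Submodule.mem_bot _).1 (h2 h1)

theorem comm_L (b : Module.Basis (Fin n) (RatFunc κ) Mo) (τ : κ) (G : Submodule (RatFunc κ) (Module.End (RatFunc κ) Mo))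
    (B : Mo →ₗ[RatFunc κ] Mo →ₗ[RatFunc κ] RatFunc κ)
    (hK : ∀ y : Module.End (RatFunc κ) Mo, (∀ X ∈ G, y * X = X * y) → (∀ a c, B (y a) c = B a (y c)) → ∃ c : RatFunc κ, y = c • 1)
    (y : Module.End (FractionRing (PowerSeries κ)) (Fin n → FractionRing (PowerSeries κ))) (hc : ∀ X ∈ gL b τ G, y * X = X * y)
    (ha : ∀ a c, bilL (Matrix.of fun i k => jt τ (B (b i) (b k))) (y a) c =
      bilL (Matrix.of fun i k => jt τ (B (b i) (b k))) a (y c)) : ∃ c : FractionRing (PowerSeries κ), y = c • 1 := by
  obtain ⟨w, hw⟩ : ∃ w : Fin n × Fin n → FractionRing (PowerSeries κ), w = fun p => y (Pi.single p.2 1) p.1 := ⟨_, rfl⟩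
  have hy : y = ofv w := by rw [hw, ofv_eq]
  have h1 : w ∈ spanL (jt τ) (Submodule.span (RatFunc κ)
      {(fun p => if p.1 = p.2 then 1 else 0 : Fin n × Fin n → RatFunc κ)}) := by
    refine mem_spanL_of_ker (jt τ)
      {φ : Fin n × Fin n → RatFunc κ | (∃ X ∈ G, ∃ i k : Fin n, φ = fun p =>
          (if p.1 = i then mt b X (p.2, k) else 0) - (if p.2 = k then mt b X (i, p.1) else 0)) ∨
        ∃ i k : Fin n, φ = fun p =>
          (if p.2 = i then B (b p.1) (b k) else 0) - (if p.2 = k then B (b i) (b p.1) else 0)} _ ?_ w ?_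
    · intro v hv
      obtain ⟨Y, hY⟩ : ∃ Y : Module.End (RatFunc κ) Mo, Y = Matrix.toLin b b (Matrix.of fun i k => v (i, k)) := ⟨_, rfl⟩
      have hYb : ∀ k, Y (b k) = ∑ m, v (m, k) • b m := by
        intro k
        rw [hY, Matrix.toLin_self]
        rfl
      have hmt : mt b Y = v := by
        funext p
        obtain ⟨i, k⟩ := p
        change b.repr (Y (b k)) i = v (i, k)
        rw [hYb, Module.Basis.repr_sum_self]
      have hcomm : ∀ X ∈ G, Y * X = X * Y := by
        intro X hX
        refine mt_inj b (funext fun p => ?_)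
        obtain ⟨i, k⟩ := p
        have h2 := hv _ (Or.inl ⟨X, hX, i, k, rfl⟩)
        rw [O8_comm (fun p => mt b X p) v i k] at h2
        rw [O8_mt_mul, O8_mt_mul, hmt]
        exact sub_eq_zero.1 h2
      have hadj : ∀ a c, B (Y a) c = B a (Y c) := by
        have h3 : B ∘ₗ Y = B.compl₂ Y := by
          refine LinearMap.ext_basis b b fun i k => ?_
          change B (Y (b i)) (b k) = B (b i) (Y (b k))
          have h2 := hv _ (Or.inr ⟨i, k, rfl⟩)
          rw [O8_adj (fun i k => B (b i) (b k)) v i k] at h2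
          rw [hYb, hYb, map_sum, map_sum, LinearMap.sum_apply]
          have h4 := sub_eq_zero.1 h2
          have h5 : ∀ m, (B (v (m, i) • b m)) (b k) = v (m, i) * B (b m) (b k) := by
            intro m
            rw [map_smul, LinearMap.smul_apply, smul_eq_mul]
          have h6 : ∀ m, (B (b i)) (v (m, k) • b m) = B (b i) (b m) * v (m, k) := by
            intro m
            rw [map_smul, smul_eq_mul, mul_comm]
          rw [Finset.sum_congr rfl fun m _ => h5 m, Finset.sum_congr rfl fun m _ => h6 m]
          exact h4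
        intro a c
        exact LinearMap.congr_fun (LinearMap.congr_fun h3 a) c
      obtain ⟨c, hc'⟩ := hK Y hcomm hadj
      refine Submodule.mem_span_singleton.2 ⟨c, ?_⟩
      rw [← hmt, hc']
      funext p
      obtain ⟨i, k⟩ := p
      change c * (if i = k then 1 else 0) = b.repr (c • b k) i
      rw [map_smul, Module.Basis.repr_self, Finsupp.smul_apply, smul_eq_mul, Finsupp.single_apply]
      by_cases h : i = k
      · rw [if_pos h, if_pos h.symm]
      · rw [if_neg h, if_neg (fun h' => h h'.symm)]
    · rintro φ (⟨X, hX, i, k, rfl⟩ | ⟨i, k, rfl⟩)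
      · have h2 := hc _ (O8_mem b τ G hX)
        rw [hy, ofv_mul, ofv_mul] at h2
        have h3 := congrArg (fun Z : Module.End (FractionRing (PowerSeries κ)) (Fin n → FractionRing (PowerSeries κ)) =>
          (fun p : Fin n × Fin n => Z (Pi.single p.2 1) p.1)) h2
        simp only [ofv_single] at h3
        have h4 := congrFun h3 (i, k)
        have h5 := O8_comm (fun p => jt τ (mt b X p)) w i k
        rw [sub_eq_zero.2 h4] at h5
        rw [← h5]
        refine Finset.sum_congr rfl fun p _ => ?_
        congr 1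
        rw [map_sub, apply_ite (jt τ), apply_ite (jt τ), map_zero]
      · have h2 := ha (Pi.single i 1) (Pi.single k 1)
        rw [bilL_apply, bilL_apply] at h2
        have h3 : ∑ a, ∑ c, y (Pi.single i 1) a * (Matrix.of fun i k => jt τ (B (b i) (b k))) a c *
            (Pi.single k 1 : Fin n → FractionRing (PowerSeries κ)) c = ∑ m, w (m, i) * jt τ (B (b m) (b k)) := by
          refine Finset.sum_congr rfl fun m _ => ?_
          rw [Finset.sum_eq_single k]
          · rw [Pi.single_eq_same, mul_one, hw]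
            rfl
          · intro c _ hc
            rw [Pi.single_eq_of_ne hc, mul_zero]
          · intro h
            exact absurd (Finset.mem_univ _) h
        have h4 : ∑ a, ∑ c, (Pi.single i 1 : Fin n → FractionRing (PowerSeries κ)) a *
            (Matrix.of fun i k => jt τ (B (b i) (b k))) a c * y (Pi.single k 1) c = ∑ m, jt τ (B (b i) (b m)) * w (m, k) := by
          rw [Finset.sum_eq_single i]
          · refine Finset.sum_congr rfl fun m _ => ?_
            rw [Pi.single_eq_same, one_mul, hw]
            rfl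
          · intro c _ hc
            refine Finset.sum_eq_zero fun m _ => ?_
            rw [Pi.single_eq_of_ne hc, zero_mul, zero_mul]
          · intro h
            exact absurd (Finset.mem_univ _) h
        rw [h3, h4] at h2
        have h5 := O8_adj (fun i k => jt τ (B (b i) (b k))) w i k
        rw [sub_eq_zero.2 h2] at h5
        rw [← h5]
        refine Finset.sum_congr rfl fun p _ => ?_
        congr 1
        rw [map_sub, apply_ite (jt τ), apply_ite (jt τ), map_zero]
  have h2 : spanL (jt τ) (Submodule.span (RatFunc κ) {(fun p => if p.1 = p.2 then 1 else 0 : Fin n × Fin n → RatFunc κ)}) ≤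
      Submodule.span (FractionRing (PowerSeries κ))
        {(fun p => if p.1 = p.2 then 1 else 0 : Fin n × Fin n → FractionRing (PowerSeries κ))} := by
    refine Submodule.span_le.2 ?_
    rintro v ⟨z, hz, rfl⟩
    obtain ⟨c, rfl⟩ := Submodule.mem_span_singleton.1 hz
    refine Submodule.mem_span_singleton.2 ⟨jt τ c, funext fun p => ?_⟩
    change jt τ c * (if p.1 = p.2 then 1 else 0) = jt τ (c * (if p.1 = p.2 then 1 else 0))
    rw [map_mul, apply_ite (jt τ), map_one, map_zero]
  obtain ⟨c, hcw⟩ := Submodule.mem_span_singleton.1 (h2 h1)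
  refine ⟨c, ?_⟩
  rw [hy, ← hcw]
  refine LinearMap.ext fun x => funext fun i => ?_
  rw [ofv_apply, Finset.sum_eq_single i]
  · change c * (if i = i then 1 else 0) * x i = c * x i
    rw [if_pos rfl, mul_one]
  · intro k _ hk
    change c * (if i = k then 1 else 0) * x k = 0
    rw [if_neg (fun h => hk h.symm), mul_zero, zero_mul]
  · intro h
    exact absurd (Finset.mem_univ _) h

end MPadcEO
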