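import Pool.Agent.Lib.MP_adc574_ag_BN.Cmm

/-!
# O9: the self-adjoint commutant is trivial (medium-, copy of `MPadcBN.comm_scalar`, BN/Cmm.lean)

Copy the proof of `comm_scalar` with the property `Pr y` = `(∀ X ∈ G, y * X = X * y) ∧ ∀ a c, B (y a) c = B a (y c)` in place of `∀ X ∈ G, y * X = X * y`. It is stable under `y ↦ y'` (`com_nab`; self-adjointness: `B (y' a) c = B (nab (y a)) c - B (y (nab a)) c = DK (B (y a) c) - B (y a) (nab c) - B (nab a) (y c)` by `flat` and self-adjointness, and
`B a (y' c) = B a (nab (y c)) - B a (y (nab c)) = DK (B a (y c)) - B (nab a) (y c) - B (y a) (nab c)`: equal), under multiples (`c • y`) and `y - c • 1`. At a node the commutation with the residue `S.a i * S.l k` is the hypothesis `hcom` (only used for the elements with `Pr`), as in `node_nab` (BN/OrdB.lean).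
-/

set_option autoImplicit false

namespace MPadcEO

open MPadcBN MPadcLZ MPadcHM

universe u

variable {κ : Type u} [Field κ] [CharZero κ] {Mo : Type u} [AddCommGroup Mo]
  [Module (RatFunc κ) Mo] [Module (Polynomial κ) Mo] [IsScalarTower (Polynomial κ) (RatFunc κ) Mo]
  {nab : Mo →+ Mo} {n : ℕ}

theorem comm_scalarE [IsAlgClosed κ] [Module.Finite (RatFunc κ) Mo] [Nontrivial Mo]
    (leib : ∀ (c : RatFunc κ) (x : Mo), nab (c • x) = DK κ c • x + c • nab x)
    {E : Submodule (Polynomial κ) Mo} (fg : E.FG)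
    (spn : ∀ x : Mo, ∃ q : Polynomial κ, q ≠ 0 ∧ q • x ∈ E)
    (b : Module.Basis (Fin n) (RatFunc κ) Mo) (hb : LB E b)
    {s : ℕ} {ι : Type} [Fintype ι] {g : ι → Mo} {w : ι → ℤ} (hI : InfOk κ nab s g w)
    (B : Mo →ₗ[RatFunc κ] Mo →ₗ[RatFunc κ] RatFunc κ)
    (flat : ∀ x y, DK κ (B x y) = B (nab x) y + B x (nab y))
    (hnd : ∀ x, (∀ y, B x y = 0) → x = 0)
    (irr : ∀ H' : Submodule (RatFunc κ) Mo, (∀ x ∈ H', nab x ∈ H') → H' = ⊥ ∨ H' = ⊤)
    (G : Submodule (RatFunc κ) (Module.End (RatFunc κ) Mo))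
    (hG : ∀ X ∈ G, ∃ X' ∈ G, ∀ x, X' x = nab (X x) - X (nab x))
    (hloc : ∀ τ : κ, StabAt nab E τ ∨ ∃ S : Lc (Fin n) κ, S.Ok ∧
      (∀ i k, algebraMap (PowerSeries κ) (FractionRing (PowerSeries κ)) PowerSeries.X *
        jt τ (b.repr (nab (b k)) i) = algebraMap (PowerSeries κ) (FractionRing (PowerSeries κ)) (S.Γ i k)) ∧
      ∀ y : Module.End (RatFunc κ) Mo, (∀ X ∈ G, y * X = X * y) → (∀ a c, B (y a) c = B a (y c)) →
        ∀ i k, ∑ m, jt τ (mt b y (i, m)) * resv S (m, k) = ∑ m, resv S (i, m) * jt τ (mt b y (m, k)))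
    (y : Module.End (RatFunc κ) Mo) (hy : ∀ X ∈ G, y * X = X * y) (hya : ∀ a c, B (y a) c = B a (y c)) :
    ∃ c : RatFunc κ, y = c • 1 := by
  classical
  obtain ⟨C₀, hC₀⟩ := ord_zero leib hI B flat hnd E fg spn
  -- self-adjointness of the derivative
  have hadj : ∀ y y' : Module.End (RatFunc κ) Mo, (∀ a c, B (y a) c = B a (y c)) →
      (∀ x, y' x = nab (y x) - y (nab x)) → ∀ a c, B (y' a) c = B a (y' c) := by
    intro y y' hya hy' a c
    have h1 := flat (y a) c
    have h2 := flat a (y c)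
    rw [hy', hy', map_sub, LinearMap.sub_apply, map_sub, hya (nab a) c, ← hya a (nab c)]
    rw [hya a c] at h1
    rw [h1] at h2
    linear_combination h2
  -- the connection preserves the lattice of the commutant
  have hlat : ∀ y y' : Module.End (RatFunc κ) Mo, (∀ X ∈ G, y * X = X * y) →
      (∀ a c, B (y a) c = B a (y c)) →
      (∀ x ∈ E, y x ∈ E) → (∀ x, y' x = nab (y x) - y (nab x)) → ∀ x ∈ E, y' x ∈ E := by
    intro y y' hy hya hyE hy' x hx
    refine in_E E _ fun τ => ?_
    rcases hloc τ with hst | ⟨S, hS, hΓ, hres⟩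
    · exact lat_nab hyE hy' hst x hx
    · exact node_nab leib hb S hS hΓ hyE hy' (fun i k => hres y hy hya i k) x hx
  have hmono : ∀ {C C' : ℤ} {y : Module.End (RatFunc κ) Mo}, C ≤ C' → OrdLe g w s C y →
      OrdLe g w s C' y := fun hC hy q x hx => inV_mono (by omega) (hy q x hx)
  have hdim : (Module.finrank (RatFunc κ) Mo : RatFunc κ) ≠ 0 :=
    Nat.cast_ne_zero.2 (Module.finrank_pos).ne'
  -- the claim for trace zero
  have hmain : ∀ (N : ℕ) (y : Module.End (RatFunc κ) Mo), (∀ X ∈ G, y * X = X * y) →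
      (∀ a c, B (y a) c = B a (y c)) →
      (∀ x ∈ E, y x ∈ E) → LinearMap.trace (RatFunc κ) Mo y = 0 → OrdLe g w s (C₀ + N) y →
      y = 0 := by
    intro N
    induction N with
    | zero =>
      intro y _ _ hyE _ hyO
      exact hC₀ y hyE (by simpa using hyO)
    | succ N ih =>
      intro y hy hya hyE hyt hyO
      obtain ⟨y', hy'⟩ := exists_com leib y
      have h0 : y' = 0 := by
        refine ih y' (com_nab G hG hy hy') (hadj y y' hya hy') (hlat y y' hy hya hyE hy') ?_ ?_
        · rw [tr_nab (DK κ) (fun a b => map_add _ a b) nab leib y y' hy', hyt, map_zero]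
        · have h1 := ord_nab leib hI hyO hy'
          exact hmono (by push_cast; omega) h1
      obtain ⟨a, ha⟩ := schur leib irr y (fun x => by
        have h1 := hy' x
        rw [h0, LinearMap.zero_apply] at h1
        exact sub_eq_zero.1 h1.symm)
      rw [ha, map_smul, LinearMap.trace_one, smul_eq_mul] at hyt
      rw [ha]
      rcases mul_eq_zero.1 hyt with h1 | h1
      · rw [h1, zero_smul]
      · exact absurd h1 hdim
  -- scaling
  have hscale : ∀ y : Module.End (RatFunc κ) Mo, (∀ X ∈ G, y * X = X * y) →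
      (∀ a c, B (y a) c = B a (y c)) →
      LinearMap.trace (RatFunc κ) Mo y = 0 → y = 0 := by
    intro y hy hya hyt
    obtain ⟨q, hq, hqE⟩ : ∃ q : Polynomial κ, q ≠ 0 ∧ ∀ x ∈ E, q • y x ∈ E := by
      obtain ⟨T, hT⟩ := fg
      choose q hq hqE using fun x : Mo => spn (y x)
      refine ⟨∏ x ∈ T, q x, Finset.prod_ne_zero_iff.2 fun x _ => hq x, fun x hx => ?_⟩
      rw [← hT] at hx
      induction hx using Submodule.span_induction with
      | mem x hx =>
        rw [← Finset.prod_erase_mul T q hx, mul_smul]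
        exact E.smul_mem _ (hqE x)
      | zero => rw [map_zero, smul_zero]; exact E.zero_mem
      | add u v _ _ hu hv => rw [map_add, smul_add]; exact E.add_mem hu hv
      | smul c v _ hv =>
        have h1 : y (c • v) = c • y v := by
          rw [← algebraMap_smul (RatFunc κ) c v, map_smul, algebraMap_smul]
        rw [h1, smul_comm]
        exact E.smul_mem _ hv
    let z : Module.End (RatFunc κ) Mo := algebraMap (Polynomial κ) (RatFunc κ) q • y
    have hq' : algebraMap (Polynomial κ) (RatFunc κ) q ≠ 0 := by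
      rw [Ne, map_eq_zero_iff _ (RatFunc.algebraMap_injective κ)]
      exact hq
    have hz0 : z = 0 := by
      obtain ⟨C, hC⟩ := ord_exists hI z
      refine hmain (C - C₀).toNat z (fun X hX => ?_) (fun a c => ?_) (fun x hx => ?_) ?_ (hmono ?_ hC)
      · rw [smul_mul_assoc, hy X hX, mul_smul_comm]
      · change B (algebraMap (Polynomial κ) (RatFunc κ) q • y a) c =
          B a (algebraMap (Polynomial κ) (RatFunc κ) q • y c)
        rw [map_smul, map_smul, LinearMap.smul_apply, hya]
      · change algebraMap (Polynomial κ) (RatFunc κ) q • y x ∈ E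
        rw [algebraMap_smul]
        exact hqE x hx
      · rw [map_smul, hyt, smul_zero]
      · have := Int.self_le_toNat (C - C₀)
        omega
    exact (smul_eq_zero.1 hz0).resolve_left hq'
  refine ⟨LinearMap.trace (RatFunc κ) Mo y / Module.finrank (RatFunc κ) Mo, ?_⟩
  rw [← sub_eq_zero]
  apply hscale
  · intro X hX
    rw [sub_mul, mul_sub, hy X hX, smul_mul_assoc, mul_smul_comm, one_mul, mul_one]
  · intro a c
    obtain ⟨t, ht⟩ : ∃ t : RatFunc κ,
        t = LinearMap.trace (RatFunc κ) Mo y / Module.finrank (RatFunc κ) Mo := ⟨_, rfl⟩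
    rw [← ht]
    change B (y a - t • a) c = B a (y c - t • c)
    rw [map_sub, map_sub, LinearMap.sub_apply, map_smul, map_smul, LinearMap.smul_apply, hya]
  · rw [map_sub, map_smul, LinearMap.trace_one, smul_eq_mul, div_mul_cancel₀ _ hdim, sub_self]

end MPadcEO
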