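import Pool.Agent.Lib.MP_adc574_ag_EO.O2
import Pool.Agent.Lib.MP_adc574_ag_EO.O3
import Pool.Agent.Lib.MP_adc574_ag_EO.O4
import Pool.Agent.Lib.MP_adc574_ag_EO.O5
import Pool.Agent.Lib.MP_adc574_ag_EO.O6
import Pool.Agent.Lib.MP_adc574_ag_EO.O7
import Pool.Agent.Lib.MP_adc574_ag_EO.O8
import Pool.Agent.Lib.MP_adc574_ag_EO.O9
import Pool.Agent.Lib.MP_adc574_ag_EO.E3
import Pool.Agent.Lib.MP_adc574_ag_EO.E5
import Pool.Agent.Lib.MP_adc574_ag_BN.SpN

/-!
# O10: a horizontal Lie algebra is `0` or the orthogonal Lie algebra (HARD: assembly; model `MPadcBN.sp_stab`, BN/SpN.lean)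

PROOF. As in `sp_stab`: `β = bilL Bm`, `Bm i k = jt τ (B (b i) (b k))`, symmetric, nondegenerate, `gL b τ G` is skew for `β` and a Lie algebra (`gL_lie`), `hBD` the flatness of `Bm`.
(0) AT A NODE `τ` with `S`, `LocE b nab τ S`, `2 α = - (2 w + 1)`: `v i = algebraMap (S.a i)`. `Ba_l` (E4): `β z v = ρ * (l . z)`, so `β v v = ρ * α ≠ 0` (`hla`; `α ≠ 0`). `g = gL b τ G`. `conj_stab`, `span_conn` (E3): `g` is stable under `X ↦ R X R`, `R z = z - (2 / β v v * β z v) • v = z - ((2 / α) (l . z)) • v` (`gL` is defined by the matrices; `ofv_mul`).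
`wd_conj` (O1): `wd β (X v) v ∈ g` for `X ∈ g`. `wd_all` (O2): `P`. `hT` of `nondeg_P` (O4) by `tr_form` (O6, `D = DK κ`) and `tr_formL` (O7); so `P` is nondegenerate. `ker_L` (O8): some `X ∈ g` has `X v ≠ 0` (`v ≠ 0`), `x₀ = X v ∈ P`, `β x₀ v = 0` (skew, symmetric, `2 ≠ 0`). `exists_aniso` (O4): `x ∈ P`, `β x v = 0`, `β x x ≠ 0`.
(1) For `y` in the self-adjoint commutant over `K`, `y_L = ofv (jt τ ∘ mt b y)` commutes with `g` (`gL_ind`, `ofv_mt`) and is self-adjoint for `β`, so `fix_v` (O3): `y_L v = c • v`. Self-adjointness: `β (y_L z) v = β z (y_L v) = c β z v`, so `l . (y_L z) = c (l . z)`, i.e. `∑ m, l m * y (m, k) = c l k` and `∑ m, y (i, m) a m = c a i`: the commutation with `resv S` needed in `comm_scalarE` (O9).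
So (for all nodes) `comm_scalarE` gives that the self-adjoint commutant over `K` is `K`. (2) There is a node: otherwise as in `exists_node` (SpN): `E` is stable, `inf_stable` gives `h ≠ 0`, `nab h = 0`, the line of `h` is stable, so all of `Mo` (`irr`); then every `X ∈ G` is `X h = c • h` and `2 c B h h = 0`, `B h h ≠ 0` (`hnd`), so `X = 0`, contradiction to `hG0`.
(3) At this node: `comm_L` (O8), `P_top` (O5): `P = ⊤`. So `wd β x y ∈ g` for all `x y : Fin n → L`. For `x y : Mo` take the coordinates `xl i = jt τ (b.repr x i)`; `wd β xl yl = ofv (jt τ ∘ mt b (wd B x y))` (as at the end of `sp_stab`), `spanL_rat`, `mt_inj`.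
-/

set_option autoImplicit false

namespace MPadcEO

open MPadcLZ MPadcHM MPadcBM MPadcBN

universe u

variable {κ : Type u} [Field κ] [CharZero κ] {Mo : Type u} [AddCommGroup Mo]
  [Module (RatFunc κ) Mo] [Module (Polynomial κ) Mo] [IsScalarTower (Polynomial κ) (RatFunc κ) Mo]
  {nab : Mo →+ Mo} {n : ℕ}

private theorem O10_det (b : Module.Basis (Fin n) (RatFunc κ) Mo) (τ : κ)
    (B : Mo →ₗ[RatFunc κ] Mo →ₗ[RatFunc κ] RatFunc κ) (hnd : ∀ x, (∀ y, B x y = 0) → x = 0) :
    (Matrix.of fun i k => jt τ (B (b i) (b k)) :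
      Matrix (Fin n) (Fin n) (FractionRing (PowerSeries κ))).det ≠ 0 := by
  have h1 : (Matrix.of fun i k => jt τ (B (b i) (b k)) :
      Matrix (Fin n) (Fin n) (FractionRing (PowerSeries κ))) =
        (jt τ).mapMatrix (Matrix.of fun i k => B (b i) (b k)) := by
    ext i k
    rfl
  rw [h1, ← RingHom.map_det, Ne, map_eq_zero_iff _ (jt τ).injective]
  exact gram_det b B hnd

private theorem O10_flat (b : Module.Basis (Fin n) (RatFunc κ) Mo) (τ : κ)
    (Γ : Matrix (Fin n) (Fin n) (PowerSeries κ))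
    (hΓ : ∀ i k, algebraMap (PowerSeries κ) (FractionRing (PowerSeries κ)) PowerSeries.X *
      jt τ (b.repr (nab (b k)) i) =
        algebraMap (PowerSeries κ) (FractionRing (PowerSeries κ)) (Γ i k))
    {DX : FractionRing (PowerSeries κ) →+ FractionRing (PowerSeries κ)} (hDX : IsDL κ DX)
    (B : Mo →ₗ[RatFunc κ] Mo →ₗ[RatFunc κ] RatFunc κ)
    (flat : ∀ x y, DK κ (B x y) = B (nab x) y + B x (nab y)) (i k : Fin n) :
    algebraMap (PowerSeries κ) (FractionRing (PowerSeries κ)) PowerSeries.X *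
      DX (jt τ (B (b i) (b k))) =
        (∑ m, algebraMap (PowerSeries κ) (FractionRing (PowerSeries κ)) (Γ m i) *
          jt τ (B (b m) (b k))) +
        ∑ m, jt τ (B (b i) (b m)) *
          algebraMap (PowerSeries κ) (FractionRing (PowerSeries κ)) (Γ m k) := by
  have h1 : DX (jt τ (B (b i) (b k))) = jt τ (DK κ (B (b i) (b k))) := jt_DK hDX τ _
  rw [h1, coord_B b B flat, map_add, map_sum, map_sum, mul_add, Finset.mul_sum, Finset.mul_sum]
  congr 1
  · refine Finset.sum_congr rfl fun m _ => ?_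
    rw [map_mul, ← mul_assoc, hΓ]
  · refine Finset.sum_congr rfl fun m _ => ?_
    rw [map_mul, mul_left_comm, hΓ]

private theorem O10_sym (b : Module.Basis (Fin n) (RatFunc κ) Mo) (τ : κ)
    (B : Mo →ₗ[RatFunc κ] Mo →ₗ[RatFunc κ] RatFunc κ) (hsym : ∀ x y, B y x = B x y)
    (x y : Fin n → FractionRing (PowerSeries κ)) :
    bilL (Matrix.of fun i k => jt τ (B (b i) (b k))) x y =
      bilL (Matrix.of fun i k => jt τ (B (b i) (b k))) y x := by
  rw [bilL_apply, bilL_apply, Finset.sum_comm]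
  refine Finset.sum_congr rfl fun k _ => Finset.sum_congr rfl fun i _ => ?_
  rw [Matrix.of_apply, Matrix.of_apply, hsym (b k) (b i)]
  ring

private theorem O10_left (b : Module.Basis (Fin n) (RatFunc κ) Mo) (τ : κ)
    (B : Mo →ₗ[RatFunc κ] Mo →ₗ[RatFunc κ] RatFunc κ) (X : Module.End (RatFunc κ) Mo)
    (x y : Fin n → FractionRing (PowerSeries κ)) :
    bilL (Matrix.of fun i k => jt τ (B (b i) (b k))) (ofv (fun p => jt τ (mt b X p)) x) y =
      ∑ i, ∑ k, x i * jt τ (B (X (b i)) (b k)) * y k := by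
  rw [bilL_apply]
  have h2 : ∀ m k, ofv (fun p => jt τ (mt b X p)) x m *
      (Matrix.of fun i k => jt τ (B (b i) (b k))) m k * y k =
      ∑ i, x i * (jt τ (mt b X (m, i)) * jt τ (B (b m) (b k))) * y k := fun m k => by
    rw [ofv_apply, Finset.sum_mul, Finset.sum_mul]
    exact Finset.sum_congr rfl fun i _ => by rw [Matrix.of_apply]; ring
  rw [Finset.sum_congr rfl fun m _ => Finset.sum_congr rfl fun k _ => h2 m k]
  rw [Finset.sum_congr rfl fun m _ => Finset.sum_comm, Finset.sum_comm]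
  refine Finset.sum_congr rfl fun i _ => ?_
  rw [Finset.sum_comm]
  refine Finset.sum_congr rfl fun k _ => ?_
  rw [← Finset.sum_mul, ← Finset.mul_sum]
  congr 2
  have h3 : X (b i) = ∑ m, mt b X (m, i) • b m := (b.sum_repr _).symm
  rw [h3, map_sum, LinearMap.sum_apply, map_sum]
  refine Finset.sum_congr rfl fun m _ => ?_
  rw [map_smul, LinearMap.smul_apply, smul_eq_mul, map_mul]

private theorem O10_right (b : Module.Basis (Fin n) (RatFunc κ) Mo) (τ : κ)
    (B : Mo →ₗ[RatFunc κ] Mo →ₗ[RatFunc κ] RatFunc κ) (X : Module.End (RatFunc κ) Mo)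
    (x y : Fin n → FractionRing (PowerSeries κ)) :
    bilL (Matrix.of fun i k => jt τ (B (b i) (b k))) x (ofv (fun p => jt τ (mt b X p)) y) =
      ∑ i, ∑ k, x i * jt τ (B (b i) (X (b k))) * y k := by
  rw [bilL_apply]
  refine Finset.sum_congr rfl fun i _ => ?_
  have h2 : ∀ m, x i * (Matrix.of fun i k => jt τ (B (b i) (b k))) i m *
      ofv (fun p => jt τ (mt b X p)) y m =
      ∑ k, x i * (jt τ (B (b i) (b m)) * jt τ (mt b X (m, k))) * y k := fun m => by
    rw [ofv_apply, Finset.mul_sum]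
    exact Finset.sum_congr rfl fun k _ => by rw [Matrix.of_apply]; ring
  rw [Finset.sum_congr rfl fun m _ => h2 m, Finset.sum_comm]
  refine Finset.sum_congr rfl fun k _ => ?_
  rw [← Finset.sum_mul, ← Finset.mul_sum]
  congr 2
  have h3 : X (b k) = ∑ m, mt b X (m, k) • b m := (b.sum_repr _).symm
  rw [h3, map_sum, map_sum]
  refine Finset.sum_congr rfl fun m _ => ?_
  rw [map_smul, smul_eq_mul, map_mul, mul_comm]

private theorem O10_skew (b : Module.Basis (Fin n) (RatFunc κ) Mo) (τ : κ)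
    (B : Mo →ₗ[RatFunc κ] Mo →ₗ[RatFunc κ] RatFunc κ)
    (G : Submodule (RatFunc κ) (Module.End (RatFunc κ) Mo))
    (hGs : ∀ X ∈ G, ∀ x y, B (X x) y + B x (X y) = 0) :
    ∀ X ∈ gL b τ G, ∀ x y, bilL (Matrix.of fun i k => jt τ (B (b i) (b k))) (X x) y +
      bilL (Matrix.of fun i k => jt τ (B (b i) (b k))) x (X y) = 0 := by
  set β := bilL (Matrix.of fun i k => jt τ (B (b i) (b k))) with hβ
  let T : Submodule (FractionRing (PowerSeries κ))
      (Module.End (FractionRing (PowerSeries κ)) (Fin n → FractionRing (PowerSeries κ))) :=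
    { carrier := {X | ∀ x y, β (X x) y + β x (X y) = 0}
      zero_mem' := by
        intro x y
        rw [LinearMap.zero_apply, LinearMap.zero_apply, map_zero, map_zero,
          LinearMap.zero_apply, add_zero]
      add_mem' := by
        intro X Y hX hY x y
        rw [LinearMap.add_apply, LinearMap.add_apply, map_add, map_add, LinearMap.add_apply,
          add_add_add_comm, hX, hY, add_zero]
      smul_mem' := by
        intro c X hX x y
        rw [LinearMap.smul_apply, LinearMap.smul_apply, map_smul, map_smul,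
          LinearMap.smul_apply, ← smul_add, hX, smul_zero] }
  refine gL_ind T fun X hX => ?_
  intro x y
  rw [hβ, O10_left, O10_right, ← Finset.sum_add_distrib]
  refine Finset.sum_eq_zero fun i _ => ?_
  rw [← Finset.sum_add_distrib]
  refine Finset.sum_eq_zero fun k _ => ?_
  rw [← add_mul, ← mul_add, ← map_add, hGs X hX, map_zero, mul_zero, zero_mul]

private theorem O10_comm (b : Module.Basis (Fin n) (RatFunc κ) Mo) (τ : κ)
    (G : Submodule (RatFunc κ) (Module.End (RatFunc κ) Mo)) (y : Module.End (RatFunc κ) Mo)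
    (hy : ∀ X ∈ G, y * X = X * y) :
    ∀ X ∈ gL b τ G, ofv (fun p => jt τ (mt b y p)) * X = X * ofv (fun p => jt τ (mt b y p)) := by
  let T : Submodule (FractionRing (PowerSeries κ))
      (Module.End (FractionRing (PowerSeries κ)) (Fin n → FractionRing (PowerSeries κ))) :=
    { carrier := {X | ofv (fun p => jt τ (mt b y p)) * X = X * ofv (fun p => jt τ (mt b y p))}
      zero_mem' := by
        change _ * 0 = 0 * _
        rw [mul_zero, zero_mul]
      add_mem' := by
        intro X Y hX hY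
        change _ * (X + Y) = (X + Y) * _
        change _ * X = X * _ at hX
        change _ * Y = Y * _ at hY
        rw [mul_add, add_mul, hX, hY]
      smul_mem' := by
        intro c X hX
        change _ * (c • X) = (c • X) * _
        change _ * X = X * _ at hX
        rw [mul_smul_comm, smul_mul_assoc, hX] }
  refine gL_ind T fun X hX => ?_
  change _ * _ = _ * _
  rw [ofv_mt, ofv_mt, hy X hX]

private theorem O10_alne {α : κ} {w : ℕ} (hw : 2 * α = -(2 * (w : κ) + 1)) : α ≠ 0 := by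
  rintro rfl
  rw [mul_zero] at hw
  have h1 : ((2 * w + 1 : ℕ) : κ) = 0 := by
    push_cast
    rw [← neg_eq_zero, ← hw]
  exact absurd (Nat.cast_eq_zero.1 h1) (by omega)

private theorem O10_node [Module.Finite (RatFunc κ) Mo]
    (leib : ∀ (c : RatFunc κ) (x : Mo), nab (c • x) = DK κ c • x + c • nab x)
    (b : Module.Basis (Fin n) (RatFunc κ) Mo)
    (B : Mo →ₗ[RatFunc κ] Mo →ₗ[RatFunc κ] RatFunc κ)
    (flat : ∀ x y, DK κ (B x y) = B (nab x) y + B x (nab y)) (hsym : ∀ x y, B y x = B x y)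
    (hnd : ∀ x, (∀ y, B x y = 0) → x = 0)
    (irr : ∀ H' : Submodule (RatFunc κ) Mo, (∀ x ∈ H', nab x ∈ H') → H' = ⊥ ∨ H' = ⊤)
    (G : Submodule (RatFunc κ) (Module.End (RatFunc κ) Mo)) (hG0 : G ≠ ⊥)
    (hGl : ∀ X ∈ G, ∀ Y ∈ G, X * Y - Y * X ∈ G) (hGs : ∀ X ∈ G, ∀ x y, B (X x) y + B x (X y) = 0)
    (hG : ∀ X ∈ G, ∃ X' ∈ G, ∀ x, X' x = nab (X x) - X (nab x))
    (τ : κ) (S : Lc (Fin n) κ) (hS : LocE b nab τ S)
    (v : Fin n → FractionRing (PowerSeries κ))
    (hv : ∀ i, v i = algebraMap (PowerSeries κ) (FractionRing (PowerSeries κ)) (S.a i)) :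
    (∃ ρ : FractionRing (PowerSeries κ), ρ ≠ 0 ∧ ∀ z,
      bilL (Matrix.of fun i k => jt τ (B (b i) (b k))) z v =
        ρ * ∑ i, z i * algebraMap (PowerSeries κ) (FractionRing (PowerSeries κ)) (S.l i)) ∧
    bilL (Matrix.of fun i k => jt τ (B (b i) (b k))) v v ≠ 0 ∧
    ∃ P : Submodule (FractionRing (PowerSeries κ)) (Fin n → FractionRing (PowerSeries κ)),
      v ∈ P ∧ (∀ X ∈ gL b τ G, ∀ x ∈ P, X x ∈ P) ∧
      (∀ x ∈ P, ∀ y ∈ P, wd (bilL (Matrix.of fun i k => jt τ (B (b i) (b k)))) x y ∈ gL b τ G) ∧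
      (∀ x ∈ P, (∀ z ∈ P, bilL (Matrix.of fun i k => jt τ (B (b i) (b k))) x z = 0) → x = 0) ∧
      ∃ x ∈ P, bilL (Matrix.of fun i k => jt τ (B (b i) (b k))) x v = 0 ∧
        bilL (Matrix.of fun i k => jt τ (B (b i) (b k))) x x ≠ 0 := by
  classical
  obtain ⟨DX, hDX⟩ := exists_DX κ
  have hcz : CharZero (FractionRing (PowerSeries κ)) :=
    charZero_of_injective_ringHom (jt τ).injective
  have hinj := IsFractionRing.injective (PowerSeries κ) (FractionRing (PowerSeries κ))
  obtain ⟨hSok, ⟨w, hw⟩, hΓ⟩ := hS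
  have hα := O10_alne hw
  have h2 : (2 : FractionRing (PowerSeries κ)) ≠ 0 := two_ne_zero
  obtain ⟨ρ, hρ0, hρ⟩ := Ba_l hSok hDX w hw (Matrix.of fun i k => jt τ (B (b i) (b k)))
    (fun i k => O10_flat b τ S.Γ hΓ hDX B flat i k) (O10_det b τ B hnd)
  have hbv : ∀ z, bilL (Matrix.of fun i k => jt τ (B (b i) (b k))) z v =
      ρ * ∑ i, z i * algebraMap (PowerSeries κ) (FractionRing (PowerSeries κ)) (S.l i) := by
    intro z
    rw [bilL_apply, Finset.mul_sum]
    refine Finset.sum_congr rfl fun i _ => ?_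
    have h3 : ∑ k, z i * (Matrix.of fun i k => jt τ (B (b i) (b k))) i k * v k =
        z i * ∑ k, (Matrix.of fun i k => jt τ (B (b i) (b k))) i k *
          algebraMap (PowerSeries κ) (FractionRing (PowerSeries κ)) (S.a k) := by
      rw [Finset.mul_sum]
      exact Finset.sum_congr rfl fun k _ => by rw [hv, mul_assoc]
    rw [h3, hρ]
    ring
  have hs := O10_sym b τ B hsym
  have hsk := O10_skew b τ B G hGs
  set β := bilL (Matrix.of fun i k => jt τ (B (b i) (b k))) with hβ
  have hla : ∑ i, v i * algebraMap (PowerSeries κ) (FractionRing (PowerSeries κ)) (S.l i) =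
      algebraMap (PowerSeries κ) (FractionRing (PowerSeries κ)) (PowerSeries.C S.α) := by
    rw [← hSok.hla, map_sum]
    refine Finset.sum_congr rfl fun i _ => ?_
    rw [hv, map_mul, mul_comm]
  have hCα : algebraMap (PowerSeries κ) (FractionRing (PowerSeries κ)) (PowerSeries.C S.α) ≠ 0 := by
    intro h
    apply hα
    have h4 : (PowerSeries.C S.α : PowerSeries κ) = 0 := hinj (h.trans (map_zero _).symm)
    exact (map_eq_zero_iff _ PowerSeries.C_injective).1 h4
  have hvv : β v v = ρ *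
      algebraMap (PowerSeries κ) (FractionRing (PowerSeries κ)) (PowerSeries.C S.α) := by
    rw [hbv, hla]
  have hvv0 : β v v ≠ 0 := by
    rw [hvv]
    exact mul_ne_zero hρ0 hCα
  have hv0 : v ≠ 0 := by
    intro h
    apply hvv0
    rw [h, map_zero]
  -- the reflection
  obtain ⟨R, hR⟩ : ∃ R : Fin n → Fin n → FractionRing (PowerSeries κ), ∀ i k,
      R i k = (if i = k then 1 else 0) -
        algebraMap (PowerSeries κ) (FractionRing (PowerSeries κ))
          (PowerSeries.C (2 / S.α) * (S.a i * S.l k)) := ⟨_, fun _ _ => rfl⟩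
  have hRz : ∀ z, ofv (fun p : Fin n × Fin n => R p.1 p.2) z =
      z - (2 / β v v * β z v) • v := by
    intro z
    funext i
    rw [ofv_apply, Pi.sub_apply, Pi.smul_apply, smul_eq_mul, hvv, hbv]
    have h3 : ∀ k, R i k * z k = (if i = k then z k else 0) -
        (algebraMap (PowerSeries κ) (FractionRing (PowerSeries κ)) (PowerSeries.C (2 / S.α)) * v i) *
          (z k * algebraMap (PowerSeries κ) (FractionRing (PowerSeries κ)) (S.l k)) := by
      intro k
      rw [hR, hv, map_mul, map_mul, sub_mul, ite_mul, one_mul, zero_mul]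
      ring
    rw [Finset.sum_congr rfl fun k _ => h3 k, Finset.sum_sub_distrib, Finset.sum_ite_eq,
      if_pos (Finset.mem_univ i), ← Finset.mul_sum]
    congr 1
    have h4 : algebraMap (PowerSeries κ) (FractionRing (PowerSeries κ)) (PowerSeries.C (2 / S.α)) *
        algebraMap (PowerSeries κ) (FractionRing (PowerSeries κ)) (PowerSeries.C S.α) = 2 := by
      rw [← map_mul, ← map_mul, div_mul_cancel₀ _ hα, map_ofNat, map_ofNat]
    have h5 : algebraMap (PowerSeries κ) (FractionRing (PowerSeries κ)) (PowerSeries.C (2 / S.α)) =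
        2 / algebraMap (PowerSeries κ) (FractionRing (PowerSeries κ)) (PowerSeries.C S.α) := by
      rw [eq_div_iff hCα, h4]
    rw [h5]
    field_simp
  have hRg : ∀ X ∈ gL b τ G, ofv (fun p : Fin n × Fin n => R p.1 p.2) * X *
      ofv (fun p : Fin n × Fin n => R p.1 p.2) ∈ gL b τ G := by
    intro X hX
    have h3 := conj_stab hSok w hw hDX (spanL (jt τ) (G.map (mt b)))
      (span_conn leib b τ S.Γ hΓ hDX G hG) R hR _ hX
    have h4 : ofv (fun p : Fin n × Fin n => R p.1 p.2) * X *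
        ofv (fun p : Fin n × Fin n => R p.1 p.2) =
        ofv (fun p : Fin n × Fin n => ∑ i, ∑ k, R p.1 i *
          (fun q : Fin n × Fin n => X (Pi.single q.2 1) q.1) (i, k) * R k p.2) := by
      conv_lhs => rw [← ofv_eq X, ofv_mul, ofv_mul]
      refine congrArg ofv (funext fun p => ?_)
      rw [Finset.sum_comm]
      refine Finset.sum_congr rfl fun k _ => ?_
      rw [Finset.sum_mul]
    rw [h4, ofv_mem_gL]
    exact h3
  have hwg := wd_conj h2 β hs v hvv0 _ hRz (gL b τ G) hsk hRg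
  obtain ⟨P, hvP, hXv, hXP, hPP⟩ := wd_all h2 β hs (gL b τ G) (gL_lie hGl) hsk v hvv0 hwg
  have hT := tr_formL b τ G (tr_form (DK κ) (fun a c => map_add _ a c) nab leib irr G hG)
  have hPnd := nondeg_P β hs (gL b τ G) hsk v hvv0 hT P hvP hXP (fun x hx => hPP x hx v hvP)
  refine ⟨⟨ρ, hρ0, hbv⟩, hvv0, P, hvP, hXP, hPP, hPnd, ?_⟩
  obtain ⟨X, hX, hXv0⟩ : ∃ X ∈ gL b τ G, X v ≠ 0 := by
    by_contra hcon
    push Not at hcon
    exact hv0 (ker_L irr b τ G hG0 hG v hcon)
  refine exists_aniso h2 β hs v hvv0 P hvP hPnd (X v) (hXv X hX) ?_ hXv0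
  have h3 := hsk X hX v v
  rw [hs v (X v), ← two_mul] at h3
  exact (mul_eq_zero.1 h3).resolve_left h2

private theorem O10_exists [IsAlgClosed κ] [Nontrivial Mo]
    (leib : ∀ (c : RatFunc κ) (x : Mo), nab (c • x) = DK κ c • x + c • nab x)
    {E : Submodule (Polynomial κ) Mo} (fg : E.FG)
    (spn : ∀ x : Mo, ∃ q : Polynomial κ, q ≠ 0 ∧ q • x ∈ E)
    {s : ℕ} {ι : Type} [Fintype ι] {g : ι → Mo} {w : ι → ℤ} (hI : InfOk κ nab s g w)
    (B : Mo →ₗ[RatFunc κ] Mo →ₗ[RatFunc κ] RatFunc κ)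
    (flat : ∀ x y, DK κ (B x y) = B (nab x) y + B x (nab y))
    (hnd : ∀ x, (∀ y, B x y = 0) → x = 0)
    (irr : ∀ H' : Submodule (RatFunc κ) Mo, (∀ x ∈ H', nab x ∈ H') → H' = ⊥ ∨ H' = ⊤)
    (G : Submodule (RatFunc κ) (Module.End (RatFunc κ) Mo)) (hG0 : G ≠ ⊥)
    (hGs : ∀ X ∈ G, ∀ x y, B (X x) y + B x (X y) = 0) :
    ∃ τ, ¬ StabAt nab E τ := by
  by_contra hcon
  push Not at hcon
  have hst : ∀ x ∈ E, nab x ∈ E := fun x hx => in_E E _ fun τ => hcon τ x hx
  have hne : E ≠ ⊥ := by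
    rintro rfl
    obtain ⟨x, hx⟩ := exists_ne (0 : Mo)
    obtain ⟨q, hq, hqx⟩ := spn x
    rw [Submodule.mem_bot, ← algebraMap_smul (RatFunc κ), smul_eq_zero,
      map_eq_zero_iff _ (RatFunc.algebraMap_injective κ)] at hqx
    rcases hqx with h | h
    · exact hq h
    · exact hx h
  obtain ⟨h, -, hh0, hh⟩ := inf_stable leib hI B flat hnd E fg hst hne
  have h1 := irr (Submodule.span (RatFunc κ) {h}) (by
    intro x hx
    obtain ⟨c, rfl⟩ := Submodule.mem_span_singleton.1 hx
    rw [leib, hh, smul_zero, add_zero]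
    exact Submodule.smul_mem _ _ (Submodule.mem_span_singleton_self h))
  rcases h1 with h1 | h1
  · rw [Submodule.span_singleton_eq_bot] at h1
    exact hh0 h1
  · have hall : ∀ y : Mo, ∃ c : RatFunc κ, c • h = y := fun y =>
      Submodule.mem_span_singleton.1 (by rw [h1]; exact Submodule.mem_top)
    have hB : B h h ≠ 0 := by
      intro h0
      apply hh0
      apply hnd
      intro y
      obtain ⟨c, rfl⟩ := hall y
      rw [map_smul, h0, smul_zero]
    apply hG0
    rw [eq_bot_iff]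
    intro X hX
    rw [Submodule.mem_bot]
    obtain ⟨c, hc⟩ := hall (X h)
    have h2 := hGs X hX h h
    rw [← hc, map_smul, map_smul, LinearMap.smul_apply, smul_eq_mul, ← two_mul] at h2
    have h3 : c = 0 := by
      rcases mul_eq_zero.1 h2 with h3 | h3
      · exact absurd h3 two_ne_zero
      · exact (mul_eq_zero.1 h3).resolve_right hB
    refine LinearMap.ext fun y => ?_
    obtain ⟨d, rfl⟩ := hall y
    rw [map_smul, ← hc, h3, zero_smul, smul_zero, LinearMap.zero_apply]

theorem so_stab [IsAlgClosed κ] [Module.Finite (RatFunc κ) Mo] [Nontrivial Mo]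
    (leib : ∀ (c : RatFunc κ) (x : Mo), nab (c • x) = DK κ c • x + c • nab x)
    {E : Submodule (Polynomial κ) Mo} (fg : E.FG)
    (spn : ∀ x : Mo, ∃ q : Polynomial κ, q ≠ 0 ∧ q • x ∈ E)
    (b : Module.Basis (Fin n) (RatFunc κ) Mo) (hb : LB E b)
    {s : ℕ} {ι : Type} [Fintype ι] {g : ι → Mo} {w : ι → ℤ} (hI : InfOk κ nab s g w)
    (B : Mo →ₗ[RatFunc κ] Mo →ₗ[RatFunc κ] RatFunc κ)
    (flat : ∀ x y, DK κ (B x y) = B (nab x) y + B x (nab y)) (hsym : ∀ x y, B y x = B x y)
    (hnd : ∀ x, (∀ y, B x y = 0) → x = 0)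
    (irr : ∀ H' : Submodule (RatFunc κ) Mo, (∀ x ∈ H', nab x ∈ H') → H' = ⊥ ∨ H' = ⊤)
    (hloc : ∀ τ : κ, StabAt nab E τ ∨ ∃ S : Lc (Fin n) κ, LocE b nab τ S)
    (G : Submodule (RatFunc κ) (Module.End (RatFunc κ) Mo)) (hG0 : G ≠ ⊥)
    (hGl : ∀ X ∈ G, ∀ Y ∈ G, X * Y - Y * X ∈ G) (hGs : ∀ X ∈ G, ∀ x y, B (X x) y + B x (X y) = 0)
    (hG : ∀ X ∈ G, ∃ X' ∈ G, ∀ x, X' x = nab (X x) - X (nab x)) (x y : Mo) : wd B x y ∈ G := by
  classical
  -- the self-adjoint commutant
  have hnode : ∀ (τ : κ) (S : Lc (Fin n) κ), LocE b nab τ S →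
      ∀ y : Module.End (RatFunc κ) Mo, (∀ X ∈ G, y * X = X * y) → (∀ a c, B (y a) c = B a (y c)) →
        ∀ i k, ∑ m, jt τ (mt b y (i, m)) * resv S (m, k) =
          ∑ m, resv S (i, m) * jt τ (mt b y (m, k)) := by
    intro τ S hS y hy hya i k
    have hcz : CharZero (FractionRing (PowerSeries κ)) :=
      charZero_of_injective_ringHom (jt τ).injective
    obtain ⟨v, hv⟩ : ∃ v : Fin n → FractionRing (PowerSeries κ), ∀ i, v i =
        algebraMap (PowerSeries κ) (FractionRing (PowerSeries κ)) (S.a i) := ⟨_, fun _ => rfl⟩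
    obtain ⟨⟨ρ, hρ0, hρ⟩, hvv, P, hvP, hXP, hPP, hPnd, x₀, hx₀, hxv, hxx⟩ :=
      O10_node leib b B flat hsym hnd irr G hG0 hGl hGs hG τ S hS v hv
    have hs := O10_sym b τ B hsym
    have hadj : ∀ a c, bilL (Matrix.of fun i k => jt τ (B (b i) (b k)))
        (ofv (fun p => jt τ (mt b y p)) a) c =
        bilL (Matrix.of fun i k => jt τ (B (b i) (b k))) a
          (ofv (fun p => jt τ (mt b y p)) c) := by
      intro a c
      rw [O10_left, O10_right]
      refine Finset.sum_congr rfl fun i _ => Finset.sum_congr rfl fun k _ => ?_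
      rw [hya]
    obtain ⟨c, hc⟩ := fix_v two_ne_zero _ hs x₀ v hxv hxx hvv (ofv (fun p => jt τ (mt b y p)))
      (O10_comm b τ G y hy _ (hPP x₀ hx₀ v hvP)) hadj
    have h1 : ∀ i, ∑ m, jt τ (mt b y (i, m)) * v m = c * v i := by
      intro i
      have h2 := congrFun hc i
      rw [ofv_apply, Pi.smul_apply, smul_eq_mul] at h2
      exact h2
    have h3 : ∀ k, ∑ m, algebraMap (PowerSeries κ) (FractionRing (PowerSeries κ)) (S.l m) *
        jt τ (mt b y (m, k)) =
        c * algebraMap (PowerSeries κ) (FractionRing (PowerSeries κ)) (S.l k) := by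
      intro k
      have h4 := hadj (Pi.single k 1) v
      rw [hc, map_smul, smul_eq_mul, hρ, hρ] at h4
      have h5 : ∑ i, (Pi.single k (1 : FractionRing (PowerSeries κ)) : Fin n → _) i *
          algebraMap (PowerSeries κ) (FractionRing (PowerSeries κ)) (S.l i) =
          algebraMap (PowerSeries κ) (FractionRing (PowerSeries κ)) (S.l k) := by
        rw [Finset.sum_eq_single k]
        · rw [Pi.single_eq_same, one_mul]
        · intro k' _ hk'
          rw [Pi.single_eq_of_ne hk', zero_mul]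
        · intro h
          exact absurd (Finset.mem_univ _) h
      have h6 : ∀ i, ofv (fun p => jt τ (mt b y p))
          (Pi.single k (1 : FractionRing (PowerSeries κ))) i = jt τ (mt b y (i, k)) := fun i =>
        congrFun (ofv_single (fun p => jt τ (mt b y p))) (i, k)
      rw [h5] at h4
      have h7 : ρ * ∑ m, algebraMap (PowerSeries κ) (FractionRing (PowerSeries κ)) (S.l m) *
          jt τ (mt b y (m, k)) = ρ * (c * algebraMap (PowerSeries κ)
            (FractionRing (PowerSeries κ)) (S.l k)) := by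
        rw [mul_left_comm, ← h4]
        congr 1
        refine Finset.sum_congr rfl fun m _ => ?_
        rw [h6, mul_comm]
      exact mul_left_cancel₀ hρ0 h7
    have h8 : ∀ p : Fin n × Fin n, resv S p = v p.1 *
        algebraMap (PowerSeries κ) (FractionRing (PowerSeries κ)) (S.l p.2) := by
      intro p
      rw [hv]
      change algebraMap _ _ (S.a p.1 * S.l p.2) = _
      rw [map_mul]
    calc ∑ m, jt τ (mt b y (i, m)) * resv S (m, k)
        = (∑ m, jt τ (mt b y (i, m)) * v m) *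
            algebraMap (PowerSeries κ) (FractionRing (PowerSeries κ)) (S.l k) := by
          rw [Finset.sum_mul]
          exact Finset.sum_congr rfl fun m _ => by rw [h8]; ring
      _ = v i * (c * algebraMap (PowerSeries κ) (FractionRing (PowerSeries κ)) (S.l k)) := by
          rw [h1]
          ring
      _ = ∑ m, resv S (i, m) * jt τ (mt b y (m, k)) := by
          rw [← h3, Finset.mul_sum]
          exact Finset.sum_congr rfl fun m _ => by rw [h8]; ring
  have hcomm := comm_scalarE leib fg spn b hb hI B flat hnd irr G hG (fun τ => by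
    rcases hloc τ with h | ⟨S, hS⟩
    · exact Or.inl h
    · exact Or.inr ⟨S, hS.1, hS.2.2, hnode τ S hS⟩)
  -- a node
  obtain ⟨τ, hτ⟩ := O10_exists leib fg spn hI B flat hnd irr G hG0 hGs
  obtain ⟨S, hS⟩ := (hloc τ).resolve_left hτ
  obtain ⟨v, hv⟩ : ∃ v : Fin n → FractionRing (PowerSeries κ), ∀ i, v i =
      algebraMap (PowerSeries κ) (FractionRing (PowerSeries κ)) (S.a i) := ⟨_, fun _ => rfl⟩
  obtain ⟨-, hvv, P, hvP, hXP, hPP, hPnd, -⟩ :=
    O10_node leib b B flat hsym hnd irr G hG0 hGl hGs hG τ S hS v hv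
  have hv0 : v ≠ 0 := by
    intro h
    apply hvv
    rw [h, map_zero]
  have hPt := P_top _ (O10_sym b τ B hsym) (gL b τ G) (O10_skew b τ B G hGs)
    (comm_L b τ G B hcomm) P v hvP hv0 hXP hPnd
  -- back to `K`
  let xl : Fin n → FractionRing (PowerSeries κ) := fun i => jt τ (b.repr x i)
  let yl : Fin n → FractionRing (PowerSeries κ) := fun i => jt τ (b.repr y i)
  have h1 := hPP xl (by rw [hPt]; exact Submodule.mem_top) yl (by rw [hPt]; exact Submodule.mem_top)
  have h4 : ∀ (z : Mo) (k : Fin n), bilL (Matrix.of fun i k => jt τ (B (b i) (b k)))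
      (Pi.single k 1) (fun i => jt τ (b.repr z i)) = jt τ (B (b k) z) := by
    intro z k
    rw [bilL_apply, Finset.sum_eq_single k]
    · have h5 : B (b k) z = ∑ m, B (b k) (b m) * b.repr z m := by
        have h6 : B (b k) z = B (b k) (∑ m, b.repr z m • b m) := by rw [b.sum_repr]
        rw [h6, map_sum]
        refine Finset.sum_congr rfl fun m _ => ?_
        rw [map_smul, smul_eq_mul, mul_comm]
      rw [h5, map_sum]
      refine Finset.sum_congr rfl fun m _ => ?_
      rw [Pi.single_eq_same, one_mul, map_mul]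
      rfl
    · intro i' _ hi'
      refine Finset.sum_eq_zero fun m _ => ?_
      rw [Pi.single_eq_of_ne hi', zero_mul, zero_mul]
    · intro h
      exact absurd (Finset.mem_univ _) h
  have h2 : wd (bilL (Matrix.of fun i k => jt τ (B (b i) (b k)))) xl yl =
      ofv (fun p => jt τ (mt b (wd B x y) p)) := by
    refine LinearMap.pi_ext' fun k => LinearMap.ext_ring ?_
    funext i
    change wd (bilL (Matrix.of fun i k => jt τ (B (b i) (b k)))) xl yl (Pi.single k 1) i =
      ofv (fun p => jt τ (mt b (wd B x y) p)) (Pi.single k 1) i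
    have h3 := congrFun (ofv_single (fun p => jt τ (mt b (wd B x y) p))) (i, k)
    rw [h3, wd_apply, Pi.sub_apply, Pi.smul_apply, Pi.smul_apply, h4 x k, h4 y k]
    change _ = jt τ (b.repr (wd B x y (b k)) i)
    rw [wd_apply, map_sub, map_smul, map_smul, Finsupp.sub_apply, Finsupp.smul_apply,
      Finsupp.smul_apply, map_sub, smul_eq_mul, smul_eq_mul, smul_eq_mul, smul_eq_mul, map_mul,
      map_mul]
  rw [h2, ofv_mem_gL] at h1
  obtain ⟨X, hX, hXe⟩ := spanL_rat (jt τ) _ _ h1
  rw [← mt_inj b hXe]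
  exact hX

end MPadcEO
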