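import Pool.Agent.Lib.MP_adc574_ag_EO.PD

/-!
# O11 (COPY of PC/L1.lean): the multilinear forms of an array

PROOF. Copy MP_adc574_ag_PC/L1.lean with `ι` in place of `Nx g`, `Kq g ι m` in place of `Kx g m`, `KSq` in place of `KS`, `omq` in place of `om` (the definitions are the same word for word). Only `omq_inj` is different: `B` is injective as a map `M → Dual K M` (`hnd`), `M` is finite dimensional (basis `e`, `ι` finite),
so it is surjective (`LinearMap.injective_iff_surjective_of_finrank_eq_finrank`, `Subspace.dual_finrank_eq`): for every `l` there is `w` with `B w = e.coord l`, so `B w (e l') = if l' = l then 1 else 0`. The rest as in L1.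
-/

set_option autoImplicit false

namespace MPadcEO

open Polynomial Matrix MPadcOA MPadcPC

variable {K : Type*} [Field K] {M : Type*} [AddCommGroup M] [Module K M] {ι : Type} [Fintype ι] [DecidableEq ι] {g m : ℕ}
  (B : M →ₗ[K] M →ₗ[K] K)

private def O11_sw {m : ℕ} {α : Type} (u : Fin m) : ((Fin m → α) × α) ≃ ((Fin m → α) × α) where
  toFun p := (Function.update p.1 u p.2, p.1 u)
  invFun p := (Function.update p.1 u p.2, p.1 u)
  left_inv p := by
    refine Prod.ext ?_ ?_
    · change Function.update (Function.update p.1 u p.2) u (p.1 u) = p.1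
      rw [Function.update_idem, Function.update_eq_self]
    · change Function.update p.1 u p.2 u = p.2
      rw [Function.update_self]
  right_inv p := by
    refine Prod.ext ?_ ?_
    · change Function.update (Function.update p.1 u p.2) u (p.1 u) = p.1
      rw [Function.update_idem, Function.update_eq_self]
    · change Function.update p.1 u p.2 u = p.2
      rw [Function.update_self]

omit [AddCommGroup M] [Module K M] in
private theorem O11_KS (Y : Matrix ι ι K) (φ : Kq g ι m → K) (s : Kq g ι m) :
    (KSq Y *ᵥ φ) s = ∑ u, ∑ l₁ : ι, Y (s u).2 l₁ * φ (Function.update s u ((s u).1, l₁)) := by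
  classical
  have h1 : (KSq Y *ᵥ φ) s = ∑ s' : Kq g ι m, (∑ u, if s' = Function.update s u ((s u).1, (s' u).2) then
      Y (s u).2 (s' u).2 else 0) * φ s' := rfl
  rw [h1]
  have h2 : ∀ s' : Kq g ι m, (∑ u, if s' = Function.update s u ((s u).1, (s' u).2) then
      Y (s u).2 (s' u).2 else 0) * φ s' = ∑ u, (if s' = Function.update s u ((s u).1, (s' u).2) then
      Y (s u).2 (s' u).2 else 0) * φ s' := fun s' => Finset.sum_mul _ _ _
  rw [Finset.sum_congr rfl fun s' _ => h2 s', Finset.sum_comm]
  refine Finset.sum_congr rfl fun u _ => ?_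
  have h3 : ∀ l₁ : ι, Y (s u).2 l₁ * φ (Function.update s u ((s u).1, l₁)) =
      ∑ s' : Kq g ι m, if s' = Function.update s u ((s u).1, l₁) then
        (if s' = Function.update s u ((s u).1, (s' u).2) then Y (s u).2 (s' u).2 else 0) * φ s' else 0 := by
    intro l₁
    rw [Finset.sum_ite_eq' Finset.univ, if_pos (Finset.mem_univ _), Function.update_self, if_pos rfl]
  rw [Finset.sum_congr rfl fun l₁ _ => h3 l₁, Finset.sum_comm]
  refine Finset.sum_congr rfl fun s' _ => ?_
  by_cases h4 : s' = Function.update s u ((s u).1, (s' u).2)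
  · rw [Finset.sum_eq_single (s' u).2]
    · rw [if_pos h4, if_pos h4]
    · intro l₁ _ hl
      rw [if_neg]
      intro h5
      apply hl
      rw [h5, Function.update_self]
    · intro h5
      exact absurd (Finset.mem_univ _) h5
  · rw [if_neg h4, zero_mul]
    symm
    refine Finset.sum_eq_zero fun l₁ _ => ?_
    split_ifs <;> rfl

theorem omq_apply (e : ι → M) (φ : Kq g ι m → K) (t : Fin m → Fin g) (v : Fin m → M) :
    omq B e φ t v = ∑ l : Fin m → ι, φ (fun i => (t i, l i)) * ∏ i, B (v i) (e (l i)) := by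
  unfold omq
  rw [_root_.sum_apply]
  refine Finset.sum_congr rfl fun l _ => ?_
  rw [_root_.smul_apply, MultilinearMap.compLinearMap_apply, MultilinearMap.mkPiAlgebra_apply, smul_eq_mul]
  rfl

theorem omq_add (e : ι → M) (φ ψ : Kq g ι m → K) : omq B e (φ + ψ) = omq B e φ + omq B e ψ := by
  funext t
  refine MultilinearMap.ext fun v => ?_
  rw [Pi.add_apply, _root_.add_apply, omq_apply, omq_apply, omq_apply, ← Finset.sum_add_distrib]
  refine Finset.sum_congr rfl fun l _ => ?_
  rw [Pi.add_apply, add_mul]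

theorem omq_smul (e : ι → M) (c : K) (φ : Kq g ι m → K) : omq B e (c • φ) = c • omq B e φ := by
  funext t
  refine MultilinearMap.ext fun v => ?_
  rw [Pi.smul_apply, _root_.smul_apply, omq_apply, omq_apply, Finset.smul_sum]
  refine Finset.sum_congr rfl fun l _ => ?_
  rw [Pi.smul_apply, smul_eq_mul, smul_eq_mul, mul_assoc]

theorem omq_inj (e : Module.Basis ι K M) (hnd : ∀ x, (∀ y, B x y = 0) → x = 0) (φ : Kq g ι m → K) (h : omq B e φ = 0) :
    φ = 0 := by
  classical
  funext s
  rw [Pi.zero_apply]
  obtain ⟨v, hv⟩ : ∃ v : Fin m → M, ∀ i l', B (v i) (e l') = if l' = (s i).2 then 1 else 0 := by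
    have hfd : FiniteDimensional K M := e.finiteDimensional_of_finite
    have hinj : Function.Injective B := (injective_iff_map_eq_zero B).2 fun x hx => hnd x fun y => by
      rw [hx]
      rfl
    have hsur : Function.Surjective B :=
      (LinearMap.injective_iff_surjective_of_finrank_eq_finrank (Subspace.dual_finrank_eq).symm).1 hinj
    have h1 : ∀ l : ι, ∃ w : M, ∀ l', B w (e l') = if l' = l then 1 else 0 := by
      intro l
      obtain ⟨w, hw⟩ := hsur (e.coord l)
      refine ⟨w, fun l' => ?_⟩
      rw [hw, Module.Basis.coord_apply, Module.Basis.repr_self, Finsupp.single_apply]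
    choose w hw using h1
    exact ⟨fun i => w (s i).2, fun i l' => hw _ l'⟩
  have h2 : omq B e φ (fun i => (s i).1) v = 0 := by
    rw [h]
    rfl
  rw [omq_apply, Finset.sum_eq_single fun i => (s i).2] at h2
  · rw [Finset.prod_eq_one fun i _ => by rw [hv, if_pos rfl], mul_one] at h2
    exact h2
  · intro l _ hl
    obtain ⟨i, hi⟩ : ∃ i, l i ≠ (s i).2 := by
      by_contra h3
      push Not at h3
      exact hl (funext h3)
    rw [Finset.prod_eq_zero (Finset.mem_univ i) (by rw [hv, if_neg hi]), mul_zero]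
  · intro h3
    exact absurd (Finset.mem_univ _) h3

theorem omq_KS (e : ι → M) (Y : Matrix ι ι K) (y : ι → M) (hy : ∀ l, y l = ∑ l', Y l' l • e l')
    (φ : Kq g ι m → K) (t : Fin m → Fin g) (v : Fin m → M) :
    ∑ l : Fin m → ι, φ (fun i => (t i, l i)) *
      ∑ u, B (v u) (y (l u)) * ∏ i ∈ Finset.univ.erase u, B (v i) (e (l i)) = omq B e (KSq Y *ᵥ φ) t v := by
  classical
  rw [omq_apply]
  have h1 : ∀ l : Fin m → ι, φ (fun i => (t i, l i)) *
      ∑ u, B (v u) (y (l u)) * ∏ i ∈ Finset.univ.erase u, B (v i) (e (l i)) =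
      ∑ u, ∑ l₁ : ι, φ (fun i => (t i, l i)) * (Y l₁ (l u) * B (v u) (e l₁) *
        ∏ i ∈ Finset.univ.erase u, B (v i) (e (l i))) := by
    intro l
    rw [Finset.mul_sum]
    refine Finset.sum_congr rfl fun u _ => ?_
    rw [hy, map_sum, Finset.sum_mul, Finset.mul_sum]
    refine Finset.sum_congr rfl fun l₁ _ => ?_
    rw [map_smul, smul_eq_mul]
  have h2 : ∀ l : Fin m → ι, (KSq Y *ᵥ φ) (fun i => (t i, l i)) * ∏ i, B (v i) (e (l i)) =
      ∑ u, ∑ l₁ : ι, Y (l u) l₁ * φ (fun i => (t i, Function.update l u l₁ i)) * ∏ i, B (v i) (e (l i)) := by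
    intro l
    rw [O11_KS, Finset.sum_mul]
    refine Finset.sum_congr rfl fun u _ => ?_
    rw [Finset.sum_mul]
    refine Finset.sum_congr rfl fun l₁ _ => ?_
    have h3 : Function.update (fun i => (t i, l i)) u (t u, l₁) = fun i => (t i, Function.update l u l₁ i) := by
      funext i
      by_cases hi : i = u
      · subst hi
        rw [Function.update_self, Function.update_self]
      · rw [Function.update_of_ne hi, Function.update_of_ne hi]
    change Y (l u) l₁ * φ (Function.update (fun i => (t i, l i)) u (t u, l₁)) * _ = _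
    rw [h3]
  rw [Finset.sum_congr rfl fun l _ => h1 l, Finset.sum_congr rfl fun l _ => h2 l, Finset.sum_comm]
  rw [Finset.sum_comm (s := Finset.univ) (t := (Finset.univ : Finset (Fin m)))]
  refine Finset.sum_congr rfl fun u _ => ?_
  have h4 : ∀ f : (Fin m → ι) → ι → K, ∑ l : Fin m → ι, ∑ l₁ : ι, f l l₁ =
      ∑ p : (Fin m → ι) × ι, f p.1 p.2 := fun f => (Fintype.sum_prod_type fun p => f p.1 p.2).symm
  rw [h4, h4, ← Equiv.sum_comp (O11_sw u)]
  refine Finset.sum_congr rfl fun p _ => ?_
  obtain ⟨l, l₁⟩ := p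
  change φ (fun i => (t i, Function.update l u l₁ i)) * (Y (l u) (Function.update l u l₁ u) * B (v u) (e (l u)) *
    ∏ i ∈ Finset.univ.erase u, B (v i) (e (Function.update l u l₁ i))) =
    Y (l u) l₁ * φ (fun i => (t i, Function.update l u l₁ i)) * ∏ i, B (v i) (e (l i))
  have h5 : ∏ i ∈ Finset.univ.erase u, B (v i) (e (Function.update l u l₁ i)) =
      ∏ i ∈ Finset.univ.erase u, B (v i) (e (l i)) := by
    refine Finset.prod_congr rfl fun i hi => ?_
    rw [Function.update_of_ne (Finset.ne_of_mem_erase hi)]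
  rw [h5, Function.update_self, ← Finset.mul_prod_erase Finset.univ (fun i => B (v i) (e (l i))) (Finset.mem_univ u)]
  ring

end MPadcEO
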