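import Pool.Agent.Lib.MP_adc574_ag_EO.O10
import Pool.Agent.Lib.MP_adc574_ag_EO.O12
import Pool.Agent.Lib.MP_adc574_ag_PC.L3
import Pool.Agent.Lib.MP_adc574_ag_PC.M4

/-!
# O13: big orthogonal monodromy on the arrays (model: `big_of_mo`, PC/L4.lean)

`e` a basis of `Mo`, `G` the matrix of `Δ nab`, `Bm` the matrix of `ρ B` (`ρ ≠ 0`) in this basis, the quadratic form on the functionals is the adjugate of `Bm`.
PROOF. Follow PC/L4.lean (`L4_OM`, `L4_ra_KS`, `L4_hor` with `omq`, `KSq`, `opq`, `ι` in place of `om`, `KS`, `opD`, `Nx g`; `omq_nab_pol`, `omq_act`, `omq_inj`: O11, O12; `span_clear`: PC/L3). Let `g`, `m`, `W` be given, `W'` the image under `OM` of the span of `ra x`, `x ∈ W`,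
`G' = stabT B W'` (PC/MD.lean). `so_stab` (O10) for `G'`: `hGl`: `stabT_lie` (PC/M4); `hGs`: `mem_stabT`; `hG`: for `X ∈ G'` the endomorphism `X'` with `X' x = nab (X x) - X (nab x)` exists (`exists_com`, see `sp_of_G` in PC/M7.lean: `exists_com leib X`) and is in `G'` by `stabT_nab` (PC/M4) and `L4_hor`.
`hG0`: let `Y` be as in `hnz`, and `X = Matrix.toLin e e (Y.map (algebraMap ..))`, so `X (e l) = ∑ l', Y l' l • e l'`; the matrix of `B (X x) y + B x (X y)` is `ρ⁻¹ (Yᵀ Bm + Bm Y) = 0` (`LinearMap.ext_basis` or expand in the basis), so `X` is skew; for `x ∈ W`: `omq_act` and `KSq Y *ᵥ x ∈ W` show that `X ∈ G'` (`ω' = - OM (ra (KSq Y *ᵥ x))`; sums and multiples in the span: `KSq Y *ᵥ (c • ψ) = c • ..`,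
i.e. the linear map `ψ ↦ KSq (Y.map ..) *ᵥ ψ` maps the span of the `ra x` into itself). `X ≠ 0` since `Y ≠ 0` (`algebraMap` injective, coordinates of `X (e l)`). So `wd B x y ∈ G'` for all `x y`.
Let `S = Bm.adjugate`, `K = RatFunc κ`, `SK`, `BK` the matrices over `K` (`RingHom.map_adjugate`), `BK = ρ (B (e a) (e c))`, `δ = det BK ≠ 0` (`B` nondegenerate: a vector `x ≠ 0` with `x ᵥ* BK = 0` or `BK *ᵥ x = 0` gives `∑ x_a e_a` in the kernel, `Matrix.exists_mulVec_eq_zero_iff`), `SK * BK = δ • 1 = BK * SK`, `SK` is symmetric (`Matrix.adjugate_transpose`, `BK` is symmetric).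
For `u w : ι → κ` put `x = ∑ a, (SK *ᵥ u) a • e a`, `y = ∑ a, (SK *ᵥ w) a • e a` (`u`, `w` mapped to `K`). Then `B x (e c) = ρ⁻¹ ∑ a, (SK *ᵥ u) a * BK a c = ρ⁻¹ δ u c = B (e c) x`, so `wd B x y (e c) = B (e c) y • x - B (e c) x • y = ρ⁻¹ δ • ∑ a, (w c * (SK *ᵥ u) a - u c * (SK *ᵥ w) a) • e a` and `(wS SK u w) a c = (SK *ᵥ u) a * w c - (SK *ᵥ w) a * u c`
(`Matrix.mul_sub`, `Matrix.mul_vecMulVec`, `vecMulVec_apply`): `wd B x y (e c) = (ρ⁻¹ δ) • ∑ a, (wS SK u w) a c • e a`. So `(ρ⁻¹ δ)⁻¹ • wd B x y ∈ G'` has the matrix `wS SK u w`, and the end is as in L4 (`omq_act`, `omq_inj`, `span_clear`, `hsat`; `(wS S (C u) (C w)).map (algebraMap ..) = wS SK u w`).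
-/

set_option autoImplicit false

namespace MPadcEO

open Polynomial Matrix MPadcOA MPadcHM MPadcLZ MPadcBM MPadcBN MPadcPC

private noncomputable def O13_OM {K : Type*} [Field K] {M : Type*} [AddCommGroup M] [Module K M] {ι : Type} [Fintype ι]
    [DecidableEq ι] {g m : ℕ}
    (B : M →ₗ[K] M →ₗ[K] K) (e : ι → M) : (Kq g ι m → K) →ₗ[K] TF K M (Fin m → Fin g) m where
  toFun φ := omq B e φ
  map_add' φ ψ := omq_add B e φ ψ
  map_smul' c φ := omq_smul B e c φ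

private theorem O13_OM_apply {K : Type*} [Field K] {M : Type*} [AddCommGroup M] [Module K M] {ι : Type} [Fintype ι]
    [DecidableEq ι] {g m : ℕ}
    (B : M →ₗ[K] M →ₗ[K] K) (e : ι → M) (φ : Kq g ι m → K) : O13_OM B e φ = omq B e φ := rfl

private theorem O13_OM_inj {K : Type*} [Field K] {M : Type*} [AddCommGroup M] [Module K M] {ι : Type} [Fintype ι]
    [DecidableEq ι] {g m : ℕ}
    (B : M →ₗ[K] M →ₗ[K] K) (e : Module.Basis ι K M) (hnd : ∀ x, (∀ y, B x y = 0) → x = 0) :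
    Function.Injective (O13_OM (g := g) (m := m) B e) := by
  rw [injective_iff_map_eq_zero]
  intro φ hφ
  exact omq_inj B e hnd φ hφ

private theorem O13_ra_KS {κ : Type*} [Field κ] {ι : Type} [Fintype ι] [DecidableEq ι] {g m : ℕ}
    (Y : Matrix ι ι κ[X]) (x : Kq g ι m → κ[X]) :
    ra (KSq Y *ᵥ x) = KSq (Y.map (algebraMap κ[X] (RatFunc κ))) *ᵥ ra x := by
  funext s
  change algebraMap κ[X] (RatFunc κ) (∑ s', KSq Y s s' * x s') =
    ∑ s', KSq (Y.map (algebraMap κ[X] (RatFunc κ))) s s' * algebraMap κ[X] (RatFunc κ) (x s')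
  rw [map_sum]
  refine Finset.sum_congr rfl fun s' _ => ?_
  rw [map_mul]
  congr 1
  unfold KSq
  rw [map_sum]
  refine Finset.sum_congr rfl fun i _ => ?_
  split_ifs
  · rfl
  · exact map_zero _

private theorem O13_wSe {K : Type*} [CommRing K] {ι : Type} [Fintype ι] (S : Matrix ι ι K) (u w : ι → K) (a c : ι) :
    wS S u w a c = (S *ᵥ u) a * w c - (S *ᵥ w) a * u c := by
  unfold wS
  rw [Matrix.mul_sub, Matrix.sub_apply, Matrix.mul_vecMulVec, Matrix.mul_vecMulVec, vecMulVec_apply, vecMulVec_apply]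

private theorem O13_wS {A K : Type*} [CommRing A] [CommRing K] (a : A →+* K) {ι : Type} [Fintype ι]
    (S : Matrix ι ι A) (u w : ι → A) :
    (wS S u w).map a = wS (S.map a) (fun l => a (u l)) (fun l => a (w l)) := by
  ext l' l
  rw [Matrix.map_apply, O13_wSe, O13_wSe, map_sub, map_mul, map_mul, RingHom.map_mulVec, RingHom.map_mulVec]
  rfl

private theorem O13_ev {K : Type*} [Field K] {M : Type*} [AddCommGroup M] [Module K M] {ι : Type} [Fintype ι]
    (B : M →ₗ[K] M →ₗ[K] K) (e : ι → M) (ρ : K) (hρ : ρ ≠ 0) (BK : Matrix ι ι K)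
    (hB : ∀ a c, BK a c = ρ * B (e a) (e c)) (z : ι → K) (c : ι) :
    B (e c) (∑ l, z l • e l) = ρ⁻¹ * (BK *ᵥ z) c := by
  rw [map_sum, Matrix.mulVec, dotProduct, Finset.mul_sum]
  refine Finset.sum_congr rfl fun l _ => ?_
  rw [map_smul, hB, smul_eq_mul, mul_assoc, inv_mul_cancel_left₀ hρ, mul_comm]

private theorem O13_det {K : Type*} [Field K] {M : Type*} [AddCommGroup M] [Module K M] {ι : Type} [Fintype ι]
    [DecidableEq ι]
    (B : M →ₗ[K] M →ₗ[K] K) (e : Module.Basis ι K M) (hsym : ∀ x y, B y x = B x y)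
    (hnd : ∀ x, (∀ y, B x y = 0) → x = 0) (ρ : K) (hρ : ρ ≠ 0) (BK : Matrix ι ι K)
    (hB : ∀ a c, BK a c = ρ * B (e a) (e c)) : BK.det ≠ 0 := by
  intro h0
  obtain ⟨z, hz, hz0⟩ := Matrix.exists_mulVec_eq_zero_iff.2 h0
  refine hz ?_
  have h1 : B (∑ l, z l • e l) = 0 := by
    refine e.ext fun c => ?_
    rw [hsym, O13_ev B e ρ hρ BK hB z c, hz0, Pi.zero_apply, mul_zero, LinearMap.zero_apply]
  have h2 : ∑ l, z l • e l = 0 := hnd _ fun y => by rw [h1, LinearMap.zero_apply]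
  funext l
  exact Fintype.linearIndependent_iff.1 e.linearIndependent z h2 l

private theorem O13_skew {K : Type*} [Field K] {M : Type*} [AddCommGroup M] [Module K M] {ι : Type} [Fintype ι]
    [DecidableEq ι]
    (B : M →ₗ[K] M →ₗ[K] K) (e : Module.Basis ι K M) (ρ : K) (hρ : ρ ≠ 0) (BK Y : Matrix ι ι K)
    (hB : ∀ a c, BK a c = ρ * B (e a) (e c)) (hY : Yᵀ * BK + BK * Y = 0) (X : Module.End K M)
    (hX : ∀ l, X (e l) = ∑ l', Y l' l • e l') (x y : M) : B (X x) y + B x (X y) = 0 := by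
  have h1 : B.comp X + B.compl₂ X = 0 := by
    refine LinearMap.ext_basis e e fun i k => ?_
    have h2 : (B.comp X + B.compl₂ X) (e i) (e k) = B (X (e i)) (e k) + B (e i) (X (e k)) := rfl
    rw [h2, hX, hX, map_sum, map_sum, LinearMap.sum_apply, LinearMap.zero_apply, LinearMap.zero_apply]
    refine mul_left_cancel₀ hρ ?_
    have h3 := congrFun (congrFun hY i) k
    rw [Matrix.add_apply, Matrix.mul_apply, Matrix.mul_apply, Matrix.zero_apply] at h3
    rw [mul_zero, mul_add, Finset.mul_sum, Finset.mul_sum, ← h3]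
    congr 1
    · refine Finset.sum_congr rfl fun l _ => ?_
      rw [map_smul, LinearMap.smul_apply, smul_eq_mul, Matrix.transpose_apply, hB]
      ring
    · refine Finset.sum_congr rfl fun l _ => ?_
      rw [map_smul, smul_eq_mul, hB]
      ring
  have h4 := LinearMap.congr_fun (LinearMap.congr_fun h1 x) y
  exact h4

/-- the space of the forms of the arrays in `V` is horizontal -/
private theorem O13_hor {κ : Type} [Field κ] {Mo : Type} [AddCommGroup Mo] [Module (RatFunc κ) Mo]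
    {ι : Type} [Fintype ι] [DecidableEq ι]
    (B : Mo →ₗ[RatFunc κ] Mo →ₗ[RatFunc κ] RatFunc κ) (nab : Mo →+ Mo) {g m : ℕ} (e : ι → Mo)
    (flat : ∀ x y, DK κ (B x y) = B (nab x) y + B x (nab y)) (Δ : κ[X]) (hΔ : Δ ≠ 0)
    (G : Matrix ι ι κ[X])
    (he : ∀ l, algebraMap κ[X] (RatFunc κ) Δ • nab (e l) = ∑ l', algebraMap κ[X] (RatFunc κ) (G l' l) • e l')
    (W : Submodule κ[X] (Kq g ι m → κ[X])) (hD : ∀ x ∈ W, opq Δ G x ∈ W) :
    ∀ ω ∈ (Submodule.span (RatFunc κ) {y | ∃ x ∈ W, y = ra x}).map (O13_OM (g := g) (m := m) B e),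
      ∃ ω' ∈ (Submodule.span (RatFunc κ) {y | ∃ x ∈ W, y = ra x}).map (O13_OM (g := g) (m := m) B e),
        ∀ (t : Fin m → Fin g) (v : Fin m → Mo),
          ω' t v = DK κ (ω t v) - ∑ u, ω t (Function.update v u (nab (v u))) := by
  rintro ω ⟨ψ, hψ, rfl⟩
  have ha : algebraMap κ[X] (RatFunc κ) Δ ≠ 0 := by
    intro h0
    exact hΔ (IsFractionRing.injective κ[X] (RatFunc κ) (by rw [h0, map_zero]))
  induction hψ using Submodule.span_induction with
  | mem ψ h =>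
    obtain ⟨x, hx, rfl⟩ := h
    refine ⟨(algebraMap κ[X] (RatFunc κ) Δ)⁻¹ • O13_OM B e (ra (opq Δ G x)),
      Submodule.smul_mem _ _ (Submodule.mem_map_of_mem (Submodule.subset_span ⟨_, hD x hx, rfl⟩)), ?_⟩
    intro t v
    have h1 := omq_nab_pol B nab flat e Δ G he x t v
    rw [Pi.smul_apply, _root_.smul_apply, smul_eq_mul, O13_OM_apply, O13_OM_apply, ← h1,
      inv_mul_cancel_left₀ ha]
  | zero =>
    refine ⟨0, Submodule.zero_mem _, ?_⟩
    intro t v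
    rw [map_zero]
    simp only [Pi.zero_apply, _root_.zero_apply, map_zero, Finset.sum_const_zero, sub_zero]
  | add ψ₁ ψ₂ _ _ h₁ h₂ =>
    obtain ⟨ω₁, hω₁, e₁⟩ := h₁
    obtain ⟨ω₂, hω₂, e₂⟩ := h₂
    refine ⟨ω₁ + ω₂, Submodule.add_mem _ hω₁ hω₂, ?_⟩
    intro t v
    rw [map_add]
    simp only [Pi.add_apply, _root_.add_apply, map_add, Finset.sum_add_distrib, e₁, e₂]
    ring
  | smul c ψ hψ h =>
    obtain ⟨ω', hω', e'⟩ := h
    refine ⟨DK κ c • O13_OM B e ψ + c • ω', Submodule.add_mem _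
      (Submodule.smul_mem _ _ (Submodule.mem_map_of_mem hψ)) (Submodule.smul_mem _ _ hω'), ?_⟩
    intro t v
    rw [map_smul]
    simp only [Pi.add_apply, Pi.smul_apply, _root_.add_apply, _root_.smul_apply,
      smul_eq_mul, Derivation.leibniz, e', ← Finset.mul_sum]
    ring

/-- the span of the arrays in `W` is stable under `Y` -/
private theorem O13_st {κ : Type} [Field κ] {ι : Type} [Fintype ι] [DecidableEq ι] {g m : ℕ}
    (W : Submodule κ[X] (Kq g ι m → κ[X])) (Y : Matrix ι ι κ[X]) (hY : ∀ x ∈ W, KSq Y *ᵥ x ∈ W)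
    (ψ : Kq g ι m → RatFunc κ) (hψ : ψ ∈ Submodule.span (RatFunc κ) {y | ∃ x ∈ W, y = ra x}) :
    KSq (Y.map (algebraMap κ[X] (RatFunc κ))) *ᵥ ψ ∈ Submodule.span (RatFunc κ) {y | ∃ x ∈ W, y = ra x} := by
  induction hψ using Submodule.span_induction with
  | mem ψ h =>
    obtain ⟨x, hx, rfl⟩ := h
    rw [← O13_ra_KS]
    exact Submodule.subset_span ⟨_, hY x hx, rfl⟩
  | zero =>
    rw [Matrix.mulVec_zero]
    exact Submodule.zero_mem _
  | add ψ₁ ψ₂ _ _ h₁ h₂ =>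
    rw [Matrix.mulVec_add]
    exact Submodule.add_mem _ h₁ h₂
  | smul c ψ _ h =>
    rw [Matrix.mulVec_smul]
    exact Submodule.smul_mem _ c h

theorem bigO_of_mo {κ : Type} [Field κ] [CharZero κ] [IsAlgClosed κ] {Mo : Type} [AddCommGroup Mo]
    [Module (RatFunc κ) Mo] [Module (Polynomial κ) Mo] [IsScalarTower (Polynomial κ) (RatFunc κ) Mo] [Nontrivial Mo]
    {nab : Mo →+ Mo} {n : ℕ} (leib : ∀ (c : RatFunc κ) (x : Mo), nab (c • x) = DK κ c • x + c • nab x)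
    {E : Submodule (Polynomial κ) Mo} (fg : E.FG)
    (spn : ∀ x : Mo, ∃ q : Polynomial κ, q ≠ 0 ∧ q • x ∈ E)
    (b : Module.Basis (Fin n) (RatFunc κ) Mo) (hb : LB E b)
    {s : ℕ} {ι₁ : Type} [Fintype ι₁] {g₁ : ι₁ → Mo} {w : ι₁ → ℤ} (hI : InfOk κ nab s g₁ w)
    (B : Mo →ₗ[RatFunc κ] Mo →ₗ[RatFunc κ] RatFunc κ)
    (flat : ∀ x y, DK κ (B x y) = B (nab x) y + B x (nab y)) (hsym : ∀ x y, B y x = B x y)
    (hnd : ∀ x, (∀ y, B x y = 0) → x = 0)
    (irr : ∀ H' : Submodule (RatFunc κ) Mo, (∀ x ∈ H', nab x ∈ H') → H' = ⊥ ∨ H' = ⊤)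
    (hloc : ∀ τ : κ, StabAt nab E τ ∨ ∃ S : Lc (Fin n) κ, LocE b nab τ S)
    {ι : Type} [Fintype ι] [DecidableEq ι] (e : Module.Basis ι (RatFunc κ) Mo) (Δ : κ[X]) (hΔ : Δ ≠ 0)
    (G Bm : Matrix ι ι κ[X])
    (he : ∀ l, algebraMap κ[X] (RatFunc κ) Δ • nab (e l) = ∑ l', algebraMap κ[X] (RatFunc κ) (G l' l) • e l')
    (ρ : RatFunc κ) (hρ : ρ ≠ 0) (hBm : ∀ a c, algebraMap κ[X] (RatFunc κ) (Bm a c) = ρ * B (e a) (e c))
    (hnz : ∀ (g m : ℕ) (W : Submodule κ[X] (Kq g ι m → κ[X])),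
      (∀ q : κ[X], q ≠ 0 → ∀ x : Kq g ι m → κ[X], q • x ∈ W → x ∈ W) → (∀ x ∈ W, opq Δ G x ∈ W) →
        ∃ Y : Matrix ι ι κ[X], Y ≠ 0 ∧ Yᵀ * Bm + Bm * Y = 0 ∧ ∀ x ∈ W, KSq Y *ᵥ x ∈ W) :
    BigO Δ G Bm.adjugate := by
  classical
  intro g m W hsat hD u v x hx
  have hinj : Function.Injective (algebraMap κ[X] (RatFunc κ)) := IsFractionRing.injective κ[X] (RatFunc κ)
  have hfin : Module.Finite (RatFunc κ) Mo := Module.Finite.of_basis e
  have hhor := O13_hor B nab (g := g) (m := m) e flat Δ hΔ G he W hD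
  have hBK : ∀ a c, (Bm.map (algebraMap κ[X] (RatFunc κ))) a c = ρ * B (e a) (e c) := hBm
  -- the Lie algebra is not zero
  have hG0 : stabT B ((Submodule.span (RatFunc κ) {y | ∃ x ∈ W, y = ra x}).map (O13_OM (g := g) (m := m) B e)) ≠ ⊥ := by
    obtain ⟨Y, hY0, hYs, hYW⟩ := hnz g m W hsat hD
    have hX : ∀ l, Matrix.toLin e e (Y.map (algebraMap κ[X] (RatFunc κ))) (e l) =
        ∑ l', (Y.map (algebraMap κ[X] (RatFunc κ))) l' l • e l' := fun l => Matrix.toLin_self e e _ l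
    have hYK : (Y.map (algebraMap κ[X] (RatFunc κ)))ᵀ * Bm.map (algebraMap κ[X] (RatFunc κ)) +
        Bm.map (algebraMap κ[X] (RatFunc κ)) * Y.map (algebraMap κ[X] (RatFunc κ)) = 0 := by
      have h1 := congrArg (fun A : Matrix ι ι κ[X] => A.map (algebraMap κ[X] (RatFunc κ))) hYs
      beta_reduce at h1
      rw [Matrix.map_add _ (fun p q => map_add _ p q), Matrix.map_mul, Matrix.map_mul, Matrix.transpose_map,
        Matrix.map_zero _ (map_zero _)] at h1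
      exact h1
    have hsk := O13_skew B e ρ hρ (Bm.map (algebraMap κ[X] (RatFunc κ))) (Y.map (algebraMap κ[X] (RatFunc κ)))
      hBK hYK (Matrix.toLin e e (Y.map (algebraMap κ[X] (RatFunc κ)))) hX
    have hmem : Matrix.toLin e e (Y.map (algebraMap κ[X] (RatFunc κ))) ∈
        stabT B ((Submodule.span (RatFunc κ) {y | ∃ x ∈ W, y = ra x}).map (O13_OM (g := g) (m := m) B e)) := by
      rw [mem_stabT]
      refine ⟨hsk, ?_⟩
      rintro ω ⟨ψ, hψ, rfl⟩
      refine ⟨- O13_OM B e (KSq (Y.map (algebraMap κ[X] (RatFunc κ))) *ᵥ ψ),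
        Submodule.neg_mem _ (Submodule.mem_map_of_mem (O13_st W Y hYW ψ hψ)), fun t v => ?_⟩
      exact (omq_act B e _ hsk _ hX ψ t v).symm
    intro hbot
    rw [hbot, Submodule.mem_bot] at hmem
    rw [LinearEquiv.map_eq_zero_iff] at hmem
    refine hY0 (Matrix.ext fun i k => ?_)
    have h2 := congrFun (congrFun hmem i) k
    rw [Matrix.map_apply, Matrix.zero_apply] at h2
    rw [Matrix.zero_apply]
    exact hinj (by rw [h2, map_zero])
  have hGl := stabT_lie B ((Submodule.span (RatFunc κ) {y | ∃ x ∈ W, y = ra x}).map (O13_OM (g := g) (m := m) B e))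
  have hGs : ∀ X ∈ stabT B ((Submodule.span (RatFunc κ) {y | ∃ x ∈ W, y = ra x}).map (O13_OM (g := g) (m := m) B e)),
      ∀ x y, B (X x) y + B x (X y) = 0 := fun X hX => (mem_stabT.1 hX).1
  have hG : ∀ X ∈ stabT B ((Submodule.span (RatFunc κ) {y | ∃ x ∈ W, y = ra x}).map (O13_OM (g := g) (m := m) B e)),
      ∃ X' ∈ stabT B ((Submodule.span (RatFunc κ) {y | ∃ x ∈ W, y = ra x}).map (O13_OM (g := g) (m := m) B e)),
        ∀ x, X' x = nab (X x) - X (nab x) := by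
    intro X hX
    obtain ⟨X', hX'⟩ := exists_com leib X
    exact ⟨X', stabT_nab (D := DK κ) (fun a b => map_add _ a b) B flat _ hhor X hX X' hX', hX'⟩
  have hall := so_stab leib fg spn b hb hI B flat hsym hnd irr hloc _ hG0 hGl hGs hG
  -- the determinant
  have hdet : (Bm.map (algebraMap κ[X] (RatFunc κ))).det ≠ 0 :=
    O13_det B e hsym hnd ρ hρ _ hBK
  have hdet2 : (Bm.map (algebraMap κ[X] (RatFunc κ))).det = algebraMap κ[X] (RatFunc κ) Bm.det := by
    rw [← RingHom.mapMatrix_apply, ← RingHom.map_det]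
  have hBS : Bm.map (algebraMap κ[X] (RatFunc κ)) * Bm.adjugate.map (algebraMap κ[X] (RatFunc κ)) =
      algebraMap κ[X] (RatFunc κ) Bm.det • 1 := by
    rw [← hdet2, ← Matrix.mul_adjugate, ← RingHom.mapMatrix_apply, ← RingHom.mapMatrix_apply,
      RingHom.map_adjugate]
  have hev : ∀ (z : ι → RatFunc κ) (c : ι),
      B (e c) (∑ l, (Bm.adjugate.map (algebraMap κ[X] (RatFunc κ)) *ᵥ z) l • e l) =
        (ρ⁻¹ * algebraMap κ[X] (RatFunc κ) Bm.det) * z c := by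
    intro z c
    rw [O13_ev B e ρ hρ _ hBK, Matrix.mulVec_mulVec, hBS, Matrix.smul_mulVec, Matrix.one_mulVec, Pi.smul_apply,
      smul_eq_mul, mul_assoc]
  have hδ : ρ⁻¹ * algebraMap κ[X] (RatFunc κ) Bm.det ≠ 0 := by
    rw [← hdet2]
    exact mul_ne_zero (inv_ne_zero hρ) hdet
  have h1 := Submodule.smul_mem _ (ρ⁻¹ * algebraMap κ[X] (RatFunc κ) Bm.det)⁻¹
    (hall (∑ l, (Bm.adjugate.map (algebraMap κ[X] (RatFunc κ)) *ᵥ
        fun l => algebraMap κ[X] (RatFunc κ) (C (u l))) l • e l)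
      (∑ l, (Bm.adjugate.map (algebraMap κ[X] (RatFunc κ)) *ᵥ
        fun l => algebraMap κ[X] (RatFunc κ) (C (v l))) l • e l))
  have hY : ∀ c, ((ρ⁻¹ * algebraMap κ[X] (RatFunc κ) Bm.det)⁻¹ •
      wd B (∑ l, (Bm.adjugate.map (algebraMap κ[X] (RatFunc κ)) *ᵥ
        fun l => algebraMap κ[X] (RatFunc κ) (C (u l))) l • e l)
      (∑ l, (Bm.adjugate.map (algebraMap κ[X] (RatFunc κ)) *ᵥ
        fun l => algebraMap κ[X] (RatFunc κ) (C (v l))) l • e l)) (e c) =
      ∑ l, (wS (Bm.adjugate.map (algebraMap κ[X] (RatFunc κ)))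
        (fun l => algebraMap κ[X] (RatFunc κ) (C (u l))) (fun l => algebraMap κ[X] (RatFunc κ) (C (v l)))) l c • e l := by
    intro c
    rw [LinearMap.smul_apply, wd_apply, hev, hev, inv_smul_eq_iff₀ hδ, Finset.smul_sum, Finset.smul_sum,
      Finset.smul_sum, ← Finset.sum_sub_distrib]
    refine Finset.sum_congr rfl fun l _ => ?_
    rw [O13_wSe, smul_smul, smul_smul, smul_smul, ← sub_smul]
    congr 1
    ring
  rw [mem_stabT] at h1
  obtain ⟨hskew, hmap⟩ := h1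
  obtain ⟨ω', hω', heq⟩ := hmap (O13_OM B e (ra x))
    (Submodule.mem_map_of_mem (Submodule.subset_span ⟨x, hx, rfl⟩))
  have h2 : ω' = - O13_OM B e (ra (KSq (wS Bm.adjugate (fun l => C (u l)) (fun l => C (v l))) *ᵥ x)) := by
    funext t
    refine MultilinearMap.ext fun z => ?_
    rw [heq t z, O13_OM_apply, omq_act B e _ hskew _ hY, O13_ra_KS, O13_wS]
    rfl
  have h3 : O13_OM B e (ra (KSq (wS Bm.adjugate (fun l => C (u l)) (fun l => C (v l))) *ᵥ x)) ∈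
      (Submodule.span (RatFunc κ) {y | ∃ x ∈ W, y = ra x}).map (O13_OM (g := g) (m := m) B e) := by
    rw [h2] at hω'
    exact (Submodule.neg_mem_iff _).1 hω'
  obtain ⟨ψ, hψ, hψe⟩ := h3
  have h4 := O13_OM_inj B e hnd hψe
  rw [h4] at hψ
  obtain ⟨q, hq, hqW⟩ := span_clear W _ hψ
  exact hsat q hq _ hqW

end MPadcEO
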