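import Pool.Agent.Lib.MP_adc574_ag_EO.O1

/-!
# O2: the subspace `g v + L v` (medium)

PROOF. `q = B v v`. Let `P` be the range of `g × L → V`, `(X, c) ↦ X v + c • v` (e.g. `Submodule.map (evaluation at v) g ⊔ span {v}`; `Submodule.mem_sup`, `Submodule.mem_span_singleton`). `B (X v) v = 0` for `X ∈ g` (`2 * B (X v) v = 0`).
(a) for `x, y ∈ g v` (`x = X v`, `y = Y v`): `wd B x v ∈ g`, `wd B y v ∈ g` (`hw`), so their bracket is in `g`; by `br_wd` with the skew element `wd B x v` (`wd_skew`): `[wd B x v, wd B y v] = wd B (wd B x v y) v + wd B y (wd B x v v)`, `wd B x v y = B y v • x - B y x • v = - B y x • v`, `wd B x v v = q • x - B v x • v = q • x`; so the bracket is `q • wd B y x` (`wd_self`), and `wd B y x ∈ g`.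
(b) hence `wd B x y ∈ g` for all `x, y ∈ P` (bilinearity, `wd_anti`, `wd_self`).
(c) stability: `X ∈ g`, `x = Y v + c • v ∈ P`: `X (c • v) = c • X v ∈ P`. For `x = Y v`: `[X, wd B x v] = wd B (X x) v + wd B x (X v)` (`br_wd`) is in `g`, and `wd B x (X v) ∈ g` by (a), so `Z = wd B (X x) v ∈ g`; `Z v = q • X x - B v (X x) • v`, so `X x = q⁻¹ • Z v + (..) • v ∈ P`.
-/

set_option autoImplicit false

namespace MPadcEO

theorem wd_all {L : Type*} [Field L] (h2 : (2 : L) ≠ 0) {V : Type*} [AddCommGroup V] [Module L V]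
    (B : V →ₗ[L] V →ₗ[L] L) (hs : ∀ x y, B x y = B y x) (g : Submodule L (Module.End L V))
    (hg : ∀ X ∈ g, ∀ Y ∈ g, X * Y - Y * X ∈ g) (hsk : ∀ X ∈ g, ∀ x y, B (X x) y + B x (X y) = 0) (v : V)
    (hv : B v v ≠ 0) (hw : ∀ X ∈ g, wd B (X v) v ∈ g) :
    ∃ P : Submodule L V, v ∈ P ∧ (∀ X ∈ g, X v ∈ P) ∧ (∀ X ∈ g, ∀ x ∈ P, X x ∈ P) ∧ ∀ x ∈ P, ∀ y ∈ P, wd B x y ∈ g := by
  have hXv : ∀ X ∈ g, B (X v) v = 0 := by
    intro X hX
    have h := hsk X hX v v
    rw [hs v (X v), ← two_mul] at h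
    exact (mul_eq_zero.1 h).resolve_left h2
  have hvX : ∀ X ∈ g, B v (X v) = 0 := fun X hX => by rw [hs, hXv X hX]
  have ha : ∀ X ∈ g, ∀ Y ∈ g, wd B (X v) (Y v) ∈ g := by
    intro X hX Y hY
    have hb := hg _ (hw X hX) _ (hw Y hY)
    rw [br_wd B (wd B (X v) v) (wd_skew B hs (X v) v) (Y v) v] at hb
    have e1 : wd B (X v) v (Y v) = (- B (Y v) (X v)) • v := by
      rw [wd_apply, hXv Y hY, zero_smul, zero_sub, neg_smul]
    have e2 : wd B (X v) v v = B v v • X v := by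
      rw [wd_apply, hvX X hX, zero_smul, sub_zero]
    rw [e1, e2, wd_smul_left, wd_self, smul_zero, zero_add, wd_smul_right, wd_anti, smul_neg] at hb
    have h := g.smul_mem (B v v)⁻¹ (g.neg_mem hb)
    rw [neg_neg, smul_smul, inv_mul_cancel₀ hv, one_smul] at h
    exact h
  let P : Submodule L V :=
    { carrier := {x | ∃ X ∈ g, ∃ c : L, x = X v + c • v}
      add_mem' := by
        rintro _ _ ⟨X, hX, c, rfl⟩ ⟨Y, hY, d, rfl⟩
        refine ⟨X + Y, g.add_mem hX hY, c + d, ?_⟩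
        rw [LinearMap.add_apply, add_smul]
        abel
      zero_mem' := ⟨0, g.zero_mem, 0, by simp⟩
      smul_mem' := by
        rintro a _ ⟨X, hX, c, rfl⟩
        refine ⟨a • X, g.smul_mem a hX, a * c, ?_⟩
        rw [LinearMap.smul_apply, smul_add, mul_smul] }
  have hPX : ∀ X ∈ g, X v ∈ P := fun X hX => ⟨X, hX, 0, by simp⟩
  have hPv : v ∈ P := ⟨0, g.zero_mem, 1, by simp⟩
  refine ⟨P, hPv, hPX, ?_, ?_⟩
  · rintro X hX _ ⟨Y, hY, c, rfl⟩
    rw [map_add, map_smul]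
    refine P.add_mem ?_ (P.smul_mem c (hPX X hX))
    have hb := hg _ hX _ (hw Y hY)
    rw [br_wd B X (hsk X hX) (Y v) v] at hb
    have hZ : wd B (X (Y v)) v ∈ g := by
      have h := g.sub_mem hb (ha Y hY X hX)
      rwa [add_sub_cancel_right] at h
    have h1 := hPX _ hZ
    rw [wd_apply] at h1
    have h2' : B v v • X (Y v) ∈ P := by
      have h := P.add_mem h1 (P.smul_mem (B v (X (Y v))) hPv)
      rwa [sub_add_cancel] at h
    have h3 := P.smul_mem (B v v)⁻¹ h2'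
    rwa [smul_smul, inv_mul_cancel₀ hv, one_smul] at h3
  · rintro _ ⟨X, hX, c, rfl⟩ _ ⟨Y, hY, d, rfl⟩
    rw [wd_add_left, wd_smul_left, wd_add_right, wd_add_right, wd_smul_right, wd_smul_right, wd_self, smul_zero,
      add_zero, wd_anti B v (Y v)]
    exact g.add_mem (g.add_mem (ha X hX Y hY) (g.smul_mem d (hw X hX)))
      (g.smul_mem c (g.neg_mem (hw Y hY)))

end MPadcEO
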