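import Mathlib

/-!
# P1: the Leibniz formula for the `p`-th iterate in characteristic `p` (medium-)

PROOF. By induction on `n`: `c^[n] (μ x y) = ∑ ij ∈ Finset.antidiagonal n, (n.choose ij.1) • μ (a^[ij.1] x) (b^[ij.2] y)` (`Function.iterate_succ_apply'`, `map_sum`, `map_nsmul`, `Finset.sum_antidiagonal_choose_succ_nsmul` or `Finset.Nat.antidiagonal_succ`, the same induction as the binomial theorem; see `it_mul` in
MP_adc574_ag_IS/JacP.lean for a similar proof). For `n = p` the terms with `0 < i < p` vanish: `p ∣ p.choose i` (`Nat.Prime.dvd_choose_self`) and `hC`.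
-/

set_option autoImplicit false

namespace MPadcEO

private theorem P1_it {A B C : Type*} [AddCommGroup A] [AddCommGroup B] [AddCommGroup C]
    (μ : A →+ B →+ C) (a : A →+ A) (b : B →+ B) (c : C →+ C)
    (h : ∀ x y, c (μ x y) = μ (a x) y + μ x (b y)) (x : A) (y : B) (n : ℕ) :
    (fun z => c z)^[n] (μ x y) = ∑ ij ∈ Finset.HasAntidiagonal.antidiagonal n,
      n.choose ij.1 • μ ((fun z => a z)^[ij.1] x) ((fun z => b z)^[ij.2] y) := by
  induction n with
  | zero => simp
  | succ n ih =>
    rw [Function.iterate_succ_apply', ih,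
      Finset.sum_antidiagonal_choose_succ_nsmul
        (fun i j => μ ((fun z => a z)^[i] x) ((fun z => b z)^[j] y)) n]
    show c _ = _
    rw [map_sum, ← Finset.sum_add_distrib]
    refine Finset.sum_congr rfl fun ij hij => ?_
    have h1 : n.choose ij.2 = n.choose ij.1 := by
      rw [Finset.HasAntidiagonal.mem_antidiagonal] at hij
      exact (Nat.choose_symm_of_eq_add hij.symm).symm
    rw [h1, map_nsmul, h, ← nsmul_add, Function.iterate_succ_apply', Function.iterate_succ_apply', add_comm]

theorem leib_p (p : ℕ) [Fact p.Prime] {A B C : Type*} [AddCommGroup A] [AddCommGroup B] [AddCommGroup C]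
    (hC : ∀ z : C, p • z = 0) (μ : A →+ B →+ C) (a : A →+ A) (b : B →+ B) (c : C →+ C)
    (h : ∀ x y, c (μ x y) = μ (a x) y + μ x (b y)) (x : A) (y : B) :
    (fun z => c z)^[p] (μ x y) = μ ((fun z => a z)^[p] x) y + μ x ((fun z => b z)^[p] y) := by
  rw [P1_it μ a b c h x y p, Finset.Nat.sum_antidiagonal_eq_sum_range_succ_mk]
  obtain ⟨q, hq⟩ : ∃ q, p = q + 1 := ⟨p - 1, (Nat.succ_pred_eq_of_pos (Fact.out : p.Prime).pos).symm⟩
  have hz : ∑ i ∈ Finset.range q, p.choose (i + 1) •
      μ ((fun z => a z)^[i + 1] x) ((fun z => b z)^[p - (i + 1)] y) = 0 := by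
    refine Finset.sum_eq_zero fun i hi => ?_
    obtain ⟨r, hr⟩ := (Fact.out : p.Prime).dvd_choose_self (Nat.succ_ne_zero i)
      (by rw [Finset.mem_range] at hi; omega)
    rw [hr, mul_nsmul', hC]
  have hr : p.succ = q + 1 + 1 := by omega
  rw [hr, Finset.sum_range_succ, Finset.sum_range_succ']
  rw [hz, zero_add]
  simp only [← hq, Nat.choose_zero_right, Nat.choose_self, one_nsmul, Nat.sub_zero, Nat.sub_self,
    Function.iterate_zero, id_eq]
  rw [add_comm]

end MPadcEO
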