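import Pool.Agent.Lib.MP_adc574_ag_OH.OP

/-!
# P10: classes of monomials and of elements of the Jacobian ideal by levels (medium-)

PROOF. This is the proof of `MPadcIS.span_g` (MP_adc574_ag_IS/IsoB.lean) with the level: claim for all `n` (strong induction): for every homogeneous `P` of degree `n` with `n + m = k * d` the class `brP d F P` is in the span `W k` of the `brP (x ^ v)` with `lvl d v ≤ k`. As there: `C h * x ^ w - L ∈ Jac`, `L = ∑ v, if lvl v = k then monomial v (c v w) else 0` (class in `W k`) for `k ≤ m - 1` and `L = 0` for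
`k ≥ m` (`MPadcIS.top_mem`); `MPadcIS.jac_hom`; `∑ j, gr F j * Q j = ∑ j, (dl F j (Q j) - pderiv j (Q j))`; the `pderiv j (Q j)` are homogeneous of degree `n - d`, level `k - 1` (if `n < d` they are 0), in `W (k - 1) ≤ W k` by induction. `jac_lev`: the last step alone (`P` itself is in the ideal, of level `k + 1`).
`exists_bas`: they span (`span_V`, OH/OP.lean, `brP_iff`) and are independent: `∑ a_v brP (x ^ v) = 0` means `∑ a_v x ^ v ∈ relZ`, so `∑ a_v Bil H d (x ^ v) (x ^ v') = 0` for all `v'` (`MPadcIS.bil_kerL`), `a = 0` by `MPadcIS.gram_inj`; `Module.Basis.mk`.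
The span over the index type: `Submodule.span K (Set.range fun v : {v : V // lvl d v.1 ≤ k} => ..)` and `Submodule.mem_span_range_iff_exists_fun`, extend the coefficients by 0; or carry `∃ a` directly. Levels: `MPadcIS.tdg_dg`, `CData.lev`.
-/

set_option autoImplicit false

namespace MPadcEO

open MvPolynomial MPadcGM MPadcHM MPadcLZ MPadcBK MPadcOA MPadcOH

/-- the span of the classes of level at most `k` -/
private noncomputable def P10_W {K : Type} [Field K] {m : ℕ} (d : ℕ) (F : MvPolynomial (Fin m) K)
    (V : Finset (Fin m →₀ ℕ)) (k : ℕ) : Submodule K (PKm d F) where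
  carrier := {x | ∃ a : V → K, (∀ v, k < lvl d v.1 → a v = 0) ∧ x = ∑ v : V, a v • brP d F (monomial v.1 1)}
  add_mem' := by
    rintro _ _ ⟨a, ha, rfl⟩ ⟨b, hb, rfl⟩
    refine ⟨a + b, fun v hv => by rw [Pi.add_apply, ha v hv, hb v hv, add_zero], ?_⟩
    rw [← Finset.sum_add_distrib]
    exact Finset.sum_congr rfl fun v _ => by rw [Pi.add_apply, add_smul]
  zero_mem' := ⟨0, fun _ _ => rfl, by simp⟩
  smul_mem' := by
    rintro t _ ⟨a, ha, rfl⟩
    refine ⟨t • a, fun v hv => by rw [Pi.smul_apply, ha v hv, smul_zero], ?_⟩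
    rw [Finset.smul_sum]
    exact Finset.sum_congr rfl fun v _ => by rw [Pi.smul_apply, smul_eq_mul, mul_smul]

private theorem P10_mono {K : Type} [Field K] {m : ℕ} (d : ℕ) (F : MvPolynomial (Fin m) K)
    (V : Finset (Fin m →₀ ℕ)) {k k' : ℕ} (hk : k ≤ k') : P10_W d F V k ≤ P10_W d F V k' := by
  rintro _ ⟨a, ha, rfl⟩
  exact ⟨a, fun v hv => ha v (lt_of_le_of_lt hk hv), rfl⟩

private theorem P10_mem {K : Type} [Field K] {m : ℕ} (d : ℕ) (F : MvPolynomial (Fin m) K)
    (V : Finset (Fin m →₀ ℕ)) (v : V) : brP d F (monomial v.1 1) ∈ P10_W d F V (lvl d v.1) := by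
  classical
  refine ⟨fun v' => if v' = v then 1 else 0, fun v' hv' => if_neg fun h => ?_, ?_⟩
  · rw [h] at hv'
    exact lt_irrefl _ hv'
  · rw [Finset.sum_eq_single v]
    · show _ = (if v = v then (1 : K) else 0) • _
      rw [if_pos rfl, one_smul]
    · intro v' _ hv'
      show (if v' = v then (1 : K) else 0) • _ = 0
      rw [if_neg hv', zero_smul]
    · intro h
      exact absurd (Finset.mem_univ v) h

/-- the elements of the Jacobian ideal -/
private theorem P10_step {K : Type} [Field K] {m d : ℕ} {F : MvPolynomial (Fin m) K} (hd : 3 ≤ d)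
    (H : RegF (d - 1) F) (W : Submodule K (PKm d F)) {n : ℕ}
    (ih : ∀ P' : MvPolynomial (Fin m) K, P'.IsHomogeneous (n - d) → d ≤ n → brP d F P' ∈ W)
    {P : MvPolynomial (Fin m) K} (hP : P.IsHomogeneous n) (hJ : P ∈ Ideal.span (Set.range (gr F))) :
    brP d F P ∈ W := by
  obtain ⟨Q, hQ1, hQ2, hQ3⟩ := MPadcIS.jac_hom H hP hJ
  have h5 : P = ∑ j, (dl F j (Q j) - pderiv j (Q j)) := by
    rw [hQ3]
    refine Finset.sum_congr rfl fun j _ => ?_
    unfold dl gr
    ring
  rw [h5, map_sum]
  refine W.sum_mem fun j _ => ?_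
  rw [map_sub, brP_dl, zero_sub]
  refine W.neg_mem ?_
  by_cases hq : d ≤ n
  · refine ih _ ?_ hq
    have h1 := (hQ1 j).pderiv (i := j)
    have h2 : n - (d - 1) - 1 = n - d := by omega
    rw [h2] at h1
    exact h1
  · have h0 : pderiv j (Q j) = 0 := by
      by_cases hq' : n < d - 1
      · rw [hQ2 hq' j, map_zero]
      · have h1 := hQ1 j
        have h2 : n - (d - 1) = 0 := by omega
        rw [h2] at h1
        have h3 : Q j = C (coeff 0 (Q j)) := by
          rw [← homogeneousComponent_zero, homogeneousComponent_eq_self h1]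
        rw [h3, pderiv_C]
    rw [h0, map_zero]
    exact W.zero_mem

private theorem P10_key {K : Type} [Field K] {m d : ℕ} {F : MvPolynomial (Fin m) K} {V : Finset (Fin m →₀ ℕ)}
    {c : V → (Fin m →₀ ℕ) → K} {h : K} (hm : 3 ≤ m) (hd : 3 ≤ d) (H : RegF (d - 1) F)
    (hC : CData d (m - 1) F (fun v : V => v.1) (fun v : V => lvl d v.1) c h) (hh : h ≠ 0) :
    ∀ n k : ℕ, n + m = k * d → ∀ P : MvPolynomial (Fin m) K, P.IsHomogeneous n → brP d F P ∈ P10_W d F V k := by
  classical
  intro n
  induction n using Nat.strong_induction_on with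
  | _ n ih =>
    intro k hk P hP
    have hk1 : 1 ≤ k := by
      rcases Nat.eq_zero_or_pos k with h0 | h0
      · rw [h0, zero_mul] at hk
        omega
      · exact h0
    obtain ⟨k', rfl⟩ : ∃ k', k = k' + 1 := ⟨k - 1, by omega⟩
    have ih' : ∀ P' : MvPolynomial (Fin m) K, P'.IsHomogeneous (n - d) → d ≤ n → brP d F P' ∈ P10_W d F V (k' + 1) := by
      intro P' hP' hdn
      refine P10_mono d F V (Nat.le_succ k') (ih (n - d) (by omega) k' ?_ P' hP')
      rw [add_mul, one_mul] at hk
      omega
    have hmono : ∀ w : Fin m →₀ ℕ, dg w = n → brP d F (monomial w 1) ∈ P10_W d F V (k' + 1) := by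
      intro w hw
      obtain ⟨L, hL, hLW, hLJ⟩ : ∃ L : MvPolynomial (Fin m) K, L.IsHomogeneous n ∧ brP d F L ∈ P10_W d F V (k' + 1) ∧
          C h * monomial w 1 - L ∈ Ideal.span (Set.range (gr F)) := by
        by_cases hkN : k' + 1 ≤ m - 1
        · refine ⟨∑ v : V, (if lvl d v.1 = k' + 1 then monomial v.1 (c v w) else 0), ?_, ?_, ?_⟩
          · refine IsHomogeneous.sum _ _ _ fun v _ => ?_
            split_ifs with h1
            · rw [← hm_iff]
              intro e' he'
              have h2 := support_monomial_subset he'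
              rw [Finset.mem_singleton] at h2
              have h3 := hC.lev v
              rw [MPadcIS.tdg_dg, h1] at h3
              rw [h2]
              omega
            · exact isHomogeneous_zero _ _ _
          · rw [map_sum]
            refine (P10_W d F V (k' + 1)).sum_mem fun v _ => ?_
            split_ifs with h1
            · have h2 : (monomial v.1 (c v w) : MvPolynomial (Fin m) K) = c v w • monomial v.1 1 := by
                rw [smul_monomial, smul_eq_mul, mul_one]
              rw [h2, map_smul, ← h1]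
              exact (P10_W d F V (lvl d v.1)).smul_mem _ (P10_mem d F V v)
            · rw [map_zero]
              exact (P10_W d F V (k' + 1)).zero_mem
          · refine hC.span (k' + 1) hk1 hkN w ?_
            rw [MPadcIS.tdg_dg, hw, hk]
        · refine ⟨0, isHomogeneous_zero _ _ _, by rw [map_zero]; exact (P10_W d F V (k' + 1)).zero_mem, ?_⟩
          rw [sub_zero]
          refine Ideal.mul_mem_left _ _ (MPadcIS.top_mem H ?_)
          have h1 : m * d ≤ (k' + 1) * d := Nat.mul_le_mul_right d (by omega)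
          obtain ⟨f, hf⟩ : ∃ f, d = f + 2 := ⟨d - 2, by omega⟩
          have h2 : d - 1 - 1 = f := by omega
          rw [h2]
          rw [← hk, hf, mul_add] at h1
          omega
      have hhom : (C h * monomial w 1 - L).IsHomogeneous n := by
        refine IsHomogeneous.sub ?_ hL
        rw [C_mul_monomial, ← hm_iff]
        intro e' he'
        have h2 := support_monomial_subset he'
        rw [Finset.mem_singleton] at h2
        rw [h2, hw]
      have h3 := P10_step hd H _ ih' hhom hLJ
      have h4 : brP d F (C h * monomial w 1) ∈ P10_W d F V (k' + 1) := by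
        rw [map_sub] at h3
        have h5 := add_mem h3 hLW
        rwa [sub_add_cancel] at h5
      have h6 : (C h * monomial w 1 : MvPolynomial (Fin m) K) = h • monomial w 1 := by
        rw [smul_eq_C_mul]
      rw [h6, map_smul] at h4
      have h7 := (P10_W d F V (k' + 1)).smul_mem h⁻¹ h4
      rwa [smul_smul, inv_mul_cancel₀ hh, one_smul] at h7
    obtain ⟨s, c', hs, rfl⟩ := hm_exp ((hm_iff n P).2 hP)
    rw [map_sum]
    refine (P10_W d F V (k' + 1)).sum_mem fun w hw => ?_
    rw [map_smul]
    exact (P10_W d F V (k' + 1)).smul_mem _ (hmono w (hs w hw))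

section

variable {K : Type} [Field K] {m d : ℕ} {F : MvPolynomial (Fin m) K} {V : Finset (Fin m →₀ ℕ)}
  {c : V → (Fin m →₀ ℕ) → K} {h : K} (hm : 3 ≤ m) (hd : 3 ≤ d) (hF : F.IsHomogeneous d) (H : RegF (d - 1) F)
  (hC : CData d (m - 1) F (fun v : V => v.1) (fun v : V => lvl d v.1) c h) (hh : h ≠ 0)

include hm hd hF H hC hh in
theorem span_lev (k : ℕ) (w : Fin m →₀ ℕ) (hw : tdg w = k * d) :
    ∃ a : V → K, (∀ v, k < lvl d v.1 → a v = 0) ∧ brP d F (monomial w 1) = ∑ v : V, a v • brP d F (monomial v.1 1) := by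
  have h1 := P10_key hm hd H hC hh (dg w) k (by rw [← hw, MPadcIS.tdg_dg]) (monomial w 1) ?_
  · exact h1
  · rw [← hm_iff]
    exact hm_mono w 1

include hm hd hF H hC hh in
theorem jac_lev (k n : ℕ) (P : MvPolynomial (Fin m) K) (hP : P.IsHomogeneous n) (hn : n + m = (k + 1) * d)
    (hJ : P ∈ Ideal.span (Set.range (gr F))) :
    ∃ a : V → K, (∀ v, k < lvl d v.1 → a v = 0) ∧ brP d F P = ∑ v : V, a v • brP d F (monomial v.1 1) := by
  have h1 := P10_step hd H (P10_W d F V k) (n := n) (fun P' hP' hdn => ?_) hP hJ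
  · exact h1
  · refine P10_key hm hd H hC hh (n - d) k ?_ P' hP'
    rw [add_mul, one_mul] at hn
    omega

include hm hd hF H hC hh in
/-- The classes of the monomials are a basis. -/
theorem exists_bas : ∃ bV : Module.Basis V K (PKm d F), ∀ v : V, bV v = brP d F (monomial v.1 1) := by
  classical
  have hli : LinearIndependent K fun v : V => brP d F (monomial v.1 1) := by
    rw [Fintype.linearIndependent_iff]
    intro x hx
    have h1 : (∑ v : V, x v • monomial v.1 1 : MvPolynomial (Fin m) K) ∈ relZ d F := by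
      rw [← MPadcIS.rel_iff, map_sum, ← hx]
      exact Finset.sum_congr rfl fun v _ => map_smul _ _ _
    have h2 := MPadcIS.gram_inj H (by omega) hC hh x fun v' => by
      have h3 := MPadcIS.bil_kerL H (by omega) (by omega) ((hm_iff d F).2 hF) h1 (monomial v'.1 1)
      rw [map_sum, LinearMap.sum_apply] at h3
      rw [← h3]
      refine Finset.sum_congr rfl fun v _ => ?_
      rw [map_smul, LinearMap.smul_apply, smul_eq_mul]
    exact fun v => congrFun h2 v
  have hsp : ⊤ ≤ Submodule.span K (Set.range fun v : V => brP d F (monomial v.1 1)) := by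
    intro y _
    obtain ⟨P, rfl⟩ := brP_surj d F y
    obtain ⟨a, ha⟩ := MPadcIS.span_g H (by omega) (by omega) hC hh P
    rw [ha]
    exact Submodule.sum_mem _ fun v _ => Submodule.smul_mem _ _ (Submodule.subset_span ⟨v, rfl⟩)
  exact ⟨Module.Basis.mk hli hsp, fun v => Module.Basis.mk_apply hli hsp v⟩

end

end MPadcEO
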