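import Pool.Agent.Lib.MP_adc574_ag_EO.P10
import Pool.Agent.Lib.MP_adc574_ag_OE.S9
import Pool.Agent.Lib.MP_adc574_ag_LZ.HGd

/-!
# P11: in characteristic 0 the connection matrix raises the level (medium)

PROOF. `K = RatFunc κ`, `α = algebraMap κ[X] K`, `S.FK = S.ft.map α` (`rfl`), `F = S.FK` homogeneous (`hH.hom.map α` with `hF`), `hC' = hH.cd.map α`, `α H.h ≠ 0` (`hH.hdvd`, `hΔ`), `d = S.d`. `exists_bas` (P10): `bV v = brP (x ^ v)`. `nab_ok` (OE/S9): `α Δ • nab (bV v') = ∑ v, α (G v v') • bV v`.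
(1) For `j` let `T j` be the span of the `bV v` with `lvl v ≤ j`. For `v' : V`: `nab (brP (x ^ v')) = brP (nb (DZ κ) F (x ^ v'))` (`hG.nab_br`) `= - brP (x ^ w)`, `w = v' + single i₀ d` (`cder (DZ κ) (x ^ v') = 0`; `cder (DZ κ) F = - X i₀ ^ d` by `fk_eq`, `hSH` and `DK X = 1`, `DK (algebraMap a) = 0`), `tdg w = (lvl v' + 1) d`. By `span_lev` (P10) it is a combination of the
`bV v` with `lvl v ≤ lvl v' + 1`. Suppose that all `G v v'` with `lvl v = lvl v' + 1` are 0; comparing coordinates (`bV.repr`) `nab (bV v') ∈ T (lvl v')`. So `T j` is stable under `nab` for every `j` (`hG.leib`, sums; `lvl v' ≤ j → T (lvl v') ≤ T j`).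
(2) `j₀ = lvl v₀` with `2 j₀ < m` (`hlow`). `T j₀ ≠ ⊥` (it contains `bV v₀ ≠ 0`), so `T j₀ = ⊤` (`irr`). So no `v₁` has `lvl v₁ > j₀` (`bV v₁` would be in the span of other basis vectors: `LinearIndependent.notMem_span_image`, or look at `bV.repr`). But `MPadcIS.count_symm` (`j = j₀ ≤ m`) gives a `v₁` with `lvl v₁ = m - j₀ > j₀` (the cardinality of the vectors of level `j₀` is positive).
-/

set_option autoImplicit false

namespace MPadcEO

open MvPolynomial MPadcGM MPadcHM MPadcLZ MPadcBK MPadcOA MPadcOH MPadcOE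

private theorem P11_tdg {m : ℕ} (v : Fin m →₀ ℕ) (i₀ : Fin m) (d : ℕ) :
    tdg (Finsupp.single i₀ d + v) = tdg v + d := by
  have h1 : ∑ i, Finsupp.single i₀ d i = d := by
    simp [Finsupp.single_apply]
  have h2 : tdg (Finsupp.single i₀ d + v) = ∑ i, (v i + 1) + ∑ i, Finsupp.single i₀ d i := by
    unfold tdg
    rw [← Finset.sum_add_distrib]
    refine Finset.sum_congr rfl fun i _ => ?_
    rw [Finsupp.add_apply]
    ring
  rw [h2, h1]
  rfl

private theorem P11_nab {κ : Type} [Field κ] [CharZero κ] {m : ℕ} (S : PDat κ m) {nab : PKm S.d S.FK →+ PKm S.d S.FK}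
    (hG : IsHG S nab (brP S.d S.FK)) (i₀ : Fin m) (hSH : S.H = X i₀ ^ S.d) (v : Fin m →₀ ℕ) :
    nab (brP S.d S.FK (monomial v 1)) = - brP S.d S.FK (monomial (Finsupp.single i₀ S.d + v) 1) := by
  have h1 : cder (DZ κ) S.FK = - X i₀ ^ S.d := by
    refine MvPolynomial.ext _ _ fun e => ?_
    have h2 : coeff e (- X i₀ ^ S.d : MvPolynomial (Fin m) (RatFunc κ)) =
        - coeff e (S.H.map (algebraMap κ (RatFunc κ))) := by
      rw [coeff_neg, hSH, map_pow, map_X]
    rw [h2, ← MPadcLZ.cderD_apply, MPadcLZ.coeff_cderD, fk_eq, coeff_sub, coeff_C_mul, coeff_map, coeff_map,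
      DZ_apply, map_sub, DK_C, Derivation.leibniz, DK_X, DK_C, smul_zero, smul_eq_mul,
      mul_one, zero_add, zero_sub]
  have h3 : nb (DZ κ) S.FK (monomial v 1) = - monomial (Finsupp.single i₀ S.d + v) 1 := by
    rw [nb, h1, ← MPadcLZ.cderD_apply, MPadcLZ.cderD_monomial, DZ_apply, Derivation.map_one_eq_zero, monomial_zero, zero_add,
      neg_mul, X_pow_eq_monomial, monomial_mul, mul_one]
  rw [hG.nab_br, h3, map_neg]

theorem g_ne {κ : Type} [Field κ] [CharZero κ] {m : ℕ} (S : PDat κ m) (hS : S.Ok) {nab : PKm S.d S.FK →+ PKm S.d S.FK}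
    (hG : IsHG S nab (brP S.d S.FK)) (Hr : RegF (S.d - 1) S.FK)
    (irr : ∀ H' : Submodule (RatFunc κ) (PKm S.d S.FK), (∀ x ∈ H', nab x ∈ H') → H' = ⊥ ∨ H' = ⊤) (i₀ : Fin m)
    (hSH : S.H = X i₀ ^ S.d) {V : Finset (Fin m →₀ ℕ)} (H : HE κ m V) (hH : H.Ok S.d) (hF : H.F = S.ft) (hΔ : H.Δ ≠ 0)
    (hlow : ∃ v : V, 2 * lvl S.d v.1 < m) : ∃ v v' : V, lvl S.d v.1 = lvl S.d v'.1 + 1 ∧ H.G v v' ≠ 0 := by
  by_contra hcon
  have h0 : ∀ v v' : V, lvl S.d v.1 = lvl S.d v'.1 + 1 → H.G v v' = 0 := by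
    intro v v' h1
    by_contra h2
    exact hcon ⟨v, v', h1, h2⟩
  -- the data over the field of rational functions
  have hFh : S.FK.IsHomogeneous S.d := by
    have h1 := hH.hom
    rw [hF] at h1
    exact h1.map _
  have hC' : CData S.d (m - 1) S.FK (fun v : V => v.1) (fun v : V => lvl S.d v.1)
      (fun v e => algebraMap (Polynomial κ) (RatFunc κ) (H.c v e)) (algebraMap (Polynomial κ) (RatFunc κ) H.h) := by
    have h1 := hH.cd.map (algebraMap (Polynomial κ) (RatFunc κ))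
    rw [hF] at h1
    exact h1
  have hh0 : H.h ≠ 0 := by
    intro h1
    apply hΔ
    have h2 := hH.hdvd
    rw [h1] at h2
    exact zero_dvd_iff.1 h2
  have hh : algebraMap (Polynomial κ) (RatFunc κ) H.h ≠ 0 := RatFunc.algebraMap_ne_zero hh0
  have hΔ' : algebraMap (Polynomial κ) (RatFunc κ) H.Δ ≠ 0 := RatFunc.algebraMap_ne_zero hΔ
  obtain ⟨bV, hbV⟩ := exists_bas hH.hm hH.hd hFh Hr hC' hh
  -- the span of the monomials of level at most `j`
  obtain ⟨T, hT⟩ : ∃ T : ℕ → Submodule (RatFunc κ) (PKm S.d S.FK),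
      ∀ j x, x ∈ T j ↔ ∀ v : V, j < lvl S.d v.1 → bV.repr x v = 0 :=
    ⟨fun j =>
      { carrier := {x | ∀ v : V, j < lvl S.d v.1 → bV.repr x v = 0}
        add_mem' := fun {a b} ha hb v hv => by
          rw [map_add, Finsupp.add_apply, ha v hv, hb v hv, add_zero]
        zero_mem' := fun v _ => by rw [map_zero, Finsupp.zero_apply]
        smul_mem' := fun t a ha v hv => by
          rw [map_smul, Finsupp.smul_apply, ha v hv, smul_zero] }, fun _ _ => Iff.rfl⟩
  have hbT : ∀ (j : ℕ) (v : V), lvl S.d v.1 ≤ j → bV v ∈ T j := by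
    intro j v hv
    rw [hT]
    intro v' hv'
    rw [Module.Basis.repr_self]
    refine Finsupp.single_eq_of_ne ?_
    rintro rfl
    omega
  have hnabT : ∀ (j : ℕ) (v : V), lvl S.d v.1 ≤ j → nab (bV v) ∈ T j := by
    intro j v hv
    have hw : tdg (Finsupp.single i₀ S.d + v.1) = (lvl S.d v.1 + 1) * S.d := by
      rw [P11_tdg, hC'.lev v, add_mul, one_mul]
    obtain ⟨a, ha, hsum⟩ := span_lev hH.hm hH.hd hFh Hr hC' hh (lvl S.d v.1 + 1) _ hw
    have h1 : nab (bV v) = ∑ v' : V, (- a v') • bV v' := by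
      rw [hbV, P11_nab S hG i₀ hSH, hsum, ← Finset.sum_neg_distrib]
      refine Finset.sum_congr rfl fun v' _ => ?_
      rw [hbV, neg_smul]
    have h2 := nab_ok S hG H hH hF bV hbV v
    have hrep : ∀ (f : V → RatFunc κ) (u : V), bV.repr (∑ v' : V, f v' • bV v') u = f u := by
      intro f u
      rw [Module.Basis.repr_sum_self]
    rw [hT]
    intro u hu
    rw [h1, hrep, neg_eq_zero]
    by_cases h3 : lvl S.d v.1 + 1 < lvl S.d u.1
    · exact ha u h3
    · have h4 : lvl S.d u.1 = lvl S.d v.1 + 1 := by omega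
      have h5 := congrArg (fun x => bV.repr x u) h2
      simp only [map_smul, Finsupp.smul_apply, smul_eq_mul] at h5
      rw [hrep, h0 u v h4, map_zero, h1, hrep] at h5
      rcases mul_eq_zero.1 h5 with h6 | h6
      · exact absurd h6 hΔ'
      · exact neg_eq_zero.1 h6
  have hst : ∀ (j : ℕ), ∀ x ∈ T j, nab x ∈ T j := by
    intro j x hx
    have h1 : nab x = ∑ v : V, (DK κ (bV.repr x v) • bV v + bV.repr x v • nab (bV v)) := by
      conv_lhs => rw [← bV.sum_repr x]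
      rw [map_sum]
      exact Finset.sum_congr rfl fun v _ => hG.leib _ _
    rw [h1]
    refine Submodule.sum_mem _ fun v _ => ?_
    by_cases hv : lvl S.d v.1 ≤ j
    · exact Submodule.add_mem _ (Submodule.smul_mem _ _ (hbT j v hv)) (Submodule.smul_mem _ _ (hnabT j v hv))
    · rw [(hT j x).1 hx v (by omega), map_zero, zero_smul, zero_smul, add_zero]
      exact Submodule.zero_mem _
  obtain ⟨v₀, hv₀⟩ := hlow
  rcases irr (T (lvl S.d v₀.1)) (hst _) with h1 | h1
  · have h2 := hbT (lvl S.d v₀.1) v₀ le_rfl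
    rw [h1, Submodule.mem_bot] at h2
    exact bV.ne_zero v₀ h2
  · have hd' : S.d = S.d - 1 + 1 := by
      have := hH.hd
      omega
    have h2 := MPadcIS.count_symm Hr hd' hC' hh (j := lvl S.d v₀.1) (by omega)
    have h3 : 0 < Fintype.card {v : V // lvl S.d v.1 = lvl S.d v₀.1} := Fintype.card_pos_iff.2 ⟨⟨v₀, rfl⟩⟩
    rw [h2] at h3
    obtain ⟨v₁, hv₁⟩ := Fintype.card_pos_iff.1 h3
    have h4 : bV v₁ ∈ T (lvl S.d v₀.1) := by
      rw [h1]
      exact Submodule.mem_top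
    have h5 := (hT _ _).1 h4 v₁ (by rw [hv₁]; omega)
    rw [Module.Basis.repr_self, Finsupp.single_eq_same] at h5
    exact one_ne_zero h5

end MPadcEO
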