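import Pool.Agent.Lib.MP_adc574_ag_EO.Defs
import Pool.Agent.Lib.MP_adc574_ag_PC.LD

/-!
# The `p`-curvature and the forms of an array: definitions
-/

set_option autoImplicit false

namespace MPadcEO

open Polynomial Matrix MPadcOA MPadcHM MPadcPC

/-- The family of multilinear forms of the array `φ`. -/
noncomputable def omq {K : Type*} [Field K] {M : Type*} [AddCommGroup M] [Module K M] {ι : Type} [Fintype ι] {g m : ℕ}
    (B : M →ₗ[K] M →ₗ[K] K) (e : ι → M) (φ : Kq g ι m → K) : TF K M (Fin m → Fin g) m := fun t =>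
  ∑ l : Fin m → ι, φ (fun i => (t i, l i)) •
    (MultilinearMap.mkPiAlgebra K (Fin m) K).compLinearMap (fun i => B.flip (e (l i)))

/-- The connection `x ↦ x' + M x` on the columns. -/
def nc {K : Type*} [Field K] (D : K → K) {ι : Type} [Fintype ι] (M : Matrix ι ι K) (x : ι → K) : ι → K :=
  fun i => D (x i) + (M *ᵥ x) i

/-- The connection on the arrays. -/
def na {K : Type*} [Field K] (D : K → K) {g : ℕ} {ι : Type} [Fintype ι] [DecidableEq ι] {m : ℕ} (M : Matrix ι ι K)
    (φ : Kq g ι m → K) : Kq g ι m → K :=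
  fun s => D (φ s) + (KSq M *ᵥ φ) s

/-- The matrix `G / Δ`. -/
noncomputable def mdK {F : Type} [Field F] {ι : Type} (Δ : F[X]) (G : Matrix ι ι F[X]) : Matrix ι ι (RatFunc F) :=
  fun i j => algebraMap F[X] (RatFunc F) (G i j) / algebraMap F[X] (RatFunc F) Δ

/-- There is a nonzero endomorphism, skew for the pairing `B`, which maps every saturated stable module of arrays into itself. -/
def NZ {F : Type} [Field F] {ι : Type} [Fintype ι] [DecidableEq ι] (Δ : F[X]) (G B : Matrix ι ι F[X]) : Prop :=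
  ∃ Y : Matrix ι ι F[X], Y ≠ 0 ∧ Yᵀ * B + B * Y = 0 ∧ ∀ (g m : ℕ) (W : Submodule F[X] (Kq g ι m → F[X])),
    (∀ d : F[X], d ≠ 0 → ∀ x : Kq g ι m → F[X], d • x ∈ W → x ∈ W) → (∀ x ∈ W, opq Δ G x ∈ W) → ∀ x ∈ W, KSq Y *ᵥ x ∈ W

end MPadcEO
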