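import Pool.Agent.Lib.MP_adc574_ag_EO.P1
import Pool.Agent.Lib.MP_adc574_ag_EO.PD

/-!
# P2: the `p`-curvature of a connection; it is skew for a flat form (medium)

`D` is a derivation of the field `K` of characteristic `p` with `D ^ p = 0`. PROOF. `nc D M` is additive (define the `AddMonoidHom`). `leib_p` (P1) with `μ c x = c • x` (`K →+ (ι → K) →+ (ι → K)`), `a = D`, `b = c = nc D M` (`nc D M (c • x) = D c • x + c • nc D M x`: `Derivation.leibniz`, `Matrix.mulVec_smul`) gives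
`(nc D M)^[p] (c • x) = D^[p] c • x + c • (nc D M)^[p] x = c • (nc D M)^[p] x`: so the `p`-th iterate is `K`-linear, hence a matrix (`LinearMap.toMatrix'`, `Matrix.mulVec` by `LinearMap.toMatrix'_mulVec` / `Matrix.mulVecLin`). `p • z = 0` from `CharP` (`nsmul_eq_mul`, `CharP.cast_eq_zero`).
`pc_form`: `leib_p` with `μ x y = x ⬝ᵥ (B *ᵥ y)`, `a = b = nc D M`, `c = D`: `D (x ⬝ᵥ B *ᵥ y) = nc x ⬝ᵥ B *ᵥ y + x ⬝ᵥ B *ᵥ nc y` by `flat` (expand both sides as double sums, `Derivation.leibniz`). So `0 = D^[p] (..) = (Ψ *ᵥ x) ⬝ᵥ (B *ᵥ y) + x ⬝ᵥ (B *ᵥ Ψ *ᵥ y) = x ⬝ᵥ ((Ψᵀ * B + B * Ψ) *ᵥ y)` for all `x y`; take basis vectors.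
-/

set_option autoImplicit false

namespace MPadcEO

open Polynomial Matrix

variable {K : Type*} [Field K] (p : ℕ) [Fact p.Prime] [CharP K p] (D : Derivation ℤ K K) (hD : ∀ x, (fun y => D y)^[p] x = 0)
  {ι : Type} [Fintype ι] [DecidableEq ι] (M : Matrix ι ι K)

/-- the connection as an additive map -/
private def P2_N : (ι → K) →+ (ι → K) :=
  AddMonoidHom.mk' (nc (fun y => D y) M) fun x y => by
    funext i
    show D ((x + y) i) + (M *ᵥ (x + y)) i = (D (x i) + (M *ᵥ x) i) + (D (y i) + (M *ᵥ y) i)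
    rw [Matrix.mulVec_add, Pi.add_apply, Pi.add_apply, map_add]
    ring

private theorem P2_char {C : Type*} [AddCommGroup C] [Module K C] (z : C) : p • z = 0 := by
  rw [← Nat.cast_smul_eq_nsmul K, CharP.cast_eq_zero, zero_smul]

include hD in
private theorem P2_smul (c : K) (x : ι → K) :
    (nc (fun y => D y) M)^[p] (c • x) = c • (nc (fun y => D y) M)^[p] x := by
  have h := leib_p p (fun z : ι → K => P2_char (K := K) p z) (smulAddHom K (ι → K)) ((D : K →ₗ[ℤ] K).toAddMonoidHom)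
    (P2_N D M) (P2_N D M) (fun a x => by
      funext i
      show D (a * x i) + (M *ᵥ (a • x)) i = D a * x i + a * (D (x i) + (M *ᵥ x) i)
      rw [Matrix.mulVec_smul, Pi.smul_apply, smul_eq_mul, Derivation.leibniz, smul_eq_mul, smul_eq_mul]
      ring) c x
  have h1 : (fun z => ((D : K →ₗ[ℤ] K).toAddMonoidHom) z)^[p] c = 0 := hD c
  rw [h1] at h
  have h2 : (smulAddHom K (ι → K)) 0 x = 0 := by rw [map_zero, AddMonoidHom.zero_apply]
  rw [h2, zero_add] at h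
  exact h

include hD in
theorem pc_col : ∃ Ψ : Matrix ι ι K, ∀ x, (nc (fun y => D y) M)^[p] x = Ψ *ᵥ x := by
  obtain ⟨f, hf⟩ : ∃ f : (ι → K) →ₗ[K] (ι → K), ∀ x, f x = (nc (fun y => D y) M)^[p] x :=
    ⟨{ toFun := (nc (fun y => D y) M)^[p]
       map_add' := fun x y => iterate_map_add (P2_N D M) p x y
       map_smul' := fun c x => P2_smul p D hD M c x }, fun x => rfl⟩
  refine ⟨LinearMap.toMatrix' f, fun x => ?_⟩
  rw [← Matrix.toLin'_apply, Matrix.toLin'_toMatrix', hf]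

include hD in
theorem pc_form {Ψ : Matrix ι ι K} (hΨ : ∀ x, (nc (fun y => D y) M)^[p] x = Ψ *ᵥ x) (B : Matrix ι ι K)
    (flat : ∀ a c, D (B a c) = (Mᵀ * B + B * M) a c) : Ψᵀ * B + B * Ψ = 0 := by
  obtain ⟨μ, hμ⟩ : ∃ μ : (ι → K) →+ (ι → K) →+ K, ∀ x y, μ x y = x ⬝ᵥ (B *ᵥ y) :=
    ⟨AddMonoidHom.mk' (fun x => AddMonoidHom.mk' (fun y => x ⬝ᵥ (B *ᵥ y)) fun y z => by
        rw [Matrix.mulVec_add, dotProduct_add]) fun x y => by
      ext z
      exact add_dotProduct _ _ _, fun x y => rfl⟩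
  have hsum : ∀ x y, x ⬝ᵥ (B *ᵥ y) = ∑ a, ∑ c, x a * (B a c * y c) := by
    intro x y
    unfold dotProduct Matrix.mulVec dotProduct
    exact Finset.sum_congr rfl fun a _ => Finset.mul_sum _ _ _
  have hflat : ∀ x y, D (x ⬝ᵥ (B *ᵥ y)) =
      (nc (fun y => D y) M x) ⬝ᵥ (B *ᵥ y) + x ⬝ᵥ (B *ᵥ (nc (fun y => D y) M y)) := by
    intro x y
    have e1 : D (x ⬝ᵥ (B *ᵥ y)) = (fun i => D (x i)) ⬝ᵥ (B *ᵥ y) + x ⬝ᵥ ((Mᵀ * B + B * M) *ᵥ y) +
        x ⬝ᵥ (B *ᵥ fun i => D (y i)) := by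
      have e2 : x ⬝ᵥ ((Mᵀ * B + B * M) *ᵥ y) = ∑ a, ∑ c, x a * (D (B a c) * y c) := by
        unfold dotProduct Matrix.mulVec dotProduct
        refine Finset.sum_congr rfl fun a _ => ?_
        rw [Finset.mul_sum]
        refine Finset.sum_congr rfl fun c _ => ?_
        rw [flat]
      rw [hsum, hsum, hsum, e2, map_sum, ← Finset.sum_add_distrib, ← Finset.sum_add_distrib]
      refine Finset.sum_congr rfl fun a _ => ?_
      rw [map_sum, ← Finset.sum_add_distrib, ← Finset.sum_add_distrib]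
      refine Finset.sum_congr rfl fun c _ => ?_
      rw [Derivation.leibniz, Derivation.leibniz, smul_eq_mul, smul_eq_mul, smul_eq_mul, smul_eq_mul]
      ring
    have e3 : nc (fun y => D y) M x = (fun i => D (x i)) + M *ᵥ x := rfl
    have e4 : nc (fun y => D y) M y = (fun i => D (y i)) + M *ᵥ y := rfl
    rw [e1, e3, e4, Matrix.add_mulVec, Matrix.mulVec_add, add_dotProduct, dotProduct_add, dotProduct_add,
      ← Matrix.mulVec_mulVec, ← Matrix.mulVec_mulVec]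
    have e5 : x ⬝ᵥ (Mᵀ *ᵥ (B *ᵥ y)) = (M *ᵥ x) ⬝ᵥ (B *ᵥ y) := by
      rw [Matrix.dotProduct_mulVec, Matrix.vecMul_transpose]
    rw [e5]
    ring
  have hmain : ∀ x y, (Ψ *ᵥ x) ⬝ᵥ (B *ᵥ y) + x ⬝ᵥ (B *ᵥ (Ψ *ᵥ y)) = 0 := by
    intro x y
    have h := leib_p p (fun z : K => P2_char (K := K) p z) μ (P2_N D M) (P2_N D M) ((D : K →ₗ[ℤ] K).toAddMonoidHom)
      (fun x y => by
        rw [hμ, hμ, hμ]
        exact hflat x y) x y
    have h1 : (fun z => ((D : K →ₗ[ℤ] K).toAddMonoidHom) z)^[p] (μ x y) = 0 := hD _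
    have h2 : ∀ z, (fun z => (P2_N D M) z)^[p] z = Ψ *ᵥ z := hΨ
    rw [h1, h2, h2, hμ, hμ] at h
    exact h.symm
  ext a c
  have h3 := hmain (Pi.single a 1) (Pi.single c 1)
  rw [Matrix.mulVec_single_one, Matrix.mulVec_single_one, Matrix.mulVec_single_one, single_one_dotProduct] at h3
  exact h3

end MPadcEO
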