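import Pool.Agent.Lib.MP_adc574_ag_EO.P1
import Pool.Agent.Lib.MP_adc574_ag_EO.PD

/-!
# P3: the `p`-curvature on arrays (medium)

PROOF. `KSq M` acts on every index: `(KSq M *ᵥ φ) s = ∑ i, ∑ l, M (s i).2 l * φ (update s i ((s i).1, l))` (see `L1_KS` in MP_adc574_ag_PC/L1.lean). Induction on `m`. `m = 0`: `KSq M = 0` (an empty sum), `(na D M)^[p] φ s = D^[p] (φ s) = 0` (`hD`).
Step: for `x : Fin g × ι → K` and `ψ : Kq g ι m → K` let `(x ⊗ ψ) s = x (s 0) * ψ (fun i => s i.succ)` (an array of degree `m + 1`). Then `na D M (x ⊗ ψ) = (n₁ x) ⊗ ψ + x ⊗ na D M ψ`, where `n₁ x (a, l) = D (x (a, l)) + ∑ l', M l l' * x (a, l')` (`Fin.sum_univ_succ`, `Function.update` at `0` and at `i.succ`, `Derivation.leibniz`). `leib_p` (P1) with `μ x ψ = x ⊗ ψ`: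
`(na D M)^[p] (x ⊗ ψ) = (n₁^[p] x) ⊗ ψ + x ⊗ (na D M)^[p] ψ`. `n₁^[p] x (a, l) = (Ψ *ᵥ fun l' => x (a, l')) l` by `hΨ` for every `a` (`n₁` acts on the function `l ↦ x (a, l)` as `nc D M`; induction on the number of iterations), and `(na D M)^[p] ψ = KSq Ψ *ᵥ ψ` (induction hypothesis): the sum is `KSq Ψ *ᵥ (x ⊗ ψ)` (the same formula as above without `D`).
Every array is a sum of such arrays: `φ = ∑ q : Fin g × ι, (Pi.single q 1) ⊗ (fun s => φ (Fin.cons q s))`, and both sides are additive in `φ` (`na D M` as an `AddMonoidHom`, iterates of it).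
-/

set_option autoImplicit false

namespace MPadcEO

open Polynomial Matrix

private theorem P3_KS {K : Type*} [Field K] {g : ℕ} {ι : Type} [Fintype ι] [DecidableEq ι] {m : ℕ} (M : Matrix ι ι K)
    (φ : Kq g ι m → K) (s : Kq g ι m) :
    (KSq M *ᵥ φ) s = ∑ i, ∑ l, M (s i).2 l * φ (Function.update s i ((s i).1, l)) := by
  have h0 : (KSq M *ᵥ φ) s = ∑ s' : Kq g ι m, (∑ i, if s' = Function.update s i ((s i).1, (s' i).2)
      then M (s i).2 (s' i).2 else 0) * φ s' := rfl
  rw [h0]
  simp only [Finset.sum_mul]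
  rw [Finset.sum_comm]
  refine Finset.sum_congr rfl fun i _ => ?_
  symm
  refine Finset.sum_of_injOn (fun l => Function.update s i ((s i).1, l)) ?_ ?_ ?_ ?_
  · intro l _ l' _ h
    have h1 := congrFun h i
    simp only [Function.update_self] at h1
    exact (Prod.mk.inj h1).2
  · intro l _
    exact Finset.mem_coe.2 (Finset.mem_univ _)
  · intro s' _ hs'
    rw [if_neg, zero_mul]
    intro h
    exact hs' ⟨(s' i).2, Finset.mem_coe.2 (Finset.mem_univ _), h.symm⟩
  · intro l _
    simp only [Function.update_self]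
    rw [if_pos trivial]

/-- the product of a column and an array -/
private def P3_mu {K : Type*} [Field K] {g : ℕ} {ι : Type} {m : ℕ} :
    (Fin g × ι → K) →+ (Kq g ι m → K) →+ (Kq g ι (m + 1) → K) :=
  AddMonoidHom.mk' (fun x => AddMonoidHom.mk' (fun ψ s => x (s 0) * ψ (fun i => s i.succ)) fun ψ ψ' => by
    funext s
    exact mul_add _ _ _) fun x x' => by
    ext ψ s
    exact add_mul _ _ _

private theorem P3_mu_apply {K : Type*} [Field K] {g : ℕ} {ι : Type} {m : ℕ} (x : Fin g × ι → K) (ψ : Kq g ι m → K)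
    (s : Kq g ι (m + 1)) : P3_mu x ψ s = x (s 0) * ψ (fun i => s i.succ) := rfl

private theorem P3_act {K : Type*} [Field K] {g : ℕ} {ι : Type} [Fintype ι] [DecidableEq ι] {m : ℕ} (M : Matrix ι ι K)
    (x : Fin g × ι → K) (ψ : Kq g ι m → K) : KSq M *ᵥ P3_mu x ψ =
      P3_mu (fun q => (M *ᵥ fun l => x (q.1, l)) q.2) ψ + P3_mu x (KSq M *ᵥ ψ) := by
  funext s
  rw [P3_KS, Fin.sum_univ_succ, Pi.add_apply, P3_mu_apply, P3_mu_apply, P3_KS]
  congr 1
  · change ∑ l, M (s 0).2 l * P3_mu x ψ (Function.update s 0 ((s 0).1, l)) = (∑ l, M (s 0).2 l * x ((s 0).1, l)) * _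
    rw [Finset.sum_mul]
    refine Finset.sum_congr rfl fun l _ => ?_
    rw [P3_mu_apply, Function.update_self, mul_assoc]
    congr 2
  · rw [Finset.mul_sum]
    refine Finset.sum_congr rfl fun i _ => ?_
    rw [Finset.mul_sum]
    refine Finset.sum_congr rfl fun l _ => ?_
    rw [P3_mu_apply, Function.update_of_ne (Fin.succ_ne_zero i).symm]
    have h1 : (fun j : Fin m => Function.update s i.succ ((s i.succ).1, l) j.succ) =
        Function.update (fun j : Fin m => s j.succ) i ((s i.succ).1, l) := by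
      funext j
      by_cases hj : j = i
      · subst hj
        rw [Function.update_self, Function.update_self]
      · rw [Function.update_of_ne hj, Function.update_of_ne (fun h => hj (Fin.succ_injective _ h))]
    rw [h1]
    ring

/-- the connection on the arrays as an additive map -/
private def P3_N {K : Type*} [Field K] (D : Derivation ℤ K K) {g : ℕ} {ι : Type} [Fintype ι] [DecidableEq ι] {m : ℕ}
    (M : Matrix ι ι K) : (Kq g ι m → K) →+ (Kq g ι m → K) :=
  AddMonoidHom.mk' (na (fun y => D y) M) fun x y => by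
    funext s
    show D ((x + y) s) + (KSq M *ᵥ (x + y)) s = (D (x s) + (KSq M *ᵥ x) s) + (D (y s) + (KSq M *ᵥ y) s)
    rw [Matrix.mulVec_add, Pi.add_apply, Pi.add_apply, map_add]
    ring

/-- the connection on the first factor -/
private def P3_N1 {K : Type*} [Field K] (D : Derivation ℤ K K) {g : ℕ} {ι : Type} [Fintype ι] [DecidableEq ι]
    (M : Matrix ι ι K) : (Fin g × ι → K) →+ (Fin g × ι → K) :=
  AddMonoidHom.mk' (fun x q => D (x q) + (M *ᵥ fun l => x (q.1, l)) q.2) fun x y => by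
    funext q
    show D ((x + y) q) + (M *ᵥ fun l => (x + y) (q.1, l)) q.2 =
      (D (x q) + (M *ᵥ fun l => x (q.1, l)) q.2) + (D (y q) + (M *ᵥ fun l => y (q.1, l)) q.2)
    have h1 : (fun l => (x + y) (q.1, l)) = (fun l => x (q.1, l)) + fun l => y (q.1, l) := rfl
    rw [h1, Matrix.mulVec_add, Pi.add_apply, Pi.add_apply, map_add]
    ring

private theorem P3_it {K : Type*} [Field K] (D : Derivation ℤ K K) {g : ℕ} {ι : Type} [Fintype ι] [DecidableEq ι]
    (M : Matrix ι ι K) (n : ℕ) (x : Fin g × ι → K) (q : Fin g × ι) :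
    (fun z => P3_N1 D M z)^[n] x q = (nc (fun y => D y) M)^[n] (fun l => x (q.1, l)) q.2 := by
  induction n generalizing x with
  | zero => rfl
  | succ n ih =>
    rw [Function.iterate_succ_apply, Function.iterate_succ_apply, ih]
    rfl

theorem pc_arr {K : Type*} [Field K] (p : ℕ) [Fact p.Prime] [CharP K p] (D : Derivation ℤ K K)
    (hD : ∀ x, (fun y => D y)^[p] x = 0) {ι : Type} [Fintype ι] [DecidableEq ι] (M : Matrix ι ι K) {Ψ : Matrix ι ι K}
    (hΨ : ∀ x, (nc (fun y => D y) M)^[p] x = Ψ *ᵥ x) (g m : ℕ) (φ : Kq g ι m → K) :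
    (na (fun y => D y) M)^[p] φ = KSq Ψ *ᵥ φ := by
  induction m with
  | zero =>
    have h1 : ∀ (n : ℕ) (φ : Kq g ι 0 → K) (s : Kq g ι 0), (na (fun y => D y) M)^[n] φ s = (fun y => D y)^[n] (φ s) := by
      intro n
      induction n with
      | zero => intro φ s; rfl
      | succ n ih =>
        intro φ s
        rw [Function.iterate_succ_apply, Function.iterate_succ_apply, ih]
        congr 1
        show D (φ s) + (KSq M *ᵥ φ) s = D (φ s)
        rw [P3_KS]
        simp
    funext s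
    rw [h1, hD, P3_KS]
    simp
  | succ m ih =>
    have hC : ∀ z : Kq g ι (m + 1) → K, p • z = 0 := by
      intro z
      rw [← Nat.cast_smul_eq_nsmul K, CharP.cast_eq_zero, zero_smul]
    have key : ∀ (x : Fin g × ι → K) (ψ : Kq g ι m → K),
        (na (fun y => D y) M)^[p] (P3_mu x ψ) = KSq Ψ *ᵥ P3_mu x ψ := by
      intro x ψ
      have h := leib_p p hC P3_mu (P3_N1 D M) (P3_N D M) (P3_N D M) (fun x ψ => by
        have h2 : P3_N D M (P3_mu x ψ) = (fun s => D (P3_mu x ψ s)) + KSq M *ᵥ P3_mu x ψ := rfl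
        rw [h2, P3_act]
        funext s
        show D (x (s 0) * ψ fun i => s i.succ) + ((M *ᵥ fun l => x ((s 0).1, l)) (s 0).2 * ψ (fun i => s i.succ) +
          x (s 0) * (KSq M *ᵥ ψ) fun i => s i.succ) =
          (D (x (s 0)) + (M *ᵥ fun l => x ((s 0).1, l)) (s 0).2) * ψ (fun i => s i.succ) +
            x (s 0) * (D (ψ fun i => s i.succ) + (KSq M *ᵥ ψ) fun i => s i.succ)
        rw [Derivation.leibniz, smul_eq_mul, smul_eq_mul]
        ring) x ψ
      have h3 : (fun z => P3_N1 D M z)^[p] x = fun q => (Ψ *ᵥ fun l => x (q.1, l)) q.2 := by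
        funext q
        rw [P3_it, hΨ]
      have h4 : (fun z => P3_N D M z)^[p] ψ = KSq Ψ *ᵥ ψ := ih ψ
      rw [h3, h4] at h
      rw [P3_act]
      exact h
    have hφ : φ = ∑ q : Fin g × ι, P3_mu (Pi.single q (1 : K)) fun s => φ (Fin.cons q s) := by
      funext s
      rw [Finset.sum_apply, Finset.sum_eq_single (s 0)]
      · rw [P3_mu_apply, Pi.single_eq_same, one_mul]
        congr 1
        exact (Fin.cons_self_tail s).symm
      · intro q _ hq
        rw [P3_mu_apply, Pi.single_eq_of_ne hq.symm, zero_mul]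
      · intro h
        exact absurd (Finset.mem_univ _) h
    obtain ⟨T, hT⟩ : ∃ T : (Kq g ι (m + 1) → K) →+ (Kq g ι (m + 1) → K), ∀ z, (na (fun y => D y) M)^[p] z = T z := by
      have hT : ∀ n : ℕ, ∃ T : (Kq g ι (m + 1) → K) →+ (Kq g ι (m + 1) → K), ∀ z, (na (fun y => D y) M)^[n] z = T z := by
        intro n
        induction n with
        | zero => exact ⟨AddMonoidHom.id _, fun z => rfl⟩
        | succ n ih =>
          obtain ⟨T, hT⟩ := ih
          refine ⟨(P3_N D M).comp T, fun z => ?_⟩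
          rw [Function.iterate_succ_apply', hT]
          rfl
      exact hT p
    rw [hT, hφ, map_sum, Matrix.mulVec_sum]
    refine Finset.sum_congr rfl fun q _ => ?_
    rw [← hT]
    exact key _ _

end MPadcEO
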