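import Pool.Agent.Lib.MP_adc574_ag_EO.P1
import Pool.Agent.Lib.MP_adc574_ag_HM.DK

/-!
# P4: the `p`-th iterate of `d / dt` is zero (easy)

PROOF. `CharP (RatFunc k) p` (`charP_of_injective_algebraMap (algebraMap k (RatFunc k)).injective p`). For a polynomial `q`: `(DK k)^[p] (algebraMap q) = algebraMap (derivative^[p] q)` (`DK_poly`, induction) and `derivative^[p] q = 0` in characteristic `p` (`Polynomial.iterate_derivative_eq_factorial_smul_sum`, or
`Polynomial.factorial_dvd_coeff_iterate_derivative`-like, or coefficientwise `coeff_iterate_derivative`: the coefficient is `(j + p).descFactorial p • ..` and `p ∣ (j + p).descFactorial p` as `p ! ∣ descFactorial`, `Nat.factorial_dvd_descFactorial`). For `x = a / b`: `a = b * x`, `leib_p` (P1, `μ` the multiplication, or induction) gives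
`0 = D^[p] a = D^[p] b * x + b * D^[p] x = b * D^[p] x`.
-/

set_option autoImplicit false

namespace MPadcEO

open Polynomial MPadcHM

private theorem P4_poly {k : Type*} [Field k] (p : ℕ) [Fact p.Prime] [CharP k p] (q : k[X]) :
    derivative^[p] q = 0 := by
  rw [Polynomial.iterate_derivative_eq_factorial_smul_sum, nsmul_eq_mul,
    (CharP.cast_eq_zero_iff k[X] p (Nat.factorial p)).2 (Nat.dvd_factorial (Fact.out : p.Prime).pos le_rfl), zero_mul]

private theorem P4_map (k : Type*) [Field k] (n : ℕ) : ∀ q : k[X],
    (fun y => DK k y)^[n] (algebraMap k[X] (RatFunc k) q) = algebraMap k[X] (RatFunc k) (derivative^[n] q) := by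
  induction n with
  | zero =>
    intro q
    rfl
  | succ n ih =>
    intro q
    rw [Function.iterate_succ_apply, Function.iterate_succ_apply, DK_poly, ih]

theorem dk_p (k : Type*) [Field k] (p : ℕ) [Fact p.Prime] [CharP k p] (x : RatFunc k) : (fun y => DK k y)^[p] x = 0 := by
  have : CharP (RatFunc k) p := charP_of_injective_algebraMap (algebraMap k (RatFunc k)).injective p
  have h0 : ∀ z : RatFunc k, p • z = 0 := fun z => by
    rw [nsmul_eq_mul, CharP.cast_eq_zero, zero_mul]
  have h1 := fun a b : RatFunc k => leib_p p h0 (AddMonoidHom.mul : RatFunc k →+ RatFunc k →+ RatFunc k)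
    (DK k).toLinearMap.toAddMonoidHom (DK k).toLinearMap.toAddMonoidHom (DK k).toLinearMap.toAddMonoidHom
    (fun x y => by
      show DK k (x * y) = DK k x * y + x * DK k y
      rw [Derivation.leibniz, smul_eq_mul, smul_eq_mul]
      ring) a b
  have h2 : ∀ a b : RatFunc k, (fun y => DK k y)^[p] (a * b) =
      (fun y => DK k y)^[p] a * b + a * (fun y => DK k y)^[p] b := h1
  have h3 : ∀ q : k[X], (fun y => DK k y)^[p] (algebraMap k[X] (RatFunc k) q) = 0 := fun q => by
    rw [P4_map, P4_poly, map_zero]
  have hb : algebraMap k[X] (RatFunc k) x.denom ≠ 0 :=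
    (map_ne_zero_iff _ (RatFunc.algebraMap_injective k)).2 (RatFunc.denom_ne_zero x)
  have h4 : algebraMap k[X] (RatFunc k) x.num = algebraMap k[X] (RatFunc k) x.denom * x := by
    have h5 := RatFunc.num_div_denom x
    rw [div_eq_iff hb] at h5
    rw [h5, mul_comm]
  have h5 := h3 x.num
  rw [h4, h2, h3, zero_mul, zero_add] at h5
  exact (mul_eq_zero.1 h5).resolve_left hb

end MPadcEO
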