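import Pool.Agent.Lib.MP_adc574_ag_EO.P2
import Pool.Agent.Lib.MP_adc574_ag_EO.P3
import Pool.Agent.Lib.MP_adc574_ag_EO.P4
import Pool.Agent.Lib.MP_adc574_ag_PC.L3
import Pool.Agent.Lib.MP_adc574_ag_HM.LocE

/-!
# P5: a nonzero `p`-curvature gives an endomorphism which preserves all stable modules (medium)

PROOF. `K = RatFunc k`, `α = algebraMap k[X] K` (injective), `D = DZ k` (a `Derivation ℤ`; `DZ_apply`: it is `DK k`), `CharP K p`, `hD` by `dk_p` (P4), `M = mdK Δ G`. `pc_col` (P2): `Ψ`, `Ψ ≠ 0` by `hne`. Put `B' = (α Δ)⁻¹ ^ N • B.map α`; `flat` mapped to `K` and divided by `Δ ^ (N + 1)`: `D (B' a c) = (Mᵀ * B' + B' * M) a c`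
(`DK_poly`, the derivative of the power of the inverse: `Derivation.leibniz_pow`, `Derivation.leibniz_inv`; or from `D (Δ ^ N * B' a c) = N Δ' Δ ^ (N - 1) B' a c + Δ ^ N D (B' a c)`, cases `N = 0`). `pc_form` (P2): `Ψᵀ * B' + B' * Ψ = 0`, so `Ψᵀ * B.map α + B.map α * Ψ = 0`.
Choose `q ≠ 0` in `k[X]` with `q Ψ = Y.map α` (a common denominator: product of the denominators, `IsLocalization.exist_integer_multiples_of_finset` or `RatFunc.num`, `denom`). So `Y ≠ 0`, `Yᵀ * B + B * Y = 0` (injectivity of `α`). Let `W` be saturated and stable. `W_K` = span of the `ra x`, `x ∈ W`. It is stable under `na D M`: `na D M (ra x) = (α Δ)⁻¹ • ra (opq Δ G x)`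
(`KSq (mdK Δ G) = (α Δ)⁻¹ • (KSq G).map α`), sums, and multiples: `na D M (c • ψ) = D c • ψ + c • na D M ψ` (span induction). So stable under the `p`-th iterate `= KSq Ψ *ᵥ _` (`pc_arr`, P3). For `x ∈ W`: `ra (KSq Y *ᵥ x) = (α q) • (KSq Ψ *ᵥ ra x) ∈ W_K`, so `span_clear` (PC/L3) and saturation give `KSq Y *ᵥ x ∈ W`.
-/

set_option autoImplicit false

namespace MPadcEO

open Polynomial Matrix MPadcHM MPadcPC

private theorem P5_leib {K : Type*} [Field K] (D : Derivation ℤ K K) (a b : K) : D (a * b) = a * D b + b * D a := by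
  rw [D.leibniz, smul_eq_mul, smul_eq_mul]

private theorem P5_inv {K : Type*} [Field K] (D : Derivation ℤ K K) {c : K} (hc : c ≠ 0) (N : ℕ) :
    c * D (c⁻¹ ^ N) = - ((N : K) * c⁻¹ ^ N * D c) := by
  induction N with
  | zero => rw [pow_zero, D.map_one_eq_zero, mul_zero, Nat.cast_zero, zero_mul, zero_mul, neg_zero]
  | succ N ih =>
    have h1 : c * D c⁻¹ = - (c⁻¹ * D c) := by
      have h2 : D (c * c⁻¹) = 0 := by rw [mul_inv_cancel₀ hc]; exact D.map_one_eq_zero
      rw [D.leibniz, smul_eq_mul, smul_eq_mul] at h2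
      exact eq_neg_of_add_eq_zero_left h2
    rw [pow_succ, D.leibniz, smul_eq_mul, smul_eq_mul]
    have h3 : c * (c⁻¹ ^ N * D c⁻¹ + c⁻¹ * D (c⁻¹ ^ N)) = c⁻¹ ^ N * (c * D c⁻¹) + c⁻¹ * (c * D (c⁻¹ ^ N)) := by ring
    rw [h3, h1, ih]
    push_cast
    ring

private theorem P5_KSq {R S : Type*} [CommRing R] [CommRing S] {g : ℕ} {ι : Type} [DecidableEq ι] {m : ℕ} (f : R →+* S)
    {X : Matrix ι ι R} {X' : Matrix ι ι S} {t : S} (h : ∀ a b, t * X' a b = f (X a b)) (s s' : Kq g ι m) :
    t * KSq X' s s' = f (KSq X s s') := by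
  unfold KSq
  rw [Finset.mul_sum, map_sum]
  refine Finset.sum_congr rfl fun i _ => ?_
  by_cases h1 : s' = Function.update s i ((s i).1, (s' i).2)
  · rw [if_pos h1, if_pos h1, h]
  · rw [if_neg h1, if_neg h1, mul_zero, map_zero]

private theorem P5_mulVec {R S : Type*} [CommRing R] [CommRing S] {κ : Type*} [Fintype κ] (f : R →+* S)
    {X : Matrix κ κ R} {X' : Matrix κ κ S} {t : S} (h : ∀ a b, t * X' a b = f (X a b)) (x : κ → R) (s : κ) :
    t * (X' *ᵥ fun l => f (x l)) s = f ((X *ᵥ x) s) := by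
  simp only [Matrix.mulVec, dotProduct]
  rw [Finset.mul_sum, map_sum]
  refine Finset.sum_congr rfl fun i _ => ?_
  rw [map_mul, ← h, mul_assoc]

private theorem P5_na_mem {K : Type*} [Field K] (D : Derivation ℤ K K) {ι : Type} [Fintype ι] [DecidableEq ι] {g m : ℕ}
    (M : Matrix ι ι K) (T : Set (Kq g ι m → K)) (hT : ∀ x ∈ T, na (fun y => D y) M x ∈ Submodule.span K T)
    {x : Kq g ι m → K} (hx : x ∈ Submodule.span K T) : na (fun y => D y) M x ∈ Submodule.span K T := by
  induction hx using Submodule.span_induction with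
  | mem x hx => exact hT x hx
  | zero =>
    have h1 : na (fun y => D y) M (0 : Kq g ι m → K) = 0 := by
      funext s
      change D 0 + (KSq M *ᵥ (0 : Kq g ι m → K)) s = 0
      rw [Matrix.mulVec_zero, map_zero, Pi.zero_apply, add_zero]
    rw [h1]
    exact zero_mem _
  | add a c _ _ h1 h2 =>
    have h3 : na (fun y => D y) M (a + c) = na (fun y => D y) M a + na (fun y => D y) M c := by
      funext s
      change D (a s + c s) + (KSq M *ᵥ (a + c)) s = (D (a s) + (KSq M *ᵥ a) s) + (D (c s) + (KSq M *ᵥ c) s)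
      rw [Matrix.mulVec_add, map_add, Pi.add_apply]
      ring
    rw [h3]
    exact add_mem h1 h2
  | smul t a h0 h1 =>
    have h3 : na (fun y => D y) M (t • a) = D t • a + t • na (fun y => D y) M a := by
      funext s
      change D (t * a s) + (KSq M *ᵥ (t • a)) s = D t * a s + t * (D (a s) + (KSq M *ᵥ a) s)
      rw [Matrix.mulVec_smul, P5_leib D, Pi.smul_apply, smul_eq_mul]
      ring
    rw [h3]
    exact add_mem (Submodule.smul_mem _ _ h0) (Submodule.smul_mem _ _ h1)

theorem nz_of {k : Type} [Field k] (p : ℕ) [Fact p.Prime] [CharP k p] {ι : Type} [Fintype ι] [DecidableEq ι] {Δ : k[X]}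
    (hΔ : Δ ≠ 0) {G B : Matrix ι ι k[X]} (N : ℕ)
    (flat : Δ • B.map derivative = ((N : k[X]) * derivative Δ) • B + Gᵀ * B + B * G)
    (hne : ∃ x : ι → RatFunc k, (nc (fun y => DK k y) (mdK Δ G))^[p] x ≠ 0) : NZ Δ G B := by
  classical
  set α := algebraMap k[X] (RatFunc k) with hα
  have hinj : Function.Injective α := RatFunc.algebraMap_injective k
  have : CharP (RatFunc k) p := charP_of_injective_algebraMap (algebraMap k (RatFunc k)).injective p
  have hD : ∀ x, (fun y => DZ k y)^[p] x = 0 := fun x => dk_p k p x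
  have hDα : ∀ q : k[X], DZ k (α q) = α (derivative q) := fun q => by
    rw [DZ_apply, hα, DK_poly]
  obtain ⟨c, hc⟩ : ∃ c, c = α Δ := ⟨_, rfl⟩
  have hc0 : c ≠ 0 := fun h => hΔ (hinj (by rw [← hc, h, map_zero]))
  obtain ⟨M, hM⟩ : ∃ M, M = mdK Δ G := ⟨_, rfl⟩
  have hcM : ∀ a b, c * M a b = α (G a b) := fun a b => by
    rw [hM, hc]
    change α Δ * (α (G a b) / α Δ) = α (G a b)
    rw [mul_div_cancel₀]
    rw [← hc]
    exact hc0
  obtain ⟨Ψ, hΨ⟩ := pc_col p (DZ k) hD M
  have hΨ0 : Ψ ≠ 0 := by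
    rintro rfl
    obtain ⟨x, hx⟩ := hne
    apply hx
    rw [← hM]
    have h1 := hΨ x
    rw [Matrix.zero_mulVec] at h1
    exact h1
  -- the form
  have hform : Ψᵀ * B.map α + B.map α * Ψ = 0 := by
    have h1 : Ψᵀ * (c⁻¹ ^ N • B.map α) + (c⁻¹ ^ N • B.map α) * Ψ = 0 := by
      refine pc_form p (DZ k) hD M hΨ _ fun a b => ?_
      have h2 : c * DZ k (α (B a b)) = (N : RatFunc k) * DZ k c * α (B a b) + α ((Gᵀ * B) a b) + α ((B * G) a b) := by
        have h3 := congrArg α (congrFun (congrFun flat a) b)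
        rw [Matrix.add_apply, Matrix.add_apply, Matrix.smul_apply, Matrix.smul_apply, smul_eq_mul, smul_eq_mul,
          Matrix.map_apply, map_mul, map_add, map_add, map_mul, map_mul, map_natCast] at h3
        rw [hDα, hc, hDα]
        exact h3
      have h4 : ∀ a b, c * (Mᵀ * B.map α) a b = α ((Gᵀ * B) a b) := fun a b => by
        rw [Matrix.mul_apply, Matrix.mul_apply, Finset.mul_sum, map_sum]
        refine Finset.sum_congr rfl fun l _ => ?_
        rw [Matrix.transpose_apply, Matrix.transpose_apply, Matrix.map_apply, map_mul, ← hcM, mul_assoc]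
      have h5 : ∀ a b, c * (B.map α * M) a b = α ((B * G) a b) := fun a b => by
        rw [Matrix.mul_apply, Matrix.mul_apply, Finset.mul_sum, map_sum]
        refine Finset.sum_congr rfl fun l _ => ?_
        rw [Matrix.map_apply, map_mul, ← hcM]
        ring
      refine mul_left_cancel₀ hc0 ?_
      rw [Matrix.mul_smul, Matrix.smul_mul, ← smul_add, Matrix.smul_apply, Matrix.smul_apply, Matrix.add_apply,
        Matrix.map_apply, smul_eq_mul, smul_eq_mul, P5_leib (DZ k)]
      have h6 := P5_inv (DZ k) hc0 N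
      have h7 : c * (c⁻¹ ^ N * DZ k (α (B a b)) + α (B a b) * DZ k (c⁻¹ ^ N)) =
          c⁻¹ ^ N * (c * DZ k (α (B a b))) + α (B a b) * (c * DZ k (c⁻¹ ^ N)) := by ring
      have h8 : c * (c⁻¹ ^ N * ((Mᵀ * B.map α) a b + (B.map α * M) a b)) =
          c⁻¹ ^ N * (c * (Mᵀ * B.map α) a b + c * (B.map α * M) a b) := by ring
      rw [h7, h8, h4, h5, h2, h6]
      ring
    rw [Matrix.mul_smul, Matrix.smul_mul, ← smul_add] at h1
    exact (smul_eq_zero.1 h1).resolve_left (pow_ne_zero _ (inv_ne_zero hc0))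
  -- the common denominator
  obtain ⟨q, hq0, Y, hY⟩ : ∃ q : k[X], q ≠ 0 ∧ ∃ Y : Matrix ι ι k[X], ∀ a b, α q * Ψ a b = α (Y a b) := by
    obtain ⟨q, hq⟩ := IsLocalization.exist_integer_multiples_of_finite (nonZeroDivisors k[X])
      (fun z : ι × ι => Ψ z.1 z.2)
    have h1 : ∀ z : ι × ι, ∃ y : k[X], α y = α q * Ψ z.1 z.2 := fun z => by
      obtain ⟨y, hy⟩ := hq z
      exact ⟨y, by rw [← Algebra.smul_def]; exact hy⟩
    choose y hy using h1
    exact ⟨q, nonZeroDivisors.ne_zero q.2, fun a b => y (a, b), fun a b => (hy (a, b)).symm⟩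
  have hq1 : α q ≠ 0 := fun h => hq0 (hinj (by rw [h, map_zero]))
  refine ⟨Y, ?_, ?_, ?_⟩
  · rintro rfl
    apply hΨ0
    ext a b
    have h1 := hY a b
    rw [Matrix.zero_apply, map_zero] at h1
    exact (mul_eq_zero.1 h1).resolve_left hq1
  · refine Matrix.ext fun a b => hinj ?_
    have h1 := congrFun (congrFun hform a) b
    rw [Matrix.add_apply, Matrix.mul_apply, Matrix.mul_apply, Matrix.zero_apply] at h1
    rw [Matrix.add_apply, Matrix.mul_apply, Matrix.mul_apply, Matrix.zero_apply, map_zero, map_add, map_sum, map_sum]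
    have h2 : ∀ l, α (Yᵀ a l * B l b) = α q * (Ψᵀ a l * B.map α l b) := fun l => by
      rw [map_mul, Matrix.transpose_apply, Matrix.transpose_apply, Matrix.map_apply, ← hY, mul_assoc]
    have h3 : ∀ l, α (B a l * Y l b) = α q * (B.map α a l * Ψ l b) := fun l => by
      rw [map_mul, Matrix.map_apply, ← hY]
      ring
    rw [Finset.sum_congr rfl fun l _ => h2 l, Finset.sum_congr rfl fun l _ => h3 l, ← Finset.mul_sum, ← Finset.mul_sum,
      ← mul_add, h1, mul_zero]
  · intro g m W hsat hst x hx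
    obtain ⟨T, hT⟩ : ∃ T : Set (Kq g ι m → RatFunc k), T = {y | ∃ x ∈ W, y = ra x} := ⟨_, rfl⟩
    have h1 : ∀ y ∈ T, na (fun y => DZ k y) M y ∈ Submodule.span (RatFunc k) T := by
      rw [hT]
      rintro _ ⟨x, hx, rfl⟩
      have h2 : na (fun y => DZ k y) M (ra x) = c⁻¹ • ra (opq Δ G x) := by
        funext s
        refine mul_left_cancel₀ hc0 ?_
        rw [Pi.smul_apply, smul_eq_mul, mul_inv_cancel_left₀ hc0]
        unfold na
        rw [mul_add]
        have h3 := P5_mulVec α (P5_KSq (g := g) (m := m) α hcM) x s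
        have h4 : c * (KSq M *ᵥ ra x) s = α ((KSq G *ᵥ x) s) := h3
        rw [h4]
        change c * DZ k (α (x s)) + α ((KSq G *ᵥ x) s) = α (Δ * derivative (x s) + (KSq G *ᵥ x) s)
        rw [hDα, map_add, map_mul, hc]
      rw [h2]
      exact Submodule.smul_mem _ _ (Submodule.subset_span ⟨_, hst x hx, rfl⟩)
    have h2 : ∀ (r : ℕ) (y : Kq g ι m → RatFunc k), y ∈ Submodule.span (RatFunc k) T →
        (na (fun y => DZ k y) M)^[r] y ∈ Submodule.span (RatFunc k) T := by
      intro r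
      induction r with
      | zero => exact fun y hy => hy
      | succ r ih =>
        intro y hy
        rw [Function.iterate_succ_apply]
        exact ih _ (P5_na_mem (DZ k) M T h1 hy)
    have h3 := h2 p (ra x) (Submodule.subset_span (by rw [hT]; exact ⟨x, hx, rfl⟩))
    rw [pc_arr p (DZ k) hD M hΨ g m (ra x)] at h3
    have h4 : ra (KSq Y *ᵥ x) = α q • (KSq Ψ *ᵥ ra x) := by
      funext s
      rw [Pi.smul_apply, smul_eq_mul]
      exact (P5_mulVec α (P5_KSq (g := g) (m := m) α hY) x s).symm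
    have h5 : ra (KSq Y *ᵥ x) ∈ Submodule.span (RatFunc k) {y | ∃ x ∈ W, y = ra x} := by
      rw [h4, ← hT]
      exact Submodule.smul_mem _ _ h3
    obtain ⟨d, hd, h6⟩ := span_clear W _ h5
    exact hsat d hd _ h6

end MPadcEO
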