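import Pool.Agent.Lib.MP_adc574_ag_IS.JacP
import Pool.Agent.Lib.MP_adc574_ag_LZ.FrD
import Pool.Agent.Lib.MP_adc574_ag_LZ.HGd

/-!
# P6: the `p`-th iterate of the connection on polynomials is the multiplication by `(D F) ^ p` (medium-)

PROOF. `nb D F Q = cder D Q + cder D F * Q`, `d = cderD D` (LZ/FrD.lean, a derivation with `cderD_apply : cderD D P = cder D P`) satisfies `IsDer`. With `it` of MP_adc574_ag_IS/JacP.lean: `(fun Q => nb D F Q)^[n] P = it d f n P`, `f = d F` (definition `it D f n g = (fun x => f * x + D x)^[n] g`). `it_eq`: `it d f p P = it d f p 1 * P + it d 0 p P`,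
`it d 0 p P = d^[p] P = 0` since `d^[p]` is coefficientwise `D^[p]` (`coeff_cderD`, induction) and `hD`. Claim `it d f p 1 = f ^ p + d^[p - 1] f`: `it_pow` is this identity with a variable: `it (hd d) (C f) p 1 = C (f ^ p) + X ^ (p - 1) * C (d^[p - 1] f)` in `S[X]`, `hd d G = X * cm d G` (`cm` = coefficientwise `d`); apply `Polynomial.eval 1`: `eval 1 (hd d G) = d (eval 1 G)`
(`eval 1` is the sum of the coefficients), so by induction `eval 1 (it (hd d) (C f) n 1) = it d f n 1`. And `d^[p - 1] f = d^[p - 1] (d F) = d^[p] F = 0`. The rings have characteristic `p` (`MvPolynomial` over `K`: instance or `MvPolynomial.instCharP`/`charP_of_injective_algebraMap`).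
-/

set_option autoImplicit false

namespace MPadcEO

open MvPolynomial MPadcHM MPadcLZ

private theorem P6_der {K : Type*} [Field K] (D : Derivation ℤ K K) {m : ℕ} :
    MPadcLF.IsDer (fun P : MvPolynomial (Fin m) K => cderD D P) := by
  constructor
  · intro a b
    exact map_add _ _ _
  · intro a b
    change cderD D (a * b) = a * cderD D b + b * cderD D a
    rw [Derivation.leibniz, smul_eq_mul, smul_eq_mul]

private theorem P6_iter {K : Type*} [Field K] (D : Derivation ℤ K K) {m : ℕ} (n : ℕ)
    (P : MvPolynomial (Fin m) K) (e : Fin m →₀ ℕ) :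
    coeff e ((fun P : MvPolynomial (Fin m) K => cderD D P)^[n] P) = (fun y => D y)^[n] (coeff e P) := by
  induction n with
  | zero => rfl
  | succ n ih =>
    rw [Function.iterate_succ_apply', Function.iterate_succ_apply']
    rw [coeff_cderD, ih]

private theorem P6_cm {S : Type*} [CommRing S] {d : S → S} (h : MPadcLF.IsDer d) (G : Polynomial S) :
    (MPadcLF.cm d G).eval 1 = d (G.eval 1) := by
  induction G using Polynomial.induction_on' with
  | add p q hp hq => rw [(MPadcLF.isDer_cm h).add, Polynomial.eval_add, Polynomial.eval_add, h.add, hp, hq]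
  | monomial n a =>
    have h1 : MPadcLF.cm d (Polynomial.monomial n a) = Polynomial.monomial n (d a) := by
      ext k
      rw [MPadcLF.coeff_cm h.zero, Polynomial.coeff_monomial, Polynomial.coeff_monomial]
      split_ifs
      · rfl
      · exact h.zero
    rw [h1, Polynomial.eval_monomial, Polynomial.eval_monomial, one_pow, mul_one, mul_one]

private theorem P6_eval {S : Type*} [CommRing S] {d : S → S} (h : MPadcLF.IsDer d) (f : S) (n : ℕ) :
    (MPadcIS.it (MPadcIS.hd d) (Polynomial.C f) n 1).eval 1 = MPadcIS.it d f n 1 := by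
  induction n with
  | zero => exact Polynomial.eval_one
  | succ n ih =>
    rw [MPadcIS.it_succ, MPadcIS.it_succ, Polynomial.eval_add, Polynomial.eval_mul, Polynomial.eval_C, ih]
    congr 1
    unfold MPadcIS.hd
    rw [Polynomial.eval_mul, Polynomial.eval_X, one_mul, P6_cm h]
    congr 1

private theorem P6_zero {S : Type*} [CommRing S] (d : S → S) (n : ℕ) (P : S) :
    MPadcIS.it d 0 n P = d^[n] P := by
  induction n with
  | zero => rfl
  | succ n ih => rw [MPadcIS.it_succ, zero_mul, zero_add, ih, Function.iterate_succ_apply']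

theorem nb_pow {K : Type*} [Field K] (p : ℕ) [Fact p.Prime] [CharP K p] (D : Derivation ℤ K K)
    (hD : ∀ x, (fun y => D y)^[p] x = 0) {m : ℕ} (F P : MvPolynomial (Fin m) K) :
    (fun Q => nb D F Q)^[p] P = cder D F ^ p * P := by
  obtain ⟨d, hd⟩ : ∃ d : MvPolynomial (Fin m) K → MvPolynomial (Fin m) K, d = fun P => cderD D P := ⟨_, rfl⟩
  have hder : MPadcLF.IsDer d := by
    rw [hd]
    exact P6_der D
  have hdp : ∀ Q, d^[p] Q = 0 := by
    intro Q
    ext e
    rw [hd, P6_iter, hD, coeff_zero]
  have h1 : (fun Q => nb D F Q)^[p] P = MPadcIS.it d (cder D F) p P := by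
    unfold MPadcIS.it
    congr 1
    funext Q
    rw [hd]
    change cder D Q + cder D F * Q = cder D F * Q + cderD D Q
    rw [cderD_apply, add_comm]
  obtain ⟨q, hq⟩ : ∃ q, p = q + 1 := ⟨p - 1, by have := (Fact.out : p.Prime).pos; omega⟩
  have h2 : d^[p - 1] (cder D F) = 0 := by
    have h3 : cder D F = d F := by
      rw [hd]
      exact (cderD_apply D F).symm
    have h4 := hdp F
    rw [hq, Function.iterate_succ_apply] at h4
    rw [h3, hq, Nat.add_sub_cancel]
    exact h4
  have h5 : MPadcIS.it d (cder D F) p 1 = cder D F ^ p := by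
    rw [← P6_eval hder, MPadcIS.it_pow p hder, h2, Polynomial.C_0, mul_zero, add_zero, Polynomial.eval_C]
  rw [h1, MPadcIS.it_eq p hder, h5, P6_zero, hdp, add_zero]

end MPadcEO
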