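import Pool.Agent.Lib.MP_adc574_ag_EO.PD
import Pool.Agent.Lib.MP_adc574_ag_LZ.HGd

/-!
# P7: the iterates of the connection on the classes of the monomials (medium-)

PROOF. (1) `nb D F` maps `relZ d F` into itself (the private `hgdb_mem`, `hgdb_out` of MP_adc574_ag_LZ/HGd.lean for a general field `K`, derivation `D` and a homogeneous `F`; copy: `nb_dl`, `nb_add`, `nb_smul`; `cder D F` is homogeneous of degree `d`). So `brP P = brP Q → brP (nb D F P) = brP (nb D F Q)`.
(2) `brP (nb D F (∑ v, x v • x ^ v)) = ∑ v, (D (x v) • brP (x ^ v) + x v • brP (nb D F (x ^ v))) = ∑ v', (nc D M x) v' • brP (x ^ v')` by `nb_add`/`nb_smul` and `hM` (exchange the sums). (3) Induction on `n` (`Function.iterate_succ_apply'`): the class of the `n`-th iterate is the class of `∑ v, (nc ..)^[n] x v • x ^ v`, by (1) the class of the next one is the class of `nb` of this sum, use (2).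
-/

set_option autoImplicit false

namespace MPadcEO

open MvPolynomial MPadcHM MPadcLZ

private theorem P7_dg_add {N : ℕ} (e f : Fin N →₀ ℕ) : dg (e + f) = dg e + dg f := by
  unfold dg
  rw [← Finset.sum_add_distrib]
  exact Finset.sum_congr rfl fun i _ => Finsupp.add_apply _ _ _

private theorem P7_out {K : Type*} [Field K] {N : ℕ} (d : ℕ) (F T : MvPolynomial (Fin N) K)
    (hT : ∀ e ∈ T.support, dg e = d) (e : Fin N →₀ ℕ) (he : ¬ d ∣ dg e + N) :
    T * monomial e 1 ∈ relZ d F := by
  have h : T * monomial e 1 = ∑ v ∈ T.support, coeff v T • monomial (e + v) (1 : K) := by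
    conv_lhs => rw [T.as_sum]
    rw [Finset.sum_mul]
    refine Finset.sum_congr rfl fun v _ => ?_
    rw [monomial_mul, mul_one, smul_monomial, smul_eq_mul, mul_one, add_comm]
  rw [h]
  refine Submodule.sum_mem _ fun v hv => Submodule.smul_mem _ _
    (Submodule.subset_span (Or.inr ⟨e + v, ?_, rfl⟩))
  rw [P7_dg_add, hT v hv]
  intro h'
  apply he
  have h2 : dg e + d + N = dg e + N + d := by ring
  rw [h2] at h'
  exact (Nat.dvd_add_left (dvd_refl d)).1 h'

private theorem P7_coeff {K : Type*} [Field K] {N : ℕ} (D : Derivation ℤ K K)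
    (P : MvPolynomial (Fin N) K) (m : Fin N →₀ ℕ) : coeff m (cder D P) = D (coeff m P) := by
  rw [← cderD_apply, coeff_cderD]

private theorem P7_one {K : Type*} [Field K] {N : ℕ} (D : Derivation ℤ K K)
    (e : Fin N →₀ ℕ) : cder D (monomial e (1 : K)) = 0 := by
  rw [← cderD_apply, cderD_monomial, Derivation.map_one_eq_zero, map_zero]

private theorem P7_zero {K : Type*} [Field K] {N : ℕ} (D : Derivation ℤ K K)
    (F : MvPolynomial (Fin N) K) : nb D F 0 = 0 := by
  unfold nb
  rw [← cderD_apply, map_zero, mul_zero, add_zero]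

theorem nb_relZ {K : Type*} [Field K] (D : Derivation ℤ K K) {m d : ℕ} {F : MvPolynomial (Fin m) K}
    (hF : F.IsHomogeneous d) {P : MvPolynomial (Fin m) K} (hP : P ∈ relZ d F) : nb D F P ∈ relZ d F := by
  have hP' : P ∈ Submodule.span K
      ({P : MvPolynomial (Fin m) K | ∃ i Q, P = dl F i Q} ∪
        {P | ∃ e : Fin m →₀ ℕ, ¬ d ∣ dg e + m ∧ P = monomial e 1}) := hP
  induction hP' using Submodule.span_induction with
  | mem x hx =>
    rcases hx with ⟨i, Q, rfl⟩ | ⟨e, he, rfl⟩
    · rw [nb_dl]
      exact Submodule.subset_span (Or.inl ⟨i, _, rfl⟩)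
    · have h1 : nb D F (monomial e 1) = cder D F * monomial e 1 := by
        unfold nb
        rw [P7_one, zero_add]
      rw [h1]
      refine P7_out d F _ (fun v hv => ?_) e he
      rw [mem_support_iff] at hv
      have hv' : coeff v F ≠ 0 := by
        intro h0
        apply hv
        rw [P7_coeff, h0, map_zero]
      have h2 := hF hv'
      have h3 : (Finsupp.weight (1 : Fin m → ℕ)) v = ∑ i, v i := by
        rw [Finsupp.weight_apply, Finsupp.sum_fintype _ _ (fun i => by simp)]
        exact Finset.sum_congr rfl fun i _ => by simp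
      exact h3.symm.trans h2
  | zero =>
    rw [P7_zero]
    exact Submodule.zero_mem _
  | add x y hx' hy' hx hy =>
    rw [nb_add]
    exact Submodule.add_mem _ (hx hx') (hy hy')
  | smul a x hx' hx =>
    rw [nb_smul]
    exact Submodule.add_mem _ (Submodule.smul_mem _ _ hx') (Submodule.smul_mem _ _ (hx hx'))

private theorem P7_wd {K : Type*} [Field K] (D : Derivation ℤ K K) {m d : ℕ} {F : MvPolynomial (Fin m) K}
    (hF : F.IsHomogeneous d) (P Q : MvPolynomial (Fin m) K) (h : brP d F P = brP d F Q) :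
    brP d F (nb D F P) = brP d F (nb D F Q) := by
  have h1 : P - Q ∈ relZ d F := by
    rw [← Submodule.Quotient.mk_eq_zero]
    show brP d F (P - Q) = 0
    rw [map_sub, h, sub_self]
  have h2 : brP d F (nb D F (P - Q)) = 0 :=
    (Submodule.Quotient.mk_eq_zero _).2 (nb_relZ D hF h1)
  have h3 : P = Q + (P - Q) := by ring
  rw [h3, nb_add, map_add, h2, add_zero]

private theorem P7_sum {K : Type*} [Field K] (D : Derivation ℤ K K) {m : ℕ} (F : MvPolynomial (Fin m) K) {ι : Type*} (s : Finset ι)
    (f : ι → MvPolynomial (Fin m) K) : nb D F (∑ i ∈ s, f i) = ∑ i ∈ s, nb D F (f i) :=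
  map_sum (AddMonoidHom.mk' (fun P => nb D F P) (nb_add D F)) f s

private theorem P7_step {K : Type*} [Field K] (D : Derivation ℤ K K) {m d : ℕ} {F : MvPolynomial (Fin m) K}
    {V : Finset (Fin m →₀ ℕ)} (M : Matrix V V K)
    (hM : ∀ v : V, brP d F (nb D F (monomial v.1 1)) = ∑ v' : V, M v' v • brP d F (monomial v'.1 1)) (x : V → K) :
    brP d F (nb D F (∑ v : V, x v • monomial v.1 1)) =
      ∑ v : V, (nc (fun y => D y) M x) v • brP d F (monomial v.1 1) := by
  rw [P7_sum, map_sum]
  have h1 : ∀ v : V, brP d F (nb D F (x v • monomial v.1 1)) = D (x v) • brP d F (monomial v.1 1) +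
      ∑ v' : V, (M v' v * x v) • brP d F (monomial v'.1 1) := by
    intro v
    rw [nb_smul, map_add, map_smul, map_smul, hM v, Finset.smul_sum]
    congr 1
    refine Finset.sum_congr rfl fun v' _ => ?_
    rw [smul_smul, mul_comm]
  rw [Finset.sum_congr rfl fun v _ => h1 v, Finset.sum_add_distrib, Finset.sum_comm, ← Finset.sum_add_distrib]
  refine Finset.sum_congr rfl fun v _ => ?_
  rw [← Finset.sum_smul, ← add_smul]
  rfl

theorem brP_iter {K : Type*} [Field K] (D : Derivation ℤ K K) {m d : ℕ} {F : MvPolynomial (Fin m) K}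
    (hF : F.IsHomogeneous d) {V : Finset (Fin m →₀ ℕ)} (M : Matrix V V K)
    (hM : ∀ v : V, brP d F (nb D F (monomial v.1 1)) = ∑ v' : V, M v' v • brP d F (monomial v'.1 1)) (n : ℕ) (x : V → K) :
    brP d F ((fun Q => nb D F Q)^[n] (∑ v : V, x v • monomial v.1 1)) =
      ∑ v : V, ((nc (fun y => D y) M)^[n] x) v • brP d F (monomial v.1 1) := by
  induction n with
  | zero =>
    simp only [Function.iterate_zero, id, map_sum, map_smul]
  | succ n ih =>
    rw [Function.iterate_succ_apply', Function.iterate_succ_apply']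
    have h1 : brP d F ((fun Q => nb D F Q)^[n] (∑ v : V, x v • monomial v.1 1)) =
        brP d F (∑ v : V, ((nc (fun y => D y) M)^[n] x) v • monomial v.1 1) := by
      rw [ih, map_sum]
      exact Finset.sum_congr rfl fun v _ => (map_smul _ _ _).symm
    exact (P7_wd D hF _ _ h1).trans (P7_step D M hM _)

end MPadcEO
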