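import Pool.Agent.Lib.MP_adc574_ag_OE.HE
import Pool.Agent.Lib.MP_adc574_ag_OH.OP
import Pool.Agent.Lib.MP_adc574_ag_OH.R4
import Pool.Agent.Lib.MP_adc574_ag_IS.IsoC

/-!
# P8: the functionals on the elements `x ^ (p w + p - 1)`; regularity; the classes of the monomials (medium-, three small theorems)

PROOF. `gf_ee`: as `c_ee` in MP_adc574_ag_IS/IsoC.lean: `ee K p w = monomial (p • w + pm1 m p) 1`, `tdg (p • w + pm1 m p) = p * tdg w = (p * lvl d v) * d`; `gf_in` (OH/OP.lean) with `k = p * lvl d v` and `gam_apply`; `ap_fr p F (lvl v) (lvl v) le_rfl w` (the push_cast of `p * lvl v` as in `c_ee`) gives `monomial w 1`, and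
`ell (fun v e => c v e ^ p) v (monomial w 1) = c v w ^ p` (`ell_monomial`).
`regE`: copy of `regF` in MP_adc574_ag_OH/R4.lean (it uses only `sm`, `hom`, `1 ≤ d - 1`).
`rel_map`: the image of `relR d F` under `MvPolynomial.map α` is in `relR d (F.map α)` (`Submodule.span_induction`: `(dl F i Q).map α = dl (F.map α) i (Q.map α)` by `pderiv_map`; monomials; sums; `(r • P).map α = α r • P.map α`; see S8a.lean in MP_adc574_ag_OH), `cder (DZ k) (P.map α) = (cder (dX k) P).map α` coefficientwise (`DK_poly`, `DZ_apply`), so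
`hH.rel v` mapped: `C (α Δ) * nb (DZ k) (F.map α) (x ^ v) - ∑ v', C (α (G v' v)) * x ^ v' ∈ relR = relZ` (`relR_eq`, OP.lean), apply `brP` (`brP_iff`, OP.lean) and divide by `α Δ ≠ 0` (`C a * P = a • P`); `mdK Δ G v' v = α (G v' v) / α Δ`.
-/

set_option autoImplicit false

namespace MPadcEO

open MvPolynomial MPadcGM MPadcHM MPadcLZ MPadcBK MPadcOA MPadcOH MPadcOE

private theorem P8_jac {R L : Type} [CommRing R] [Field L] {m : ℕ} (β : R →+* L) {F P : MvPolynomial (Fin m) R} (hP : P ∈ Jac F) :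
    P.map β ∈ Ideal.span (Set.range (gr (F.map β))) := by
  have h1 := Ideal.mem_map_of_mem (MvPolynomial.map β) hP
  unfold Jac at h1
  rw [Ideal.map_span, ← Set.range_comp] at h1
  have h2 : (⇑(MvPolynomial.map β) ∘ fun j => pderiv j F) = gr (F.map β) := by
    funext j
    show MvPolynomial.map β (pderiv j F) = pderiv j (F.map β)
    rw [pderiv_map]
  rw [h2] at h1
  exact h1

private theorem P8_dl {A B : Type} [CommRing A] [CommRing B] {N : ℕ} (φ : A →+* B) (F Q : MvPolynomial (Fin N) A)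
    (i : Fin N) : (dl F i Q).map φ = dl (F.map φ) i (Q.map φ) := by
  unfold dl
  rw [map_add, map_mul, pderiv_map, pderiv_map]

private theorem P8_rel {A B : Type} [CommRing A] [CommRing B] {N d : ℕ} (φ : A →+* B) (F P : MvPolynomial (Fin N) A)
    (h : P ∈ relR d F) : P.map φ ∈ relR d (F.map φ) := by
  unfold relR at h
  induction h using Submodule.span_induction with
  | mem x hx =>
    rcases hx with ⟨i, Q, rfl⟩ | ⟨e, he, rfl⟩
    · exact Submodule.subset_span (Or.inl ⟨i, Q.map φ, P8_dl φ F Q i⟩)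
    · refine Submodule.subset_span (Or.inr ⟨e, he, ?_⟩)
      rw [map_monomial, map_one]
  | zero => rw [map_zero]; exact Submodule.zero_mem _
  | add x y _ _ hx hy => rw [map_add]; exact Submodule.add_mem _ hx hy
  | smul a x _ hx =>
    have h1 : (a • x).map φ = φ a • x.map φ := by
      rw [MvPolynomial.smul_eq_C_mul, map_mul, map_C, MvPolynomial.smul_eq_C_mul]
    rw [h1]
    exact Submodule.smul_mem _ _ hx

private theorem P8_nb {k : Type} [Field k] {m : ℕ} (F P : MvPolynomial (Fin m) (Polynomial k)) :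
    nb (DZ k) (F.map (algebraMap (Polynomial k) (RatFunc k))) (P.map (algebraMap (Polynomial k) (RatFunc k))) =
      (nb (dX k) F P).map (algebraMap (Polynomial k) (RatFunc k)) := by
  have h : ∀ a : Polynomial k, DZ k (algebraMap (Polynomial k) (RatFunc k) a) =
      algebraMap (Polynomial k) (RatFunc k) (dX k a) := by
    intro a
    rw [DZ_apply, DK_poly]
    rfl
  unfold nb
  rw [cder_map (algebraMap (Polynomial k) (RatFunc k)) (dX k) (DZ k) h,
    cder_map (algebraMap (Polynomial k) (RatFunc k)) (dX k) (DZ k) h, map_add, map_mul]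

theorem gf_ee {K : Type} [Field K] (p : ℕ) [Fact p.Prime] [CharP K p] {m d : ℕ} (hd : 1 ≤ d)
    {F : MvPolynomial (Fin m) K} {V : Finset (Fin m →₀ ℕ)} {c : V → (Fin m →₀ ℕ) → K} {h : K}
    (hC : CData d (m - 1) F (fun v : V => v.1) (fun v : V => lvl d v.1) c h) (v : V) (w : Fin m →₀ ℕ)
    (hw : tdg w = lvl d v.1 * d) :
    gf p d F V c v (MPadcIS.ee K p w) = (-1) ^ (p * lvl d v.1) * c v w ^ p := by
  have hp0 := (Fact.out : p.Prime).pos
  have h1 : tdg (p • w + pm1 m p) = p * lvl d v.1 * d := by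
    have h2 : tdg (p • w + pm1 m p) = p * tdg w := by
      unfold tdg
      rw [Finset.mul_sum]
      refine Finset.sum_congr rfl fun i _ => ?_
      have h : (p • w + pm1 m p) i = p * w i + (p - 1) := rfl
      rw [h, mul_add, mul_one, add_assoc, Nat.sub_add_cancel hp0]
    rw [h2, hw, mul_assoc]
  unfold MPadcIS.ee
  rw [gf_in p hd v (p * lvl d v.1) _ h1, gam_apply]
  have h3 := ap_fr p F (lvl d v.1 : ℤ) (lvl d v.1 : ℤ) le_rfl w
  have h4 : ((p : ℤ) * (lvl d v.1 : ℤ)) = ((p * lvl d v.1 : ℕ) : ℤ) := by push_cast; rfl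
  rw [h4] at h3
  rw [h3, if_pos rfl, ell_monomial, one_mul]

theorem regE {R : Type} [CommRing R] {m d : ℕ} {V : Finset (Fin m →₀ ℕ)} (H : HE R m V) (hH : H.Ok d) {L : Type} [Field L]
    (β : Polynomial R →+* L) (hβ : β H.Δ ≠ 0) : RegF (d - 1) (H.F.map β) := by
  obtain ⟨M, hM⟩ := hH.sm
  refine ⟨fun i => ⟨M, ?_⟩, fun j => hm_pderiv ((hm_iff _ _).2 (hH.hom.map β)) j, ?_⟩
  · have h1 := P8_jac β (hM (Finsupp.single i M) (by
      unfold dg
      rw [Finset.sum_eq_single i]
      · rw [Finsupp.single_eq_same]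
      · intro j _ hj
        rw [Finsupp.single_eq_of_ne hj]
      · intro h
        exact absurd (Finset.mem_univ _) h))
    rw [map_mul, map_C, map_monomial, map_one] at h1
    have h2 : (X i : MvPolynomial (Fin m) L) ^ M = C (β H.Δ)⁻¹ * (C (β H.Δ) * monomial (Finsupp.single i M) 1) := by
      rw [← mul_assoc, ← C_mul, inv_mul_cancel₀ hβ, C_1, one_mul, X_pow_eq_monomial]
    rw [h2]
    exact Ideal.mul_mem_left _ _ h1
  · have := hH.hd
    omega

theorem rel_map {k : Type} [Field k] {m d : ℕ} {V : Finset (Fin m →₀ ℕ)} (H : HE k m V) (hH : H.Ok d) (hΔ : H.Δ ≠ 0) (v : V) :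
    brP d (H.F.map (algebraMap (Polynomial k) (RatFunc k)))
        (nb (DZ k) (H.F.map (algebraMap (Polynomial k) (RatFunc k))) (monomial v.1 1)) =
      ∑ v' : V, (algebraMap (Polynomial k) (RatFunc k) (H.G v' v) / algebraMap (Polynomial k) (RatFunc k) H.Δ) •
        brP d (H.F.map (algebraMap (Polynomial k) (RatFunc k))) (monomial v'.1 1) := by
  have hinj : Function.Injective (algebraMap (Polynomial k) (RatFunc k)) := IsFractionRing.injective _ _
  have hβ : algebraMap (Polynomial k) (RatFunc k) H.Δ ≠ 0 := (map_ne_zero_iff _ hinj).2 hΔ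
  have h1 := P8_rel (algebraMap (Polynomial k) (RatFunc k)) _ _ (hH.rel v)
  rw [map_sub, map_mul, map_C, ← P8_nb, map_monomial, map_one, map_sum, ← brP_iff, map_sub, sub_eq_zero, map_sum,
    ← MvPolynomial.smul_eq_C_mul, map_smul] at h1
  have h3 : brP d (H.F.map (algebraMap (Polynomial k) (RatFunc k)))
      (nb (DZ k) (H.F.map (algebraMap (Polynomial k) (RatFunc k))) (monomial v.1 1)) =
      (algebraMap (Polynomial k) (RatFunc k) H.Δ)⁻¹ • (algebraMap (Polynomial k) (RatFunc k) H.Δ •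
        brP d (H.F.map (algebraMap (Polynomial k) (RatFunc k)))
          (nb (DZ k) (H.F.map (algebraMap (Polynomial k) (RatFunc k))) (monomial v.1 1))) := by
    rw [smul_smul, inv_mul_cancel₀ hβ, one_smul]
  rw [h3, h1, Finset.smul_sum]
  refine Finset.sum_congr rfl fun v' _ => ?_
  rw [map_mul, map_C, map_monomial, map_one, ← MvPolynomial.smul_eq_C_mul, map_smul, smul_smul, div_eq_inv_mul]

end MPadcEO
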