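import Pool.Agent.Lib.MP_adc574_ag_EO.P4
import Pool.Agent.Lib.MP_adc574_ag_EO.P6
import Pool.Agent.Lib.MP_adc574_ag_EO.P7
import Pool.Agent.Lib.MP_adc574_ag_EO.P8

/-!
# P9: if the `p`-curvature vanishes then the multiplication by `x_{i₀} ^ d` on the Jacobian ring is zero (medium+)

PROOF. `K = RatFunc k`, `α = algebraMap k[X] K`, `CharP K p`, `D = DZ k` (`DZ_apply`: `DK k`), `hD` = `dk_p` (P4), `F = H.F.map α` (homogeneous of degree `d`: `hH.hom.map α`), `regE` (P8), `hC = hH.cd.map α` (`CData.map`), `α H.h ≠ 0` (`hH.hdvd`, `hΔ`). `rel_map` (P8) is `hM` of `brP_iter` (P7) with `M = mdK H.Δ H.G`.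
`cder D F = - X i₀ ^ d` (`hF`, `pen i₀ d G₀ = G₀.map C - C X * X i₀ ^ d`; coefficientwise: `DK (α (C a)) = 0`, `DK (α X) = 1`), so `(fun Q => nb D F Q)^[p] P = (- X i₀ ^ d) ^ p * P` (`nb_pow`, P6).
For all `x`: `brP ((- X i₀ ^ d) ^ p * ∑ v, x v • x ^ v) = 0` by `brP_iter` with `n = p` and `hz`. For every polynomial `P`: `span_V` (OH/OP.lean; `hh`: `α H.h ≠ 0`) gives `x` with `P - ∑ v, C (x v) * x ^ v ∈ relR = relZ`; `nb_relZ` (P7) iterated `p` times keeps the difference in `relZ`: so `brP ((- X i₀ ^ d) ^ p * P) = 0`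
(`(fun Q => nb D F Q)^[p]` is additive: by `nb_pow` it is the multiplication). Take `P = ee K p v'.1` (MP_adc574_ag_IS/IsoC.lean): `X i₀ ^ (d * p) * ee K p v' = ee K p (v' + Finsupp.single i₀ d)` (exponents). The functional `gf p d F V c v` kills `relZ` (`gf_relP` and `gf_out` of OH/OP.lean with `MPadcIS.c_ker`), so it kills `ee K p w`, `w = v' + single i₀ d`;
`tdg w = tdg v' + d = (lvl v' + 1) d = lvl v * d` (`CData.lev`), so `gf_ee` (P8) gives `α (H.c v w) ^ p = 0`.
-/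

set_option autoImplicit false

namespace MPadcEO

open MvPolynomial MPadcGM MPadcHM MPadcLZ MPadcBK MPadcOA MPadcOH MPadcOE

private theorem P9_iter {K : Type*} [Field K] (D : Derivation ℤ K K) {m d : ℕ} {F : MvPolynomial (Fin m) K}
    (hF : F.IsHomogeneous d) (n : ℕ) {P : MvPolynomial (Fin m) K} (hP : P ∈ relZ d F) :
    (fun Q => nb D F Q)^[n] P ∈ relZ d F := by
  induction n generalizing P with
  | zero => exact hP
  | succ n ih => exact ih (nb_relZ D hF hP)

private theorem P9_tdg {m : ℕ} (w : Fin m →₀ ℕ) (i : Fin m) (d : ℕ) : tdg (w + Finsupp.single i d) = tdg w + d := by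
  unfold tdg
  have h1 : ∀ j : Fin m, (w + Finsupp.single i d) j + 1 = (w j + 1) + Finsupp.single i d j := by
    intro j
    rw [Finsupp.add_apply]
    omega
  rw [Finset.sum_congr rfl fun j _ => h1 j, Finset.sum_add_distrib]
  congr 1
  rw [Finset.sum_eq_single i]
  · exact Finsupp.single_eq_same
  · intro j _ hj
    exact Finsupp.single_eq_of_ne hj
  · intro h
    exact absurd (Finset.mem_univ i) h

private theorem P9_cder {k : Type} [Field k] {m d : ℕ} (i₀ : Fin m) (G₀ : MvPolynomial (Fin m) k) :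
    cder (DZ k) ((pen i₀ d G₀).map (algebraMap (Polynomial k) (RatFunc k))) = - X i₀ ^ d := by
  ext e
  rw [← MPadcLZ.cderD_apply, MPadcLZ.coeff_cderD, DZ_apply, coeff_map, DK_poly]
  unfold pen
  rw [coeff_sub, coeff_map, coeff_C_mul, coeff_neg]
  have h1 : (X i₀ ^ d : MvPolynomial (Fin m) (Polynomial k)) = (X i₀ ^ d : MvPolynomial (Fin m) k).map Polynomial.C := by
    rw [map_pow, map_X]
  have h2 : (X i₀ ^ d : MvPolynomial (Fin m) (RatFunc k)) =
      (X i₀ ^ d : MvPolynomial (Fin m) k).map ((algebraMap (Polynomial k) (RatFunc k)).comp Polynomial.C) := by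
    rw [map_pow, map_X]
  rw [h1, h2, coeff_map, coeff_map, RingHom.comp_apply, Polynomial.derivative_sub, Polynomial.derivative_C, zero_sub,
    Polynomial.derivative_mul, Polynomial.derivative_X, Polynomial.derivative_C, one_mul, mul_zero, add_zero, map_neg]

private theorem P9_ee {K : Type} [Field K] (p : ℕ) {m : ℕ} (i₀ : Fin m) (d : ℕ) (w : Fin m →₀ ℕ) :
    (- X i₀ ^ d : MvPolynomial (Fin m) K) ^ p * MPadcIS.ee K p w =
      (-1 : K) ^ p • MPadcIS.ee K p (w + Finsupp.single i₀ d) := by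
  unfold MPadcIS.ee
  have h1 : (- X i₀ ^ d : MvPolynomial (Fin m) K) ^ p = (-1 : K) ^ p • monomial (Finsupp.single i₀ (d * p)) 1 := by
    rw [neg_pow, ← pow_mul, X_pow_eq_monomial, smul_eq_C_mul, C_pow, C_neg, C_1]
  rw [h1, smul_mul_assoc, monomial_mul, mul_one]
  congr 3
  rw [smul_add, Finsupp.smul_single, smul_eq_mul, mul_comm p d]
  rw [add_assoc, add_left_comm, add_comm (Finsupp.single i₀ (d * p)) (pm1 m p)]

theorem c_zero {k : Type} [Field k] (p : ℕ) [Fact p.Prime] [CharP k p] {m d : ℕ} {V : Finset (Fin m →₀ ℕ)} (H : HE k m V)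
    (hH : H.Ok d) (hΔ : H.Δ ≠ 0) (hp : d * m < p) (i₀ : Fin m) (G₀ : MvPolynomial (Fin m) k) (hF : H.F = pen i₀ d G₀)
    (hz : ∀ x : V → RatFunc k, (nc (fun y => DK k y) (mdK H.Δ H.G))^[p] x = 0) (v v' : V)
    (hv : lvl d v.1 = lvl d v'.1 + 1) : H.c v (v'.1 + Finsupp.single i₀ d) = 0 := by
  classical
  have hm := hH.hm
  have hd := hH.hd
  obtain ⟨α, hαdef⟩ : ∃ α : Polynomial k →+* RatFunc k, α = algebraMap (Polynomial k) (RatFunc k) := ⟨_, rfl⟩
  have hinj : Function.Injective α := by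
    rw [hαdef]
    exact RatFunc.algebraMap_injective k
  have : CharP (RatFunc k) p := charP_of_injective_algebraMap (algebraMap k (RatFunc k)).injective p
  have hαΔ : α H.Δ ≠ 0 := fun h => hΔ (hinj (by rw [h, map_zero]))
  have hh : α H.h ≠ 0 := by
    intro h
    obtain ⟨q, hq⟩ := hH.hdvd
    apply hαΔ
    rw [hq, map_mul, h, zero_mul]
  have hC := hH.cd.map α
  have hFh : (H.F.map α).IsHomogeneous d := hH.hom.map α
  have HR : RegF (d - 1) (H.F.map α) := regE H hH α hαΔ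
  have hrelmap := rel_map H hH hΔ
  rw [← hαdef] at hrelmap
  have hcd : cder (DZ k) (H.F.map α) = - X i₀ ^ d := by
    rw [hF, hαdef]
    exact P9_cder i₀ G₀
  have hnb : ∀ P : MvPolynomial (Fin m) (RatFunc k), (fun Q => nb (DZ k) (H.F.map α) Q)^[p] P = (- X i₀ ^ d) ^ p * P := by
    intro P
    rw [nb_pow p (DZ k) (fun x => dk_p k p x) (H.F.map α) P, hcd]
  have hzero : ∀ P : MvPolynomial (Fin m) (RatFunc k), (- X i₀ ^ d) ^ p * P ∈ relZ d (H.F.map α) := by
    intro P
    obtain ⟨x, hx⟩ := span_V hm hd hFh HR hC hh P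
    rw [relR_eq] at hx
    have h1 := P9_iter (DZ k) hFh p hx
    rw [hnb, mul_sub] at h1
    have h2 := brP_iter (DZ k) hFh (mdK H.Δ H.G) (fun v => by
      rw [hrelmap v, hαdef]
      rfl) p x
    have h3 : (nc (fun y => DZ k y) (mdK H.Δ H.G))^[p] x = 0 := hz x
    rw [h3, hnb] at h2
    have h4 : ∑ v : V, (0 : V → RatFunc k) v • brP d (H.F.map α) (monomial v.1 1) = 0 :=
      Finset.sum_eq_zero fun v _ => by rw [Pi.zero_apply, zero_smul]
    rw [h4] at h2
    have h5 : ∑ v : V, x v • (monomial v.1 1 : MvPolynomial (Fin m) (RatFunc k)) = ∑ v : V, C (x v) * monomial v.1 1 :=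
      Finset.sum_congr rfl fun v _ => smul_eq_C_mul _ _
    rw [h5] at h2
    have h6 := (MPadcIS.rel_iff (d := d) (F := H.F.map α)).1 h2
    have h7 := Submodule.add_mem _ h1 h6
    rwa [sub_add_cancel] at h7
  have hlev : tdg v.1 = lvl d v.1 * d := hH.cd.lev v
  have hlev' : tdg v'.1 = lvl d v'.1 * d := hH.cd.lev v'
  have h1 := hzero (MPadcIS.ee (RatFunc k) p v'.1)
  rw [P9_ee] at h1
  have h2 := MPadcIS.c_ker (d := d) (F := H.F.map α) (fun v => gf p d (H.F.map α) V (fun v e => α (H.c v e)) v)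
    (gf_relP p hm hd hp hFh HR hC hh) (fun v w hw => gf_out p v w hw) v h1
  have h3 := gf_ee p (by omega) hC v (v'.1 + Finsupp.single i₀ d) (by rw [P9_tdg, hlev', hv, add_mul, one_mul])
  rw [map_smul] at h2
  change (-1 : RatFunc k) ^ p * gf p d (H.F.map α) V (fun v e => α (H.c v e)) v
    (MPadcIS.ee (RatFunc k) p (v'.1 + Finsupp.single i₀ d)) = 0 at h2
  rw [h3] at h2
  have h4 := (mul_eq_zero.1 h2).resolve_left (pow_ne_zero _ (neg_ne_zero.2 one_ne_zero))
  have h5 := (mul_eq_zero.1 h4).resolve_left (pow_ne_zero _ (neg_ne_zero.2 one_ne_zero))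
  have h6 := pow_eq_zero_iff (Fact.out : p.Prime).ne_zero |>.1 h5
  exact hinj (by rw [h6, map_zero])

end MPadcEO
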