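import Pool.Agent.Lib.MP_adc574_ag_EO.P8
import Pool.Agent.Lib.MP_adc574_ag_EO.P10

/-!
# P9b: the part of the connection matrix which raises the level is the multiplication by `x_{i₀} ^ d` (medium-)

PROOF. `K = RatFunc k`, `α = algebraMap k[X] K`, `F = H.F.map α`, `regE` (P8), `hC = hH.cd.map α`, `α H.h ≠ 0` (`hH.hdvd`). `w = v' + single i₀ d`, `j = lvl v'`, `tdg w = (j + 1) d` (`CData.lev`), `j + 1 = lvl v ≤ m - 1` (`CData.lv_le`). `nb (DZ k) F (x ^ v') = - x ^ w` (`cder (DZ k) (x ^ v') = 0`; `cder (DZ k) F = - X i₀ ^ d` by `hF`, `pen`: coefficientwise,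
`DK (α (C a)) = 0`, `DK (α X) = 1`, `DK_poly`). `hC.span (j + 1)`: all `c u w` with `lvl u = j + 1` are 0 (`hz`), so `C (α h) * x ^ w` and hence `x ^ w` are in the ideal `Ideal.span (Set.range (gr F))` (`gr F j = pderiv j F`). `jac_lev` (P10, `k = j`): `brP (x ^ w) = ∑ u, a u • brP (x ^ u)`, `a u = 0` for `lvl u > j`. With `rel_map` (P8) and the independence of the
`brP (x ^ u)` (`exists_bas`, P10; compare `bV.repr`): `α (G v v') / α Δ = - a v = 0`.
-/

set_option autoImplicit false

namespace MPadcEO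

open MvPolynomial MPadcGM MPadcHM MPadcLZ MPadcBK MPadcOA MPadcOH MPadcOE

private theorem P9b_cder {k : Type} [Field k] {m d : ℕ} (i₀ : Fin m) (G₀ : MvPolynomial (Fin m) k) :
    cder (DZ k) ((pen i₀ d G₀).map (algebraMap (Polynomial k) (RatFunc k))) = - X i₀ ^ d := by
  classical
  have h0 : ∀ a : Polynomial k, DZ k (algebraMap (Polynomial k) (RatFunc k) a) =
      algebraMap (Polynomial k) (RatFunc k) (dX k a) := fun a => DK_poly k a
  rw [cder_map (algebraMap (Polynomial k) (RatFunc k)) (dX k) (DZ k) h0]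
  have h1 : cder (dX k) (pen i₀ d G₀) = - X i₀ ^ d := by
    ext1 e
    rw [coeff_cder]
    unfold pen
    rw [X_pow_eq_monomial, coeff_sub, coeff_map, coeff_C_mul, coeff_neg, coeff_monomial]
    show Polynomial.derivative _ = _
    split_ifs
    · rw [mul_one, Polynomial.derivative_sub, Polynomial.derivative_C, Polynomial.derivative_X, zero_sub]
    · rw [mul_zero, sub_zero, Polynomial.derivative_C, neg_zero]
  rw [h1, map_neg, map_pow, map_X]

private theorem P9b_tdg {m : ℕ} (i₀ : Fin m) (d : ℕ) (e : Fin m →₀ ℕ) :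
    tdg (e + Finsupp.single i₀ d) = tdg e + d := by
  classical
  unfold tdg
  have h1 : ∑ i, (Finsupp.single i₀ d : Fin m →₀ ℕ) i = d := by
    rw [Finset.sum_eq_single i₀]
    · rw [Finsupp.single_eq_same]
    · intro b _ hb
      rw [Finsupp.single_apply, if_neg (fun h => hb h.symm)]
    · intro h
      exact absurd (Finset.mem_univ _) h
  have h2 : ∑ i, ((e + Finsupp.single i₀ d) i + 1) = ∑ i, (e i + 1) + ∑ i, (Finsupp.single i₀ d : Fin m →₀ ℕ) i := by
    rw [← Finset.sum_add_distrib]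
    refine Finset.sum_congr rfl fun i _ => ?_
    rw [Finsupp.add_apply]
    omega
  rw [h2, h1]

private theorem P9b_jac {K : Type} [Field K] {m : ℕ} {F : MvPolynomial (Fin m) K} {h : K} (hh : h ≠ 0)
    {w : Fin m →₀ ℕ} {S : MvPolynomial (Fin m) K} (hS : S = 0)
    (h1 : C h * monomial w 1 - S ∈ Ideal.span (Set.range fun j => pderiv j F)) :
    (monomial w 1 : MvPolynomial (Fin m) K) ∈ Ideal.span (Set.range (gr F)) := by
  rw [hS, sub_zero] at h1
  have h2 := Ideal.mul_mem_left _ (C h⁻¹) h1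
  rw [← mul_assoc, ← C_mul, inv_mul_cancel₀ hh, C_1, one_mul] at h2
  exact h2

theorem g_zero {k : Type} [Field k] {m d : ℕ} {V : Finset (Fin m →₀ ℕ)} (H : HE k m V) (hH : H.Ok d) (hΔ : H.Δ ≠ 0)
    (i₀ : Fin m) (G₀ : MvPolynomial (Fin m) k) (hF : H.F = pen i₀ d G₀)
    (hz : ∀ v v' : V, lvl d v.1 = lvl d v'.1 + 1 → H.c v (v'.1 + Finsupp.single i₀ d) = 0) (v v' : V)
    (hv : lvl d v.1 = lvl d v'.1 + 1) : H.G v v' = 0 := by
  classical
  have hαi : Function.Injective (algebraMap (Polynomial k) (RatFunc k)) := RatFunc.algebraMap_injective k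
  have hαΔ : algebraMap (Polynomial k) (RatFunc k) H.Δ ≠ 0 := fun h0 => hΔ (hαi (by rw [h0, map_zero]))
  have hαh : algebraMap (Polynomial k) (RatFunc k) H.h ≠ 0 := by
    intro h0
    have h1 : H.h = 0 := hαi (by rw [h0, map_zero])
    have h2 := hH.hdvd
    rw [h1] at h2
    exact hΔ (zero_dvd_iff.1 h2)
  have hC := hH.cd.map (algebraMap (Polynomial k) (RatFunc k))
  have hR := regE H hH (algebraMap (Polynomial k) (RatFunc k)) hαΔ
  have hFh := hH.hom.map (algebraMap (Polynomial k) (RatFunc k))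
  have hrel := rel_map H hH hΔ v'
  have htw : tdg (v'.1 + Finsupp.single i₀ d) = (lvl d v'.1 + 1) * d := by
    rw [P9b_tdg, hH.cd.lev v', add_mul, one_mul]
  have hlv : lvl d v'.1 + 1 ≤ m - 1 := by
    rw [← hv]
    exact hH.cd.lv_le v
  have hnb : nb (DZ k) (H.F.map (algebraMap (Polynomial k) (RatFunc k))) (monomial v'.1 1) =
      - monomial (v'.1 + Finsupp.single i₀ d) 1 := by
    have h1 : DZ k (1 : RatFunc k) = 0 := by
      rw [DZ_apply]
      exact (DK k).map_one_eq_zero
    unfold nb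
    rw [cder_monomial, h1, monomial_zero, zero_add, hF, P9b_cder, X_pow_eq_monomial,
      neg_mul, monomial_mul, one_mul, add_comm (Finsupp.single i₀ d)]
  have hJ : (monomial (v'.1 + Finsupp.single i₀ d) 1 : MvPolynomial (Fin m) (RatFunc k)) ∈
      Ideal.span (Set.range (gr (H.F.map (algebraMap (Polynomial k) (RatFunc k))))) := by
    refine P9b_jac hαh ?_ (hC.span (lvl d v'.1 + 1) (by omega) hlv (v'.1 + Finsupp.single i₀ d) htw)
    refine Finset.sum_eq_zero fun u _ => ?_
    split_ifs with h1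
    · rw [hz u v' h1, map_zero, monomial_zero]
    · rfl
  have hdgw : (monomial (v'.1 + Finsupp.single i₀ d) 1 : MvPolynomial (Fin m) (RatFunc k)).IsHomogeneous
      (∑ i, (v'.1 + Finsupp.single i₀ d) i) := by
    refine isHomogeneous_monomial (1 : RatFunc k) ?_
    rw [Finsupp.degree_eq_sum]
  have hn : ∑ i, (v'.1 + Finsupp.single i₀ d) i + m = (lvl d v'.1 + 1) * d := by
    rw [← htw]
    unfold tdg
    rw [Finset.sum_add_distrib]
    simp
  obtain ⟨a, ha0, ha⟩ := jac_lev hH.hm hH.hd hFh hR hC hαh (lvl d v'.1) _ _ hdgw hn hJ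
  obtain ⟨bV, hbV⟩ := exists_bas hH.hm hH.hd hFh hR hC hαh
  rw [hnb, map_neg, ha] at hrel
  have hsum : ∑ u : V, (algebraMap (Polynomial k) (RatFunc k) (H.G u v') /
      algebraMap (Polynomial k) (RatFunc k) H.Δ + a u) • bV u = 0 := by
    have h1 : ∑ u : V, (algebraMap (Polynomial k) (RatFunc k) (H.G u v') /
        algebraMap (Polynomial k) (RatFunc k) H.Δ + a u) • bV u =
        (∑ u : V, (algebraMap (Polynomial k) (RatFunc k) (H.G u v') /
        algebraMap (Polynomial k) (RatFunc k) H.Δ) •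
          brP d (H.F.map (algebraMap (Polynomial k) (RatFunc k))) (monomial u.1 1)) +
        ∑ u : V, a u • brP d (H.F.map (algebraMap (Polynomial k) (RatFunc k))) (monomial u.1 1) := by
      rw [← Finset.sum_add_distrib]
      refine Finset.sum_congr rfl fun u _ => ?_
      rw [hbV u, add_smul]
    rw [h1, ← hrel, neg_add_cancel]
  have hz2 := Fintype.linearIndependent_iff.1 bV.linearIndependent _ hsum v
  rw [ha0 v (by omega), add_zero, div_eq_zero_iff] at hz2
  rcases hz2 with h1 | h1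
  · exact hαi (by rw [h1, map_zero])
  · exact absurd h1 hαΔ

end MPadcEO
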