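import Mathlib

/-!
# Q1: left inverses up to a denominator; saturated submodules are kernels (two small theorems)

PROOF. `left_cert`: `K = FractionRing R`. `A.map (algebraMap R K)` is injective on vectors: if `A *ᵥ z = 0` over `K`, `z = a⁻¹ y` with `y` over `R` (`IsLocalization.exist_integer_multiples_of_finset` / `_of_fintype`), so `A *ᵥ y = 0` by injectivity of `algebraMap`, `y = 0`. So the linear map has a left inverse (`LinearMap.exists_leftInverse_of_injective`), i.e. a matrix `C'` with
`C' * A = 1` over `K` (`LinearMap.toMatrix'`); a common denominator `δ` of the entries of `C'` gives `C`.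
`exists_fun`: `M = ι → F[X]`, `M ⧸ W` is finitely generated and torsion free (`hsat`), so free (`Module.free_of_finite_type_torsion_free'`; the class for torsion free may be `Module.IsTorsionFree` or `NoZeroSMulDivisors`, look it up), `s` = the rank, `f a i = (coordinate a of the basis) (mkQ (Pi.single i 1))` (`Module.Free.chooseBasis`, `Module.Basis.equivFun`, reindex to `Fin s`), so
`∑ i, f a i * x i` is the coordinate `a` of `mkQ x` (`pi_eq_sum_univ'`), and `mkQ x = 0 ↔ x ∈ W`.
-/

set_option autoImplicit false

namespace MPadcEO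

open Polynomial Matrix

theorem left_cert {R : Type*} [CommRing R] [IsDomain R] {E U : Type} [Fintype E] [Fintype U] [DecidableEq E] [DecidableEq U]
    (A : Matrix E U R) (h : ∀ y, A *ᵥ y = 0 → y = 0) : ∃ (δ : R) (C : Matrix U E R), δ ≠ 0 ∧ C * A = δ • (1 : Matrix U U R) := by
  classical
  let φ : R →+* FractionRing R := algebraMap R (FractionRing R)
  have hφ : Function.Injective φ := IsFractionRing.injective R (FractionRing R)
  have hinj : ∀ z : U → FractionRing R, (A.map φ) *ᵥ z = 0 → z = 0 := by
    intro z hz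
    obtain ⟨b, hb⟩ := IsLocalization.exist_integer_multiples_of_finite (nonZeroDivisors R) z
    choose y hy using hb
    have hy' : ∀ i, φ (y i) = φ (b : R) * z i := by
      intro i
      have h1 : φ (y i) = (b : R) • z i := hy i
      rw [h1, Algebra.smul_def]
    have hb0 : φ (b : R) ≠ 0 := by
      intro h0
      exact nonZeroDivisors.coe_ne_zero b (hφ (h0.trans (map_zero φ).symm))
    have hAy : A *ᵥ y = 0 := by
      funext e
      apply hφ
      have h1 : ∑ i, φ (A e i) * z i = 0 := by
        have h2 := congrFun hz e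
        simpa only [Matrix.mulVec, dotProduct, Matrix.map_apply, Pi.zero_apply] using h2
      simp only [Matrix.mulVec, dotProduct, Pi.zero_apply]
      rw [map_zero, map_sum]
      calc ∑ i, φ (A e i * y i) = ∑ i, φ (b : R) * (φ (A e i) * z i) := by
            refine Finset.sum_congr rfl fun i _ => ?_
            rw [map_mul, hy']; ring
        _ = 0 := by rw [← Finset.mul_sum, h1, mul_zero]
    have hy0 := h y hAy
    funext i
    have h2 := hy' i
    rw [hy0, Pi.zero_apply, map_zero] at h2
    rcases mul_eq_zero.1 h2.symm with h3 | h3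
    · exact absurd h3 hb0
    · exact h3
  obtain ⟨g, hg⟩ := LinearMap.exists_leftInverse_of_injective (Matrix.toLin' (A.map φ)) (by
    rw [LinearMap.ker_eq_bot']
    intro z hz
    exact hinj z (by rwa [Matrix.toLin'_apply] at hz))
  have hCB : LinearMap.toMatrix' g * A.map φ = 1 := by
    have h1 := congrArg LinearMap.toMatrix' hg
    rw [LinearMap.toMatrix'_comp, LinearMap.toMatrix'_id, LinearMap.toMatrix'_toLin'] at h1
    exact h1
  obtain ⟨b, hb⟩ := IsLocalization.exist_integer_multiples_of_finite (nonZeroDivisors R)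
    (fun p : U × E => LinearMap.toMatrix' g p.1 p.2)
  choose c hc using hb
  have hc' : ∀ u e, φ (c (u, e)) = φ (b : R) * LinearMap.toMatrix' g u e := by
    intro u e
    have h1 : φ (c (u, e)) = (b : R) • LinearMap.toMatrix' g u e := hc (u, e)
    rw [h1, Algebra.smul_def]
  refine ⟨b, Matrix.of fun u e => c (u, e), nonZeroDivisors.coe_ne_zero b, ?_⟩
  ext u v
  apply hφ
  have h1 := congrFun (congrFun hCB u) v
  rw [Matrix.mul_apply] at h1
  rw [Matrix.mul_apply, map_sum]
  calc ∑ j, φ (Matrix.of (fun u e => c (u, e)) u j * A j v)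
      = ∑ j, φ (b : R) * (LinearMap.toMatrix' g u j * A.map φ j v) := by
        refine Finset.sum_congr rfl fun j _ => ?_
        rw [map_mul, Matrix.of_apply, hc', Matrix.map_apply]; ring
    _ = φ (b : R) * (1 : Matrix U U (FractionRing R)) u v := by rw [← Finset.mul_sum, h1]
    _ = φ (((b : R) • (1 : Matrix U U R)) u v) := by
        rw [Matrix.smul_apply, smul_eq_mul, map_mul, Matrix.one_apply, Matrix.one_apply]
        split_ifs
        · rw [map_one]
        · rw [map_zero]

theorem exists_fun {F : Type*} [Field F] {ι : Type} [Fintype ι] [DecidableEq ι] (W : Submodule F[X] (ι → F[X]))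
    (hsat : ∀ q : F[X], q ≠ 0 → ∀ x : ι → F[X], q • x ∈ W → x ∈ W) :
    ∃ (s : ℕ) (f : Fin s → ι → F[X]), ∀ x, x ∈ W ↔ ∀ a, ∑ i, f a i * x i = 0 := by
  classical
  have hT : Module.IsTorsionFree F[X] ((ι → F[X]) ⧸ W) := by
    rw [Module.isTorsionFree_iff_smul_eq_zero]
    intro q x hqx
    by_cases hq : q = 0
    · exact Or.inl hq
    · right
      obtain ⟨y, rfl⟩ := W.mkQ_surjective x
      rw [← map_smul, Submodule.mkQ_apply, Submodule.Quotient.mk_eq_zero] at hqx
      rw [Submodule.mkQ_apply, Submodule.Quotient.mk_eq_zero]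
      exact hsat q hq y hqx
  obtain ⟨s, b⟩ := Module.basisOfFiniteTypeTorsionFree' (R := F[X]) (M := (ι → F[X]) ⧸ W)
  refine ⟨s, fun a i => b.repr (W.mkQ (Pi.single i 1)) a, fun x => ?_⟩
  have hx : ∀ a, ∑ i, b.repr (W.mkQ (Pi.single i 1)) a * x i = b.repr (W.mkQ x) a := by
    intro a
    have h1 : x = ∑ i, x i • (Pi.single i (1 : F[X]) : ι → F[X]) := pi_eq_sum_univ' x
    have h2 : b.repr (W.mkQ x) = ∑ i, x i • b.repr (W.mkQ (Pi.single i 1)) := by
      conv_lhs => rw [h1]
      simp only [map_sum, map_smul]
    rw [h2, Finsupp.finsetSum_apply]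
    refine Finset.sum_congr rfl fun i _ => ?_
    rw [Finsupp.smul_apply, smul_eq_mul, mul_comm]
  constructor
  · intro hxW a
    rw [hx a]
    have h3 : W.mkQ x = 0 := by
      rw [Submodule.mkQ_apply, Submodule.Quotient.mk_eq_zero]
      exact hxW
    rw [h3, map_zero, Finsupp.zero_apply]
  · intro h0
    have h3 : b.repr (W.mkQ x) = 0 := by
      ext1 a
      rw [← hx a, h0 a, Finsupp.zero_apply]
    have h4 : W.mkQ x = 0 := b.repr.map_eq_zero_iff.1 h3
    rwa [Submodule.mkQ_apply, Submodule.Quotient.mk_eq_zero] at h4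

end MPadcEO
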