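import Pool.Agent.Lib.MP_adc574_ag_EO.PD

/-!
# Q2: the saturation of a stable module is stable (easy)

PROOF. `W = {x | ∃ q ≠ 0, q • x ∈ T}`, `T = Submodule.span F[X] (Set.range w)`. Closed under sums (`q q'`), multiples. Saturated: clear. `opq Δ G` is additive (`KSq G *ᵥ _` is linear, `derivative_add`) and `opq Δ G (q • x) = (Δ * derivative q) • x + q • opq Δ G x`, so it maps `T` into itself (span induction with `hw`). If `q • x ∈ T` then `q • opq x = opq (q • x) - (Δ * q') • x`, so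
`(q * q) • opq x = q • opq (q • x) - (Δ * q') • (q • x) ∈ T`.
-/

set_option autoImplicit false

namespace MPadcEO

open Polynomial Matrix

private theorem Q2_add {F : Type} [Field F] {ι : Type} [Fintype ι] [DecidableEq ι] {g m : ℕ} (Δ : F[X]) (G : Matrix ι ι F[X])
    (x y : Kq g ι m → F[X]) : opq Δ G (x + y) = opq Δ G x + opq Δ G y := by
  funext s
  unfold opq
  rw [Matrix.mulVec_add, Pi.add_apply, Pi.add_apply, Pi.add_apply, derivative_add]
  ring

private theorem Q2_smul {F : Type} [Field F] {ι : Type} [Fintype ι] [DecidableEq ι] {g m : ℕ} (Δ : F[X]) (G : Matrix ι ι F[X])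
    (q : F[X]) (x : Kq g ι m → F[X]) : opq Δ G (q • x) = (Δ * derivative q) • x + q • opq Δ G x := by
  funext s
  unfold opq
  rw [Matrix.mulVec_smul]
  simp only [Pi.add_apply, Pi.smul_apply, smul_eq_mul, derivative_mul]
  ring

private theorem Q2_span {F : Type} [Field F] {ι : Type} [Fintype ι] [DecidableEq ι] {g m r : ℕ} (Δ : F[X]) (G : Matrix ι ι F[X])
    (w : Fin r → Kq g ι m → F[X]) (hw : ∀ i, opq Δ G (w i) ∈ Submodule.span F[X] (Set.range w)) :
    ∀ x ∈ Submodule.span F[X] (Set.range w), opq Δ G x ∈ Submodule.span F[X] (Set.range w) := by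
  intro x hx
  induction hx using Submodule.span_induction with
  | mem x hx =>
    obtain ⟨i, rfl⟩ := hx
    exact hw i
  | zero =>
    have h1 := Q2_smul Δ G 0 (0 : Kq g ι m → F[X])
    rw [zero_smul, derivative_zero, mul_zero, zero_smul, zero_smul, zero_add] at h1
    rw [h1]
    exact Submodule.zero_mem _
  | add x y _ _ h1 h2 =>
    rw [Q2_add]
    exact Submodule.add_mem _ h1 h2
  | smul q x hx h1 =>
    rw [Q2_smul]
    exact Submodule.add_mem _ (Submodule.smul_mem _ _ hx) (Submodule.smul_mem _ _ h1)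

theorem sat_stab {F : Type} [Field F] {ι : Type} [Fintype ι] [DecidableEq ι] {g m r : ℕ} (Δ : F[X]) (G : Matrix ι ι F[X])
    (w : Fin r → Kq g ι m → F[X]) (hw : ∀ i, opq Δ G (w i) ∈ Submodule.span F[X] (Set.range w)) :
    ∃ W : Submodule F[X] (Kq g ι m → F[X]), (∀ q : F[X], q ≠ 0 → ∀ x : Kq g ι m → F[X], q • x ∈ W → x ∈ W) ∧
      (∀ x ∈ W, opq Δ G x ∈ W) ∧ (∀ i, w i ∈ W) ∧ ∀ x ∈ W, ∃ q : F[X], q ≠ 0 ∧ q • x ∈ Submodule.span F[X] (Set.range w) := by
  have hT := Q2_span Δ G w hw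
  obtain ⟨T, hTd⟩ : ∃ T : Submodule F[X] (Kq g ι m → F[X]), T = Submodule.span F[X] (Set.range w) := ⟨_, rfl⟩
  rw [← hTd] at hT ⊢
  let W : Submodule F[X] (Kq g ι m → F[X]) :=
    { carrier := {x | ∃ q : F[X], q ≠ 0 ∧ q • x ∈ T}
      zero_mem' := ⟨1, one_ne_zero, by rw [smul_zero]; exact T.zero_mem⟩
      add_mem' := by
        rintro x y ⟨q, hq, h1⟩ ⟨q', hq', h2⟩
        refine ⟨q' * q, mul_ne_zero hq' hq, ?_⟩
        have h3 : (q' * q) • (x + y) = q' • (q • x) + q • (q' • y) := by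
          rw [smul_add, mul_smul, mul_comm q' q, mul_smul]
        rw [h3]
        exact T.add_mem (T.smul_mem _ h1) (T.smul_mem _ h2)
      smul_mem' := by
        rintro c x ⟨q, hq, h1⟩
        refine ⟨q, hq, ?_⟩
        rw [smul_comm]
        exact T.smul_mem _ h1 }
  have hW : ∀ x, x ∈ W ↔ ∃ q : F[X], q ≠ 0 ∧ q • x ∈ T := fun x => Iff.rfl
  refine ⟨W, fun q hq x hx => ?_, fun x hx => ?_, fun i => ?_, fun x hx => (hW x).1 hx⟩
  · obtain ⟨q', hq', h1⟩ := (hW _).1 hx
    refine (hW x).2 ⟨q' * q, mul_ne_zero hq' hq, ?_⟩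
    rw [mul_smul]
    exact h1
  · obtain ⟨q, hq, h1⟩ := (hW x).1 hx
    refine (hW _).2 ⟨q * q, mul_ne_zero hq hq, ?_⟩
    have h2 := hT _ h1
    have h3 : (q * q) • opq Δ G x = q • opq Δ G (q • x) - (Δ * derivative q) • (q • x) := by
      rw [Q2_smul, smul_add, mul_smul, smul_comm q (Δ * derivative q) x, add_sub_cancel_left]
    rw [h3]
    exact T.sub_mem (T.smul_mem _ h2) (T.smul_mem _ h1)
  · refine (hW _).2 ⟨1, one_ne_zero, ?_⟩
    rw [one_smul, hTd]
    exact Submodule.subset_span ⟨i, rfl⟩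

end MPadcEO
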