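import Pool.Agent.Lib.MP_adc574_ag_EO.Q1
import Pool.Agent.Lib.MP_adc574_ag_EO.Q2
import Pool.Agent.Lib.MP_adc574_ag_OA.N_U3

/-!
# Q3: the transfer of the endomorphism to the ultraproduct (medium+)

PROOF. `R = (LL k)[X]`. Suppose there is no such `Y`. `R` is noetherian, so `W` is the span of finitely many arrays `w i`, `i : Fin r` (`Submodule.fg_iff_exists_fin_generating_family`-like: `IsNoetherian.noetherian W`, `Submodule.fg_def`), and `x ∈ W ↔ ∀ a, ∑ s, f a s * x s = 0` (`exists_fun`, Q1, `a : Fin s'`). So the linear system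
`Yᵀ * B + B * Y = 0`, `∀ a i, ∑ s, f a s * (KSq Y *ᵥ w i) s = 0` has only the solution `Y = 0` (the second condition says `KSq Y *ᵥ w i ∈ W` for the generators, hence for all `x ∈ W`; `KSq` is linear in `Y`). Let `U = ι × ι`, `E = (ι × ι) ⊕ (Fin s' × Fin r)`, `A : Matrix E U R` the matrix of this system: the column `(c, d)` is
the left side for `Y = Matrix.single c d 1`: `A (inl (a, b)) (c, d) = ((single c d 1)ᵀ * B + B * single c d 1) a b = (if d = a then B c b else 0) + (if d = b then B a c else 0)`, `A (inr (a, i)) (c, d) = ∑ s, ∑ s', f a s * (KSq (single c d 1) s s' * w i s')` (`KSq (single c d 1) s s'` is the image of a natural number which does not depend on the ring).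
`left_cert` (Q1): `C`, `δ ≠ 0`, `C * A = δ • 1`. Also `opq Δ G (w i) = ∑ j, γ i j • w j` for some `γ` (`hst`, `Submodule.mem_span_range_iff_exists_fun`) and `∑ s, f a s * w i s = 0`.
For almost all `n` all these identities hold for the representatives `rp` (`rp_add`, `rp_mul`, `rp_sum`, `rp_derivative`, `rp_zero`, `rp_one`, `rp_intCast` (N_U2), finitely many entries: `Filter.eventually_all`): `C_n * A_n = δ_n • 1` where `A_n` is built in the same way from `mq B n`, `rp (w i s) n`, `rp (f a s) n`; `opq (rp Δ n) (mq G n) (w_n i) = ∑ j, γ_n i j • w_n j`;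
`∑ s, f_n a s * w_n i s = 0`; `δ_n = rp δ n ≠ 0` (`rp_ne_zero`). Take such an `n` with `NZ` (`Filter.Eventually.exists`): `Y ≠ 0` over `(k n)[X]` with `Yᵀ * B_n + B_n * Y = 0` and `sat_stab` (Q2) gives `W_n`, so `KSq Y *ᵥ w_n i ∈ W_n`, `q • (KSq Y *ᵥ w_n i) ∈ span (w_n j)`, so `q * ∑ s, f_n a s * (KSq Y *ᵥ w_n i) s = 0`, the sum is 0. So the vector `y (c, d) = Y c d`
satisfies `A_n *ᵥ y = 0` (expand `Y = ∑ Y c d • single c d 1`, linearity), `δ_n • y = C_n * A_n *ᵥ y = 0`, `Y = 0`: contradiction. (Helpful: prove first a lemma for an arbitrary commutative ring `S` and data `B`, `w`, `f` over `S`: `(A_S *ᵥ fun q => Y q.1 q.2) = ` the left sides.)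
-/

set_option autoImplicit false

namespace MPadcEO

open Polynomial Matrix MPadcGM MPadcOA

/-- the coefficients of `KSq` -/
private def Q3_N {g : ℕ} {ι : Type} [DecidableEq ι] {m : ℕ} (t t' : Kq g ι m) (u : ι × ι) : ℤ :=
  ∑ j : Fin m, if t' = Function.update t j ((t j).1, (t' j).2) ∧ ((t j).2, (t' j).2) = u then 1 else 0

/-- the matrix of the linear system -/
private def Q3_A {S : Type*} [CommRing S] {ι : Type} [Fintype ι] [DecidableEq ι] {g m r s : ℕ} (B : Matrix ι ι S)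
    (w : Fin r → Kq g ι m → S) (f : Fin s → Kq g ι m → S) : Matrix ((ι × ι) ⊕ (Fin s × Fin r)) (ι × ι) S :=
  fun e u => Sum.elim (fun p => (if u.2 = p.1 then B u.1 p.2 else 0) + (if u.2 = p.2 then B p.1 u.1 else 0))
    (fun q => ∑ t, ∑ t', f q.1 t * (((Q3_N t t' u : ℤ) : S) * w q.2 t')) e

private theorem Q3_inl {S : Type*} [CommRing S] {ι : Type} [Fintype ι] [DecidableEq ι] {g m r s : ℕ} (B : Matrix ι ι S)
    (w : Fin r → Kq g ι m → S) (f : Fin s → Kq g ι m → S) (Y : Matrix ι ι S) (a b : ι) :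
    (Q3_A B w f *ᵥ fun u => Y u.1 u.2) (Sum.inl (a, b)) = (Yᵀ * B + B * Y) a b := by
  change ∑ u : ι × ι, ((if u.2 = a then B u.1 b else 0) + (if u.2 = b then B a u.1 else 0)) * Y u.1 u.2 = _
  rw [Matrix.add_apply, Matrix.mul_apply, Matrix.mul_apply, Fintype.sum_prod_type, ← Finset.sum_add_distrib]
  refine Finset.sum_congr rfl fun c _ => ?_
  simp only [add_mul, ite_mul, zero_mul, Finset.sum_add_distrib, Finset.sum_ite_eq', Finset.mem_univ, if_true,
    Matrix.transpose_apply]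
  rw [mul_comm (B c b)]

private theorem Q3_KS {S : Type*} [CommRing S] {ι : Type} [Fintype ι] [DecidableEq ι] {g m : ℕ} (Y : Matrix ι ι S)
    (t t' : Kq g ι m) : ∑ u : ι × ι, ((Q3_N t t' u : ℤ) : S) * Y u.1 u.2 = KSq Y t t' := by
  have h1 : ∀ u : ι × ι, ((Q3_N t t' u : ℤ) : S) * Y u.1 u.2 = ∑ j : Fin m,
      if t' = Function.update t j ((t j).1, (t' j).2) ∧ ((t j).2, (t' j).2) = u then Y u.1 u.2 else 0 := by
    intro u
    unfold Q3_N
    rw [Int.cast_sum, Finset.sum_mul]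
    refine Finset.sum_congr rfl fun j _ => ?_
    split_ifs
    · rw [Int.cast_one, one_mul]
    · rw [Int.cast_zero, zero_mul]
  rw [Finset.sum_congr rfl fun u _ => h1 u, Finset.sum_comm]
  unfold KSq
  refine Finset.sum_congr rfl fun j _ => ?_
  by_cases h : t' = Function.update t j ((t j).1, (t' j).2)
  · rw [if_pos h, Finset.sum_eq_single ((t j).2, (t' j).2)]
    · rw [if_pos ⟨h, rfl⟩]
    · intro u _ hu
      rw [if_neg]
      rintro ⟨-, h2⟩
      exact hu h2.symm
    · intro h2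
      exact absurd (Finset.mem_univ _) h2
  · rw [if_neg h]
    refine Finset.sum_eq_zero fun u _ => ?_
    rw [if_neg]
    rintro ⟨h2, -⟩
    exact h h2

private theorem Q3_inr {S : Type*} [CommRing S] {ι : Type} [Fintype ι] [DecidableEq ι] {g m r s : ℕ} (B : Matrix ι ι S)
    (w : Fin r → Kq g ι m → S) (f : Fin s → Kq g ι m → S) (Y : Matrix ι ι S) (a : Fin s) (i : Fin r) :
    (Q3_A B w f *ᵥ fun u => Y u.1 u.2) (Sum.inr (a, i)) = ∑ t, f a t * (KSq Y *ᵥ w i) t := by
  change ∑ u : ι × ι, (∑ t, ∑ t', f a t * (((Q3_N t t' u : ℤ) : S) * w i t')) * Y u.1 u.2 = _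
  have h1 : ∀ u : ι × ι, (∑ t, ∑ t', f a t * (((Q3_N t t' u : ℤ) : S) * w i t')) * Y u.1 u.2 =
      ∑ t, ∑ t', f a t * ((((Q3_N t t' u : ℤ) : S) * Y u.1 u.2) * w i t') := by
    intro u
    rw [Finset.sum_mul]
    refine Finset.sum_congr rfl fun t _ => ?_
    rw [Finset.sum_mul]
    refine Finset.sum_congr rfl fun t' _ => ?_
    ring
  rw [Finset.sum_congr rfl fun u _ => h1 u, Finset.sum_comm]
  refine Finset.sum_congr rfl fun t _ => ?_
  rw [Finset.sum_comm]
  change _ = f a t * ∑ t', KSq Y t t' * w i t'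
  rw [Finset.mul_sum]
  refine Finset.sum_congr rfl fun t' _ => ?_
  rw [← Finset.mul_sum, ← Finset.sum_mul, Q3_KS]

section Rp

variable {k : ℕ → Type} [∀ n, Field (k n)]

private theorem Q3_sum {κ : Type} [Fintype κ] (A B : κ → (LL k)[X]) :
    ∀ᶠ n in HF, rp (∑ l, A l * B l) n = ∑ l, rp (A l) n * rp (B l) n := by
  have h2 : ∀ᶠ n in HF, ∀ l, rp (A l * B l) n = rp (A l) n * rp (B l) n :=
    Filter.eventually_all.2 fun l => rp_mul _ _
  filter_upwards [rp_sum Finset.univ (fun l => A l * B l), h2] with n e1 e2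
  rw [e1]
  exact Finset.sum_congr rfl fun l _ => e2 l

private theorem Q3_ite (c : Prop) [Decidable c] (P : (LL k)[X]) :
    ∀ᶠ n in HF, rp (if c then P else 0) n = if c then rp P n else 0 := by
  by_cases h : c
  · refine Filter.Eventually.of_forall fun n => ?_
    rw [if_pos h, if_pos h]
  · filter_upwards [rp_zero (k := k)] with n e1
    rw [if_neg h, if_neg h, e1]

private theorem Q3_rpA {ι : Type} [Fintype ι] [DecidableEq ι] {g m r s : ℕ} (B : Matrix ι ι (LL k)[X])
    (w : Fin r → Kq g ι m → (LL k)[X]) (f : Fin s → Kq g ι m → (LL k)[X]) :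
    ∀ᶠ n in HF, mr (Q3_A B w f) n = Q3_A (mq B n) (fun i t => rp (w i t) n) (fun a t => rp (f a t) n) := by
  have h1 : ∀ e u, ∀ᶠ n in HF, mr (Q3_A B w f) n e u =
      Q3_A (mq B n) (fun i t => rp (w i t) n) (fun a t => rp (f a t) n) e u := by
    intro e u
    rcases e with p | q
    · filter_upwards [rp_add (if u.2 = p.1 then B u.1 p.2 else 0) (if u.2 = p.2 then B p.1 u.1 else 0),
        Q3_ite (u.2 = p.1) (B u.1 p.2), Q3_ite (u.2 = p.2) (B p.1 u.1)] with n e1 e2 e3
      change rp ((if u.2 = p.1 then B u.1 p.2 else 0) + (if u.2 = p.2 then B p.1 u.1 else 0)) n = _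
      rw [e1, e2, e3]
      rfl
    · have h2 : ∀ᶠ n in HF, ∀ t t', rp (f q.1 t * (((Q3_N t t' u : ℤ) : (LL k)[X]) * w q.2 t')) n =
          rp (f q.1 t) n * (((Q3_N t t' u : ℤ) : (k n)[X]) * rp (w q.2 t') n) := by
        refine Filter.eventually_all.2 fun t => Filter.eventually_all.2 fun t' => ?_
        filter_upwards [rp_mul (f q.1 t) (((Q3_N t t' u : ℤ) : (LL k)[X]) * w q.2 t'),
          rp_mul ((Q3_N t t' u : ℤ) : (LL k)[X]) (w q.2 t'), rp_intCast (k := k) (Q3_N t t' u)] with n e1 e2 e3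
        rw [e1, e2, e3]
      have h3 : ∀ᶠ n in HF, ∀ t, rp (∑ t', f q.1 t * (((Q3_N t t' u : ℤ) : (LL k)[X]) * w q.2 t')) n =
          ∑ t', rp (f q.1 t * (((Q3_N t t' u : ℤ) : (LL k)[X]) * w q.2 t')) n :=
        Filter.eventually_all.2 fun t => rp_sum _ _
      filter_upwards [h2, h3, rp_sum Finset.univ
        (fun t => ∑ t', f q.1 t * (((Q3_N t t' u : ℤ) : (LL k)[X]) * w q.2 t'))] with n e1 e2 e3
      change rp (∑ t, ∑ t', f q.1 t * (((Q3_N t t' u : ℤ) : (LL k)[X]) * w q.2 t')) n = _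
      rw [e3]
      refine Finset.sum_congr rfl fun t _ => ?_
      rw [e2]
      exact Finset.sum_congr rfl fun t' _ => e1 t t'
  have h4 : ∀ᶠ n in HF, ∀ e u, mr (Q3_A B w f) n e u =
      Q3_A (mq B n) (fun i t => rp (w i t) n) (fun a t => rp (f a t) n) e u :=
    Filter.eventually_all.2 fun e => Filter.eventually_all.2 fun u => h1 e u
  filter_upwards [h4] with n hn
  exact Matrix.ext fun e u => hn e u

private theorem Q3_rpK {ι : Type} [Fintype ι] [DecidableEq ι] {g m : ℕ} (M : Matrix ι ι (LL k)[X]) (s s' : Kq g ι m) :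
    ∀ᶠ n in HF, rp (KSq M s s') n = KSq (mq M n) s s' := by
  have h1 := rp_sum (k := k) Finset.univ
    (fun i : Fin m => if s' = Function.update s i ((s i).1, (s' i).2) then M (s i).2 (s' i).2 else 0)
  have h2 : ∀ᶠ n in HF, ∀ i : Fin m,
      rp (if s' = Function.update s i ((s i).1, (s' i).2) then M (s i).2 (s' i).2 else 0) n =
        if s' = Function.update s i ((s i).1, (s' i).2) then rp (M (s i).2 (s' i).2) n else 0 :=
    Filter.eventually_all.2 fun i => Q3_ite _ _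
  filter_upwards [h1, h2] with n e1 e2
  exact e1.trans (Finset.sum_congr rfl fun i _ => e2 i)

private theorem Q3_rpO {ι : Type} [Fintype ι] [DecidableEq ι] {g m : ℕ} (Δ : (LL k)[X]) (G : Matrix ι ι (LL k)[X])
    (φ : Kq g ι m → (LL k)[X]) :
    ∀ᶠ n in HF, ∀ s, rp (opq Δ G φ s) n = opq (rp Δ n) (mq G n) (fun s => rp (φ s) n) s := by
  refine Filter.eventually_all.2 fun s => ?_
  have h5 : ∀ᶠ n in HF, ∀ s' : Kq g ι m, rp (KSq G s s') n = KSq (mq G n) s s' :=
    Filter.eventually_all.2 fun s' => Q3_rpK G s s'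
  filter_upwards [rp_add (Δ * derivative (φ s)) ((KSq G *ᵥ φ) s), rp_mul Δ (derivative (φ s)), rp_derivative (φ s),
    Q3_sum (fun s' => (KSq G : Matrix (Kq g ι m) (Kq g ι m) (LL k)[X]) s s') φ, h5] with n e1 e2 e3 e4 e5
  have e6 : rp ((KSq G *ᵥ φ) s) n = ((KSq (mq G n) : Matrix (Kq g ι m) (Kq g ι m) (k n)[X]) *ᵥ fun s => rp (φ s) n) s := by
    refine e4.trans ?_
    exact Finset.sum_congr rfl fun s' _ => by rw [e5 s']
  calc rp (opq Δ G φ s) n = rp (Δ * derivative (φ s) + (KSq G *ᵥ φ) s) n := rfl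
    _ = rp Δ n * derivative (rp (φ s) n) +
        ((KSq (mq G n) : Matrix (Kq g ι m) (Kq g ι m) (k n)[X]) *ᵥ fun s => rp (φ s) n) s := by
        rw [e1, e2, e3, e6]
    _ = opq (rp Δ n) (mq G n) (fun s => rp (φ s) n) s := rfl

end Rp

theorem hnz_of {k : ℕ → Type} [∀ n, Field (k n)] {ι : Type} [Fintype ι] [DecidableEq ι] (Δ : (LL k)[X])
    (G B : Matrix ι ι (LL k)[X]) (h : ∀ᶠ n in HF, NZ (rp Δ n) (mq G n) (mq B n)) (g m : ℕ)
    (W : Submodule (LL k)[X] (Kq g ι m → (LL k)[X]))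
    (hsat : ∀ q : (LL k)[X], q ≠ 0 → ∀ x : Kq g ι m → (LL k)[X], q • x ∈ W → x ∈ W) (hst : ∀ x ∈ W, opq Δ G x ∈ W) :
    ∃ Y : Matrix ι ι (LL k)[X], Y ≠ 0 ∧ Yᵀ * B + B * Y = 0 ∧ ∀ x ∈ W, KSq Y *ᵥ x ∈ W := by
  obtain ⟨r, w, hw⟩ := Submodule.fg_iff_exists_fin_generating_family.1 (IsNoetherian.noetherian W)
  obtain ⟨s, f, hf⟩ := exists_fun W hsat
  have hwW : ∀ i, w i ∈ W := by
    intro i
    rw [← hw]
    exact Submodule.subset_span ⟨i, rfl⟩
  by_contra hno
  -- the linear system has only the zero solution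
  have hA : ∀ y, Q3_A B w f *ᵥ y = 0 → y = 0 := by
    intro y hy
    obtain ⟨Y, hY⟩ : ∃ Y : Matrix ι ι (LL k)[X], y = fun u => Y u.1 u.2 := ⟨fun c d => y (c, d), rfl⟩
    rw [hY] at hy
    by_contra hy0
    refine hno ⟨Y, ?_, ?_, ?_⟩
    · rintro rfl
      apply hy0
      rw [hY]
      rfl
    · refine Matrix.ext fun a b => ?_
      rw [← Q3_inl B w f Y a b, hy]
      rfl
    · intro x hx
      rw [← hw] at hx
      induction hx using Submodule.span_induction with
      | mem x hx =>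
        obtain ⟨i, rfl⟩ := hx
        refine (hf _).2 fun a => ?_
        rw [← Q3_inr B w f Y a i, hy]
        rfl
      | zero =>
        rw [Matrix.mulVec_zero]
        exact W.zero_mem
      | add x x' _ _ h1 h2 =>
        rw [Matrix.mulVec_add]
        exact W.add_mem h1 h2
      | smul c x _ h1 =>
        rw [Matrix.mulVec_smul]
        exact W.smul_mem c h1
  obtain ⟨δ, C, hδ, hC⟩ := left_cert (Q3_A B w f) hA
  -- the relations
  have hγ : ∀ i, ∃ γ : Fin r → (LL k)[X], opq Δ G (w i) = ∑ j, γ j • w j := by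
    intro i
    have h1 : opq Δ G (w i) ∈ Submodule.span (LL k)[X] (Set.range w) := by
      rw [hw]
      exact hst _ (hwW i)
    obtain ⟨γ, hγ⟩ := (Submodule.mem_span_range_iff_exists_fun _).1 h1
    exact ⟨γ, hγ.symm⟩
  choose γ hγ using hγ
  -- the transfer
  have t1 : ∀ᶠ n in HF, mr C n * Q3_A (mq B n) (fun i t => rp (w i t) n) (fun a t => rp (f a t) n) =
      rp δ n • (1 : Matrix (ι × ι) (ι × ι) (k n)[X]) := by
    filter_upwards [mr_mul C (Q3_A B w f), Q3_rpA B w f, mr_smul δ (1 : Matrix (ι × ι) (ι × ι) (LL k)[X]),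
      mr_one (k := k) (α := ι × ι)] with n e1 e2 e3 e4
    rw [← e2, ← e1, hC, e3, e4]
  have t2 : ∀ᶠ n in HF, ∀ i, opq (rp Δ n) (mq G n) (fun t => rp (w i t) n) =
      ∑ j, rp (γ i j) n • fun t => rp (w j t) n := by
    refine Filter.eventually_all.2 fun i => ?_
    have h2 : ∀ᶠ n in HF, ∀ t, rp (∑ j, γ i j * w j t) n = ∑ j, rp (γ i j) n * rp (w j t) n :=
      Filter.eventually_all.2 fun t => Q3_sum _ _
    filter_upwards [Q3_rpO Δ G (w i), h2] with n e1 e2
    funext t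
    rw [← e1 t, hγ i, Finset.sum_apply, Finset.sum_apply]
    exact e2 t
  have t3 : ∀ᶠ n in HF, ∀ a i, ∑ t, rp (f a t) n * rp (w i t) n = 0 := by
    refine Filter.eventually_all.2 fun a => Filter.eventually_all.2 fun i => ?_
    filter_upwards [Q3_sum (f a) (w i), rp_zero (k := k)] with n e1 e2
    rw [← e1, (hf (w i)).1 (hwW i) a, e2]
  obtain ⟨n, hn, e1, e2, e3, e4⟩ := (h.and (t1.and (t2.and (t3.and (rp_ne_zero hδ))))).exists
  obtain ⟨Y, hY0, hYB, hYW⟩ := hn
  obtain ⟨W', hs1, hs2, hs3, hs4⟩ := sat_stab (rp Δ n) (mq G n) (fun i t => rp (w i t) n) (fun i => by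
    rw [e2 i]
    exact Submodule.sum_mem _ fun j _ => Submodule.smul_mem _ _ (Submodule.subset_span ⟨j, rfl⟩))
  have hsp : ∀ x ∈ Submodule.span (k n)[X] (Set.range fun (i : Fin r) (t : Kq g ι m) => rp (w i t) n), ∀ a,
      ∑ t, rp (f a t) n * x t = 0 := by
    intro x hx a
    induction hx using Submodule.span_induction with
    | mem x hx =>
      obtain ⟨i, rfl⟩ := hx
      exact e3 a i
    | zero => exact Finset.sum_eq_zero fun t _ => mul_zero _
    | add x x' _ _ h1 h2 =>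
      have h3 : ∑ t, rp (f a t) n * (x + x') t = ∑ t, rp (f a t) n * x t + ∑ t, rp (f a t) n * x' t := by
        rw [← Finset.sum_add_distrib]
        exact Finset.sum_congr rfl fun t _ => mul_add _ _ _
      rw [h3, h1, h2, add_zero]
    | smul c x _ h1 =>
      have h3 : ∑ t, rp (f a t) n * (c • x) t = c * ∑ t, rp (f a t) n * x t := by
        rw [Finset.mul_sum]
        refine Finset.sum_congr rfl fun t _ => ?_
        rw [Pi.smul_apply, smul_eq_mul]
        ring
      rw [h3, h1, mul_zero]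
  have hAy : Q3_A (mq B n) (fun i t => rp (w i t) n) (fun a t => rp (f a t) n) *ᵥ (fun u => Y u.1 u.2) = 0 := by
    funext e
    rcases e with ⟨a, b⟩ | ⟨a, i⟩
    · rw [Q3_inl, hYB]
      rfl
    · rw [Q3_inr]
      obtain ⟨q, hq, hq2⟩ := hs4 _ (hYW g m W' hs1 hs2 _ (hs3 i))
      have h1 := hsp _ hq2 a
      have h2 : ∑ t, rp (f a t) n * (q • (KSq Y *ᵥ fun t => rp (w i t) n)) t =
          q * ∑ t, rp (f a t) n * (KSq Y *ᵥ fun t => rp (w i t) n) t := by
        rw [Finset.mul_sum]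
        refine Finset.sum_congr rfl fun t _ => ?_
        rw [Pi.smul_apply, smul_eq_mul]
        ring
      rw [h2] at h1
      exact (mul_eq_zero.1 h1).resolve_left hq
  have hfin : rp δ n • (fun u : ι × ι => Y u.1 u.2) = 0 := by
    have h1 : (rp δ n • (1 : Matrix (ι × ι) (ι × ι) (k n)[X])) *ᵥ (fun u : ι × ι => Y u.1 u.2) = 0 := by
      rw [← e1, ← Matrix.mulVec_mulVec, hAy, Matrix.mulVec_zero]
    rw [Matrix.smul_mulVec, Matrix.one_mulVec] at h1
    exact h1
  apply hY0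
  refine Matrix.ext fun c d => ?_
  have h1 := congrFun hfin (c, d)
  exact (mul_eq_zero.1 h1).resolve_left e4

end MPadcEO
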