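import Pool.Agent.Lib.MP_adc574_ag_EO.O13
import Pool.Agent.Lib.MP_adc574_ag_EO.P11
import Pool.Agent.Lib.MP_adc574_ag_OE.S7
import Pool.Agent.Lib.MP_adc574_ag_OE.S9

/-!
# Q4: the generic member: assembly over the ultraproduct (medium+; model: `S7_main`, `exists_HE` in MP_adc574_ag_OE/S7.lean)

PROOF. (1) As in `exists_HE` (MP_adc574_ag_OE/S7.lean: `null_c`, `mono_mem`, `exists_pdat`, `subst`): `S : PDat κ m`, `S.d = d`, `S.G = G`, `S.H = X i₀ ^ S.d`, `hS : S.Ok`, `S.ft = pen i₀ d G = H.F`. As in `S7_main`: `exists_hg`: `nab`, `hG`; `exists_ppB`: `Hr : RegF`, `B`, `rho`, `hP`, `hB`; `infw_morse`, `pk_exists` (`hK`), `bl_pair` (nontrivial), `bl_sign`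
(`B y x = (-1) ^ m * B x y = B x y`: `hsym`), `exists_LB`, `irr_pdat`, `bl_locE` (E5) with `hsym` for `hloc`. `exists_bas` (P10, `hC' = hH.cd.map α`, `α H.h ≠ 0`): `bV`, `bV v = brP (x ^ v)`. `hnd`: `B (bV v) (bV v') = Bil Hr d (x ^ v) (x ^ v')`, `MPadcIS.gram_inj` or `gram_V`.
(2) First claim: `g_ne` (P11). (3) `he'`: `nab_ok` (OE/S9). `hBm`: `gram_ok` (OE/S9): `N` with `α Δ ^ N * B (bV v) (bV v') = α (H.B v v')`.
(4) Flatness: `DK (B (bV v) (bV v')) = B (nab (bV v)) (bV v') + B (bV v) (nab (bV v'))` (`hP.flat`) times `α Δ ^ (N + 1)`: `α Δ * DK (α (B v v')) = N α Δ' α (B v v') + ∑ l, α (G l v) α (B l v') + ∑ l, α (B v l) α (G l v')` (`Derivation.leibniz`, `leibniz_pow`, `DK_poly`; `N = 0` and `N = n + 1`), injectivity of `α`: the matrix identity.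
(5) Last claim: `bigO_of_mo` (O13) with `e = bV`, `Bm = H.B`, `ρ = α Δ ^ N`; `HE.T = H.B.adjugate` (`rfl`).
-/

set_option autoImplicit false

namespace MPadcEO

open MvPolynomial MPadcGM MPadcHM MPadcLZ MPadcBK MPadcOA MPadcOH MPadcOE MPadcBM MPadcBN MPadcPC

/-- the flatness of the Gram matrix -/
private theorem Q4_flat {κ : Type} [Field κ] {Mo : Type} [AddCommGroup Mo] [Module (RatFunc κ) Mo] {nab : Mo →+ Mo}
    (B : Mo →ₗ[RatFunc κ] Mo →ₗ[RatFunc κ] RatFunc κ) (flat : ∀ x y, DK κ (B x y) = B (nab x) y + B x (nab y))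
    {ι : Type} [Fintype ι] [DecidableEq ι] (e : ι → Mo) (Δ : Polynomial κ) (G Bm : Matrix ι ι (Polynomial κ))
    (he : ∀ l, algebraMap (Polynomial κ) (RatFunc κ) Δ • nab (e l) =
      ∑ l', algebraMap (Polynomial κ) (RatFunc κ) (G l' l) • e l') (N : ℕ)
    (hB : ∀ a c, algebraMap (Polynomial κ) (RatFunc κ) Δ ^ N * B (e a) (e c) =
      algebraMap (Polynomial κ) (RatFunc κ) (Bm a c)) :
    Δ • Bm.map Polynomial.derivative =
      ((N : Polynomial κ) * Polynomial.derivative Δ) • Bm + G.transpose * Bm + Bm * G := by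
  ext1 v v'
  apply IsFractionRing.injective (Polynomial κ) (RatFunc κ)
  obtain ⟨D, hD⟩ : ∃ D, D = algebraMap (Polynomial κ) (RatFunc κ) Δ := ⟨_, rfl⟩
  have h1 : DK κ (D ^ N * B (e v) (e v')) =
      D ^ N * (B (nab (e v)) (e v') + B (e v) (nab (e v'))) +
        B (e v) (e v') * (N * D ^ (N - 1) * algebraMap (Polynomial κ) (RatFunc κ) (Polynomial.derivative Δ)) := by
    rw [Derivation.leibniz, Derivation.leibniz_pow, flat, hD, DK_poly]
    simp only [smul_eq_mul, nsmul_eq_mul]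
    ring
  have h2 : D * B (nab (e v)) (e v') = ∑ l, algebraMap (Polynomial κ) (RatFunc κ) (G l v) * B (e l) (e v') := by
    have h := congrArg (fun z => B z (e v')) (he v)
    simp only [map_smul, LinearMap.smul_apply, map_sum, LinearMap.sum_apply, smul_eq_mul] at h
    rw [hD]
    exact h
  have h3 : D * B (e v) (nab (e v')) = ∑ l, algebraMap (Polynomial κ) (RatFunc κ) (G l v') * B (e v) (e l) := by
    have h := congrArg (fun z => B (e v) z) (he v')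
    simp only [map_smul, map_sum, smul_eq_mul] at h
    rw [hD]
    exact h
  have h4 : D * (N * D ^ (N - 1)) = N * D ^ N := by
    rcases N with _ | n
    · simp
    · rw [Nat.add_sub_cancel, pow_succ]
      ring
  rw [← hD] at hB
  rw [hB, DK_poly] at h1
  have h5 : D * algebraMap (Polynomial κ) (RatFunc κ) (Polynomial.derivative (Bm v v')) =
      ∑ l, algebraMap (Polynomial κ) (RatFunc κ) (G l v) * algebraMap (Polynomial κ) (RatFunc κ) (Bm l v') +
        ∑ l, algebraMap (Polynomial κ) (RatFunc κ) (Bm v l) * algebraMap (Polynomial κ) (RatFunc κ) (G l v') +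
        N * algebraMap (Polynomial κ) (RatFunc κ) (Polynomial.derivative Δ) *
          algebraMap (Polynomial κ) (RatFunc κ) (Bm v v') := by
    have h6 : ∑ l, algebraMap (Polynomial κ) (RatFunc κ) (G l v) * algebraMap (Polynomial κ) (RatFunc κ) (Bm l v') =
        D ^ N * (D * B (nab (e v)) (e v')) := by
      rw [h2, Finset.mul_sum]
      refine Finset.sum_congr rfl fun l _ => ?_
      rw [← hB]
      ring
    have h7 : ∑ l, algebraMap (Polynomial κ) (RatFunc κ) (Bm v l) * algebraMap (Polynomial κ) (RatFunc κ) (G l v') =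
        D ^ N * (D * B (e v) (nab (e v'))) := by
      rw [h3, Finset.mul_sum]
      refine Finset.sum_congr rfl fun l _ => ?_
      rw [← hB]
      ring
    rw [h6, h7, h1, ← hB]
    linear_combination (B (e v) (e v') * algebraMap (Polynomial κ) (RatFunc κ) (Polynomial.derivative Δ)) * h4
  simp only [Matrix.smul_apply, Matrix.add_apply, Matrix.map_apply, Matrix.mul_apply, Matrix.transpose_apply,
    smul_eq_mul, map_mul, map_add, map_sum, map_natCast]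
  rw [← hD, h5]
  ring

private theorem Q4_main {κ : Type} [Field κ] [CharZero κ] [IsAlgClosed κ] {m : ℕ} (he : Even m) (i₀ : Fin m)
    (S : PDat κ m) (hS : S.Ok) (hSH : S.H = X i₀ ^ S.d)
    (hG0 : ∀ e : Fin m →₀ ℕ, S.M ≤ dg e → monomial e (1 : κ) ∈
      Ideal.span ({P | ∃ i, i ≠ i₀ ∧ P = pderiv i S.G} ∪ {X i₀}))
    {V : Finset (Fin m →₀ ℕ)} (H : HE κ m V) (hH : H.Ok S.d) (hΔ : H.Δ ≠ 0) (hF : H.F = S.ft)
    (hlow : ∃ v : V, 2 * lvl S.d v.1 < m) :
    (∃ v v' : V, lvl S.d v.1 = lvl S.d v'.1 + 1 ∧ H.G v v' ≠ 0) ∧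
      (∃ N : ℕ, H.Δ • H.B.map Polynomial.derivative =
        ((N : Polynomial κ) * Polynomial.derivative H.Δ) • H.B + H.G.transpose * H.B + H.B * H.G) ∧
      ((∀ (g r : ℕ) (W : Submodule (Polynomial κ) (Kq g V r → Polynomial κ)),
        (∀ q : Polynomial κ, q ≠ 0 → ∀ x : Kq g V r → Polynomial κ, q • x ∈ W → x ∈ W) → (∀ x ∈ W, opq H.Δ H.G x ∈ W) →
          ∃ Y : Matrix V V (Polynomial κ), Y ≠ 0 ∧ Y.transpose * H.B + H.B * Y = 0 ∧ ∀ x ∈ W, (KSq Y).mulVec x ∈ W) →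
        MPadcEO.BigO H.Δ H.G H.T) := by
  classical
  obtain ⟨nab, hG⟩ := exists_hg S hS
  obtain ⟨K, B, rho, hP, hB⟩ := exists_ppB S hS hG
  obtain ⟨s, r₀, g₁, w, W₀, hIW⟩ := MPadcPC.infw_morse S hS i₀ hSH hG0 nab hG
  obtain ⟨k, E, u, al, hK⟩ := pk_exists S hS hG
  obtain ⟨u₁, v₁, hne, -⟩ := bl_pair S hS hP
  have hnt : Nontrivial (PKm S.d S.FK) := by
    refine ⟨⟨brP S.d S.FK (monomial u₁ 1), 0, fun h0 => hne ?_⟩⟩
    rw [h0, map_zero, LinearMap.zero_apply]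
  have hsign : ∀ x y, B y x = (-1) ^ m * B x y := MPadcBN.bl_sign S hS hG hP hIW
  have hsym : ∀ x y, B y x = B x y := by
    intro x y
    rw [hsign, he.neg_one_pow, one_mul]
  obtain ⟨n, b, hb⟩ := exists_LB hK.ld.fg hK.ld.spn
  have irr := irr_pdat S hS hG hP hIW
  have hft : S.FK.IsHomogeneous S.d := by
    have h1 := hH.hom
    rw [hF] at h1
    exact h1.map (algebraMap (Polynomial κ) (RatFunc κ))
  have hC' := hH.cd.map (algebraMap (Polynomial κ) (RatFunc κ))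
  rw [hF] at hC'
  have hh : algebraMap (Polynomial κ) (RatFunc κ) H.h ≠ 0 := by
    refine RatFunc.algebraMap_ne_zero fun h0 => hΔ ?_
    have h1 := hH.hdvd
    rw [h0] at h1
    exact zero_dvd_iff.1 h1
  obtain ⟨bV, hbV⟩ := exists_bas hH.hm hH.hd hft K hC' hh
  have hnab := nab_ok S hG H hH hF bV hbV
  obtain ⟨N, hN⟩ := gram_ok S K hB H hH hF hΔ bV hbV
  refine ⟨g_ne S hS hG K irr i₀ hSH H hH hF hΔ hlow, ⟨N, Q4_flat B hP.flat bV H.Δ H.G H.B hnab N hN⟩, fun hnz => ?_⟩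
  exact bigO_of_mo hG.leib hK.ld.fg hK.ld.spn b hb hIW.ok B hP.flat hsym (fun x hx => nd_left S hS hG hP x hx) irr
    (fun τ => bl_locE S hS hG hK hP hsym b hb τ) bV H.Δ hΔ H.G H.B hnab
    (algebraMap (Polynomial κ) (RatFunc κ) H.Δ ^ N) (pow_ne_zero _ (RatFunc.algebraMap_ne_zero hΔ))
    (fun a c => (hN a c).symm) hnz

theorem bigO_gen {κ : Type} [Field κ] [CharZero κ] [IsAlgClosed κ] {m d : ℕ} (he : Even m) (i₀ : Fin m)
    {V : Finset (Fin m →₀ ℕ)} (H : HE κ m V) (hH : H.Ok d) (hΔ : H.Δ ≠ 0) (G : MvPolynomial (Fin m) κ)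
    (hG : G.IsHomogeneous d) (hM : MorseOver i₀ d G) (hF : H.F = pen i₀ d G) (hlow : ∃ v : V, 2 * lvl d v.1 < m) :
    (∃ v v' : V, lvl d v.1 = lvl d v'.1 + 1 ∧ H.G v v' ≠ 0) ∧
      (∃ N : ℕ, H.Δ • H.B.map Polynomial.derivative =
        ((N : Polynomial κ) * Polynomial.derivative H.Δ) • H.B + H.G.transpose * H.B + H.B * H.G) ∧
      ((∀ (g r : ℕ) (W : Submodule (Polynomial κ) (Kq g V r → Polynomial κ)),
        (∀ q : Polynomial κ, q ≠ 0 → ∀ x : Kq g V r → Polynomial κ, q • x ∈ W → x ∈ W) → (∀ x ∈ W, opq H.Δ H.G x ∈ W) →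
          ∃ Y : Matrix V V (Polynomial κ), Y ≠ 0 ∧ Y.transpose * H.B + H.B * Y = 0 ∧ ∀ x ∈ W, (KSq Y).mulVec x ∈ W) →
        MPadcEO.BigO H.Δ H.G H.T) := by
  have hm : 3 ≤ m := hH.hm
  have hd : 3 ≤ d := hH.hd
  obtain ⟨M₁, hM₁⟩ := null_c (Ideal.span ({P | ∃ i, i ≠ i₀ ∧ P = pderiv i G} ∪ {X i₀})) (fun x hx =>
    hM.1 x (by
      have h1 := hx (X i₀) (Ideal.subset_span (Or.inr rfl))
      rwa [eval_X] at h1) fun i hi => hx _ (Ideal.subset_span (Or.inl ⟨i, hi, rfl⟩)))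
  have hM₀ := mono_mem (by omega : 0 < m) (Ideal.span ({P | ∃ i, i ≠ i₀ ∧ P = pderiv i G} ∪ {X i₀})) M₁ hM₁
  have hHm : Hm d (X i₀ ^ d : MvPolynomial (Fin m) κ) := Hm_iff.2 (isHomogeneous_X_pow (R := κ) i₀ d)
  obtain ⟨S, hSd, hSG, hSH, hSM, hS⟩ := exists_pdat hm hd G (X i₀ ^ d) (Hm_iff.2 hG) hHm hM.2 (m * M₁)
  subst hSd
  refine Q4_main he i₀ S hS hSH (fun e he => ?_) H hH hΔ ?_ hlow
  · rw [hSG]
    exact hM₀ e (hSM.trans he)
  · rw [hF]
    unfold PDat.ft pen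
    rw [hSG, hSH, map_pow, map_X]

end MPadcEO
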