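import Pool.Agent.Lib.MP_adc574_ag_EO.P5
import Pool.Agent.Lib.MP_adc574_ag_EO.P9
import Pool.Agent.Lib.MP_adc574_ag_EO.P9b
import Pool.Agent.Lib.MP_adc574_ag_EO.Q3
import Pool.Agent.Lib.MP_adc574_ag_EO.Q4
import Pool.Agent.Lib.MP_adc574_ag_OE.AtN
import Pool.Agent.Lib.MP_adc574_ag_OE.C1
import Pool.Agent.Lib.MP_adc574_ag_OH.S1
import Pool.Agent.Lib.MP_adc574_ag_PC.N3

/-!
# Q5: big orthogonal monodromy of a sequence of Morse pencils (medium-: assembly)

PROOF. `κ = LL k` is algebraically closed (`MPadcPC.closed_LL`, PC/N3.lean) and of characteristic 0 (`charZero_LL p hp`, see PC/N2.lean, as in MP_adc574_ag_OH/T2.lean). `hom_ultP`, `morse_ult` (OH/S1.lean). `bigO_conv` (OE/C1) and `bigO_gen` (Q4): `v, v'` with `H.G v v' ≠ 0`; `N` with the flatness; it remains `hnz`: `hnz_of` (Q3) with `B = H.B`, so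
`NZ (rp H.Δ n) (mq H.G n) (mq H.B n)` for almost all `n`. For almost all `n`: `AtN` (`hn`), `d * m < p n` (`hp`, and `{n | d * m < n}` is in the filter: `ev_large` or `Filter.eventually_gt_atTop` with `HF ≤ cofinite`, as in OH/T3.lean), `rp (H.G v v') n ≠ 0` (`rp_ne_zero`), and the flatness for the representatives (entrywise by `rp_mul`, `rp_add`, `rp_sum`,
`rp_derivative`, `rp_intCast`; then rewrite `rp H.Δ n = (Hn n).Δ`, `mq H.G n = (Hn n).G`, `mq H.B n = (Hn n).B`). `nz_of` (P5) with `p n`: the hypothesis `hne`: otherwise the `p`-th iterate is zero for all `x`, and `c_zero` (P9), `g_zero` (P9b) give `(Hn n).G v v' = 0`, a contradiction (`mq H.G n v v' = rp (H.G v v') n`, `rfl`).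
-/

set_option autoImplicit false

namespace MPadcEO

open MvPolynomial MPadcGM MPadcHM MPadcLZ MPadcBK MPadcOA MPadcOH MPadcOE

private theorem Q5_nat {k : ℕ → Type} [∀ n, Field (k n)] (N : ℕ) :
    ∀ᶠ n in HF, rp ((N : Polynomial (LL k))) n = (N : Polynomial (k n)) := by
  filter_upwards [rp_intCast (k := k) (N : ℤ)] with n hn
  rw [Int.cast_natCast, Int.cast_natCast] at hn
  exact hn

/-- the flatness for the representatives -/
private theorem Q5_flat {k : ℕ → Type} [∀ n, Field (k n)] {ι : Type} [Fintype ι] (Δ : Polynomial (LL k))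
    (G B : Matrix ι ι (Polynomial (LL k))) (N : ℕ)
    (h : Δ • B.map Polynomial.derivative =
      ((N : Polynomial (LL k)) * Polynomial.derivative Δ) • B + G.transpose * B + B * G) :
    ∀ᶠ n in HF, rp Δ n • (mq B n).map Polynomial.derivative =
      ((N : Polynomial (k n)) * Polynomial.derivative (rp Δ n)) • mq B n + (mq G n).transpose * mq B n +
        mq B n * mq G n := by
  have h0 : ∀ i j, Δ * Polynomial.derivative (B i j) = (N : Polynomial (LL k)) * Polynomial.derivative Δ * B i j +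
      ∑ l, G l i * B l j + ∑ l, B i l * G l j := fun i j => congrFun (congrFun h i) j
  have h1 : ∀ᶠ n in HF, ∀ i j, rp Δ n * Polynomial.derivative (rp (B i j) n) =
      (N : Polynomial (k n)) * Polynomial.derivative (rp Δ n) * rp (B i j) n +
        ∑ l, rp (G l i) n * rp (B l j) n + ∑ l, rp (B i l) n * rp (G l j) n := by
    refine Filter.eventually_all.2 fun i => Filter.eventually_all.2 fun j => ?_
    have a5 : ∀ᶠ n in HF, ∀ l, rp (G l i * B l j) n = rp (G l i) n * rp (B l j) n :=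
      Filter.eventually_all.2 fun l => rp_mul _ _
    have a6 : ∀ᶠ n in HF, ∀ l, rp (B i l * G l j) n = rp (B i l) n * rp (G l j) n :=
      Filter.eventually_all.2 fun l => rp_mul _ _
    filter_upwards [rp_mul Δ (Polynomial.derivative (B i j)), rp_derivative (B i j),
      rp_add ((N : Polynomial (LL k)) * Polynomial.derivative Δ * B i j + ∑ l, G l i * B l j) (∑ l, B i l * G l j),
      rp_add ((N : Polynomial (LL k)) * Polynomial.derivative Δ * B i j) (∑ l, G l i * B l j),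
      rp_mul ((N : Polynomial (LL k)) * Polynomial.derivative Δ) (B i j),
      rp_mul (N : Polynomial (LL k)) (Polynomial.derivative Δ), Q5_nat (k := k) N, rp_derivative Δ,
      rp_sum Finset.univ (fun l => G l i * B l j), rp_sum Finset.univ (fun l => B i l * G l j), a5, a6]
      with n e1 e2 e3 e4 e5 e6 e7 e8 e9 e10 e11 e12
    rw [← e2, ← e1, h0 i j, e3, e4, e5, e6, e7, e8, e9, e10, Finset.sum_congr rfl fun l _ => e11 l,
      Finset.sum_congr rfl fun l _ => e12 l]
  filter_upwards [h1] with n hn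
  refine Matrix.ext fun i j => ?_
  exact hn i j

theorem bigO_seq {m d : ℕ} (hm : 4 ≤ m) (he : Even m) (hd : 3 ≤ d) (i₀ : Fin m) (k : ℕ → Type) [∀ n, Field (k n)]
    [∀ n, IsAlgClosed (k n)] (p : ℕ → ℕ) [∀ n, Fact (p n).Prime] [∀ n, CharP (k n) (p n)] (hp : ∀ n, n ≤ p n)
    (G : ∀ n, MvPolynomial (Fin m) (k n)) (hG : ∀ n, (G n).IsHomogeneous d) (hM : ∀ n, MorseOver i₀ d (G n))
    {V : Finset (Fin m →₀ ℕ)} (H : HE (LL k) m V) (Hn : ∀ n, HE (k n) m V) (c : ℕ) (hH : H.Ok d)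
    (hF : H.F = pen i₀ d (ultP d G)) (hΔ : H.Δ ≠ 0) (hn : ∀ᶠ n in HF, AtN (d := d) i₀ G H Hn c n)
    (hlow : ∃ v : V, 2 * lvl d v.1 < m) : MPadcOE.BigO H.Δ H.G H.T := by
  classical
  have : CharZero (LL k) := charZero_LL p hp
  have : IsAlgClosed (LL k) := MPadcPC.closed_LL
  obtain ⟨⟨v, v', hvv, hGne⟩, ⟨N, hflat⟩, hbig⟩ :=
    bigO_gen he i₀ H hH hΔ (ultP d G) (hom_ultP G hG) (morse_ult i₀ G hG hM) hF hlow
  refine bigO_conv (hbig fun g r W hsat hst => hnz_of H.Δ H.G H.B ?_ g r W hsat hst)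
  filter_upwards [hn, ev_large p hp (d * m), rp_ne_zero hGne, Q5_flat H.Δ H.G H.B N hflat] with n h1 h2 h3 h4
  obtain ⟨g1, g2, g3, g4, g5, g6, -⟩ := h1
  rw [g4, g5, g6] at h4
  rw [g4, g5, g6]
  refine nz_of (p n) g3 N h4 ?_
  by_contra hcon
  have hcon' : ∀ x : V → RatFunc (k n), (nc (fun y => DK (k n) y) (mdK (Hn n).Δ (Hn n).G))^[p n] x = 0 := by
    intro x
    by_contra hx
    exact hcon ⟨x, hx⟩
  have h5 := g_zero (Hn n) g1 g3 i₀ (G n) g2
    (fun v v' hv => c_zero (p n) (Hn n) g1 g3 h2 i₀ (G n) g2 hcon' v v' hv) v v' hvv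
  apply h3
  have h6 : mq H.G n v v' = rp (H.G v v') n := rfl
  rw [← h6, g5]
  exact h5

end MPadcEO
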